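import Pool.Agent.Lib.BV.SpecA

/-!
MP_a260de_nt, package CN (many Carmichael numbers), module Bdc: the number of primitive characters for
which the sum over a set of small primes is large (large sieve for the `j`-th power of the sum).
-/

set_option autoImplicit false

namespace Pool.Agent.Lib.MP_a260de_nt.CN

open Finset

/-- the primitive characters with conductor in `[2, Q]` for which the sum over `S` is at least
`θ |S|` in absolute value -/
noncomputable def badc (S : Finset ℕ) (θ : ℝ) (Q : ℕ) : Finset (Σ q : ℕ, DirichletCharacter ℂ q) :=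
  open Classical in
  (Icc 2 Q).sigma fun q => (BV.prim q).filter fun χ => θ * S.card ≤ ‖∑ p ∈ S, χ (p : ZMod q)‖

private lemma tuples_le (j n : ℕ) (S : Finset ℕ) (hS : ∀ p ∈ S, p.Prime) :
    ((Fintype.piFinset fun _ : Fin j => S).filter (fun f => ∏ i, f i = n)).card ≤ j.factorial := by
  classical
  rcases ((Fintype.piFinset fun _ : Fin j => S).filter
    (fun f => ∏ i, f i = n)).eq_empty_or_nonempty with h | ⟨f0, hf0⟩
  · rw [h]; simp
  · have hperm : ∀ f ∈ (Fintype.piFinset fun _ : Fin j => S).filter (fun f => ∏ i, f i = n),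
        (List.ofFn f).Perm n.primeFactorsList := by
      intro f hf
      rw [mem_filter, Fintype.mem_piFinset] at hf
      apply Nat.primeFactorsList_unique
      · rw [List.prod_ofFn]; exact hf.2
      · intro p hp
        rw [List.mem_ofFn] at hp
        obtain ⟨i, rfl⟩ := hp
        exact hS _ (hf.1 i)
    have hlen : n.primeFactorsList.length = j := by
      rw [← (hperm f0 hf0).length_eq, List.length_ofFn]
    calc _ ≤ (n.primeFactorsList.permutations.toFinset).card := by
          refine card_le_card_of_injOn (fun f => List.ofFn f) ?_ ?_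
          · intro f hf
            simp only [List.coe_toFinset, Set.mem_ofPred_eq, List.mem_permutations]
            exact hperm f (mem_coe.1 hf)
          · intro f _ g _ hfg
            exact List.ofFn_injective hfg
      _ ≤ n.primeFactorsList.permutations.length := List.toFinset_card_le _
      _ = j.factorial := by rw [List.length_permutations, hlen]

/-- Bad characters: moment bound. -/
theorem bdc (hL : BV.LsmStmt) (S : Finset ℕ) (z : ℕ) (hS : ∀ p ∈ S, p.Prime ∧ p ≤ z) (j Q : ℕ)
    (hQ : 1 ≤ Q) (θ : ℝ) (hθ : 0 ≤ θ) :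
    ((badc S θ Q).card : ℝ) * (θ ^ (2 * j) * (S.card : ℝ) ^ j) ≤
      20 * ((z : ℝ) ^ j + (Q : ℝ) ^ 2) * j.factorial := by
  classical
  set T := Fintype.piFinset fun _ : Fin j => S with hT
  set N := z ^ j with hN
  set a : ℕ → ℂ := fun n => ((T.filter (fun f => ∏ i, f i = n)).card : ℂ) with ha
  have hTc : T.card = S.card ^ j := by
    rw [hT, Fintype.card_piFinset]; simp
  have hmem : ∀ f ∈ T, ∏ i, f i ∈ Icc 1 N := by
    intro f hf
    rw [hT, Fintype.mem_piFinset] at hf
    rw [mem_Icc]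
    constructor
    · exact Nat.one_le_iff_ne_zero.2 (prod_ne_zero_iff.2 fun i _ => (hS _ (hf i)).1.ne_zero)
    · calc ∏ i, f i ≤ ∏ _i : Fin j, z := prod_le_prod' fun i _ => (hS _ (hf i)).2
        _ = N := by simp [hN]
  -- the power of the sum as a sum over n
  have hpow : ∀ (q : ℕ) (χ : DirichletCharacter ℂ q),
      ∑ n ∈ Icc 1 N, a n * χ (n : ZMod q) = (∑ p ∈ S, χ (p : ZMod q)) ^ j := by
    intro q χ
    have h1 : (∑ p ∈ S, χ (p : ZMod q)) ^ j = ∑ f ∈ T, χ ((∏ i, f i : ℕ) : ZMod q) := by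
      have := prod_univ_sum (fun _ : Fin j => S) (fun _ p => χ (p : ZMod q))
      rw [prod_const, card_univ, Fintype.card_fin] at this
      rw [this]
      refine sum_congr rfl fun f _ => ?_
      rw [Nat.cast_prod, map_prod]
    rw [h1, ← sum_fiberwise_of_maps_to hmem]
    refine sum_congr rfl fun n _ => ?_
    have h2 : ∀ f ∈ T.filter (fun f => ∏ i, f i = n), χ ((∏ i, f i : ℕ) : ZMod q) =
        χ (n : ZMod q) := by
      intro f hf
      rw [(mem_filter.1 hf).2]
    rw [sum_congr rfl h2, sum_const, nsmul_eq_mul]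
  -- the mean square of the coefficients
  have hsq : ∑ n ∈ Icc 1 N, ‖a n‖ ^ 2 ≤ (j.factorial : ℝ) * (S.card : ℝ) ^ j := by
    have h1 : ∀ n ∈ Icc 1 N, ‖a n‖ ^ 2 ≤
        (j.factorial : ℝ) * ((T.filter (fun f => ∏ i, f i = n)).card : ℝ) := by
      intro n _
      have h2 := tuples_le j n S (fun p hp => (hS p hp).1)
      have h3 : ((T.filter (fun f => ∏ i, f i = n)).card : ℝ) ≤ j.factorial := by
        exact_mod_cast h2
      rw [ha]
      simp only [Complex.norm_natCast]
      rw [sq]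
      exact mul_le_mul_of_nonneg_right h3 (Nat.cast_nonneg _)
    refine (sum_le_sum h1).trans ?_
    rw [← mul_sum]
    refine mul_le_mul_of_nonneg_left ?_ (Nat.cast_nonneg _)
    have h4 : ∑ n ∈ Icc 1 N, (T.filter (fun f => ∏ i, f i = n)).card = T.card := by
      rw [← card_eq_sum_card_fiberwise hmem]
    have h5 : ∑ n ∈ Icc 1 N, ((T.filter (fun f => ∏ i, f i = n)).card : ℝ) = (S.card : ℝ) ^ j := by
      rw [← Nat.cast_sum, h4, hTc, Nat.cast_pow]
    exact h5.le
  have hls := hL Q N a hQ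
  have h20 : 20 * ((N : ℝ) + (Q : ℝ) ^ 2) * ∑ n ∈ Icc 1 N, ‖a n‖ ^ 2 ≤
      20 * ((z : ℝ) ^ j + (Q : ℝ) ^ 2) * (j.factorial * (S.card : ℝ) ^ j) := by
    have : (N : ℝ) = (z : ℝ) ^ j := by rw [hN]; push_cast; rfl
    rw [this]
    exact mul_le_mul_of_nonneg_left hsq (by positivity)
  -- lower bound for the large sieve sum
  have hlow : ((badc S θ Q).card : ℝ) * (θ * S.card) ^ (2 * j) ≤
      ∑ q ∈ Icc 2 Q, (q : ℝ) / (q.totient : ℝ) *
        ∑ χ ∈ BV.prim q, ‖∑ n ∈ Icc 1 N, a n * χ (n : ZMod q)‖ ^ 2 := by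
    have hcard : ((badc S θ Q).card : ℝ) * (θ * S.card) ^ (2 * j) =
        ∑ q ∈ Icc 2 Q, ∑ χ ∈ (BV.prim q).filter
          (fun χ => θ * S.card ≤ ‖∑ p ∈ S, χ (p : ZMod q)‖), (θ * S.card) ^ (2 * j) := by
      rw [badc, card_sigma, Nat.cast_sum, sum_mul]
      refine sum_congr rfl fun q _ => ?_
      rw [sum_const, nsmul_eq_mul]
    rw [hcard]
    refine sum_le_sum fun q hq => ?_
    have hq2 : 2 ≤ q := (mem_Icc.1 hq).1
    have hφ : (0 : ℝ) < q.totient := by
      exact_mod_cast Nat.totient_pos.2 (by omega)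
    have hqφ : (1 : ℝ) ≤ (q : ℝ) / (q.totient : ℝ) := by
      rw [le_div_iff₀ hφ, one_mul]
      exact_mod_cast Nat.totient_le q
    have hnn : 0 ≤ ∑ χ ∈ BV.prim q, ‖∑ n ∈ Icc 1 N, a n * χ (n : ZMod q)‖ ^ 2 :=
      sum_nonneg fun _ _ => sq_nonneg _
    refine le_trans ?_ (le_mul_of_one_le_left hnn hqφ)
    refine (sum_le_sum fun χ hχ => ?_).trans
      (sum_le_sum_of_subset_of_nonneg (filter_subset _ _) fun _ _ _ => sq_nonneg _)
    rw [hpow, norm_pow, ← pow_mul, mul_comm j 2]
    exact pow_le_pow_left₀ (by positivity) (mem_filter.1 hχ).2 _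
  have hall := (hlow.trans hls).trans h20
  rcases S.eq_empty_or_nonempty with hE | hE
  · subst hE
    rcases Nat.eq_zero_or_pos j with hj | hj
    · subst hj
      simpa using hall
    · have : ((∅ : Finset ℕ).card : ℝ) ^ j = 0 := by simp [hj.ne']
      rw [this]
      simp only [mul_zero]
      positivity
  · have hc : (0 : ℝ) < (S.card : ℝ) ^ j := by
      have : 0 < S.card := card_pos.2 hE
      positivity
    refine le_of_mul_le_mul_right ?_ hc
    calc ((badc S θ Q).card : ℝ) * (θ ^ (2 * j) * (S.card : ℝ) ^ j) * (S.card : ℝ) ^ j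
        = ((badc S θ Q).card : ℝ) * (θ * S.card) ^ (2 * j) := by ring
      _ ≤ _ := hall
      _ = 20 * ((z : ℝ) ^ j + (Q : ℝ) ^ 2) * j.factorial * (S.card : ℝ) ^ j := by ring

end Pool.Agent.Lib.MP_a260de_nt.CN
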