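import Pool.Agent.Lib.MP_a260de_nt.CN.Defs

/-!
MP_a260de_nt, PROJECT CN: top level interface (helper74). The parts:
S_A (smooth shifted primes, part A), S_Main (part B+M, helper5), S_Bad (part C), S_Union (part U),
S_Pop, S_Count (part G+D), S_Kor (Korselt), S_Cx (general theorem), S_Fin (final theorem).
-/

namespace Pool.Agent.Lib.MP_a260de_nt.CN

open Finset

/-- Part A. Bombieri-Vinogradov and Selberg's sieve; (2/0.415) log(1/0.83) = 0.898 < 1. -/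
def S_A : Prop := ShiftedSmooth ((415 : ℝ) / 1000)

/-- Part B+M (note 3800 (1)-(4), mail 43430 of helper5, variant V3).
Bombieri-Vinogradov as a black box + Brun's pure sieve for the primes r in classes mod f ≤ y^A3; large
sieve for the set of the r; thinning of M; third moment. -/
def S_Main : Prop :=
  ∀ C : ℝ, 2 < C → ∃ KM : ℝ, 0 < KM ∧ ∀ ε δ K : ℝ, 0 < ε → 0 < δ → δ ≤ 1 → 1 ≤ K →
    ∃ (A : ℝ) (y0 : ℕ), 0 < A ∧ ∀ (y : ℕ) (S0 : Finset ℕ), y0 ≤ y →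
      (∀ p ∈ S0, p.Prime ∧ y < p ∧ (p : ℝ) ≤ (y : ℝ) ^ C ∧ Smooth y (p - 1)) →
      ((y : ℝ) ^ C) ^ (1 - ε) ≤ (S0.card : ℝ) →
      ∃ (M : ℕ) (S : Finset ℕ), 1 ≤ M ∧ (M : ℝ) ≤ Real.exp (KM * y) ∧ Smooth y M ∧ S ⊆ S0 ∧
        (∀ p ∈ S, p - 1 ∣ M) ∧ ((y : ℝ) ^ C) ^ (1 - 12 * ε) ≤ (S.card : ℝ) ∧
        ∀ c : ℕ, c.Coprime M →
          (RR y δ : ℝ) ^ 3 / (M * (y : ℝ) ^ A) ≤ ((trip M (RR y δ) (WW y K) c).card : ℝ)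

/-- Part C. Large sieve for the j-th power of the character sum, z^j in [Q^2, z Q^2]. -/
def S_Bad : Prop :=
  ∀ C ε δ κ : ℝ, 2 < C → 0 < ε → 0 < δ → 2 * (1 + δ) / C + 2 * ε < κ → ∃ y0 : ℕ,
    ∀ (y : ℕ) (S : Finset ℕ), y0 ≤ y → (∀ p ∈ S, p.Prime ∧ (p : ℝ) ≤ (y : ℝ) ^ C) →
      ((y : ℝ) ^ C) ^ (1 - ε) ≤ (S.card : ℝ) →
      ∀ Q : ℕ, Real.exp y ≤ (Q : ℝ) → (Q : ℝ) ≤ Real.exp (4 * (y : ℝ) ^ (1 + δ)) →
        (nbad S Q : ℝ) ≤ (Q : ℝ) ^ κ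

/-- Part U. Union bound: a triple which no bad character with conductor not dividing M can spoil.
(spoiled triples of one bad ψ of conductor c1 c2: at most 3^ω(c2) R^3/c2; 3^ω(c2) ≤ c2^((1-κ)/2) since all primes of
c2 are > W; sum over dyadic D ≥ W/2 of (2MD)^κ (2D)^((1-κ)/2)/D.) -/
def S_Union : Prop :=
  ∀ δ κ KM K A : ℝ, 0 < δ → 0 < κ → κ < 1 → 0 < KM → 0 < A → 8 * KM / (1 - κ) + 1 ≤ K → ∃ y0 : ℕ,
    ∀ (y M c : ℕ) (S : Finset ℕ), y0 ≤ y → 1 ≤ M → (M : ℝ) ≤ Real.exp (KM * y) →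
      (∀ Q : ℕ, Real.exp y ≤ (Q : ℝ) → (Q : ℝ) ≤ Real.exp (4 * (y : ℝ) ^ (1 + δ)) →
        (nbad S Q : ℝ) ≤ (Q : ℝ) ^ κ) →
      ∀ T : Finset (ℕ × ℕ × ℕ), T ⊆ trip M (RR y δ) (WW y K) c →
      (RR y δ : ℝ) ^ 3 / (M * (y : ℝ) ^ A) ≤ (T.card : ℝ) →
      ∃ r ∈ T, ∀ (q : ℕ) (χ : DirichletCharacter ℂ q), 1 ≤ q →
        Bad S χ → q ∣ M * lam M r → q ∣ M

/-- Part V (helper74). The triples which contain a prime of a small set E are few: for r1 in E and given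
r2 the prime r3 is in one class mod M. -/
def S_Excl : Prop :=
  ∀ (M R W c e : ℕ) (E : Finset ℕ), 1 ≤ M → M ≤ R → c.Coprime M → E.card ≤ e →
    (((trip M R W c).filter (fun r => r.1 ∈ E ∨ r.2.1 ∈ E ∨ r.2.2 ∈ E)).card : ℝ) ≤
      6 * (e : ℝ) * (R : ℝ) ^ 2 / M

/-- Part G. A most popular class. -/
def S_Pop : Prop :=
  ∀ (M t : ℕ) (S : Finset ℕ), 1 ≤ M → (∀ p ∈ S, p.Coprime M) → t ≤ S.card →
    ∃ g : ℕ, g.Coprime M ∧ (S.card.choose t : ℝ) ≤ (M : ℝ) * (cnt M S t g : ℝ)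

/-- Part D. If no bad character for S has conductor dividing M Λ but not M, then the t-subsets in the
class g mod M are equidistributed mod Λ. -/
def S_Count : Prop :=
  ∀ (M Λ t g c : ℕ) (S : Finset ℕ), 1 ≤ M → 1 ≤ Λ → M.Coprime Λ → 1 ≤ t → 100 * t ≤ S.card →
    (∀ p ∈ S, p.Coprime (M * Λ)) → 2 * M * Λ ≤ 2 ^ t → g.Coprime M → c.Coprime (M * Λ) →
    c ≡ g [MOD M] → (S.card.choose t : ℝ) ≤ (M : ℝ) * (cnt M S t g : ℝ) →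
    (∀ (q : ℕ) (χ : DirichletCharacter ℂ q), 1 ≤ q → Bad S χ → q ∣ M * Λ → q ∣ M) →
    (S.card.choose t : ℝ) ≤ 2 * (M : ℝ) * Λ * (cnt (M * Λ) S t c : ℝ)

/-- Korselt, for the numbers of the construction. -/
def S_Kor : Prop :=
  ∀ (M : ℕ) (r : ℕ × ℕ × ℕ) (A : Finset ℕ), 1 ≤ M → r.1.Prime → r.2.1.Prime → r.2.2.Prime →
    r.1 ≠ r.2.1 → r.1 ≠ r.2.2 → r.2.1 ≠ r.2.2 → (rho M r.1).Coprime M → (rho M r.2.1).Coprime M →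
    (rho M r.2.2).Coprime M → (∀ p ∈ A, p.Prime ∧ p - 1 ∣ M) → r.1 ∉ A → r.2.1 ∉ A → r.2.2 ∉ A →
    r.1 * r.2.1 * r.2.2 * ∏ p ∈ A, p ≡ 1 [MOD M * lam M r] →
    Carm (r.1 * r.2.1 * r.2.2 * ∏ p ∈ A, p)

open Classical in
/-- the number of Carmichael numbers n ≤ x coprime to m all of whose prime factors are > (log x)^2 -/
noncomputable def carmCnt (m : ℕ) (x : ℝ) : ℕ :=
  ((Icc 1 ⌊x⌋₊).filter (fun n => Carm n ∧ n.Coprime m ∧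
    ∀ q : ℕ, q.Prime → q ∣ n → Real.log x ^ 2 < (q : ℝ))).card

/-- The general theorem (uniform in m ≤ x). Uses: Main, Bad, Union, Excl, Pop, Count, Kor. S0 = the primes p in
(z^(1-η), z] with y-smooth p - 1, z = y^C, which do not divide m; T = the triples in trip without a
prime dividing m. -/
def S_Cx : Prop :=
  ∀ β : ℝ, 0 < β → β < 1 / 2 → ShiftedSmooth β → ∀ ε : ℝ, 0 < ε → ∃ x0 : ℝ, ∀ x : ℝ, x0 ≤ x →
    ∀ m : ℕ, 1 ≤ m → (m : ℝ) ≤ x → x ^ (1 - β - ε) ≤ (carmCnt m x : ℝ)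

open Classical in
/-- the number of Carmichael numbers n ≤ x with n ∣ a^(n-1) - 1 all of whose prime factors are
> (log x)^2 -/
noncomputable def pspCount (a : ℤ) (x : ℝ) : ℕ :=
  ((Icc 1 ⌊x⌋₊).filter (fun n : ℕ => Carm n ∧ (n : ℤ) ∣ a ^ (n - 1) - 1 ∧
    ∀ q : ℕ, q.Prime → q ∣ n → Real.log x ^ 2 < (q : ℝ))).card

/-- The general theorem for pseudoprimes, uniform in the base (helper74). Uses: Cx. -/
def S_Gen : Prop :=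
  ∀ β : ℝ, 0 < β → β < 1 / 2 → ShiftedSmooth β → ∀ ε : ℝ, 0 < ε → ∃ x0 : ℝ, ∀ x : ℝ, x0 ≤ x →
    ∀ a : ℤ, a ≠ 0 → (|a| : ℝ) ≤ x → x ^ (1 - β - ε) ≤ (pspCount a x : ℝ)

/-- The final theorem (helper74). Uses: A, Gen. -/
def S_Fin : Prop :=
  ∃ x0 : ℝ, ∀ x : ℝ, x0 ≤ x → ∀ a : ℤ, a ≠ 0 → (|a| : ℝ) ≤ x → x ^ ((7 : ℝ) / 12) ≤ (pspCount a x : ℝ)

end Pool.Agent.Lib.MP_a260de_nt.CN
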