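import Pool.Agent.Lib.BV.Lsm
import Pool.Agent.Lib.BV.Far
import Pool.Agent.Lib.BV.Gau
import Pool.Agent.Lib.BV.Ort
import Pool.Agent.Lib.MP_a260de_nt.CN.Bdc
import Pool.Agent.Lib.MP_a260de_nt.CN.Top

/-!
MP_a260de_nt, PROJECT CN, part C (helper10): the number of bad primitive characters of conductor at most
Q is at most Q^κ, κ > 2(1+δ)/C + 2ε. Uses the moment bound bdc (helper14, Bdc.lean) with z^j about Q^2.
-/

namespace Pool.Agent.Lib.MP_a260de_nt.CN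

open Finset Filter

private lemma BadC_ev (g B : ℝ) (hg : 0 < g) (hB : 0 ≤ B) :
    ∃ y0 : ℕ, ∀ y : ℕ, y0 ≤ y → 1 ≤ y ∧ 8 ≤ Real.log y ∧ 10 ≤ g * Real.log y ∧
      9 + B * Real.log y ≤ g / 2 * y := by
  have h1 : ∀ᶠ y : ℝ in atTop, max 8 (10 / g) ≤ Real.log y :=
    Real.tendsto_log_atTop.eventually_ge_atTop _
  have h2 : ∀ᶠ y : ℝ in atTop, ‖Real.log y‖ ≤ (g / (4 * (B + 1))) * ‖y‖ :=
    (Real.isLittleO_log_id_atTop.def (by positivity : (0:ℝ) < g / (4 * (B + 1))))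
  have h3 : ∀ᶠ y : ℝ in atTop, 36 / g ≤ y := eventually_ge_atTop _
  have h4 : ∀ᶠ y : ℝ in atTop, (1 : ℝ) ≤ y := eventually_ge_atTop _
  have hall := tendsto_natCast_atTop_atTop.eventually ((h1.and h2).and (h3.and h4))
  obtain ⟨y0, hy0⟩ := eventually_atTop.1 hall
  refine ⟨y0, fun y hy => ?_⟩
  obtain ⟨⟨a1, a2⟩, a3, a4⟩ := hy0 y hy
  have b0 : 1 ≤ y := by exact_mod_cast a4
  have b1 : 8 ≤ Real.log y := (le_max_left _ _).trans a1
  have b2 : 10 ≤ g * Real.log y := by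
    have := (div_le_iff₀ hg).1 ((le_max_right _ _).trans a1)
    linarith
  have b3 : Real.log y ≤ (g / (4 * (B + 1))) * y := by
    rw [Real.norm_eq_abs, Real.norm_eq_abs, abs_of_nonneg (Real.log_nonneg a4),
      abs_of_nonneg (by linarith)] at a2
    exact a2
  have b4 : 36 ≤ g * y := by
    have := (div_le_iff₀ hg).1 a3
    linarith
  have b5 : B * Real.log y ≤ g / 4 * y := by
    have h5 : B * Real.log y ≤ B * ((g / (4 * (B + 1))) * y) := mul_le_mul_of_nonneg_left b3 hB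
    have h6 : B * ((g / (4 * (B + 1))) * y) ≤ (B + 1) * ((g / (4 * (B + 1))) * y) := by
      refine mul_le_mul_of_nonneg_right (by linarith) ?_
      have : (0 : ℝ) ≤ y := Nat.cast_nonneg _
      positivity
    have h7 : (B + 1) * ((g / (4 * (B + 1))) * y) = g / 4 * y := by
      field_simp
    linarith
  exact ⟨b0, b1, b2, by linarith⟩

/-- the real inequality at the end -/
private lemma BadC_real {C ε δ κ Ly LQ jr y : ℝ} (hC : 2 < C) (hε : 0 < ε) (hδ : 0 < δ)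
    (hLy : 8 ≤ Ly) (hgL : 10 ≤ (κ - (2 * (1 + δ) / C + 2 * ε)) * Ly)
    (hj : jr ≤ 2 * LQ / (C * Ly) + 1) (hLQ : 0 < LQ) (hy : y ≤ LQ)
    (hκ : 0 < κ - (2 * (1 + δ) / C + 2 * ε))
    (hg : 9 + (1 + δ + ε * C) * Ly ≤ (κ - (2 * (1 + δ) / C + 2 * ε)) / 2 * y) :
    4 + jr * (5 + (1 + δ) * Ly + ε * (C * Ly)) ≤ κ * LQ := by
  have hC0 : (0 : ℝ) < C := by linarith
  have hL0 : (0 : ℝ) < Ly := by linarith
  set g := κ - (2 * (1 + δ) / C + 2 * ε) with hgd
  have h3 : jr * (5 + (1 + δ) * Ly + ε * (C * Ly)) ≤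
      (2 * LQ / (C * Ly) + 1) * (5 + (1 + δ) * Ly + ε * (C * Ly)) :=
    mul_le_mul_of_nonneg_right hj (by positivity)
  have e1 : (2 * LQ / (C * Ly) + 1) * (5 + (1 + δ) * Ly + ε * (C * Ly)) =
      (2 * (1 + δ) / C + 2 * ε) * LQ + 10 / (C * Ly) * LQ + (5 + (1 + δ + ε * C) * Ly) := by
    field_simp
    ring
  have h4 : 10 / (C * Ly) ≤ g / 2 := by
    rw [div_le_iff₀ (by positivity)]
    nlinarith
  have h5 : 10 / (C * Ly) * LQ ≤ g / 2 * LQ := mul_le_mul_of_nonneg_right h4 hLQ.le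
  have h6 : g / 2 * y ≤ g / 2 * LQ := mul_le_mul_of_nonneg_left hy (by linarith)
  have e2 : κ * LQ = (2 * (1 + δ) / C + 2 * ε) * LQ + g * LQ := by rw [hgd]; ring
  rw [e2]
  linarith

private lemma nbad_le (S : Finset ℕ) (Q : ℕ) : nbad S Q ≤ (badc S (1 / 8) Q).card := by
  classical
  rw [nbad, badc, card_sigma]
  refine sum_le_sum fun q _ => card_le_card ?_
  intro χ hχ
  rw [mem_filter] at hχ ⊢
  have h := hχ.2
  refine ⟨?_, ?_⟩
  · rw [BV.prim, mem_filter]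
    exact ⟨mem_univ _, h.1⟩
  · have h2 := h.2
    rw [chs] at h2
    linarith

theorem t_Bad : S_Bad := by
  intro C ε δ κ hC hε hδ hκ
  have hC0 : (0 : ℝ) < C := by linarith
  have hg : 0 < κ - (2 * (1 + δ) / C + 2 * ε) := by linarith
  obtain ⟨y0, hy0⟩ := BadC_ev _ (1 + δ + ε * C) hg (by positivity)
  refine ⟨y0, fun y S hy hS hcard Q hQ1 hQ2 => ?_⟩
  obtain ⟨y1, y2, y3, y4⟩ := hy0 y hy
  set Ly := Real.log y with hLy
  have hyr : (1 : ℝ) ≤ y := by exact_mod_cast y1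
  have hypos : (0 : ℝ) < y := by linarith
  set Z : ℝ := (y : ℝ) ^ C with hZ
  have hZpos : 0 < Z := Real.rpow_pos_of_pos hypos C
  have hLZ : Real.log Z = C * Ly := by rw [hZ, Real.log_rpow hypos]
  have hlog64 : Real.log 64 ≤ 5 := by
    have e : (64 : ℝ) = 2 ^ 6 := by norm_num
    rw [e, Real.log_pow]
    have := Real.log_two_lt_d9
    norm_num
    linarith
  have hlog40 : Real.log 40 ≤ 4 := by
    have e : Real.log 40 ≤ Real.log (Real.exp 4) := by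
      refine Real.log_le_log (by norm_num) ?_
      have h1 : Real.exp 4 = Real.exp 1 ^ 4 := by
        rw [← Real.exp_nat_mul]; norm_num
      have h2 := Real.exp_one_gt_d9
      rw [h1]
      have h3 : (2.7 : ℝ) ^ 4 ≤ Real.exp 1 ^ 4 := by
        gcongr; linarith
      have h4 : (40 : ℝ) ≤ 2.7 ^ 4 := by norm_num
      linarith
    rwa [Real.log_exp] at e
  have hQpos : (0 : ℝ) < Q := lt_of_lt_of_le (Real.exp_pos _) hQ1
  set LQ := Real.log Q with hLQ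
  have hLQ1 : (y : ℝ) ≤ LQ := by
    have := Real.log_le_log (Real.exp_pos _) hQ1
    rwa [Real.log_exp] at this
  have hLQ2 : LQ ≤ 4 * (y : ℝ) ^ (1 + δ) := by
    have := Real.log_le_log hQpos hQ2
    rwa [Real.log_exp] at this
  have hLQ0 : 0 < LQ := by linarith
  have hCL : 16 < C * Ly := by nlinarith
  set j : ℕ := ⌈2 * LQ / (C * Ly)⌉₊ with hj
  have hj1 : 1 ≤ j := Nat.one_le_iff_ne_zero.2 (Nat.ceil_pos.2 (by positivity)).ne'
  have hj2 : (j : ℝ) ≤ 2 * LQ / (C * Ly) + 1 := (Nat.ceil_lt_add_one (by positivity)).le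
  have hj3 : 2 * LQ ≤ j * (C * Ly) := by
    have := Nat.le_ceil (2 * LQ / (C * Ly))
    rwa [div_le_iff₀ (by linarith)] at this
  have hzj : (Q : ℝ) ^ 2 ≤ Z ^ j := by
    have e1 : (Q : ℝ) ^ 2 = Real.exp (2 * LQ) := by
      rw [two_mul, Real.exp_add, Real.exp_log hQpos]; ring
    have e2 : Z ^ j = Real.exp (j * (C * Ly)) := by
      rw [Real.exp_nat_mul, ← hLZ, Real.exp_log hZpos]
    rw [e1, e2]
    exact Real.exp_le_exp.2 hj3
  have hypow : 2 ≤ (y : ℝ) ^ (1 + δ) := by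
    have h2 : (2 : ℝ) ≤ y := by
      by_contra hcon
      push Not at hcon
      have h1 : Ly ≤ Real.log 2 := Real.log_le_log hypos hcon.le
      have := Real.log_two_lt_d9
      linarith
    have h1 : (y : ℝ) ^ (1 : ℝ) ≤ (y : ℝ) ^ (1 + δ) :=
      Real.rpow_le_rpow_of_exponent_le hyr (by linarith)
    rw [Real.rpow_one] at h1
    linarith
  have hjy : (j : ℝ) ≤ (y : ℝ) ^ (1 + δ) := by
    have h1 : 2 * LQ / (C * Ly) ≤ 2 * LQ / 16 := by
      apply div_le_div_of_nonneg_left (by linarith) (by norm_num) hCL.le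
    linarith
  have hjpos : (0 : ℝ) < j := by exact_mod_cast hj1
  have hlogj : Real.log j ≤ (1 + δ) * Ly := by
    have := Real.log_le_log hjpos hjy
    rwa [Real.log_rpow hypos] at this
  have hQ1' : 1 ≤ Q := by
    rcases Nat.eq_zero_or_pos Q with h0 | h0
    · rw [h0] at hQpos; simp at hQpos
    · exact h0
  have hLsm : BV.LsmStmt := BV.tLsm BV.tFar BV.tGau BV.tOrt
  have hS' : ∀ p ∈ S, p.Prime ∧ p ≤ ⌊Z⌋₊ := fun p hp => ⟨(hS p hp).1, Nat.le_floor (hS p hp).2⟩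
  have hb := bdc hLsm S ⌊Z⌋₊ hS' j Q hQ1' (1 / 8) (by norm_num)
  have hzZ : ((⌊Z⌋₊ : ℕ) : ℝ) ^ j ≤ Z ^ j :=
    pow_le_pow_left₀ (Nat.cast_nonneg _) (Nat.floor_le hZpos.le) j
  have hfac : (j.factorial : ℝ) ≤ (j : ℝ) ^ j := by exact_mod_cast Nat.factorial_le_pow j
  have hc1 : (Z ^ (1 - ε)) ^ j ≤ (S.card : ℝ) ^ j :=
    pow_le_pow_left₀ (Real.rpow_nonneg hZpos.le _) hcard j
  have hmain : (nbad S Q : ℝ) * ((1 / 8) ^ (2 * j) * (Z ^ (1 - ε)) ^ j) ≤
      40 * Z ^ j * (j : ℝ) ^ j := by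
    have hN : (nbad S Q : ℝ) ≤ ((badc S (1 / 8) Q).card : ℝ) := by exact_mod_cast nbad_le S Q
    refine le_trans ?_ (hb.trans ?_)
    · gcongr
    · have h1 : 20 * (((⌊Z⌋₊ : ℕ) : ℝ) ^ j + (Q : ℝ) ^ 2) ≤ 40 * Z ^ j := by linarith
      exact mul_le_mul h1 hfac (by positivity) (by positivity)
  have e1 : (1 / 8 : ℝ) ^ (2 * j) * (Z ^ (1 - ε)) ^ j =
      Real.exp (-(j * Real.log 64) + j * ((1 - ε) * (C * Ly))) := by
    rw [Real.exp_add, Real.exp_nat_mul, pow_mul]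
    congr 1
    · rw [← mul_neg, Real.exp_nat_mul, Real.exp_neg, Real.exp_log (by norm_num)]
      norm_num
    · rw [Real.rpow_def_of_pos hZpos, hLZ, mul_comm (C * Ly)]
  have e2 : 40 * Z ^ j * (j : ℝ) ^ j =
      Real.exp (Real.log 40 + j * (C * Ly) + j * Real.log j) := by
    rw [Real.exp_add, Real.exp_add, Real.exp_nat_mul, Real.exp_nat_mul, ← hLZ, Real.exp_log hZpos,
      Real.exp_log hjpos, Real.exp_log (by norm_num)]
  rw [e1, e2] at hmain
  have hfin : (nbad S Q : ℝ) ≤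
      Real.exp (Real.log 40 + j * (Real.log 64 + Real.log j + ε * (C * Ly))) := by
    have h1 : (nbad S Q : ℝ) ≤ Real.exp (Real.log 40 + j * (C * Ly) + j * Real.log j) /
        Real.exp (-(j * Real.log 64) + j * ((1 - ε) * (C * Ly))) := by
      rw [le_div_iff₀ (Real.exp_pos _)]; exact hmain
    rw [← Real.exp_sub] at h1
    refine h1.trans (Real.exp_le_exp.2 (le_of_eq ?_))
    ring
  refine hfin.trans ?_
  rw [Real.rpow_def_of_pos hQpos]
  refine Real.exp_le_exp.2 ?_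
  have hsum : Real.log 64 + Real.log j + ε * (C * Ly) ≤ 5 + (1 + δ) * Ly + ε * (C * Ly) := by
    linarith
  have h1 : (j : ℝ) * (Real.log 64 + Real.log j + ε * (C * Ly)) ≤
      j * (5 + (1 + δ) * Ly + ε * (C * Ly)) :=
    mul_le_mul_of_nonneg_left hsum hjpos.le
  have h2 := BadC_real (κ := κ) hC hε hδ y2 y3 hj2 hLQ0 hLQ1 hg y4
  rw [mul_comm (Real.log (Q : ℝ))]
  linarith

end Pool.Agent.Lib.MP_a260de_nt.CN
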