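import Pool.Agent.Lib.MP_a260de_nt.CN.Kor

/-!
MP_a260de_nt, PROJECT CN: from one good triple to many Carmichael numbers (helper43).
-/

namespace Pool.Agent.Lib.MP_a260de_nt.CN

open Finset

lemma Core_rho_pos {M r : ℕ} (hr : r.Prime) : 1 ≤ rho M r := by
  have h1 : 0 < r - 1 := by have := hr.two_le; omega
  exact Nat.div_pos (Nat.le_of_dvd h1 (Nat.gcd_dvd_left _ _)) (Nat.gcd_pos_of_pos_left _ h1)

lemma Core_rho_dvd (M r : ℕ) : rho M r ∣ r - 1 :=
  Nat.div_dvd_of_dvd (Nat.gcd_dvd_left _ _)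

lemma Core_rho_le {M r R : ℕ} (hr : r.Prime) (h : r ≤ R) : rho M r ≤ R := by
  have h1 : 0 < r - 1 := by have := hr.two_le; omega
  have := Nat.le_of_dvd h1 (Core_rho_dvd M r)
  omega

lemma Core_lam_dvd (M : ℕ) (r : ℕ × ℕ × ℕ) :
    lam M r ∣ rho M r.1 * (rho M r.2.1 * rho M r.2.2) :=
  (Nat.lcm_dvd_mul _ _).trans (Nat.mul_dvd_mul_left _ (Nat.lcm_dvd_mul _ _))

/-- an auxiliary prime does not divide the rho of an auxiliary prime -/
lemma Core_ndvd {M R a b : ℕ} (hR : 6 ≤ R) (ha : a.Prime) (hb : b.Prime) (ha2 : R < 2 * a)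
    (hb1 : b ≤ R) : ¬ a ∣ rho M b := by
  intro h
  have h1 := h.trans (Core_rho_dvd M b)
  obtain ⟨k, hk⟩ := h1
  have hb2 := hb.two_le
  have ha3 : 3 < a := by omega
  have hk1 : k = 1 := by
    rcases Nat.lt_or_ge k 2 with h2 | h2
    · have : k ≠ 0 := by rintro rfl; omega
      omega
    · have : a * 2 ≤ a * k := Nat.mul_le_mul_left _ h2
      omega
  rw [hk1, mul_one] at hk
  have ho : a % 2 = 1 := Nat.odd_iff.1 (ha.odd_of_ne_two (by omega))
  have hb4 : 4 < b := by omega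
  have ho2 : b % 2 = 1 := Nat.odd_iff.1 (hb.odd_of_ne_two (by omega))
  omega

/-- From one triple to many Carmichael numbers. -/
theorem core (hP : S_Pop) (hC : S_Count) (hK : S_Kor) {M R W t m : ℕ} {S : Finset ℕ} {x zz : ℝ}
    (hM : 1 ≤ M) (hR : 6 ≤ R) (hMR : ∀ q : ℕ, q.Prime → q ∣ M → 2 * q ≤ R)
    (hS : ∀ p ∈ S, p.Prime ∧ p - 1 ∣ M ∧ p.Coprime M ∧ p.Coprime m ∧ p ≤ W ∧ 2 * p ≤ R ∧
      Real.log x ^ 2 < (p : ℝ) ∧ (p : ℝ) ≤ zz)
    (ht : 1 ≤ t) (htS : 100 * t ≤ S.card) (h2 : 2 * M * R ^ 3 ≤ 2 ^ t)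
    (hx : (R : ℝ) ^ 3 * zz ^ t ≤ x) (hZR : 2 * Real.log x ^ 2 < (R : ℝ))
    (hun : ∀ c : ℕ, c.Coprime M → ∃ r ∈ trip M R W c,
      (r.1.Coprime m ∧ r.2.1.Coprime m ∧ r.2.2.Coprime m) ∧
      ∀ (q : ℕ) (χ : DirichletCharacter ℂ q), 1 ≤ q → Bad S χ → q ∣ M * lam M r → q ∣ M) :
    (S.card.choose t : ℝ) ≤ 2 * (M : ℝ) * (R : ℝ) ^ 3 * (carmCnt m x : ℝ) := by
  classical
  obtain ⟨g, hg, hgc⟩ := hP M t S hM (fun p hp => (hS p hp).2.2.1) (by omega)
  -- the inverse class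
  have hφ : 1 ≤ M.totient := Nat.totient_pos.2 hM
  set c : ℕ := g ^ (M.totient - 1) with hc
  have hcc : c.Coprime M := Nat.Coprime.pow_left _ hg
  have hgc1 : g * c ≡ 1 [MOD M] := by
    have : g * c = g ^ M.totient := by
      rw [hc, ← pow_succ', Nat.sub_add_cancel hφ]
    rw [this]; exact Nat.ModEq.pow_totient hg
  obtain ⟨r, hr, ⟨m1, m2, m3⟩, hbad⟩ := hun c hcc
  rw [trip, Finset.mem_filter] at hr
  obtain ⟨-, G1, G2, G3, d12, d13, d23, hrc⟩ := hr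
  obtain ⟨p1, l1, u1, c1, w1⟩ := G1
  obtain ⟨p2, l2, u2, c2, w2⟩ := G2
  obtain ⟨p3, l3, u3, c3, w3⟩ := G3
  set Λ : ℕ := lam M r with hΛ
  have hΛd : Λ ∣ rho M r.1 * (rho M r.2.1 * rho M r.2.2) := Core_lam_dvd M r
  have hpos : 0 < rho M r.1 * (rho M r.2.1 * rho M r.2.2) :=
    Nat.mul_pos (Core_rho_pos p1) (Nat.mul_pos (Core_rho_pos p2) (Core_rho_pos p3))
  have hΛ1 : 1 ≤ Λ := Nat.pos_of_dvd_of_pos hΛd hpos
  have hΛR : Λ ≤ R ^ 3 := by
    refine (Nat.le_of_dvd hpos hΛd).trans ?_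
    calc rho M r.1 * (rho M r.2.1 * rho M r.2.2) ≤ R * (R * R) :=
          Nat.mul_le_mul (Core_rho_le p1 u1) (Nat.mul_le_mul (Core_rho_le p2 u2) (Core_rho_le p3 u3))
      _ = R ^ 3 := by ring
  have hprodc : (rho M r.1 * (rho M r.2.1 * rho M r.2.2)).Coprime M :=
    Nat.Coprime.mul_left c1 (Nat.Coprime.mul_left c2 c3)
  have hMΛ : M.Coprime Λ := (Nat.Coprime.coprime_dvd_left hΛd hprodc).symm
  -- primes of S are prime to Λ
  have hpr : ∀ q : ℕ, q.Prime → q ∣ Λ → q ∣ rho M r.1 ∨ q ∣ rho M r.2.1 ∨ q ∣ rho M r.2.2 := by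
    intro q hq hd
    rcases (Nat.Prime.dvd_mul hq).1 (hd.trans hΛd) with h | h
    · exact Or.inl h
    · exact Or.inr ((Nat.Prime.dvd_mul hq).1 h)
  have hSΛ : ∀ p ∈ S, p.Coprime (M * Λ) := by
    intro p hp
    obtain ⟨hpp, -, hpM, -, hpW, -⟩ := hS p hp
    refine Nat.Coprime.mul_right hpM ((Nat.Prime.coprime_iff_not_dvd hpp).2 fun hd => ?_)
    rcases hpr p hpp hd with h | h | h
    · exact absurd (w1 p hpp h) (by omega)
    · exact absurd (w2 p hpp h) (by omega)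
    · exact absurd (w3 p hpp h) (by omega)
  -- the auxiliary primes are prime to M Λ
  have haux : ∀ a : ℕ, a.Prime → R < 2 * a → a.Coprime (M * Λ) := by
    intro a ha ha2
    refine Nat.Coprime.mul_right ((Nat.Prime.coprime_iff_not_dvd ha).2 fun hd => ?_)
      ((Nat.Prime.coprime_iff_not_dvd ha).2 fun hd => ?_)
    · have := hMR a ha hd; omega
    · rcases hpr a ha hd with h | h | h
      · exact Core_ndvd hR ha p1 ha2 u1 h
      · exact Core_ndvd hR ha p2 ha2 u2 h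
      · exact Core_ndvd hR ha p3 ha2 u3 h
  set ρ : ℕ := r.1 * r.2.1 * r.2.2 with hρ
  have hρL : ρ.Coprime (M * Λ) :=
    Nat.Coprime.mul_left (Nat.Coprime.mul_left (haux _ p1 l1) (haux _ p2 l2)) (haux _ p3 l3)
  have hL : 1 ≤ M * Λ := Nat.mul_pos hM hΛ1
  have hφL : 1 ≤ (M * Λ).totient := Nat.totient_pos.2 hL
  set c' : ℕ := ρ ^ ((M * Λ).totient - 1) with hc'
  have hcc' : c'.Coprime (M * Λ) := Nat.Coprime.pow_left _ hρL
  have hρc : ρ * c' ≡ 1 [MOD M * Λ] := by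
    have : ρ * c' = ρ ^ (M * Λ).totient := by
      rw [hc', ← pow_succ', Nat.sub_add_cancel hφL]
    rw [this]; exact Nat.ModEq.pow_totient hρL
  have hcg : c' ≡ g [MOD M] := by
    have e1 : ρ * c' ≡ 1 [MOD M] := hρc.of_mul_right Λ
    have e2 : c * c' ≡ 1 [MOD M] := (Nat.ModEq.mul_right c' hrc.symm).trans e1
    calc c' = 1 * c' := (one_mul _).symm
      _ ≡ g * c * c' [MOD M] := (Nat.ModEq.mul_right c' hgc1.symm)
      _ = g * (c * c') := by ring
      _ ≡ g * 1 [MOD M] := Nat.ModEq.mul_left g e2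
      _ = g := mul_one g
  have h2' : 2 * M * Λ ≤ 2 ^ t := (Nat.mul_le_mul_left _ hΛR).trans h2
  have hcount := hC M Λ t g c' S hM hΛ1 hMΛ ht htS hSΛ h2' hg hcc' hcg hgc hbad
  -- injection
  have hinj : cnt (M * Λ) S t c' ≤ carmCnt m x := by
    rw [cnt, carmCnt]
    have hρpos : 0 < ρ := Nat.mul_pos (Nat.mul_pos p1.pos p2.pos) p3.pos
    refine Finset.card_le_card_of_injOn (fun A => ρ * ∏ p ∈ A, p) ?_ ?_
    · intro A hA
      simp only [Finset.coe_filter, Finset.mem_powersetCard, Set.mem_ofPred_eq] at hA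
      obtain ⟨⟨hAS, hAt⟩, hAc⟩ := hA
      have hAp : ∀ p ∈ A, p.Prime := fun p hp => (hS p (hAS hp)).1
      have hnA : ∀ a : ℕ, R < 2 * a → a ∉ A := by
        intro a ha haA
        have := (hS a (hAS haA)).2.2.2.2.2.1
        omega
      have hmod : ρ * ∏ p ∈ A, p ≡ 1 [MOD M * Λ] := (Nat.ModEq.mul_left ρ hAc).trans hρc
      have hcarm : Carm (ρ * ∏ p ∈ A, p) :=
        hK M r A hM p1 p2 p3 d12 d13 d23 c1 c2 c3
          (fun p hp => ⟨hAp p hp, (hS p (hAS hp)).2.1⟩) (hnA _ l1) (hnA _ l2) (hnA _ l3) hmod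
      have hle : ((ρ * ∏ p ∈ A, p : ℕ) : ℝ) ≤ x := by
        refine le_trans ?_ hx
        push_cast
        refine mul_le_mul ?_ ?_ (Finset.prod_nonneg fun _ _ => Nat.cast_nonneg _) (by positivity)
        · have : ρ ≤ R ^ 3 := by
            calc ρ ≤ R * R * R := Nat.mul_le_mul (Nat.mul_le_mul u1 u2) u3
              _ = R ^ 3 := by ring
          exact_mod_cast this
        · rw [← hAt, ← Finset.prod_const]
          exact Finset.prod_le_prod (fun _ _ => Nat.cast_nonneg _)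
            (fun p hp => (hS p (hAS hp)).2.2.2.2.2.2.2)
      have hpp : 0 < ρ * ∏ p ∈ A, p := Nat.mul_pos hρpos (Finset.prod_pos fun p hp => (hAp p hp).pos)
      simp only [Finset.coe_filter, Finset.mem_Icc, Set.mem_ofPred_eq]
      refine ⟨⟨hpp, Nat.le_floor hle⟩, hcarm, ?_, ?_⟩
      · refine Nat.Coprime.mul_left (Nat.Coprime.mul_left (Nat.Coprime.mul_left m1 m2) m3) ?_
        exact Nat.Coprime.prod_left fun p hp => (hS p (hAS hp)).2.2.2.1
      · intro q hq hqd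
        have hbig : ∀ a : ℕ, R < 2 * a → Real.log x ^ 2 < (a : ℝ) := by
          intro a ha
          have : (R : ℝ) < 2 * a := by exact_mod_cast ha
          linarith
        rcases (Nat.Prime.dvd_mul hq).1 hqd with h | h
        · rcases (Nat.Prime.dvd_mul hq).1 h with h | h
          · rcases (Nat.Prime.dvd_mul hq).1 h with h | h
            · rw [(Nat.prime_dvd_prime_iff_eq hq p1).1 h]; exact hbig _ l1
            · rw [(Nat.prime_dvd_prime_iff_eq hq p2).1 h]; exact hbig _ l2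
          · rw [(Nat.prime_dvd_prime_iff_eq hq p3).1 h]; exact hbig _ l3
        · have := mem_of_prime_dvd_prod A hAp hq h
          exact (hS q (hAS this)).2.2.2.2.2.2.1
    · intro A hA B hB hAB
      simp only [Finset.coe_filter, Finset.mem_powersetCard, Set.mem_ofPred_eq] at hA hB
      have hAp : ∀ p ∈ A, p.Prime := fun p hp => (hS p (hA.1.1 hp)).1
      have hBp : ∀ p ∈ B, p.Prime := fun p hp => (hS p (hB.1.1 hp)).1
      have hAB' : ∏ p ∈ A, p = ∏ p ∈ B, p := Nat.eq_of_mul_eq_mul_left hρpos hAB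
      have e : ∀ T U : Finset ℕ, (∀ p ∈ T, p.Prime) → (∀ p ∈ U, p.Prime) →
          ∏ p ∈ T, p = ∏ p ∈ U, p → T ⊆ U := by
        intro T U hT hU h p hp
        refine mem_of_prime_dvd_prod U hU (hT p hp) ?_
        rw [← h]; exact Finset.dvd_prod_of_mem _ hp
      exact Finset.Subset.antisymm (e A B hAp hBp hAB') (e B A hBp hAp hAB'.symm)
  calc (S.card.choose t : ℝ) ≤ 2 * (M : ℝ) * Λ * (cnt (M * Λ) S t c' : ℝ) := hcount
    _ ≤ 2 * (M : ℝ) * (R : ℝ) ^ 3 * (carmCnt m x : ℝ) := by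
        have e1 : (Λ : ℝ) ≤ (R : ℝ) ^ 3 := by exact_mod_cast hΛR
        have e2 : (cnt (M * Λ) S t c' : ℝ) ≤ (carmCnt m x : ℝ) := by exact_mod_cast hinj
        gcongr

end Pool.Agent.Lib.MP_a260de_nt.CN
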