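import Mathlib

/-!
MP_a260de_nt, PROJECT CN, step D: bound for the elementary symmetric polynomials of numbers in the
unit disc with small sum (helper43).
-/

open Finset Polynomial

namespace Pool.Agent.Lib.MP_a260de_nt.CN

lemma iterDeriv_eval (P : ℂ[X]) (k : ℕ) :
    iteratedDeriv k (fun z => P.eval z) = fun z => (derivative^[k] P).eval z := by
  induction k generalizing P with
  | zero => simp
  | succ k ih =>
    rw [iteratedDeriv_succ', Function.iterate_succ_apply]
    have : deriv (fun z => P.eval z) = fun z => (derivative P).eval z := by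
      funext z; exact Polynomial.deriv P
    rw [this, ih]

/-- Cauchy estimate for the coefficients of a polynomial. -/
lemma coeff_bound (P : ℂ[X]) (k : ℕ) {u C : ℝ} (hu : 0 < u)
    (hC : ∀ z : ℂ, ‖z‖ = u → ‖P.eval z‖ ≤ C) : ‖P.coeff k‖ ≤ C / u ^ k := by
  have h := Complex.norm_iteratedDeriv_le_of_forall_mem_sphere_norm_le (c := 0) (R := u) (C := C)
    (f := fun z => P.eval z) k hu (P.differentiable.diffContOnCl)
    (fun z hz => hC z (by simpa using hz))
  rw [iterDeriv_eval] at h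
  have e : (derivative^[k] P).eval 0 = (k.factorial : ℂ) * P.coeff k := by
    rw [← coeff_zero_eq_eval_zero, coeff_iterate_derivative]
    simp [Nat.descFactorial_self]
  simp only [e, norm_mul, Complex.norm_natCast] at h
  have hk : (0 : ℝ) < k.factorial := by exact_mod_cast k.factorial_pos
  rw [mul_div_assoc] at h
  exact le_of_mul_le_mul_left h hk

variable {ι : Type*} [DecidableEq ι]

/-- the elementary symmetric polynomial -/
noncomputable def es (S : Finset ι) (a : ι → ℂ) (t : ℕ) : ℂ :=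
  ∑ A ∈ S.powersetCard t, ∏ i ∈ A, a i

omit [DecidableEq ι] in
lemma es_eq_coeff (S : Finset ι) (a : ι → ℂ) (t : ℕ) :
    es S a t = (∏ i ∈ S, (1 + C (a i) * X)).coeff t := by
  rw [Finset.prod_one_add, finsetSum_coeff]
  have h1 : ∀ A ∈ S.powerset, (∏ i ∈ A, (C (a i) * X : ℂ[X])).coeff t =
      if A.card = t then ∏ i ∈ A, a i else 0 := by
    intro A _
    rw [Finset.prod_mul_distrib, Finset.prod_const, ← map_prod, coeff_C_mul, coeff_X_pow]
    by_cases h : A.card = t
    · simp [h]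
    · simp [h, Ne.symm h]
  rw [Finset.sum_congr rfl h1, ← Finset.sum_filter, es, Finset.powersetCard_eq_filter]

lemma norm_one_add_le (v : ℂ) : ‖1 + v‖ ≤ Real.exp (v.re + ‖v‖ ^ 2 / 2) := by
  have h : ‖1 + v‖ ^ 2 ≤ Real.exp (v.re + ‖v‖ ^ 2 / 2) ^ 2 := by
    rw [← Real.exp_nat_mul]
    have h1 : ‖1 + v‖ ^ 2 = 1 + (2 * v.re + ‖v‖ ^ 2) := by
      rw [← Complex.normSq_eq_norm_sq, ← Complex.normSq_eq_norm_sq, Complex.normSq_apply,
        Complex.normSq_apply]
      simp; ring
    rw [h1]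
    have := Real.add_one_le_exp (2 * v.re + ‖v‖ ^ 2)
    push_cast
    have e : (2 : ℝ) * (v.re + ‖v‖ ^ 2 / 2) = 2 * v.re + ‖v‖ ^ 2 := by ring
    rw [e]; linarith
  exact le_of_sq_le_sq h (Real.exp_nonneg _) |> fun h => h

/-- bound for the elementary symmetric polynomials of numbers in the unit disc with small sum -/
theorem es_le (S : Finset ι) (a : ι → ℂ) (ha : ∀ i ∈ S, ‖a i‖ ≤ 1) (t : ℕ) {u : ℝ} (hu : 0 < u) :
    ‖es S a t‖ ≤ Real.exp (u * ‖∑ i ∈ S, a i‖ + u ^ 2 * S.card / 2) / u ^ t := by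
  rw [es_eq_coeff]
  refine coeff_bound _ _ hu fun z hz => ?_
  rw [eval_prod, norm_prod]
  have h1 : ∀ i ∈ S, ‖(1 + C (a i) * X : ℂ[X]).eval z‖ ≤
      Real.exp ((a i * z).re + u ^ 2 / 2) := by
    intro i hi
    have e : (1 + C (a i) * X : ℂ[X]).eval z = 1 + a i * z := by simp
    rw [e]
    refine (norm_one_add_le _).trans (Real.exp_le_exp.2 ?_)
    have : ‖a i * z‖ ^ 2 ≤ u ^ 2 := by
      rw [norm_mul, hz]
      have := ha i hi
      have h0 := norm_nonneg (a i)
      have : ‖a i‖ * u ≤ u := by nlinarith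
      have h2 : 0 ≤ ‖a i‖ * u := by positivity
      nlinarith
    linarith
  refine (Finset.prod_le_prod (fun i _ => norm_nonneg _) h1).trans ?_
  rw [← Real.exp_sum]
  refine Real.exp_le_exp.2 ?_
  rw [Finset.sum_add_distrib, Finset.sum_const, nsmul_eq_mul]
  have h2 : ∑ i ∈ S, (a i * z).re = ((∑ i ∈ S, a i) * z).re := by
    rw [Finset.sum_mul, Complex.re_sum]
  rw [h2]
  have h3 : ((∑ i ∈ S, a i) * z).re ≤ ‖∑ i ∈ S, a i‖ * u := by
    refine (Complex.re_le_norm _).trans ?_
    rw [norm_mul, hz]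
  nlinarith

/-- `(n/t)^t ≤ C(n,t)` -/
lemma pow_le_choose_mul {n t : ℕ} (h : t ≤ n) : n ^ t ≤ n.choose t * t ^ t := by
  have h1 : n ^ t * t.factorial ≤ n.descFactorial t * t ^ t := by
    have e1 : t.factorial = ∏ i ∈ range t, (t - i) := by
      rw [← Nat.descFactorial_eq_prod_range, Nat.descFactorial_self]
    have e2 : n ^ t = ∏ _i ∈ range t, n := by simp
    have e3 : t ^ t = ∏ _i ∈ range t, t := by simp
    rw [Nat.descFactorial_eq_prod_range, e1, e2]
    conv_rhs => rw [e3]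
    rw [← Finset.prod_mul_distrib, ← Finset.prod_mul_distrib]
    refine Finset.prod_le_prod' fun i hi => ?_
    have hi' : i < t := Finset.mem_range.1 hi
    obtain ⟨m, rfl⟩ := Nat.exists_eq_add_of_lt hi'
    obtain ⟨k, rfl⟩ := Nat.exists_eq_add_of_le h
    have a1 : i + m + 1 - i = m + 1 := by omega
    have a2 : i + m + 1 + k - i = m + 1 + k := by omega
    rw [a1, a2]
    nlinarith [Nat.zero_le (i * k), Nat.zero_le (k * m)]
  rw [Nat.descFactorial_eq_factorial_mul_choose] at h1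
  have h2 : t.factorial * n ^ t ≤ t.factorial * (n.choose t * t ^ t) := by
    calc t.factorial * n ^ t = n ^ t * t.factorial := mul_comm _ _
      _ ≤ t.factorial * n.choose t * t ^ t := h1
      _ = t.factorial * (n.choose t * t ^ t) := by ring
  exact Nat.le_of_mul_le_mul_left h2 t.factorial_pos

lemma exp_132 : Real.exp (1.32 : ℝ) ≤ 4 := by
  have h1 : Real.exp (1.32 : ℝ) = Real.exp 1 * Real.exp 0.32 := by
    rw [← Real.exp_add]; norm_num
  have h2 : Real.exp 1 < 2.7182818286 := Real.exp_one_lt_d9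
  have h3 : Real.exp (0.32 : ℝ) ≤ 1.3775 := by
    have := Real.exp_bound' (x := 0.32) (by norm_num) (by norm_num) (n := 5) (by norm_num)
    refine this.trans ?_
    norm_num [Finset.sum_range_succ, Nat.factorial]
  rw [h1]
  have h4 := Real.exp_pos (0.32 : ℝ)
  nlinarith

/-- small character sum: the elementary symmetric polynomial is small -/
theorem es_small (S : Finset ι) (a : ι → ℂ) (ha : ∀ i ∈ S, ‖a i‖ ≤ 1) (t : ℕ) (ht : 1 ≤ t)
    (htS : 100 * t ≤ S.card) (hs : ‖∑ i ∈ S, a i‖ ≤ S.card / 8) :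
    ‖es S a t‖ ≤ (S.card.choose t : ℝ) / 2 ^ t := by
  have ht0 : (0 : ℝ) < t := by exact_mod_cast ht
  have hS0 : (0 : ℝ) < S.card := by
    have : 0 < S.card := by omega
    exact_mod_cast this
  have hu : (0 : ℝ) < 8 * t / S.card := by positivity
  refine (es_le S a ha t hu).trans ?_
  have h1 : 8 * (t : ℝ) / S.card * ‖∑ i ∈ S, a i‖ + (8 * (t : ℝ) / S.card) ^ 2 * S.card / 2 ≤
      t * 1.32 := by
    have e1 : 8 * (t : ℝ) / S.card * ‖∑ i ∈ S, a i‖ ≤ 8 * (t : ℝ) / S.card * (S.card / 8) :=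
      mul_le_mul_of_nonneg_left hs hu.le
    have e2 : 8 * (t : ℝ) / S.card * (S.card / 8) = t := by field_simp
    have e3 : (8 * (t : ℝ) / S.card) ^ 2 * S.card / 2 = 32 * (t / S.card) * t := by
      field_simp; ring
    have e4 : (t : ℝ) / S.card ≤ 1 / 100 := by
      rw [div_le_div_iff₀ hS0 (by norm_num)]
      have : ((100 * t : ℕ) : ℝ) ≤ S.card := by exact_mod_cast htS
      push_cast at this; linarith
    rw [e3]
    nlinarith
  have h2 : Real.exp (8 * (t : ℝ) / S.card * ‖∑ i ∈ S, a i‖ +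
      (8 * (t : ℝ) / S.card) ^ 2 * S.card / 2) ≤ 4 ^ t := by
    refine (Real.exp_le_exp.2 h1).trans ?_
    rw [Real.exp_nat_mul]
    exact pow_le_pow_left₀ (Real.exp_nonneg _) exp_132 t
  have h3 : ((S.card : ℝ)) ^ t ≤ (S.card.choose t : ℝ) * (t : ℝ) ^ t := by
    exact_mod_cast pow_le_choose_mul (n := S.card) (t := t) (by omega)
  calc _ ≤ (4 : ℝ) ^ t / (8 * t / S.card) ^ t :=
        div_le_div_of_nonneg_right h2 (by positivity)
    _ = (S.card : ℝ) ^ t / (t : ℝ) ^ t / 2 ^ t := by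
        rw [div_pow, mul_pow]
        have : (8 : ℝ) ^ t = 4 ^ t * 2 ^ t := by rw [← mul_pow]; norm_num
        rw [this]; field_simp
    _ ≤ _ := by
        refine div_le_div_of_nonneg_right ?_ (by positivity)
        rw [div_le_iff₀ (by positivity)]
        exact h3

end Pool.Agent.Lib.MP_a260de_nt.CN
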