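import Pool.Agent.Lib.MP_a260de_nt.CN.CxS
import Pool.Agent.Lib.MP_a260de_nt.CN.Core
import Pool.Agent.Lib.MP_a260de_nt.CN.Es

/-!
MP_a260de_nt, PROJECT CN: the assembly `S_Cx` (helper43).
-/

open Filter Finset

namespace Pool.Agent.Lib.MP_a260de_nt.CN

/-- The last real inequality. -/
lemma Cx_final {a X KMy u t Lg c2 M R n b : ℝ} {T : ℕ} (hT : t = T) (hn : 0 < n) (ht : 0 < t)
    (hM : M ≤ Real.exp KMy) (hR : R ^ 3 ≤ Real.exp u) (hR0 : 0 < R ^ 3)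
    (hL : Lg ≤ Real.log n) (hb : n ^ T ≤ b * t ^ T) (hc2 : 0 ≤ c2)
    (hmain : b ≤ 2 * M * R ^ 3 * c2)
    (hin : a * X + (Real.log 2 + KMy + u) ≤ t * (Lg - Real.log t)) :
    Real.exp (a * X) ≤ c2 := by
  have h1 : Real.exp (a * X + (Real.log 2 + KMy + u)) ≤ Real.exp (t * (Real.log n - Real.log t)) := by
    refine Real.exp_le_exp.2 (hin.trans (mul_le_mul_of_nonneg_left (by linarith) ht.le))
  have h2 : Real.exp (t * (Real.log n - Real.log t)) = n ^ T / t ^ T := by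
    rw [← Real.log_div hn.ne' ht.ne', ← div_pow, ← Real.rpow_natCast (n / t) T, ← hT,
      Real.rpow_def_of_pos (div_pos hn ht), mul_comm]
  have h3 : n ^ T / t ^ T ≤ b := by
    rw [div_le_iff₀ (by positivity)]; exact hb
  have h4 : Real.exp (a * X + (Real.log 2 + KMy + u)) =
      Real.exp (a * X) * (2 * Real.exp KMy * Real.exp u) := by
    rw [Real.exp_add, Real.exp_add, Real.exp_add, Real.exp_log (by norm_num)]
  have h5 : 2 * M * R ^ 3 * c2 ≤ 2 * Real.exp KMy * Real.exp u * c2 := by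
    refine mul_le_mul_of_nonneg_right ?_ hc2
    exact mul_le_mul (by linarith) hR hR0.le (by positivity)
  have h6 : Real.exp (a * X) * (2 * Real.exp KMy * Real.exp u) ≤
      c2 * (2 * Real.exp KMy * Real.exp u) := by
    rw [← h4]
    calc _ ≤ _ := h1
      _ = _ := h2
      _ ≤ _ := h3
      _ ≤ _ := hmain
      _ ≤ _ := h5
      _ = _ := by ring
  exact le_of_mul_le_mul_right h6 (by positivity)

/-- the triples without a prime dividing `m` -/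
lemma Cx_T {M R W c m : ℕ} {y A : ℝ} (hE : S_Excl) (hM : 1 ≤ M) (hMR : M ≤ R)
    (hc : c.Coprime M) (hy : 2 ≤ y) (he : (m.primeFactors.card : ℝ) ≤ y ^ ((3 : ℝ) / 2))
    (hR : 12 * y ^ (2 + A) ≤ (R : ℝ)) (h : (R : ℝ) ^ 3 / (M * y ^ A) ≤ ((trip M R W c).card : ℝ)) :
    (R : ℝ) ^ 3 / (M * y ^ (A + 1)) ≤ (((trip M R W c).filter (fun r =>
      ¬ (r.1 ∈ m.primeFactors ∨ r.2.1 ∈ m.primeFactors ∨ r.2.2 ∈ m.primeFactors))).card : ℝ) := by
  classical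
  have h1 := hE M R W c m.primeFactors.card m.primeFactors hM hMR hc le_rfl
  have h2 := Finset.card_filter_add_card_filter_not (s := trip M R W c) (fun r =>
    r.1 ∈ m.primeFactors ∨ r.2.1 ∈ m.primeFactors ∨ r.2.2 ∈ m.primeFactors)
  have h3 : (((trip M R W c).filter (fun r =>
      (r.1 ∈ m.primeFactors ∨ r.2.1 ∈ m.primeFactors ∨ r.2.2 ∈ m.primeFactors))).card : ℝ) +
      (((trip M R W c).filter (fun r =>
      ¬ (r.1 ∈ m.primeFactors ∨ r.2.1 ∈ m.primeFactors ∨ r.2.2 ∈ m.primeFactors))).card : ℝ) =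
      ((trip M R W c).card : ℝ) := by exact_mod_cast h2
  have hM0 : (0 : ℝ) < M := by exact_mod_cast hM
  have hy0 : 0 < y := by linarith
  have hyA : 0 < y ^ A := Real.rpow_pos_of_pos hy0 _
  have hR0 : (0 : ℝ) ≤ R := Nat.cast_nonneg _
  -- R^3/(M y^(A+1)) ≤ R^3/(M y^A)/2
  have e1 : (R : ℝ) ^ 3 / (M * y ^ (A + 1)) ≤ (R : ℝ) ^ 3 / (M * y ^ A) / 2 := by
    rw [Real.rpow_add hy0, Real.rpow_one, div_div]
    refine div_le_div_of_nonneg_left (by positivity) (by positivity) ?_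
    have : (M : ℝ) * y ^ A * 2 ≤ M * y ^ A * y := mul_le_mul_of_nonneg_left hy (by positivity)
    linarith
  have e2 : 6 * (m.primeFactors.card : ℝ) * (R : ℝ) ^ 2 / M ≤ (R : ℝ) ^ 3 / (M * y ^ A) / 2 := by
    have f1 : (m.primeFactors.card : ℝ) ≤ y ^ (2 : ℝ) :=
      he.trans (Real.rpow_le_rpow_of_exponent_le (by linarith) (by norm_num))
    have f2 : 12 * (y ^ (2 : ℝ) * y ^ A) ≤ R := by rw [← Real.rpow_add hy0]; exact hR
    have f3 : (m.primeFactors.card : ℝ) * y ^ A ≤ y ^ (2 : ℝ) * y ^ A :=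
      mul_le_mul_of_nonneg_right f1 hyA.le
    rw [div_div, div_le_div_iff₀ hM0 (by positivity)]
    have f4 : 12 * ((m.primeFactors.card : ℝ) * y ^ A) * ((R : ℝ) ^ 2 * M) ≤
        R * ((R : ℝ) ^ 2 * M) := mul_le_mul_of_nonneg_right (by linarith) (by positivity)
    nlinarith
  linarith

/-- The general theorem. -/
theorem t_Cx (hMa : S_Main) (hB : S_Bad) (hU : S_Union) (hE : S_Excl) (hP : S_Pop)
    (hC : S_Count) (hK : S_Kor) : S_Cx := by
  classical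
  intro β hβ hβ2 hA ε hε
  obtain ⟨εb, hεb⟩ : ∃ v : ℝ, v = min ε 1 := ⟨_, rfl⟩
  have e1 : εb ≤ ε := by rw [hεb]; exact min_le_left _ _
  have e2 : εb ≤ 1 := by rw [hεb]; exact min_le_right _ _
  have e3 : 0 < εb := by rw [hεb]; exact lt_min hε one_pos
  obtain ⟨C, hCd⟩ : ∃ v : ℝ, v = 1 / β := ⟨_, rfl⟩
  have hCβ : C * β = 1 := by rw [hCd]; field_simp
  have hC2 : 2 < C := by rw [hCd, lt_div_iff₀ hβ]; linarith
  obtain ⟨ν, hν⟩ : ∃ v : ℝ, v = min εb (1 - 2 * β) := ⟨_, rfl⟩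
  have n1 : ν ≤ εb := by rw [hν]; exact min_le_left _ _
  have n2 : ν ≤ 1 - 2 * β := by rw [hν]; exact min_le_right _ _
  have n3 : 0 < ν := by rw [hν]; exact lt_min e3 (by linarith)
  obtain ⟨δ, hδ⟩ : ∃ v : ℝ, v = ν / 4 := ⟨_, rfl⟩
  obtain ⟨ε0, hε0⟩ : ∃ v : ℝ, v = ν / 100 := ⟨_, rfl⟩
  obtain ⟨η, hη⟩ : ∃ v : ℝ, v = (1 - 2 * β) / 4 := ⟨_, rfl⟩
  obtain ⟨κ, hκ⟩ : ∃ v : ℝ, v = (3 + 2 * β) / 4 := ⟨_, rfl⟩
  have hδ0 : 0 < δ := by linarith
  have hδ4 : δ ≤ 1 / 4 := by linarith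
  have hε00 : 0 < ε0 := by linarith
  have hη0 : 0 < η := by linarith
  have hη4 : η ≤ 1 / 4 := by linarith
  have hκ0 : 0 < κ := by linarith
  have hκ1 : κ < 1 := by linarith
  obtain ⟨KM, hKM, hMa⟩ := hMa C hC2
  obtain ⟨K, hKd⟩ : ∃ v : ℝ, v = 8 * KM / (1 - κ) + 1 := ⟨_, rfl⟩
  have hK1 : 1 ≤ K := by
    have : 0 ≤ 8 * KM / (1 - κ) := div_nonneg (by linarith) (by linarith)
    linarith
  obtain ⟨A, yM, hA0, hMa⟩ := hMa ε0 δ K hε00 hδ0 (by linarith) hK1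
  have hκc : 2 * (1 + δ) / C + 2 * (12 * ε0) < κ := by
    have h1 : 2 * (1 + δ) / C = 2 * (1 + δ) * β := by rw [hCd]; field_simp
    have h2 : δ * β ≤ δ * (1 / 2) := mul_le_mul_of_nonneg_left hβ2.le hδ0.le
    have h3 : 2 * (1 + δ) * β = 2 * β + 2 * (δ * β) := by ring
    rw [h1, h3]; linarith
  obtain ⟨yB, hB⟩ := hB C (12 * ε0) δ κ hC2 (by linarith) hδ0 hκc
  obtain ⟨yU, hU⟩ := hU δ κ KM K (A + 1) hδ0 hκ0 hκ1 hKM (by linarith) hKd.ge
  -- eventual facts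
  have tz : Tendsto (fun y : ℕ => (y : ℝ) ^ C) atTop atTop :=
    (tendsto_rpow_atTop (by linarith)).comp tendsto_natCast_atTop_atTop
  have evy := (ev_y C KM K δ A hδ0 hK1 hKM).and ((tz.eventually (S0_card hA hε00 hη0)).and
    ((eventually_ge_atTop yM).and ((eventually_ge_atTop yB).and ((eventually_ge_atTop yU).and
      (eventually_ge_atTop 2)))))
  have evX := ((tendsto_yX (show δ < 1 by linarith)).eventually evy).and
    ((ev_X β δ η hβ hδ0 hδ4 (by linarith) (by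
      have : (1 - δ) * (1 - η) = 1 - δ - η + δ * η := by ring
      have h2 : 0 ≤ δ * η := by positivity
      linarith)).and
    ((param β δ εb (12 * ε0) KM hβ hβ2 hδ0 hδ4 e3 e2 (by linarith) (by linarith) (by linarith)
      (by linarith) hKM).and (eventually_ge_atTop 1)))
  obtain ⟨X0, hX0⟩ := eventually_atTop.1 evX
  refine ⟨Real.exp X0, fun x hx m hm hmx => ?_⟩
  have hx0 : 0 < x := (Real.exp_pos _).trans_le hx
  obtain ⟨X, hX⟩ : ∃ v : ℝ, v = Real.log x := ⟨_, rfl⟩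
  have hxX : x = Real.exp X := by rw [hX, Real.exp_log hx0]
  have hXX0 : X0 ≤ X := by rw [hX, Real.le_log_iff_exp_le hx0]; exact hx
  obtain ⟨⟨hy1, hy2, hyM, hyB, hyU, hy22⟩, hXy, hpar, hX1⟩ := hX0 X hXX0
  obtain ⟨y, hyd⟩ : ∃ v : ℕ, v = ⌊X ^ (1 - δ)⌋₊ := ⟨_, rfl⟩
  rw [← hyd] at hy1 hy2 hyM hyB hyU hy22
  obtain ⟨g1, g2, g3⟩ := hXy y hyd
  obtain ⟨t, htd⟩ : ∃ v : ℕ, v = ⌊(X - 3 * (y : ℝ) ^ (1 + δ)) / (1 / β * Real.log y)⌋₊ := ⟨_, rfl⟩
  obtain ⟨q1, q2, q3, q4, q5⟩ := hpar y t hyd htd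
  rw [← hCd] at g1 q2 q3 q5
  obtain ⟨w1, w2, w3, w4, w5, w6, w7⟩ := hy1
  obtain ⟨z, hz⟩ : ∃ v : ℝ, v = (y : ℝ) ^ C := ⟨_, rfl⟩
  rw [← hz] at hy2 w1 w2 g1 q3
  have hyR : (2 : ℝ) ≤ y := by exact_mod_cast hy22
  have hy0 : (0 : ℝ) < y := by linarith
  have hz0 : 0 < z := by rw [hz]; exact Real.rpow_pos_of_pos hy0 _
  have hyz : (y : ℝ) ≤ z := by
    rw [hz]
    calc (y : ℝ) = (y : ℝ) ^ (1 : ℝ) := (Real.rpow_one _).symm
      _ ≤ (y : ℝ) ^ C := Real.rpow_le_rpow_of_exponent_le (by linarith) (by linarith)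
  have hzβ : z ^ β = y := by rw [hz, ← Real.rpow_mul hy0.le, hCβ, Real.rpow_one]
  have hlogz : Real.log z = C * Real.log y := by rw [hz, Real.log_rpow hy0]
  have hX0' : 0 ≤ X := by linarith
  have hω := omega_le hm (by rw [← hxX]; exact hmx) hX0'
  have hω1 : (m.primeFactors.card : ℝ) ≤ (y : ℝ) ^ ((3 : ℝ) / 2) := hω.trans g2
  have hω2 : (m.primeFactors.card : ℝ) ≤ z ^ ((3 : ℝ) / 4) := by
    refine hω1.trans ?_
    rw [hz, ← Real.rpow_mul hy0.le]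
    exact Real.rpow_le_rpow_of_exponent_le (by linarith) (by linarith)
  -- the set S0
  have hS0card := hy2 m hm hω2
  have hyX : (y : ℝ) ≤ X ^ 2 := by
    have h1 : (y : ℝ) ≤ X ^ (1 - δ) := by rw [hyd]; exact Nat.floor_le (Real.rpow_nonneg hX0' _)
    have h2 : X ^ (1 - δ) ≤ X ^ (1 : ℝ) := Real.rpow_le_rpow_of_exponent_le hX1 (by linarith)
    rw [Real.rpow_one] at h2
    nlinarith
  have hS0 : ∀ p ∈ S0 z β η m, p.Prime ∧ y < p ∧ (p : ℝ) ≤ z ∧ Smooth y (p - 1) := by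
    intro p hp
    rw [mem_S0] at hp
    obtain ⟨hp1, ⟨hp2, hp3⟩, hp4, hp5⟩ := hp
    refine ⟨hp2, ?_, ?_, ?_⟩
    · have : (y : ℝ) < p := by linarith
      exact_mod_cast this
    · exact (Nat.cast_le.2 (Finset.mem_Icc.1 hp1).2).trans (Nat.floor_le hz0.le)
    · intro q hq hqd
      have h1 : q ∈ (p - 1).primeFactors := by
        rw [Nat.mem_primeFactors]
        refine ⟨hq, hqd, ?_⟩
        have := hp2.two_le; omega
      have h2 := hp3 q h1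
      rw [hzβ] at h2
      exact_mod_cast h2
  rw [hz] at hS0card hS0
  obtain ⟨M, S, hM1, hMle, hMs, hSS, hpM, hScard, htrip⟩ := hMa y _ hyM hS0 hS0card
  rw [← hz] at hS0 hSS hScard
  have hSz : ∀ p ∈ S, p.Prime ∧ (p : ℝ) ≤ (y : ℝ) ^ C := fun p hp =>
    ⟨(hS0 p (hSS hp)).1, by rw [← hz]; exact (hS0 p (hSS hp)).2.2.1⟩
  have hbad := hB y S hyB hSz (by rw [← hz]; exact hScard)
  obtain ⟨R, hR⟩ : ∃ v : ℕ, v = RR y δ := ⟨_, rfl⟩
  obtain ⟨W, hW⟩ : ∃ v : ℕ, v = WW y K := ⟨_, rfl⟩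
  have hMR : M ≤ R := by
    have : (M : ℝ) ≤ (R : ℝ) := by rw [hR]; exact hMle.trans w4
    exact_mod_cast this
  -- a good triple
  have hun : ∀ c : ℕ, c.Coprime M → ∃ r ∈ trip M R W c,
      (r.1.Coprime m ∧ r.2.1.Coprime m ∧ r.2.2.Coprime m) ∧
      ∀ (q : ℕ) (χ : DirichletCharacter ℂ q), 1 ≤ q → Bad S χ → q ∣ M * lam M r → q ∣ M := by
    intro c hc
    have hT := Cx_T (y := (y : ℝ)) (A := A) (W := W) hE hM1 hMR hc hyR hω1 (by rw [hR]; exact w5)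
      (by rw [hR, hW]; exact htrip c hc)
    obtain ⟨r, hrT, hr⟩ := hU y M c S hyU hM1 hMle hbad ((trip M R W c).filter (fun r =>
      ¬ (r.1 ∈ m.primeFactors ∨ r.2.1 ∈ m.primeFactors ∨ r.2.2 ∈ m.primeFactors))) (by
      rw [← hR, ← hW]; exact Finset.filter_subset _ _) (by rw [← hR]; exact hT)
    rw [Finset.mem_filter, not_or, not_or] at hrT
    obtain ⟨hr1, hr2, hr3, hr4⟩ := hrT
    have hr1' := hr1
    rw [trip, Finset.mem_filter] at hr1
    obtain ⟨-, G1, G2, G3, -⟩ := hr1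
    have hcop : ∀ a : ℕ, a.Prime → a ∉ m.primeFactors → a.Coprime m := by
      intro a ha hn
      refine (Nat.Prime.coprime_iff_not_dvd ha).2 fun hd => hn ?_
      exact Nat.mem_primeFactors.2 ⟨ha, hd, by omega⟩
    exact ⟨r, hr1', ⟨hcop _ G1.1 hr2, hcop _ G2.1 hr3, hcop _ G3.1 hr4⟩, hr⟩
  -- the numerical conditions
  have h2t : 2 * M * R ^ 3 ≤ 2 ^ t := by
    have h1 : (2 : ℝ) * M * (R : ℝ) ^ 3 ≤ 2 ^ t := by
      have f1 : (R : ℝ) ^ 3 ≤ Real.exp (3 * (y : ℝ) ^ (1 + δ)) := by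
        rw [show (3 : ℝ) * (y : ℝ) ^ (1 + δ) = ((3 : ℕ) : ℝ) * (y : ℝ) ^ (1 + δ) by norm_num,
          Real.exp_nat_mul]
        exact pow_le_pow_left₀ (Nat.cast_nonneg _) (by rw [hR]; exact w7) 3
      have f2 : (2 : ℝ) ^ t = Real.exp (t * Real.log 2) := by
        rw [Real.exp_nat_mul, Real.exp_log (by norm_num)]
      have f3 : (2 : ℝ) * M * (R : ℝ) ^ 3 ≤ Real.exp (Real.log 2) * Real.exp (KM * y) *
          Real.exp (3 * (y : ℝ) ^ (1 + δ)) := by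
        rw [Real.exp_log (by norm_num)]
        exact mul_le_mul (mul_le_mul_of_nonneg_left hMle (by norm_num)) f1 (by positivity)
          (by positivity)
      rw [f2]
      refine f3.trans ?_
      rw [← Real.exp_add, ← Real.exp_add]
      exact Real.exp_le_exp.2 q4
    exact_mod_cast h1
  have f1 : (R : ℝ) ^ 3 ≤ Real.exp (3 * (y : ℝ) ^ (1 + δ)) := by
    rw [show (3 : ℝ) * (y : ℝ) ^ (1 + δ) = ((3 : ℕ) : ℝ) * (y : ℝ) ^ (1 + δ) by norm_num,
      Real.exp_nat_mul]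
    exact pow_le_pow_left₀ (Nat.cast_nonneg _) (by rw [hR]; exact w7) 3
  have hxle : (R : ℝ) ^ 3 * z ^ t ≤ x := by
    have f2 : z ^ t = Real.exp (t * (C * Real.log y)) := by
      rw [Real.exp_nat_mul, ← hlogz, Real.exp_log hz0]
    rw [f2, hxX]
    calc (R : ℝ) ^ 3 * Real.exp (t * (C * Real.log y)) ≤
        Real.exp (3 * (y : ℝ) ^ (1 + δ)) * Real.exp (t * (C * Real.log y)) :=
          mul_le_mul_of_nonneg_right f1 (Real.exp_pos _).le
      _ = Real.exp (3 * (y : ℝ) ^ (1 + δ) + t * (C * Real.log y)) := (Real.exp_add _ _).symm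
      _ ≤ Real.exp X := Real.exp_le_exp.2 q2
  have hR6 : 6 ≤ R := by
    have : (6 : ℝ) ≤ R := by rw [hR]; exact w6
    exact_mod_cast this
  have hMRq : ∀ q : ℕ, q.Prime → q ∣ M → 2 * q ≤ R := by
    intro q hq hd
    have h1 : q ≤ y := hMs q hq hd
    have h2 : (2 : ℝ) * q ≤ R := by
      have : (q : ℝ) ≤ y := by exact_mod_cast h1
      rw [hR]; linarith
    exact_mod_cast h2
  have hS' : ∀ p ∈ S, p.Prime ∧ p - 1 ∣ M ∧ p.Coprime M ∧ p.Coprime m ∧ p ≤ W ∧ 2 * p ≤ R ∧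
      Real.log x ^ 2 < (p : ℝ) ∧ (p : ℝ) ≤ z := by
    intro p hp
    obtain ⟨a1, a2, a3, a4⟩ := hS0 p (hSS hp)
    have hp' := hSS hp
    rw [mem_S0] at hp'
    obtain ⟨-, -, b1, b2⟩ := hp'
    refine ⟨a1, hpM p hp, ?_, (Nat.Prime.coprime_iff_not_dvd a1).2 b2, ?_, ?_, ?_, a3⟩
    · refine (Nat.Prime.coprime_iff_not_dvd a1).2 fun hd => ?_
      have := hMs p a1 hd; omega
    · have : (p : ℝ) ≤ W := by rw [hW]; linarith
      exact_mod_cast this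
    · have : (2 : ℝ) * p ≤ R := by rw [hR]; linarith
      exact_mod_cast this
    · rw [← hX]; exact g1.trans b1
  have htS : 100 * t ≤ S.card := by
    have : (100 : ℝ) * t ≤ S.card := q3.trans hScard
    exact_mod_cast this
  have hZR : 2 * Real.log x ^ 2 < (R : ℝ) := by
    rw [← hX, hR]; linarith
  have hcore := core hP hC hK hM1 hR6 hMRq hS' q1 htS h2t hxle hZR hun
  -- the final inequality
  have ht0 : (0 : ℝ) < t := by exact_mod_cast q1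
  have hS0' : (0 : ℝ) < S.card := by
    have : (100 : ℝ) * t ≤ S.card := by exact_mod_cast htS
    linarith
  have hLg : (1 - 12 * ε0) * (C * Real.log y) ≤ Real.log (S.card : ℝ) := by
    have := Real.log_le_log (Real.rpow_pos_of_pos hz0 _) hScard
    rwa [Real.log_rpow hz0, hlogz] at this
  have hchoose : (S.card : ℝ) ^ t ≤ (S.card.choose t : ℝ) * (t : ℝ) ^ t := by
    exact_mod_cast pow_le_choose_mul (n := S.card) (t := t) (by omega)
  have hR3 : (0 : ℝ) < (R : ℝ) ^ 3 := by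
    have : (0 : ℝ) < R := by rw [hR]; linarith
    positivity
  have hfin := Cx_final (a := 1 - β - εb) (X := X) rfl hS0' ht0 hMle f1 hR3 hLg hchoose
    (Nat.cast_nonneg _) hcore q5
  calc x ^ (1 - β - ε) ≤ x ^ (1 - β - εb) := by
        refine Real.rpow_le_rpow_of_exponent_le ?_ (by linarith)
        rw [hxX]; exact Real.one_le_exp hX0'
    _ = Real.exp ((1 - β - εb) * X) := by
        rw [Real.rpow_def_of_pos hx0, ← hX, mul_comm]
    _ ≤ _ := hfin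

end Pool.Agent.Lib.MP_a260de_nt.CN
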