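import Pool.Agent.Lib.MP_a260de_nt.CN.Top

/-!
MP_a260de_nt, PROJECT CN: the general theorem for pseudoprimes and the final theorem (helper74).
-/

namespace Pool.Agent.Lib.MP_a260de_nt.CN

open Finset

/-- a Carmichael number coprime to a is a pseudoprime to the base a -/
theorem carm_psp {n : ℕ} {a : ℤ} (hc : Carm n) (hr : n.Coprime a.natAbs) :
    (n : ℤ) ∣ a ^ (n - 1) - 1 := by
  obtain ⟨h1, hp, hb⟩ := hc
  have hn0 : (n : ℤ) ≠ 0 := by
    have : 0 < n := by omega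
    exact_mod_cast this.ne'
  have hcop : Nat.Coprime a.natAbs n := hr.symm
  have hicop : IsCoprime a (n : ℤ) := by
    rw [Int.isCoprime_iff_gcd_eq_one]
    exact hcop
  set b : ℕ := (a % (n : ℤ)).toNat with hbdef
  have hbz : (b : ℤ) = a % (n : ℤ) := Int.toNat_of_nonneg (Int.emod_nonneg _ hn0)
  have hba : (b : ℤ) ≡ a [ZMOD n] := by
    rw [hbz]
    exact Int.mod_modEq a n
  have hbcop : Nat.Coprime b n := by
    rw [← Nat.isCoprime_iff_coprime]
    have h4 : (b : ℤ) = a + (n : ℤ) * (-(a / (n : ℤ))) := by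
      rw [hbz]
      have := Int.emod_add_mul_ediv a (n : ℤ)
      linarith
    rw [h4]
    exact hicop.add_mul_left_left _
  have h5 := hb b hbcop
  have h6 : (b : ℤ) ^ (n - 1) ≡ 1 [ZMOD n] := by
    have := (Int.natCast_modEq_iff (n := n)).2 h5
    push_cast at this
    exact this
  have h7 : a ^ (n - 1) ≡ 1 [ZMOD n] := ((hba.pow (n - 1)).symm).trans h6
  exact (Int.modEq_iff_dvd.1 h7.symm)

theorem carmCnt_le_psp (a : ℤ) (x : ℝ) : carmCnt a.natAbs x ≤ pspCount a x := by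
  classical
  unfold carmCnt pspCount
  refine card_le_card (fun n hn => ?_)
  simp only [mem_filter] at hn ⊢
  exact ⟨hn.1, hn.2.1, carm_psp hn.2.1 hn.2.2.1, hn.2.2.2⟩

theorem t_Gen (hCx : S_Cx) : S_Gen := by
  intro β hβ hβ2 hs ε hε
  obtain ⟨x0, h⟩ := hCx β hβ hβ2 hs ε hε
  refine ⟨x0, fun x hx a ha hax => (h x hx a.natAbs ?_ ?_).trans ?_⟩
  · exact Nat.one_le_iff_ne_zero.2 (Int.natAbs_ne_zero.2 ha)
  · rw [Nat.cast_natAbs]
    push_cast
    exact hax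
  · exact_mod_cast carmCnt_le_psp a x

theorem fin_of {β κ : ℝ} (hβ : 0 < β) (hβ2 : β < 1 / 2) (hκ : κ < 1 - β) (hA : ShiftedSmooth β)
    (hG : S_Gen) : ∃ x0 : ℝ, ∀ x : ℝ, x0 ≤ x → ∀ a : ℤ, a ≠ 0 → (|a| : ℝ) ≤ x →
      x ^ κ ≤ (pspCount a x : ℝ) := by
  obtain ⟨x0, h⟩ := hG β hβ hβ2 hA (1 - β - κ) (by linarith)
  refine ⟨x0, fun x hx a ha hax => ?_⟩
  have := h x hx a ha hax
  have e : 1 - β - (1 - β - κ) = κ := by ring
  rwa [e] at this

theorem t_Fin (hA : S_A) (hG : S_Gen) : S_Fin :=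
  fin_of (by norm_num) (by norm_num) (by norm_num) hA hG

end Pool.Agent.Lib.MP_a260de_nt.CN
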