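import Mathlib

/-!
MP_a260de_nt, PROJECT CN: Korselt's criterion (the direction we need) and the step from the
congruence to a Carmichael number (helper43).
-/

namespace Pool.Agent.Lib.MP_a260de_nt.CN

/-- Carmichael numbers: composite `n > 1` with `b ^ (n - 1) ≡ 1 (mod n)` for all `b` coprime
to `n`. -/
def IsCarmichael (n : ℕ) : Prop :=
  1 < n ∧ ¬ n.Prime ∧ ∀ b : ℕ, b.Coprime n → b ^ (n - 1) ≡ 1 [MOD n]

/-- Korselt's criterion (one direction). -/
theorem korselt {n : ℕ} (h1 : 1 < n) (hp : ¬ n.Prime) (hsq : Squarefree n)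
    (h : ∀ p : ℕ, p.Prime → p ∣ n → p - 1 ∣ n - 1) : IsCarmichael n := by
  refine ⟨h1, hp, fun b hb => ?_⟩
  have key : ∀ p ∈ n.primeFactors, (p : ℤ) ∣ (b : ℤ) ^ (n - 1) - 1 := by
    intro p hpn
    have hpp := Nat.prime_of_mem_primeFactors hpn
    have hdn := Nat.dvd_of_mem_primeFactors hpn
    have hcop : b.Coprime p := Nat.Coprime.coprime_dvd_right hdn hb
    obtain ⟨k, hk⟩ := h p hpp hdn
    have h2 : b ^ (p - 1) ≡ 1 [MOD p] := by
      have := Nat.ModEq.pow_totient hcop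
      rwa [Nat.totient_prime hpp] at this
    have h3 : b ^ (n - 1) ≡ 1 [MOD p] := by
      rw [hk, pow_mul]
      simpa using h2.pow k
    have h4 := (Nat.modEq_iff_dvd.1 h3.symm)
    push_cast at h4
    exact h4
  have hdiv : ((n : ℤ)) ∣ (b : ℤ) ^ (n - 1) - 1 := by
    have e : ((∏ p ∈ n.primeFactors, (p : ℤ))) = (n : ℤ) := by
      rw [← Nat.cast_prod, Nat.prod_primeFactors_of_squarefree hsq]
    rw [← e]
    refine Finset.prod_dvd_of_coprime (fun p hp q hq hpq => ?_) key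
    exact Nat.isCoprime_iff_coprime.2 ((Nat.coprime_primes
      (Nat.prime_of_mem_primeFactors hp) (Nat.prime_of_mem_primeFactors hq)).2 hpq)
  have := Nat.modEq_iff_dvd.2 (show ((n : ℕ) : ℤ) ∣ ((b ^ (n - 1) : ℕ) : ℤ) - ((1 : ℕ) : ℤ) by
    push_cast; exact hdiv)
  exact this.symm

end Pool.Agent.Lib.MP_a260de_nt.CN
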