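import Pool.Agent.Lib.MP_a260de_nt.CN.Top
import Pool.Agent.Lib.MP_a260de_nt.CN.Korselt

/-!
MP_a260de_nt, PROJECT CN: S_Kor (helper43).
-/

namespace Pool.Agent.Lib.MP_a260de_nt.CN

open Finset

lemma squarefree_prod_primes (T : Finset ℕ) (hT : ∀ p ∈ T, p.Prime) : Squarefree (∏ p ∈ T, p) := by
  induction T using Finset.induction_on with
  | empty => simp
  | insert a T ha ih =>
    rw [Finset.prod_insert ha]
    have h1 : a.Prime := hT a (Finset.mem_insert_self _ _)
    have h2 : ∀ p ∈ T, p.Prime := fun p hp => hT p (Finset.mem_insert_of_mem hp)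
    have hc : a.Coprime (∏ p ∈ T, p) := by
      refine Nat.Coprime.prod_right fun p hp => (Nat.coprime_primes h1 (h2 p hp)).2 ?_
      rintro rfl; exact ha hp
    exact (Nat.squarefree_mul hc).2 ⟨h1.prime.squarefree, ih h2⟩

lemma mem_of_prime_dvd_prod (T : Finset ℕ) (hT : ∀ p ∈ T, p.Prime) {q : ℕ} (hq : q.Prime)
    (h : q ∣ ∏ p ∈ T, p) : q ∈ T := by
  obtain ⟨p, hp, hd⟩ := (Prime.dvd_finsetProd_iff hq.prime _).1 h
  rwa [(Nat.prime_dvd_prime_iff_eq hq (hT p hp)).1 hd]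

lemma sub_one_dvd (M r : ℕ) : r - 1 ∣ M * rho M r := by
  have h : r - 1 = Nat.gcd (r - 1) M * rho M r :=
    (Nat.mul_div_cancel' (Nat.gcd_dvd_left (r - 1) M)).symm
  conv_lhs => rw [h]
  exact Nat.mul_dvd_mul_right (Nat.gcd_dvd_right _ _) _

theorem kor : S_Kor := by
  intro M r A hM p1 p2 p3 d12 d13 d23 _ _ _ hA n1 n2 n3 hmod
  set T : Finset ℕ := insert r.1 (insert r.2.1 (insert r.2.2 A)) with hTdef
  have hT : ∀ p ∈ T, p.Prime := by
    intro p hp
    simp only [hTdef, Finset.mem_insert] at hp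
    rcases hp with rfl | rfl | rfl | hp
    · exact p1
    · exact p2
    · exact p3
    · exact (hA p hp).1
  have hprod : r.1 * r.2.1 * r.2.2 * ∏ p ∈ A, p = ∏ p ∈ T, p := by
    rw [hTdef, Finset.prod_insert, Finset.prod_insert, Finset.prod_insert n3]
    · ring
    · simp only [Finset.mem_insert, not_or]; exact ⟨d23, n2⟩
    · simp only [Finset.mem_insert, not_or]; exact ⟨d12, d13, n1⟩
  rw [hprod] at hmod ⊢
  have hpos : 0 < ∏ p ∈ T, p := Finset.prod_pos fun p hp => (hT p hp).pos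
  have hdvd : M * lam M r ∣ ∏ p ∈ T, p - 1 := (Nat.modEq_iff_dvd' hpos).1 hmod.symm
  have m1 : r.1 ∈ T := by simp [hTdef]
  have m2 : r.2.1 ∈ T := by simp [hTdef]
  have hlt : 1 < ∏ p ∈ T, p :=
    lt_of_lt_of_le p1.one_lt (Nat.le_of_dvd hpos (Finset.dvd_prod_of_mem _ m1))
  refine korselt hlt ?_ (squarefree_prod_primes T hT) ?_
  · intro hpr
    have e1 := (Nat.prime_dvd_prime_iff_eq p1 hpr).1 (Finset.dvd_prod_of_mem _ m1)
    have e2 := (Nat.prime_dvd_prime_iff_eq p2 hpr).1 (Finset.dvd_prod_of_mem _ m2)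
    exact d12 (e1.trans e2.symm)
  · intro q hq hqd
    have hqT := mem_of_prime_dvd_prod T hT hq hqd
    simp only [hTdef, Finset.mem_insert] at hqT
    rcases hqT with rfl | rfl | rfl | hqA
    · refine (sub_one_dvd M _).trans ((Nat.mul_dvd_mul_left M ?_).trans hdvd)
      exact Nat.dvd_lcm_left _ _
    · refine (sub_one_dvd M _).trans ((Nat.mul_dvd_mul_left M ?_).trans hdvd)
      exact (Nat.dvd_lcm_left _ _).trans (Nat.dvd_lcm_right _ _)
    · refine (sub_one_dvd M _).trans ((Nat.mul_dvd_mul_left M ?_).trans hdvd)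
      exact (Nat.dvd_lcm_right _ _).trans (Nat.dvd_lcm_right _ _)
    · exact (hA q hqA).2.trans ((dvd_mul_right M _).trans hdvd)

end Pool.Agent.Lib.MP_a260de_nt.CN
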