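import Pool.Agent.Lib.MP_a260de_nt.CN.SpecM

/-!
MP_a260de_nt, PROJECT CN, module M_Pg (helper74).
-/

set_option autoImplicit false

namespace Pool.Agent.Lib.MP_a260de_nt.CN

open Finset

/-- a power of the logarithm (kept folded) -/
private noncomputable def LP (x : ℝ) : ℝ := (2 + 2 * Real.log x) ^ 200

private lemma LP_nonneg {x : ℝ} (hx : 1 ≤ x) : 0 ≤ LP x := by
  have := Real.log_nonneg hx
  unfold LP
  positivity

private lemma LP_mono {x z : ℝ} (hx : 1 ≤ x) (hxz : x ≤ z) : LP x ≤ LP z := by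
  have h1 := Real.log_nonneg hx
  have h2 := Real.log_le_log (by linarith) hxz
  unfold LP
  exact pow_le_pow_left₀ (by positivity) (by linarith) 200

private lemma LP_le {x b : ℝ} (hx : 1 ≤ x) (hb : 2 + 2 * Real.log x ≤ b) : LP x ≤ b ^ 200 := by
  have h1 := Real.log_nonneg hx
  unfold LP
  exact pow_le_pow_left₀ (by positivity) hb 200

private lemma pow200 {K z ρ ε : ℝ} (hz : 0 ≤ z) (h : ρ * 200 = 2 * ε) :
    (K * z ^ ρ) ^ 200 = K ^ 200 * z ^ (2 * ε) := by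
  rw [mul_pow, ← Real.rpow_natCast (z ^ ρ) 200, ← Real.rpow_mul hz]
  congr 2

private lemma pg_asym (ε : ℝ) (hε : 0 < ε) : ∃ Y : ℝ, ∀ z : ℝ, Y ≤ z →
    2 ≤ z ∧ 2 ≤ z ^ ε ∧
      LP z * z ^ (1 - 4 * ε) + 2 * z ^ (1 - 4 * ε / 3) ≤ z ^ (1 - ε) / 2 := by
  set ρ : ℝ := ε / 100 with hρ
  have hρ0 : 0 < ρ := by positivity
  set K : ℝ := 2 + 2 / ρ with hK
  have hK0 : 0 < K := by positivity
  obtain ⟨L, hL⟩ : ∃ L : ℝ, L = K ^ 200 := ⟨_, rfl⟩
  have t1 := (tendsto_rpow_atTop hε).eventually_ge_atTop (4 * L)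
  have t2 := (tendsto_rpow_atTop hε).eventually_ge_atTop 2
  have t3 := (tendsto_rpow_atTop (show 0 < ε / 3 by positivity)).eventually_ge_atTop 8
  obtain ⟨Y, hY⟩ := Filter.eventually_atTop.1 (t1.and (t2.and (t3.and (Filter.eventually_ge_atTop 2))))
  refine ⟨Y, fun z hz => ?_⟩
  obtain ⟨h1, h2, h3, h4⟩ := hY z hz
  refine ⟨h4, h2, ?_⟩
  have hz0 : 0 < z := by linarith
  have hz1 : 1 ≤ z := by linarith
  have hlog : Real.log z ≤ z ^ ρ / ρ := Real.log_le_rpow_div hz0.le hρ0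
  have hlog0 : 0 ≤ Real.log z := Real.log_nonneg hz1
  have hzρ : 1 ≤ z ^ ρ := Real.one_le_rpow hz1 hρ0.le
  have a1 : 2 + 2 * Real.log z ≤ K * z ^ ρ := by
    have : 2 * Real.log z ≤ 2 / ρ * z ^ ρ := by
      calc 2 * Real.log z ≤ 2 * (z ^ ρ / ρ) := by linarith
        _ = 2 / ρ * z ^ ρ := by ring
    have h2' : (2 : ℝ) ≤ 2 * z ^ ρ := by linarith
    calc 2 + 2 * Real.log z ≤ 2 * z ^ ρ + 2 / ρ * z ^ ρ := by linarith
      _ = K * z ^ ρ := by rw [hK]; ring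
  have a2 : LP z ≤ L * z ^ (2 * ε) := by
    rw [hL, ← pow200 hz0.le (show ρ * 200 = 2 * ε by rw [hρ]; ring)]
    exact LP_le hz1 a1
  have a3 : LP z ≤ z ^ (3 * ε) / 4 := by
    calc LP z ≤ L * z ^ (2 * ε) := a2
      _ ≤ (z ^ ε / 4) * z ^ (2 * ε) := by
          apply mul_le_mul_of_nonneg_right _ (by positivity)
          linarith
      _ = z ^ (3 * ε) / 4 := by
          rw [show 3 * ε = ε + 2 * ε by ring, Real.rpow_add hz0]
          ring
  have b1 : LP z * z ^ (1 - 4 * ε) ≤ z ^ (1 - ε) / 4 := by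
    calc LP z * z ^ (1 - 4 * ε)
        ≤ z ^ (3 * ε) / 4 * z ^ (1 - 4 * ε) := mul_le_mul_of_nonneg_right a3 (by positivity)
      _ = z ^ (1 - ε) / 4 := by
          rw [show 1 - ε = 3 * ε + (1 - 4 * ε) by ring, Real.rpow_add hz0]
          ring
  have b2 : 2 * z ^ (1 - 4 * ε / 3) ≤ z ^ (1 - ε) / 4 := by
    calc 2 * z ^ (1 - 4 * ε / 3) ≤ (z ^ (ε / 3) / 4) * z ^ (1 - 4 * ε / 3) := by
          apply mul_le_mul_of_nonneg_right _ (by positivity)
          linarith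
      _ = z ^ (1 - ε) / 4 := by
          rw [show 1 - ε = ε / 3 + (1 - 4 * ε / 3) by ring, Real.rpow_add hz0]
          ring
  linarith

theorem t_Pg (hD : S_Dcm) (h1 : S_Cn1) (h2 : S_Cn2) : S_Pg := by
  classical
  intro C ε hC hε
  obtain ⟨Y, hY⟩ := pg_asym ε hε
  refine ⟨max 3 (⌈Y⌉₊ + 1), fun y S0 hy hS0 hcard => ?_⟩
  have hy3 : 3 ≤ y := (le_max_left _ _).trans hy
  have hyY : Y ≤ (y : ℝ) := by
    have : ((⌈Y⌉₊ + 1 : ℕ) : ℝ) ≤ y := by exact_mod_cast (le_max_right _ _).trans hy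
    push_cast at this
    have := Nat.le_ceil Y
    linarith
  have hy1 : (1 : ℝ) ≤ y := by exact_mod_cast (by omega : 1 ≤ y)
  set z : ℝ := (y : ℝ) ^ C with hz
  have hzy : (y : ℝ) ≤ z := by
    calc (y : ℝ) = (y : ℝ) ^ (1 : ℝ) := (Real.rpow_one _).symm
      _ ≤ (y : ℝ) ^ C := Real.rpow_le_rpow_of_exponent_le hy1 hC
  obtain ⟨hz2, hzε, hasy⟩ := hY z (hyY.trans hzy)
  have hz0 : 0 < z := by linarith
  have hz1 : 1 ≤ z := by linarith
  choose α s w u hα using hD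
  set X : ℕ := ⌊z⌋₊ with hX
  have hX1 : 1 ≤ X := Nat.le_floor (by exact_mod_cast hz1)
  have hXz : (X : ℝ) ≤ z := Nat.floor_le hz0.le
  -- the element p - 1
  have hp1 : ∀ p ∈ S0, 1 ≤ p - 1 := by
    intro p hp
    have := (hS0 p hp).2.1
    omega
  have hpX : ∀ p ∈ S0, p ≤ X := fun p hp => Nat.le_floor (hS0 p hp).2.2.1
  set a : ℕ → ℕ := fun p => if h : 1 ≤ p - 1 then α (p - 1) h else 1 with ha
  have haS : ∀ p (hp : p ∈ S0), a p = α (p - 1) (hp1 p hp) := by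
    intro p hp
    simp only [ha, dif_pos (hp1 p hp)]
  set B : Finset ℕ := S0.filter (fun p => z ^ (8 * ε) < (a p : ℝ)) with hB
  set T : ℝ := z ^ (4 * ε) with hT
  set U : ℝ := z ^ (4 * ε / 3) with hU
  have hT1 : 1 ≤ T := Real.one_le_rpow hz1 (by positivity)
  have hU1 : 1 ≤ U := Real.one_le_rpow hz1 (by positivity)
  set F1 : Finset ℕ := (Icc 1 X).filter fun n => ∃ s : ℕ, s ∣ n ∧ T < (s : ℝ) ∧
    ∀ q : ℕ, q.Prime → q ∣ s → q < 200 with hF1
  set F2 : Finset ℕ := (Icc 1 X).filter fun n => ∃ u : ℕ, U < (u : ℝ) ∧ u ^ 2 ∣ n with hF2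
  have hBcard : B.card ≤ F1.card + F2.card := by
    refine le_trans ?_ (card_union_le F1 F2)
    refine card_le_card_of_injOn (fun p => p - 1) ?_ ?_
    · intro p hp
      have hpB := mem_coe.1 hp
      rw [hB, mem_filter] at hpB
      obtain ⟨hpS, hlt⟩ := hpB
      obtain ⟨e1, e2, e3, e4, e5, e6, e7, e8, e9, e10⟩ := hα (p - 1) (hp1 p hpS)
      rw [haS p hpS, e1] at hlt
      have hmem : p - 1 ∈ Icc 1 X := mem_Icc.2 ⟨hp1 p hpS, (Nat.sub_le p 1).trans (hpX p hpS)⟩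
      have hor : T < (s (p - 1) (hp1 p hpS) : ℝ) ∨ T < (w (p - 1) (hp1 p hpS) : ℝ) := by
        by_contra hcon
        push Not at hcon
        have : ((s (p - 1) (hp1 p hpS) * w (p - 1) (hp1 p hpS) : ℕ) : ℝ) ≤ T * T := by
          push_cast
          exact mul_le_mul hcon.1 hcon.2 (Nat.cast_nonneg _) (by linarith)
        have e : T * T = z ^ (8 * ε) := by
          rw [hT, ← Real.rpow_add hz0]
          congr 1
          ring
        rw [e] at this
        linarith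
      rcases hor with h | h
      · exact mem_coe.2 (mem_union_left _ (mem_filter.2 ⟨hmem, s (p - 1) (hp1 p hpS), e3, h, e6⟩))
      · refine mem_coe.2 (mem_union_right _ (mem_filter.2 ⟨hmem, u (p - 1) (hp1 p hpS), ?_, e4⟩))
        by_contra hcon
        push Not at hcon
        have h5 : (w (p - 1) (hp1 p hpS) : ℝ) ≤ (u (p - 1) (hp1 p hpS) : ℝ) ^ 3 := by
          exact_mod_cast e5
        have h6 : (u (p - 1) (hp1 p hpS) : ℝ) ^ 3 ≤ U ^ 3 :=
          pow_le_pow_left₀ (Nat.cast_nonneg _) hcon 3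
        have h7 : U ^ 3 = T := by
          rw [hU, hT, ← Real.rpow_natCast (z ^ (4 * ε / 3)) 3, ← Real.rpow_mul hz0.le]
          congr 1
          push_cast
          ring
        linarith
    · intro p hp p' hp' h
      have h1 := (mem_filter.1 (mem_coe.1 hp)).1
      have h2 := (mem_filter.1 (mem_coe.1 hp')).1
      have h3 := hp1 p h1
      have h4 := hp1 p' h2
      simp only at h
      omega
  have hX1' : (1 : ℝ) ≤ X := by exact_mod_cast hX1
  have hLX := LP_mono hX1' hXz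
  have hLX0 := LP_nonneg hX1'
  have hF1c : (F1.card : ℝ) ≤ LP z * z ^ (1 - 4 * ε) := by
    calc (F1.card : ℝ) ≤ LP X * (X / T) := by
          rw [LP]
          exact h1 X T hX1 hT1
      _ ≤ LP z * (z / T) := mul_le_mul hLX (div_le_div_of_nonneg_right hXz (by positivity))
          (by positivity) (LP_nonneg hz1)
      _ = LP z * z ^ (1 - 4 * ε) := by
          rw [hT, Real.rpow_sub hz0, Real.rpow_one]
  have hF2c : (F2.card : ℝ) ≤ 2 * z ^ (1 - 4 * ε / 3) := by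
    calc (F2.card : ℝ) ≤ 2 * (X / U) := h2 X U hX1 hU1
      _ ≤ 2 * (z / U) := by gcongr
      _ = 2 * z ^ (1 - 4 * ε / 3) := by
          rw [hU, Real.rpow_sub hz0, Real.rpow_one]
  have hBr : (B.card : ℝ) ≤ z ^ (1 - ε) / 2 := by
    have : (B.card : ℝ) ≤ F1.card + F2.card := by exact_mod_cast hBcard
    linarith
  set G : Finset ℕ := S0.filter (fun p => ¬ z ^ (8 * ε) < (a p : ℝ)) with hG
  have hGB : B.card + G.card = S0.card := card_filter_add_card_filter_not _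
  have hGr : z ^ (1 - ε) / 2 ≤ (G.card : ℝ) := by
    have : (B.card : ℝ) + G.card = S0.card := by exact_mod_cast hGB
    linarith
  set I : Finset ℕ := Icc 1 ⌊z ^ (8 * ε)⌋₊ with hI
  have h8 : 1 ≤ z ^ (8 * ε) := Real.one_le_rpow hz1 (by positivity)
  have hIne : I.Nonempty := ⟨1, mem_Icc.2 ⟨le_refl _, Nat.le_floor (by exact_mod_cast h8)⟩⟩
  have hmaps : ∀ p ∈ G, a p ∈ I := by
    intro p hp
    obtain ⟨hpS, hle⟩ := mem_filter.1 hp
    push Not at hle
    refine mem_Icc.2 ⟨?_, Nat.le_floor hle⟩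
    rw [haS p hpS]
    have e2 := (hα (p - 1) (hp1 p hpS)).2.1
    exact Nat.pos_of_dvd_of_pos e2 (hp1 p hpS)
  have hIcard : (I.card : ℝ) ≤ z ^ (8 * ε) := by
    rw [hI, Nat.card_Icc, Nat.add_sub_cancel]
    exact Nat.floor_le (by positivity)
  have hsm : I.card • z ^ (1 - 10 * ε) ≤ (G.card : ℝ) := by
    rw [nsmul_eq_mul]
    calc (I.card : ℝ) * z ^ (1 - 10 * ε) ≤ z ^ (8 * ε) * z ^ (1 - 10 * ε) :=
          mul_le_mul_of_nonneg_right hIcard (by positivity)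
      _ = z ^ (1 - 2 * ε) := by
          rw [← Real.rpow_add hz0]
          congr 1
          ring
      _ ≤ z ^ (1 - ε) / 2 := by
          have e : z ^ (1 - ε) = z ^ ε * z ^ (1 - 2 * ε) := by
            rw [← Real.rpow_add hz0]
            congr 1
            ring
          rw [e]
          have : 0 < z ^ (1 - 2 * ε) := by positivity
          nlinarith
      _ ≤ G.card := hGr
  obtain ⟨a0, ha0I, ha0⟩ := exists_le_card_fiber_of_nsmul_le_card_of_maps_to hmaps hIne hsm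
  set S : Finset ℕ := G.filter (fun p => a p = a0) with hS
  have hSpos : 0 < S.card := by
    have h9 : (0 : ℝ) < z ^ (1 - 10 * ε) := by positivity
    have : (0 : ℝ) < (S.card : ℝ) := lt_of_lt_of_le h9 ha0
    exact_mod_cast this
  have hSG : ∀ p ∈ S, p ∈ S0 ∧ a p = a0 := by
    intro p hp
    rw [hS, mem_filter] at hp
    exact ⟨(mem_filter.1 hp.1).1, hp.2⟩
  obtain ⟨p0, hp0⟩ := card_pos.1 hSpos
  obtain ⟨hp0S, hp0a⟩ := hSG p0 hp0
  obtain ⟨hpp, hpy, hpz, hpsm⟩ := hS0 p0 hp0S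
  have hD0 := hα (p0 - 1) (hp1 p0 hp0S)
  rw [← haS p0 hp0S, hp0a] at hD0
  obtain ⟨e1, e2, e3, e4, e5, e6, e7, e8, e9, e10⟩ := hD0
  refine ⟨a0, S, (mem_Icc.1 ha0I).1, ?_, ?_, ?_, ?_, ha0, ?_⟩
  · refine e10 ?_
    have h2p : p0 ≠ 2 := by omega
    have hodd := hpp.odd_of_ne_two h2p
    obtain ⟨k, hk⟩ := hodd
    exact ⟨k, by omega⟩
  · exact (Nat.le_floor_iff' (by have := (mem_Icc.1 ha0I).1; omega)).1 (mem_Icc.1 ha0I).2
  · intro q hq hqa
    exact hpsm q hq (hqa.trans e2)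
  · intro p hp
    exact (hSG p hp).1
  · intro p hp
    obtain ⟨hpS, hpa⟩ := hSG p hp
    have hD1 := hα (p - 1) (hp1 p hpS)
    rw [← haS p hpS, hpa] at hD1
    obtain ⟨e1, e2, e3, e4, e5, e6, e7, e8, e9, e10⟩ := hD1
    exact ⟨e2, e7, e8, e9⟩

end Pool.Agent.Lib.MP_a260de_nt.CN
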