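import Pool.Agent.Lib.MP_a260de_nt.CN.Esb

/-!
MP_a260de_nt, package CN (many Carmichael numbers), module Cnt: the popular class, and the number of
`t`-subsets of a set of integers whose product lies in a given residue class modulo `M Λ`, compared with
the class modulo `M`.
-/

set_option autoImplicit false

namespace Pool.Agent.Lib.MP_a260de_nt.CN

open Finset

/-- the `t`-subsets of `S` whose product is `c` modulo `L` -/
def cl (S : Finset ℕ) (t L c : ℕ) : Finset (Finset ℕ) :=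
  (S.powersetCard t).filter fun A => ∏ p ∈ A, p ≡ c [MOD L]

private lemma prod_coprime (S : Finset ℕ) (L : ℕ) (hS : ∀ p ∈ S, p.Coprime L) (A : Finset ℕ)
    (hA : A ⊆ S) : (∏ p ∈ A, p).Coprime L :=
  Nat.Coprime.prod_left fun p hp => hS p (hA hp)

/-- the popular class -/
theorem popular (S : Finset ℕ) (t M : ℕ) (hM : 1 ≤ M) (hS : ∀ p ∈ S, p.Coprime M) :
    ∃ g : ℕ, g ≤ M ∧ g.Coprime M ∧ S.card.choose t ≤ M.totient * (cl S t M g).card := by
  classical
  have : NeZero M := ⟨by omega⟩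
  -- classes of units
  let f : Finset ℕ → ZMod M := fun A => ((∏ p ∈ A, p : ℕ) : ZMod M)
  let U : Finset (ZMod M) := Finset.image (fun u : (ZMod M)ˣ => (u : ZMod M)) Finset.univ
  have hU : U.card = M.totient := by
    rw [card_image_of_injective _ Units.val_injective, card_univ, ZMod.card_units_eq_totient]
  have hmaps : ∀ A ∈ S.powersetCard t, f A ∈ U := by
    intro A hA
    have hc := prod_coprime S M hS A (mem_powersetCard.1 hA).1
    refine mem_image.2 ⟨ZMod.unitOfCoprime _ hc, mem_univ _, ?_⟩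
    simp only [ZMod.coe_unitOfCoprime, f]
  have hUne : U.Nonempty := ⟨((1 : (ZMod M)ˣ) : ZMod M), mem_image.2 ⟨1, mem_univ _, rfl⟩⟩
  obtain ⟨x, hxU, hx⟩ : ∃ x ∈ U, (S.powersetCard t).card ≤
      U.card * ((S.powersetCard t).filter fun A => f A = x).card := by
    by_contra hcon
    push Not at hcon
    have h1 : U.card * (S.powersetCard t).card =
        ∑ x ∈ U, U.card * ((S.powersetCard t).filter fun A => f A = x).card := by
      rw [← mul_sum, ← card_eq_sum_card_fiberwise hmaps]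
    have h2 : ∑ x ∈ U, U.card * ((S.powersetCard t).filter fun A => f A = x).card <
        ∑ _x ∈ U, (S.powersetCard t).card := sum_lt_sum_of_nonempty hUne hcon
    rw [sum_const, smul_eq_mul] at h2
    omega
  obtain ⟨u, _, rfl⟩ := mem_image.1 hxU
  refine ⟨(u : ZMod M).val, (ZMod.val_lt _).le, ZMod.val_coe_unit_coprime u, ?_⟩
  rw [card_powersetCard, hU] at hx
  refine hx.trans (Nat.mul_le_mul_left _ (card_le_card ?_))
  intro A hA
  rw [mem_filter] at hA
  rw [cl, mem_filter]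
  refine ⟨hA.1, ?_⟩
  rw [← ZMod.natCast_eq_natCast_iff]
  have := hA.2
  simp only [f] at this
  rw [this]
  simp

/-- the number of subsets in a class by characters -/
private lemma card_cl (S : Finset ℕ) (t L c : ℕ) [NeZero L] (hc : c.Coprime L) :
    ((cl S t L c).card : ℂ) * (L.totient : ℂ) =
      ∑ χ : DirichletCharacter ℂ L, χ (c : ZMod L)⁻¹ *
        ∑ A ∈ S.powersetCard t, ∏ p ∈ A, χ (p : ZMod L) := by
  classical
  have hcu : IsUnit (c : ZMod L) := (ZMod.isUnit_iff_coprime c L).2 hc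
  have h1 : ∀ A : Finset ℕ, ∑ χ : DirichletCharacter ℂ L, χ (c : ZMod L)⁻¹ *
      ∏ p ∈ A, χ (p : ZMod L) = if ∏ p ∈ A, p ≡ c [MOD L] then (L.totient : ℂ) else 0 := by
    intro A
    have h2 := DirichletCharacter.sum_char_inv_mul_char_eq ℂ hcu ((∏ p ∈ A, p : ℕ) : ZMod L)
    have h3 : ∀ χ : DirichletCharacter ℂ L, χ (c : ZMod L)⁻¹ * ∏ p ∈ A, χ (p : ZMod L) =
        χ (c : ZMod L)⁻¹ * χ ((∏ p ∈ A, p : ℕ) : ZMod L) := by
      intro χ
      rw [Nat.cast_prod, map_prod]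
    rw [sum_congr rfl fun χ _ => h3 χ, h2]
    have : ((c : ZMod L) = ((∏ p ∈ A, p : ℕ) : ZMod L)) ↔ ∏ p ∈ A, p ≡ c [MOD L] := by
      rw [ZMod.natCast_eq_natCast_iff]
      exact ⟨Nat.ModEq.symm, Nat.ModEq.symm⟩
    simp only [this]
  simp only [mul_sum]
  rw [sum_comm]
  simp only [h1]
  rw [← sum_filter, sum_const, nsmul_eq_mul]
  rfl

/-- the same for a unit -/
private lemma card_unit (S : Finset ℕ) (t L : ℕ) [NeZero L] (u : (ZMod L)ˣ) :
    (((S.powersetCard t).filter fun A => ((∏ p ∈ A, p : ℕ) : ZMod L) = (u : ZMod L)).card : ℂ) *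
      (L.totient : ℂ) =
      ∑ χ : DirichletCharacter ℂ L, χ ((u⁻¹ : (ZMod L)ˣ) : ZMod L) *
        ∑ A ∈ S.powersetCard t, ∏ p ∈ A, χ (p : ZMod L) := by
  have h1 := card_cl S t L (u : ZMod L).val (ZMod.val_coe_unit_coprime u)
  have h2 : (((u : ZMod L).val : ℕ) : ZMod L) = u := by simp
  rw [h2, ZMod.inv_coe_unit] at h1
  rw [← h1, cl]
  congr 3
  ext A
  rw [mem_filter, mem_filter, ← ZMod.natCast_eq_natCast_iff, h2]

/-- the kernel of the reduction of the units modulo `L` to the units modulo `M` -/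
private noncomputable def ker (M L : ℕ) [NeZero L] (h : M ∣ L) : Finset (ZMod L)ˣ :=
  open Classical in univ.filter fun k => ZMod.unitsMap h k = 1

private lemma sum_ker_one (M L : ℕ) [NeZero L] (h : M ∣ L) (χ : DirichletCharacter ℂ L)
    (hχ : χ.FactorsThrough M) (u : (ZMod L)ˣ) :
    ∑ k ∈ ker M L h, χ (((u * k)⁻¹ : (ZMod L)ˣ) : ZMod L) =
      (ker M L h).card * χ ((u⁻¹ : (ZMod L)ˣ) : ZMod L) := by
  have hk := (DirichletCharacter.factorsThrough_iff_ker_unitsMap h).1 hχ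
  have h1 : ∀ k ∈ ker M L h, χ (((u * k)⁻¹ : (ZMod L)ˣ) : ZMod L) =
      χ ((u⁻¹ : (ZMod L)ˣ) : ZMod L) := by
    intro k hkk
    have h2 : k ∈ (ZMod.unitsMap h).ker := (mem_filter.1 hkk).2
    have h3 : χ.toUnitHom k⁻¹ = 1 := by
      rw [map_inv, MonoidHom.mem_ker.1 (hk h2), inv_one]
    have h4 : χ ((k⁻¹ : (ZMod L)ˣ) : ZMod L) = 1 := by
      have := congrArg (fun x : ℂˣ => (x : ℂ)) h3
      simpa using this
    rw [mul_inv, Units.val_mul, map_mul, h4, mul_one]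
  rw [sum_congr rfl h1, sum_const, nsmul_eq_mul]

private lemma sum_ker_zero (M L : ℕ) [NeZero L] (h : M ∣ L) (χ : DirichletCharacter ℂ L)
    (hχ : ¬ χ.FactorsThrough M) (u : (ZMod L)ˣ) :
    ∑ k ∈ ker M L h, χ (((u * k)⁻¹ : (ZMod L)ˣ) : ZMod L) = 0 := by
  classical
  have hk : ¬ (ZMod.unitsMap h).ker ≤ χ.toUnitHom.ker := fun hc =>
    hχ ((DirichletCharacter.factorsThrough_iff_ker_unitsMap h).2 hc)
  obtain ⟨k0, hk0, hk1⟩ := SetLike.not_le_iff_exists.1 hk
  have h1 : χ ((k0⁻¹ : (ZMod L)ˣ) : ZMod L) ≠ 1 := by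
    intro hc
    apply hk1
    have : χ.toUnitHom k0⁻¹ = 1 := by
      apply Units.ext
      simpa using hc
    rw [map_inv, inv_eq_one] at this
    exact MonoidHom.mem_ker.2 this
  have h2 : ∑ k ∈ ker M L h, χ (((u * k)⁻¹ : (ZMod L)ˣ) : ZMod L) =
      ∑ k ∈ ker M L h, χ (((u * (k * k0))⁻¹ : (ZMod L)ˣ) : ZMod L) := by
    symm
    refine sum_bij (fun k _ => k * k0) ?_ ?_ ?_ ?_
    · intro k hkk
      rw [ker, mem_filter] at hkk ⊢
      exact ⟨mem_univ _, by rw [map_mul, hkk.2, MonoidHom.mem_ker.1 hk0, one_mul]⟩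
    · intro a _ b _ hab
      exact mul_right_cancel hab
    · intro b hb
      refine ⟨b * k0⁻¹, ?_, by group⟩
      rw [ker, mem_filter] at hb ⊢
      exact ⟨mem_univ _, by rw [map_mul, hb.2, map_inv, MonoidHom.mem_ker.1 hk0]; simp⟩
    · intro k _
      rfl
  have h3 : ∀ k ∈ ker M L h, χ (((u * (k * k0))⁻¹ : (ZMod L)ˣ) : ZMod L) =
      χ (((u * k)⁻¹ : (ZMod L)ˣ) : ZMod L) * χ ((k0⁻¹ : (ZMod L)ˣ) : ZMod L) := by
    intro k _
    rw [← mul_assoc, mul_inv, Units.val_mul, map_mul]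
  rw [sum_congr rfl h3, ← sum_mul] at h2
  have h4 : (∑ k ∈ ker M L h, χ (((u * k)⁻¹ : (ZMod L)ˣ) : ZMod L)) *
      (χ ((k0⁻¹ : (ZMod L)ˣ) : ZMod L) - 1) = 0 := by
    rw [mul_sub, mul_one, ← h2, sub_self]
  rcases mul_eq_zero.1 h4 with h5 | h5
  · exact h5
  · exact absurd (sub_eq_zero.1 h5) h1

private lemma card_ker_le (M Λ : ℕ) [NeZero (M * Λ)] [NeZero Λ] (hcop : M.Coprime Λ) :
    (ker M (M * Λ) (dvd_mul_right M Λ)).card ≤ Λ.totient := by
  classical
  rw [← ZMod.card_units_eq_totient, ← card_univ]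
  refine card_le_card_of_injOn (fun k => ZMod.unitsMap (dvd_mul_left Λ M) k)
    (fun _ _ => mem_coe.2 (mem_univ _)) ?_
  intro a ha b hb hab
  rw [ker, mem_coe, mem_filter] at ha hb
  have h1 : ((a : ZMod (M * Λ)).val : ZMod M) = ((b : ZMod (M * Λ)).val : ZMod M) := by
    have := congrArg (fun x : (ZMod M)ˣ => (x : ZMod M)) (ha.2.trans hb.2.symm)
    simpa [ZMod.unitsMap_val] using this
  have h2 : ((a : ZMod (M * Λ)).val : ZMod Λ) = ((b : ZMod (M * Λ)).val : ZMod Λ) := by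
    have := congrArg (fun x : (ZMod Λ)ˣ => (x : ZMod Λ)) hab
    simpa [ZMod.unitsMap_val] using this
  have h3 := (Nat.modEq_and_modEq_iff_modEq_mul hcop).1
    ⟨(ZMod.natCast_eq_natCast_iff _ _ _).1 h1, (ZMod.natCast_eq_natCast_iff _ _ _).1 h2⟩
  have h4 := (ZMod.natCast_eq_natCast_iff _ _ _).2 h3
  apply Units.ext
  simpa using h4

/-- If the sums of the characters modulo `M Λ` whose conductor does not divide `M` are small, then
every class modulo `M Λ` contains about `1 / φ(Λ)` of the subsets in its class modulo `M`. -/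
theorem cnt_le (M Λ : ℕ) (hM : 1 ≤ M) (hΛ : 1 ≤ Λ) (hcop : M.Coprime Λ) (S : Finset ℕ)
    (hS : ∀ p ∈ S, p.Coprime (M * Λ)) (t : ℕ) (ht : 1 ≤ t) (h100 : 100 * t ≤ S.card)
    (hgood : ∀ χ : DirichletCharacter ℂ (M * Λ), ¬ χ.conductor ∣ M →
      ‖∑ p ∈ S, χ (p : ZMod (M * Λ))‖ ≤ (S.card : ℝ) / 8)
    (c : ℕ) (hc : c.Coprime (M * Λ)) :
    ((cl S t M c).card : ℝ) ≤ Λ.totient *
      ((cl S t (M * Λ) c).card + (1 / 2) ^ t * (S.card.choose t : ℝ)) := by
  classical
  have hL : 1 ≤ M * Λ := Nat.mul_pos hM hΛ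
  have : NeZero (M * Λ) := ⟨by omega⟩
  have : NeZero M := ⟨by omega⟩
  have : NeZero Λ := ⟨by omega⟩
  have hML : M ∣ M * Λ := dvd_mul_right M Λ
  let u : (ZMod (M * Λ))ˣ := ZMod.unitOfCoprime c hc
  have hu : (u : ZMod (M * Λ)) = (c : ZMod (M * Λ)) := ZMod.coe_unitOfCoprime c hc
  let n : (ZMod (M * Λ))ˣ → ℕ := fun v =>
    ((S.powersetCard t).filter fun A => ((∏ p ∈ A, p : ℕ) : ZMod (M * Λ)) = v).card
  set N := ker M (M * Λ) hML with hN
  set E : ℝ := (1 / 2) ^ t * (S.card.choose t : ℝ) with hE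
  have hE0 : 0 ≤ E := by positivity
  have hnu : n u = (cl S t (M * Λ) c).card := by
    simp only [n, cl, hu]
    congr 1
    ext A
    rw [mem_filter, mem_filter, ZMod.natCast_eq_natCast_iff]
  -- the classes modulo M
  have hT : (cl S t M c).card = ∑ k ∈ N, n (u * k) := by
    have hf : ∀ A ∈ cl S t M c, ∃ v : (ZMod (M * Λ))ˣ,
        ((∏ p ∈ A, p : ℕ) : ZMod (M * Λ)) = v ∧ u⁻¹ * v ∈ N := by
      intro A hA
      rw [cl, mem_filter] at hA
      have hcp := prod_coprime S (M * Λ) hS A (mem_powersetCard.1 hA.1).1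
      refine ⟨ZMod.unitOfCoprime _ hcp, (ZMod.coe_unitOfCoprime _ hcp).symm, ?_⟩
      rw [hN, ker, mem_filter]
      refine ⟨mem_univ _, ?_⟩
      rw [map_mul, map_inv, inv_mul_eq_one]
      apply Units.ext
      rw [ZMod.unitsMap_val, ZMod.unitsMap_val, hu, ZMod.coe_unitOfCoprime, ZMod.cast_natCast hML,
        ZMod.cast_natCast hML, (ZMod.natCast_eq_natCast_iff _ _ _).2 hA.2]
    choose! v hv hvN using hf
    rw [card_eq_sum_card_fiberwise (f := fun A => u⁻¹ * v A) (t := N) hvN]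
    refine sum_congr rfl fun k hk => ?_
    simp only [n]
    congr 1
    ext A
    rw [mem_filter, mem_filter]
    constructor
    · rintro ⟨h1, h2⟩
      refine ⟨(mem_filter.1 h1).1, ?_⟩
      rw [hv A h1, ← h2]
      congr 1
      group
    · rintro ⟨h1, h2⟩
      have h3 : A ∈ cl S t M c := by
        rw [cl, mem_filter]
        refine ⟨h1, ?_⟩
        rw [← ZMod.natCast_eq_natCast_iff]
        have h4 := congrArg (ZMod.cast : ZMod (M * Λ) → ZMod M) h2
        rw [ZMod.cast_natCast hML, ← ZMod.unitsMap_val hML, map_mul] at h4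
        rw [hN, ker, mem_filter] at hk
        rw [h4, hk.2, mul_one, ZMod.unitsMap_val, hu, ZMod.cast_natCast hML]
      refine ⟨h3, ?_⟩
      have h5 : (v A : ZMod (M * Λ)) = ((u * k : (ZMod (M * Λ))ˣ) : ZMod (M * Λ)) :=
        (hv A h3).symm.trans h2
      rw [Units.ext h5]
      group
  -- characters
  have hdiff : (((cl S t M c).card : ℂ) - N.card * (n u : ℂ)) * ((M * Λ).totient : ℂ) =
      ∑ χ : DirichletCharacter ℂ (M * Λ),
        ((∑ k ∈ N, χ (((u * k)⁻¹ : (ZMod (M * Λ))ˣ) : ZMod (M * Λ))) -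
          N.card * χ ((u⁻¹ : (ZMod (M * Λ))ˣ) : ZMod (M * Λ))) *
        ∑ A ∈ S.powersetCard t, ∏ p ∈ A, χ (p : ZMod (M * Λ)) := by
    rw [hT, Nat.cast_sum, sub_mul, sum_mul]
    have h1 : ∀ k ∈ N, ((n (u * k) : ℕ) : ℂ) * ((M * Λ).totient : ℂ) =
        ∑ χ : DirichletCharacter ℂ (M * Λ), χ (((u * k)⁻¹ : (ZMod (M * Λ))ˣ) : ZMod (M * Λ)) *
          ∑ A ∈ S.powersetCard t, ∏ p ∈ A, χ (p : ZMod (M * Λ)) :=
      fun k _ => card_unit S t (M * Λ) (u * k)
    rw [sum_congr rfl h1, sum_comm, mul_assoc, card_unit S t (M * Λ) u, mul_sum, ← sum_sub_distrib]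
    refine sum_congr rfl fun χ _ => ?_
    rw [sub_mul, sum_mul, mul_assoc]
  have hbd : ∀ χ : DirichletCharacter ℂ (M * Λ),
      ‖((∑ k ∈ N, χ (((u * k)⁻¹ : (ZMod (M * Λ))ˣ) : ZMod (M * Λ))) -
          N.card * χ ((u⁻¹ : (ZMod (M * Λ))ˣ) : ZMod (M * Λ))) *
        ∑ A ∈ S.powersetCard t, ∏ p ∈ A, χ (p : ZMod (M * Λ))‖ ≤ N.card * E := by
    intro χ
    by_cases hχ : χ.FactorsThrough M
    · rw [hN, sum_ker_one M (M * Λ) hML χ hχ u, sub_self, zero_mul, norm_zero]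
      positivity
    · have hcond : ¬ χ.conductor ∣ M := fun hd =>
        hχ (DirichletCharacter.FactorsThrough.mono χ χ.factorsThrough_conductor hd hML)
      rw [hN, sum_ker_zero M (M * Λ) hML χ hχ u, zero_sub, norm_mul, norm_neg, norm_mul,
        Complex.norm_natCast]
      have h6 := esb S (fun p => χ (p : ZMod (M * Λ))) (fun p _ => χ.norm_le_one _)
        (hgood χ hcond) t ht h100
      have h7 := χ.norm_le_one ((u⁻¹ : (ZMod (M * Λ))ˣ) : ZMod (M * Λ))
      refine mul_le_mul ?_ h6 (norm_nonneg _) (Nat.cast_nonneg _)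
      exact mul_le_of_le_one_right (Nat.cast_nonneg _) h7
  have hcardχ : (Fintype.card (DirichletCharacter ℂ (M * Λ)) : ℝ) = (M * Λ).totient := by
    rw [← Nat.card_eq_fintype_card, DirichletCharacter.card_eq_totient_of_hasEnoughRootsOfUnity]
  have hφ : (0 : ℝ) < (M * Λ).totient := by exact_mod_cast Nat.totient_pos.2 (by omega)
  have h7 : ‖(((cl S t M c).card : ℂ) - N.card * (n u : ℂ)) * ((M * Λ).totient : ℂ)‖ ≤
      (M * Λ).totient * (N.card * E) := by
    rw [hdiff]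
    refine (norm_sum_le _ _).trans ((sum_le_sum fun χ _ => hbd χ).trans ?_)
    rw [sum_const, card_univ, nsmul_eq_mul, hcardχ]
  rw [norm_mul, Complex.norm_natCast, mul_comm] at h7
  have h8 := le_of_mul_le_mul_left h7 hφ
  have h9 : ((cl S t M c).card : ℝ) - N.card * n u ≤
      ‖((cl S t M c).card : ℂ) - N.card * (n u : ℂ)‖ := by
    have : ((cl S t M c).card : ℂ) - N.card * (n u : ℂ) =
        ((((cl S t M c).card : ℝ) - N.card * n u : ℝ) : ℂ) := by push_cast; ring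
    rw [this, Complex.norm_real]
    exact le_abs_self _
  have hNle : (N.card : ℝ) ≤ Λ.totient := by exact_mod_cast card_ker_le M Λ hcop
  rw [← hnu]
  calc ((cl S t M c).card : ℝ) ≤ N.card * (n u + E) := by linarith
    _ ≤ _ := mul_le_mul_of_nonneg_right hNle (by positivity)

end Pool.Agent.Lib.MP_a260de_nt.CN
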