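import Pool.Agent.Lib.MP_a260de_nt.CN.CountW
import Pool.Agent.Lib.MP_a260de_nt.CN.Cnt

/-!
MP_a260de_nt, PROJECT CN, parts G and D (helper14, helper39): S_Pop and S_Count.
-/

set_option autoImplicit false

namespace Pool.Agent.Lib.MP_a260de_nt.CN

open Finset

lemma cnt_eq_cl (M : ℕ) (S : Finset ℕ) (t c : ℕ) : cnt M S t c = (cl S t M c).card := by
  unfold cnt cl
  congr 1

theorem sPop : S_Pop :=
  pop_of fun M t S hM hS => by
    obtain ⟨g, _, hg, h⟩ := popular S t M hM hS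
    refine ⟨g, hg, ?_⟩
    rw [cnt_eq_cl]
    exact_mod_cast h

theorem sCount : S_Count :=
  count_of fun M Λ t c S hM hΛ hMΛ ht htS hS hgood hc => by
    rw [cnt_eq_cl, cnt_eq_cl]
    exact cnt_le M Λ hM hΛ hMΛ S hS t ht htS hgood c hc

end Pool.Agent.Lib.MP_a260de_nt.CN
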