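import Pool.Agent.Lib.MP_a260de_nt.CN.SpecU

/-!
MP_a260de_nt, PROJECT CN, part U, module U1: splitting of a conductor c dividing M L, where L is
coprime to M.
-/

set_option autoImplicit false

namespace Pool.Agent.Lib.MP_a260de_nt.CN

open Finset

/-- Module U1 -/
theorem t_USplit : S_USplit := by
  intro c M L W hc hM hL hcop hdvd hnd hR
  have h1 : c = c.gcd M * c.gcd L := by
    have h := Nat.Coprime.gcd_mul c (Nat.Coprime.symm hcop)
    rw [Nat.gcd_eq_left hdvd] at h
    exact h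
  have hg : 0 < c.gcd M := Nat.gcd_pos_of_pos_left M hc
  have h2 : c / c.gcd M = c.gcd L := by
    conv_lhs => lhs; rw [h1]
    exact Nat.mul_div_cancel_left _ hg
  have h3 : 0 < c.gcd L := Nat.gcd_pos_of_pos_left L hc
  have h4 : c.gcd L ∣ L := Nat.gcd_dvd_right c L
  have h5 : Rough W (c.gcd L) := fun q hq hqd => hR q hq (hqd.trans h4)
  have h6 : c.gcd L ≠ 1 := by
    intro h
    rw [h, mul_one] at h1
    exact hnd (h1 ▸ Nat.gcd_dvd_right c M)
  rw [h2]
  refine ⟨h4, h5, h3, ?_, ?_⟩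
  · have hq := Nat.minFac_prime h6
    exact (h5 _ hq (Nat.minFac_dvd _)).trans_le (Nat.le_of_dvd h3 (Nat.minFac_dvd _))
  · have hM' : (0 : ℝ) < M := by exact_mod_cast hM
    rw [div_le_iff₀ hM']
    have h7 : c ≤ c.gcd L * M := by
      calc c = c.gcd M * c.gcd L := h1
        _ ≤ M * c.gcd L := Nat.mul_le_mul_right _ (Nat.gcd_le_right c hM)
        _ = c.gcd L * M := Nat.mul_comm _ _
    exact_mod_cast h7

end Pool.Agent.Lib.MP_a260de_nt.CN
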