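import Pool.Agent.Lib.MP_a260de_nt.CN.SpecU

set_option autoImplicit false

/-!
MP_a260de_nt, PROJECT CN, module U2: the number of triples (r1, r2, r3) with c | lcm(rho r1, rho r2, rho r3).
-/

open Finset

namespace Pool.Agent.Lib.MP_a260de_nt.CN

private noncomputable def U2_d (c : ℕ) (f : c.primeFactors → Fin 3) (i : Fin 3) : ℕ :=
  ∏ p : c.primeFactors, if f p = i then (p : ℕ) ^ (c.factorization p) else 1

private lemma U2_mul (c : ℕ) (hc : 0 < c) (f : c.primeFactors → Fin 3) :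
    U2_d c f 0 * U2_d c f 1 * U2_d c f 2 = c := by
  unfold U2_d
  rw [← Finset.prod_mul_distrib, ← Finset.prod_mul_distrib]
  have h : ∀ p : c.primeFactors, ((if f p = 0 then (p : ℕ) ^ (c.factorization p) else 1) *
      (if f p = 1 then (p : ℕ) ^ (c.factorization p) else 1)) *
      (if f p = 2 then (p : ℕ) ^ (c.factorization p) else 1) = (p : ℕ) ^ (c.factorization p) := by
    intro p
    generalize f p = i
    fin_cases i <;> simp
  rw [Finset.prod_congr rfl (fun p _ => h p)]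
  rw [Finset.prod_coe_sort c.primeFactors (fun p => p ^ c.factorization p)]
  exact Nat.prod_factorization_pow_eq_self hc.ne'

private lemma U2_dvd (c : ℕ) (f : c.primeFactors → Fin 3) (i : Fin 3) (a : ℕ)
    (h : ∀ p : c.primeFactors, f p = i → (p : ℕ) ^ (c.factorization p) ∣ a) : U2_d c f i ∣ a := by
  unfold U2_d
  refine Finset.prod_dvd_of_isRelPrime ?_ ?_
  · intro p _ q _ hpq
    change IsRelPrime (if f p = i then (p : ℕ) ^ (c.factorization p) else 1)
      (if f q = i then (q : ℕ) ^ (c.factorization q) else 1)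
    rw [← Nat.coprime_iff_isRelPrime]
    have hne : (p : ℕ) ≠ q := fun h => hpq (Subtype.ext h)
    have hp := Nat.prime_of_mem_primeFactors p.2
    have hq := Nat.prime_of_mem_primeFactors q.2
    have hco : (p : ℕ).Coprime q := (Nat.coprime_primes hp hq).2 hne
    split_ifs
    · exact Nat.Coprime.pow _ _ hco
    · exact Nat.coprime_one_right _
    · exact Nat.coprime_one_left _
    · exact Nat.coprime_one_left _
  · intro p _
    split_ifs with hp
    · exact h p hp
    · exact one_dvd _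

private lemma U2_card (G : Finset ℕ) (ρ : ℕ → ℕ) (R d : ℕ) (_hd : 0 < d)
    (hG : ∀ r ∈ G, 2 ≤ r ∧ r ≤ R ∧ ρ r ∣ r - 1) :
    ((G.filter (fun r => d ∣ ρ r)).card : ℝ) ≤ (R : ℝ) / d := by
  have h1 : (G.filter (fun r => d ∣ ρ r)).card ≤
      ((Finset.range R).filter (fun e => d ∣ e + 1)).card := by
    refine Finset.card_le_card_of_injOn (fun r => r - 2) ?_ ?_
    · intro r hr
      rw [Finset.mem_coe, Finset.mem_filter] at hr
      obtain ⟨h2, h3, h4⟩ := hG r hr.1
      rw [Finset.mem_coe, Finset.mem_filter, Finset.mem_range]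
      refine ⟨show r - 2 < R by omega, ?_⟩
      have h5 : r - 2 + 1 = r - 1 := by omega
      show d ∣ r - 2 + 1
      rw [h5]
      exact hr.2.trans h4
    · intro r hr s hs h
      rw [Finset.mem_coe, Finset.mem_filter] at hr hs
      have h2 := (hG r hr.1).1
      have h3 := (hG s hs.1).1
      have h4 : r - 2 = s - 2 := h
      omega
  rw [Nat.card_multiples] at h1
  calc ((G.filter (fun r => d ∣ ρ r)).card : ℝ) ≤ ((R / d : ℕ) : ℝ) := by exact_mod_cast h1
    _ ≤ (R : ℝ) / d := Nat.cast_div_le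

private lemma U2_lcm (p k a b e : ℕ) (hp : p.Prime) (ha : a ≠ 0) (hb : b ≠ 0) (he : e ≠ 0)
    (h : p ^ k ∣ a.lcm (b.lcm e)) : ∃ i : Fin 3, (i = 0 → p ^ k ∣ a) ∧ (i = 1 → p ^ k ∣ b) ∧
      (i = 2 → p ^ k ∣ e) := by
  have hbe : b.lcm e ≠ 0 := Nat.lcm_ne_zero hb he
  have h0 : a.lcm (b.lcm e) ≠ 0 := Nat.lcm_ne_zero ha hbe
  rw [hp.pow_dvd_iff_le_factorization h0, Nat.factorization_lcm ha hbe,
    Nat.factorization_lcm hb he, Finsupp.sup_apply, Finsupp.sup_apply, le_sup_iff, le_sup_iff] at h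
  rcases h with h | h | h
  · exact ⟨0, fun _ => (hp.pow_dvd_iff_le_factorization ha).2 h, fun h => by simp at h,
      fun h => by simp at h⟩
  · exact ⟨1, fun h => by simp at h, fun _ => (hp.pow_dvd_iff_le_factorization hb).2 h,
      fun h => by simp at h⟩
  · exact ⟨2, fun h => by simp at h, fun h => by simp at h,
      fun _ => (hp.pow_dvd_iff_le_factorization he).2 h⟩

theorem t_UCount : S_UCount := by
  intro G ρ R c hc hG
  classical
  set T : (c.primeFactors → Fin 3) → Fin 3 → Finset ℕ :=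
    fun f i => G.filter (fun r => U2_d c f i ∣ ρ r) with hT
  have hsub : (G ×ˢ G ×ˢ G).filter (fun t =>
      c ∣ (ρ t.1).lcm ((ρ t.2.1).lcm (ρ t.2.2))) ⊆
      (Finset.univ : Finset (c.primeFactors → Fin 3)).biUnion
        (fun f => T f 0 ×ˢ T f 1 ×ˢ T f 2) := by
    intro t ht
    rw [Finset.mem_filter, Finset.mem_product, Finset.mem_product] at ht
    obtain ⟨⟨h1, h2, h3⟩, h4⟩ := ht
    have hne : ∀ r ∈ G, ρ r ≠ 0 := by
      intro r hr h0
      obtain ⟨h5, h6, h7⟩ := hG r hr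
      rw [h0, zero_dvd_iff] at h7
      omega
    have h5 : ∀ p : c.primeFactors, ∃ i : Fin 3,
        (i = 0 → (p : ℕ) ^ (c.factorization p) ∣ ρ t.1) ∧
        (i = 1 → (p : ℕ) ^ (c.factorization p) ∣ ρ t.2.1) ∧
        (i = 2 → (p : ℕ) ^ (c.factorization p) ∣ ρ t.2.2) := fun p =>
      U2_lcm p _ _ _ _ (Nat.prime_of_mem_primeFactors p.2) (hne _ h1) (hne _ h2) (hne _ h3)
        ((Nat.ordProj_dvd c p).trans h4)
    choose f hf using h5
    rw [Finset.mem_biUnion]
    refine ⟨f, Finset.mem_univ _, ?_⟩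
    rw [Finset.mem_product, Finset.mem_product]
    refine ⟨Finset.mem_filter.2 ⟨h1, U2_dvd c f 0 _ fun p hp => (hf p).1 hp⟩,
      Finset.mem_filter.2 ⟨h2, U2_dvd c f 1 _ fun p hp => (hf p).2.1 hp⟩,
      Finset.mem_filter.2 ⟨h3, U2_dvd c f 2 _ fun p hp => (hf p).2.2 hp⟩⟩
  have hcard : ∀ f : c.primeFactors → Fin 3,
      ((T f 0 ×ˢ T f 1 ×ˢ T f 2).card : ℝ) ≤ (R : ℝ) ^ 3 / c := by
    intro f
    have hm := U2_mul c hc f
    have hpos : 0 < U2_d c f 0 * U2_d c f 1 * U2_d c f 2 := by rw [hm]; exact hc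
    have h0 : 0 < U2_d c f 0 := by
      by_contra h
      have : U2_d c f 0 = 0 := by omega
      rw [this] at hpos
      simp at hpos
    have h1 : 0 < U2_d c f 1 := by
      by_contra h
      have : U2_d c f 1 = 0 := by omega
      rw [this] at hpos
      simp at hpos
    have h2 : 0 < U2_d c f 2 := by
      by_contra h
      have : U2_d c f 2 = 0 := by omega
      rw [this] at hpos
      simp at hpos
    have e0 := U2_card G ρ R _ h0 hG
    have e1 := U2_card G ρ R _ h1 hG
    have e2 := U2_card G ρ R _ h2 hG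
    rw [Finset.card_product, Finset.card_product]
    push_cast
    have hmR : (U2_d c f 0 : ℝ) * U2_d c f 1 * U2_d c f 2 = c := by exact_mod_cast hm
    have h0' : (0 : ℝ) < U2_d c f 0 := by exact_mod_cast h0
    have h1' : (0 : ℝ) < U2_d c f 1 := by exact_mod_cast h1
    have h2' : (0 : ℝ) < U2_d c f 2 := by exact_mod_cast h2
    calc ((T f 0).card : ℝ) * (((T f 1).card : ℝ) * ((T f 2).card : ℝ))
        ≤ ((R : ℝ) / U2_d c f 0) * (((R : ℝ) / U2_d c f 1) * ((R : ℝ) / U2_d c f 2)) := by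
          gcongr
      _ = (R : ℝ) ^ 3 / (U2_d c f 0 * U2_d c f 1 * U2_d c f 2) := by
          field_simp
      _ = (R : ℝ) ^ 3 / c := by rw [hmR]
  calc (((G ×ˢ G ×ˢ G).filter (fun t =>
      c ∣ (ρ t.1).lcm ((ρ t.2.1).lcm (ρ t.2.2)))).card : ℝ)
      ≤ (((Finset.univ : Finset (c.primeFactors → Fin 3)).biUnion
        (fun f => T f 0 ×ˢ T f 1 ×ˢ T f 2)).card : ℝ) := by
        exact_mod_cast Finset.card_le_card hsub
    _ ≤ ∑ f : c.primeFactors → Fin 3, ((T f 0 ×ˢ T f 1 ×ˢ T f 2).card : ℝ) := by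
        exact_mod_cast Finset.card_biUnion_le
    _ ≤ ∑ _f : c.primeFactors → Fin 3, (R : ℝ) ^ 3 / c :=
        Finset.sum_le_sum fun f _ => hcard f
    _ = 3 ^ c.primeFactors.card * (R : ℝ) ^ 3 / c := by
        rw [Finset.sum_const, Finset.card_univ, Fintype.card_fun, Fintype.card_coe,
          Fintype.card_fin, nsmul_eq_mul]
        push_cast
        ring

end Pool.Agent.Lib.MP_a260de_nt.CN
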