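import Pool.Agent.Lib.MP_a260de_nt.CN.SpecU

/-!
# MP_a260de_nt, project CN, module U3: three to the number of prime factors
-/

set_option autoImplicit false

namespace Pool.Agent.Lib.MP_a260de_nt.CN

theorem t_UOmega : S_UOmega := by
  intro c W hc hW hR
  have h1 : W ^ c.primeFactors.card ≤ c := by
    have h2 : ∏ _p ∈ c.primeFactors, W ≤ ∏ p ∈ c.primeFactors, p :=
      Finset.prod_le_prod' fun p hp =>
        (hR p (Nat.prime_of_mem_primeFactors hp) (Nat.dvd_of_mem_primeFactors hp)).le
    rw [Finset.prod_const] at h2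
    exact h2.trans (Nat.le_of_dvd hc (Nat.prod_primeFactors_dvd c))
  have hc' : (0 : ℝ) < c := by exact_mod_cast hc
  have hW1 : (1 : ℝ) < W := by exact_mod_cast (by omega : 1 < W)
  have hlW : 0 < Real.log W := Real.log_pos hW1
  have hl3 : 0 < Real.log 3 := Real.log_pos (by norm_num)
  have h3 : (c.primeFactors.card : ℝ) * Real.log W ≤ Real.log c := by
    rw [← Real.log_pow]
    refine Real.log_le_log (by positivity) ?_
    exact_mod_cast h1
  have h4 : (c.primeFactors.card : ℝ) ≤ Real.log c / Real.log W := by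
    rw [le_div_iff₀ hlW]
    exact h3
  rw [Real.rpow_def_of_pos hc']
  have h5 : (3 : ℝ) ^ c.primeFactors.card = Real.exp (c.primeFactors.card * Real.log 3) := by
    rw [← Real.log_pow, Real.exp_log (by positivity)]
  rw [h5]
  refine Real.exp_le_exp.2 ?_
  calc (c.primeFactors.card : ℝ) * Real.log 3 ≤ Real.log c / Real.log W * Real.log 3 :=
        mul_le_mul_of_nonneg_right h4 hl3.le
    _ = Real.log c * (Real.log 3 / Real.log W) := by ring

end Pool.Agent.Lib.MP_a260de_nt.CN
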