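import Pool.Agent.Lib.MP_a260de_nt.CN.SpecU

/-!
MP_a260de_nt, PROJECT CN, module U4: dyadic sum of c(b)^(-s) from a counting bound.
-/

set_option autoImplicit false

open Finset

namespace Pool.Agent.Lib.MP_a260de_nt.CN

private lemma U4_geom (r : ℝ) (h0 : 0 < r) (h1 : r < 1) (N : ℕ) :
    ∑ i ∈ range N, r ^ i ≤ 1 / (1 - r) := by
  have h : (∑ i ∈ range N, r ^ i) * (1 - r) = 1 - r ^ N := by
    have := geom_sum_mul r N
    linarith [this]
  rw [le_div_iff₀ (by linarith), h]
  have : 0 < r ^ N := pow_pos h0 N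
  linarith

theorem t_UDyad : S_UDyad := by
  intro ι B c W X k s hW hk hks hB hQ
  classical
  have hWr : (0 : ℝ) < W := by exact_mod_cast hW
  set ind : ι → ℕ := fun b => Nat.log 2 (c b / W) with hind
  have hi1 : ∀ b ∈ B, 2 ^ (ind b) * W ≤ c b := by
    intro b hb
    have h1 : c b / W ≠ 0 := by
      have := Nat.div_pos (hB b hb).1 hW
      omega
    have h2 : 2 ^ (Nat.log 2 (c b / W)) ≤ c b / W := Nat.pow_log_le_self 2 h1
    calc 2 ^ (ind b) * W ≤ (c b / W) * W := Nat.mul_le_mul_right W h2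
      _ ≤ c b := Nat.div_mul_le_self _ _
  have hi2 : ∀ b ∈ B, c b < 2 ^ (ind b + 1) * W := by
    intro b hb
    have h2 : c b / W < 2 ^ (Nat.log 2 (c b / W) + 1) := Nat.lt_pow_succ_log_self (by norm_num) _
    exact (Nat.div_lt_iff_lt_mul hW).1 h2
  set N : ℕ := B.sup ind + 1 with hN
  have hmap : ∀ b ∈ B, ind b ∈ range N := by
    intro b hb
    rw [mem_range]
    have := Finset.le_sup (f := ind) hb
    omega
  have hs : 0 < s := by linarith
  set r : ℝ := (2 : ℝ) ^ (k - s) with hr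
  have hr0 : 0 < r := Real.rpow_pos_of_pos (by norm_num) _
  have hr1 : r < 1 := Real.rpow_lt_one_of_one_lt_of_neg (by norm_num) (by linarith)
  have hfib : ∀ i ∈ range N, ∑ b ∈ B with ind b = i, (c b : ℝ) ^ (-s) ≤
      (2 ^ k * (W : ℝ) ^ (k - s)) * r ^ i := by
    intro i _
    have hrhs : 0 ≤ (2 ^ k * (W : ℝ) ^ (k - s)) * r ^ i := by positivity
    rcases (B.filter (fun b => ind b = i)).eq_empty_or_nonempty with he | ⟨b0, hb0⟩
    · rw [he, sum_empty]
      exact hrhs
    · rw [mem_filter] at hb0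
      have hcard : (((B.filter (fun b => ind b = i)).card : ℕ) : ℝ) ≤ ((2 ^ (i + 1) * W : ℕ) : ℝ) ^ k := by
        have hsub : B.filter (fun b => ind b = i) ⊆ B.filter (fun b => c b ≤ 2 ^ (i + 1) * W) := by
          intro b hb
          rw [mem_filter] at hb ⊢
          refine ⟨hb.1, ?_⟩
          have := hi2 b hb.1
          rw [hb.2] at this
          exact this.le
        have h1 : W ≤ 2 ^ (i + 1) * W := Nat.le_mul_of_pos_left W (by positivity)
        have h2 : ((2 ^ (i + 1) * W : ℕ) : ℝ) ≤ 2 * X := by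
          have h3 := hi1 b0 hb0.1
          rw [hb0.2] at h3
          have h4 := (hB b0 hb0.1).2
          have h5 : ((2 ^ i * W : ℕ) : ℝ) ≤ (c b0 : ℝ) := by exact_mod_cast h3
          push_cast at h5 ⊢
          rw [pow_succ]
          nlinarith
        calc (((B.filter (fun b => ind b = i)).card : ℕ) : ℝ)
            ≤ ((B.filter (fun b => c b ≤ 2 ^ (i + 1) * W)).card : ℝ) := by
              exact_mod_cast card_le_card hsub
          _ ≤ _ := hQ _ h1 h2
      have hterm : ∀ b ∈ B.filter (fun b => ind b = i), (c b : ℝ) ^ (-s) ≤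
          ((2 : ℝ) ^ i * W) ^ (-s) := by
        intro b hb
        rw [mem_filter] at hb
        have h3 := hi1 b hb.1
        rw [hb.2] at h3
        have h5 : ((2 ^ i * W : ℕ) : ℝ) ≤ (c b : ℝ) := by exact_mod_cast h3
        push_cast at h5
        exact Real.rpow_le_rpow_of_nonpos (by positivity) h5 (by linarith)
      calc ∑ b ∈ B with ind b = i, (c b : ℝ) ^ (-s)
          ≤ ∑ b ∈ B with ind b = i, ((2 : ℝ) ^ i * W) ^ (-s) := sum_le_sum hterm
        _ = (((B.filter (fun b => ind b = i)).card : ℕ) : ℝ) * ((2 : ℝ) ^ i * W) ^ (-s) := by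
            rw [sum_const, nsmul_eq_mul]
        _ ≤ ((2 ^ (i + 1) * W : ℕ) : ℝ) ^ k * ((2 : ℝ) ^ i * W) ^ (-s) := by
            apply mul_le_mul_of_nonneg_right hcard
            positivity
        _ = (2 ^ k * (W : ℝ) ^ (k - s)) * r ^ i := by
            have e1 : ((2 ^ (i + 1) * W : ℕ) : ℝ) = 2 * ((2 : ℝ) ^ i * W) := by
              push_cast
              ring
            have hpos : (0 : ℝ) < (2 : ℝ) ^ i * W := by positivity
            have e2 : ((2 : ℝ) ^ i * W) ^ k * ((2 : ℝ) ^ i * W) ^ (-s) = ((2 : ℝ) ^ i * W) ^ (k - s) := by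
              rw [← Real.rpow_add hpos]
              congr 1
            rw [e1, Real.mul_rpow (by norm_num) hpos.le, mul_assoc, e2,
              Real.mul_rpow (by positivity) hWr.le]
            have e3 : ((2 : ℝ) ^ i) ^ (k - s) = r ^ i := by
              rw [hr, ← Real.rpow_natCast, ← Real.rpow_natCast, ← Real.rpow_mul (by norm_num),
                ← Real.rpow_mul (by norm_num), mul_comm]
            rw [e3]
            ring
  calc ∑ b ∈ B, (c b : ℝ) ^ (-s)
      = ∑ i ∈ range N, ∑ b ∈ B with ind b = i, (c b : ℝ) ^ (-s) :=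
        (Finset.sum_fiberwise_of_maps_to hmap _).symm
    _ ≤ ∑ i ∈ range N, (2 ^ k * (W : ℝ) ^ (k - s)) * r ^ i := sum_le_sum hfib
    _ = (2 ^ k * (W : ℝ) ^ (k - s)) * ∑ i ∈ range N, r ^ i := by rw [mul_sum]
    _ ≤ (2 ^ k * (W : ℝ) ^ (k - s)) * (1 / (1 - r)) := by
        apply mul_le_mul_of_nonneg_left (U4_geom r hr0 hr1 N)
        positivity
    _ = 2 ^ k * (W : ℝ) ^ (k - s) / (1 - 2 ^ (k - s)) := by
        rw [mul_one_div, hr]

end Pool.Agent.Lib.MP_a260de_nt.CN
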