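import Pool.Agent.Lib.MP_a260de_nt.CN.SpecU

set_option autoImplicit false

/-! MP_a260de_nt, PROJECT CN, module U5 (seat helper25): union bound over the bad characters. -/

open Finset

namespace Pool.Agent.Lib.MP_a260de_nt.CN

private lemma U5_rho {M R W r : ℕ} (hg : Good M R W r) :
    2 ≤ r ∧ r ≤ R ∧ rho M r ∣ r - 1 ∧ 0 < rho M r ∧ rho M r ≤ R := by
  obtain ⟨h1, _, h3, _, _⟩ := hg
  have h2 : 2 ≤ r := h1.two_le
  have hr : 0 < r - 1 := by omega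
  have hd : Nat.gcd (r - 1) M ∣ r - 1 := Nat.gcd_dvd_left _ _
  have hdv : rho M r ∣ r - 1 := Nat.div_dvd_of_dvd hd
  have hg0 : 0 < Nat.gcd (r - 1) M := Nat.gcd_pos_of_pos_left _ hr
  have hp : 0 < rho M r := Nat.div_pos (Nat.le_of_dvd hr hd) hg0
  have hle : rho M r ≤ r - 1 := Nat.le_of_dvd hr hdv
  exact ⟨h2, h3, hdv, hp, by omega⟩

private lemma U5_lam {M R W : ℕ} {t : ℕ × ℕ × ℕ} (g1 : Good M R W t.1) (g2 : Good M R W t.2.1)
    (g3 : Good M R W t.2.2) :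
    0 < lam M t ∧ lam M t ≤ R ^ 3 ∧ (lam M t).Coprime M ∧ Rough W (lam M t) := by
  obtain ⟨-, -, -, p1, l1⟩ := U5_rho g1
  obtain ⟨-, -, -, p2, l2⟩ := U5_rho g2
  obtain ⟨-, -, -, p3, l3⟩ := U5_rho g3
  have hdvd : lam M t ∣ rho M t.1 * (rho M t.2.1 * rho M t.2.2) :=
    (Nat.lcm_dvd_mul _ _).trans (mul_dvd_mul_left _ (Nat.lcm_dvd_mul _ _))
  have hpos : 0 < rho M t.1 * (rho M t.2.1 * rho M t.2.2) := Nat.mul_pos p1 (Nat.mul_pos p2 p3)
  refine ⟨Nat.lcm_pos p1 (Nat.lcm_pos p2 p3), ?_, ?_, ?_⟩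
  · refine (Nat.le_of_dvd hpos hdvd).trans ?_
    calc rho M t.1 * (rho M t.2.1 * rho M t.2.2) ≤ R * (R * R) :=
          Nat.mul_le_mul l1 (Nat.mul_le_mul l2 l3)
      _ = R ^ 3 := by ring
  · exact Nat.Coprime.coprime_dvd_left hdvd
      (Nat.Coprime.mul_left g1.2.2.2.1 (Nat.Coprime.mul_left g2.2.2.2.1 g3.2.2.2.1))
  · intro q hq hqd
    rcases (hq.dvd_mul.1 (hqd.trans hdvd)) with h | h
    · exact g1.2.2.2.2 q hq h
    · rcases hq.dvd_mul.1 h with h | h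
      · exact g2.2.2.2.2 q hq h
      · exact g3.2.2.2.2 q hq h

/-- union bound over the bad characters -/
theorem t_USpoil (h1 : S_USplit) (h2 : S_UCount) (h3 : S_UOmega) (h4 : S_UDyad) : S_USpoil := by
  classical
  intro ι B c M R W k h hM hW hh hk hkh hB hQ
  have hWr : (2 : ℝ) ≤ (W : ℝ) := by exact_mod_cast hW
  have hlogW : 0 < Real.log W := Real.log_pos (by linarith)
  have hh0 : 0 ≤ h := by
    rw [hh]
    exact div_nonneg (Real.log_nonneg (by norm_num)) hlogW.le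
  have hMr : (1 : ℝ) ≤ (M : ℝ) := by exact_mod_cast hM
  have hgood : ∀ r ∈ goods M R W, Good M R W r := by
    intro r hr
    unfold goods at hr
    exact (Finset.mem_filter.1 hr).2
  obtain ⟨T, hT⟩ : ∃ T : Finset (ℕ × ℕ × ℕ), T = goods M R W ×ˢ goods M R W ×ˢ goods M R W :=
    ⟨_, rfl⟩
  have hTl : ∀ t ∈ T, 0 < lam M t ∧ lam M t ≤ R ^ 3 ∧ (lam M t).Coprime M ∧
      Rough W (lam M t) := by
    intro t ht
    rw [hT, Finset.mem_product, Finset.mem_product] at ht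
    exact U5_lam (hgood _ ht.1) (hgood _ ht.2.1) (hgood _ ht.2.2)
  rw [← hT]
  obtain ⟨B', hB'⟩ : ∃ B' : Finset ι, B' = B.filter fun b => ∃ t ∈ T,
      c b ∣ M * lam M t ∧ ¬ c b ∣ M := ⟨_, rfl⟩
  have hmem : ∀ b ∈ B', b ∈ B ∧ ∃ t ∈ T, c b ∣ M * lam M t ∧ ¬ c b ∣ M := by
    intro b hb
    rw [hB'] at hb
    exact Finset.mem_filter.1 hb
  -- the facts on one modulus
  have hfact : ∀ b ∈ B', Rough W (c b / (c b).gcd M) ∧ 0 < c b / (c b).gcd M ∧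
      W < c b / (c b).gcd M ∧ (c b : ℝ) / M ≤ (c b / (c b).gcd M : ℕ) ∧
      (c b : ℝ) ≤ M * (R : ℝ) ^ 3 := by
    intro b hb
    obtain ⟨hbB, t, ht, hd, hn⟩ := hmem b hb
    obtain ⟨l0, l1, l2, l3⟩ := hTl t ht
    obtain ⟨_, s2, s3, s4, s5⟩ := h1 (c b) M (lam M t) W (hB b hbB) hM l0 l2 hd hn l3
    refine ⟨s2, s3, s4, s5, ?_⟩
    have h5 : c b ≤ M * R ^ 3 :=
      (Nat.le_of_dvd (Nat.mul_pos hM l0) hd).trans (Nat.mul_le_mul_left M l1)
    exact_mod_cast h5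
  -- the number of triples spoiled by one modulus
  have hone : ∀ b ∈ B', ((T.filter fun t => c b ∣ M * lam M t ∧ ¬ c b ∣ M).card : ℝ) ≤
      M * (R : ℝ) ^ 3 * (c b : ℝ) ^ (-(1 - h)) := by
    intro b hb
    obtain ⟨s2, s3, s4, s5, _⟩ := hfact b hb
    obtain ⟨hbB, _⟩ := hmem b hb
    have hcb : (0 : ℝ) < (c b : ℝ) := by exact_mod_cast hB b hbB
    obtain ⟨m, hm⟩ : ∃ m : ℕ, m = c b / (c b).gcd M := ⟨_, rfl⟩
    rw [← hm] at s2 s3 s4 s5
    have hm0 : (0 : ℝ) < (m : ℝ) := by exact_mod_cast s3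
    have c1 : ((T.filter fun t => c b ∣ M * lam M t ∧ ¬ c b ∣ M).card : ℝ) ≤
        3 ^ m.primeFactors.card * (R : ℝ) ^ 3 / m := by
      refine le_trans ?_ (h2 (goods M R W) (rho M) R m s3 fun r hr => ?_)
      · rw [← hT]
        have hsub : (T.filter fun t => c b ∣ M * lam M t ∧ ¬ c b ∣ M) ⊆
            T.filter (fun t => m ∣ (rho M t.1).lcm ((rho M t.2.1).lcm (rho M t.2.2))) := by
          intro t ht
          rw [Finset.mem_filter] at ht ⊢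
          obtain ⟨htT, hd, hn⟩ := ht
          obtain ⟨l0, _, l2, l3⟩ := hTl t htT
          refine ⟨htT, ?_⟩
          have h6 := (h1 (c b) M (lam M t) W (hB b hbB) hM l0 l2 hd hn l3).1
          rw [hm]
          exact h6
        exact_mod_cast Finset.card_le_card hsub
      · obtain ⟨r1, r2, r3, _, _⟩ := U5_rho (hgood r hr)
        exact ⟨r1, r2, r3⟩
    have c2 : (3 : ℝ) ^ m.primeFactors.card ≤ (m : ℝ) ^ h := by
      rw [hh]
      exact h3 m W s3 hW s2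
    have hR3 : (0 : ℝ) ≤ (R : ℝ) ^ 3 := by positivity
    have c3 : 3 ^ m.primeFactors.card * (R : ℝ) ^ 3 / m ≤ (R : ℝ) ^ 3 * (m : ℝ) ^ (h - 1) := by
      rw [div_le_iff₀ hm0]
      calc 3 ^ m.primeFactors.card * (R : ℝ) ^ 3 ≤ (m : ℝ) ^ h * (R : ℝ) ^ 3 :=
            mul_le_mul_of_nonneg_right c2 hR3
        _ = (R : ℝ) ^ 3 * (m : ℝ) ^ (h - 1) * m := by
            rw [Real.rpow_sub_one hm0.ne']
            field_simp
    have hM0 : (0 : ℝ) < (M : ℝ) := by linarith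
    have hcM : 0 < (c b : ℝ) / M := div_pos hcb hM0
    have c4 : (m : ℝ) ^ (h - 1) ≤ ((c b : ℝ) / M) ^ (h - 1) :=
      Real.rpow_le_rpow_of_nonpos hcM s5 (by linarith)
    have c5 : ((c b : ℝ) / M) ^ (h - 1) ≤ M * (c b : ℝ) ^ (-(1 - h)) := by
      rw [Real.div_rpow hcb.le hM0.le, div_eq_mul_inv, ← Real.rpow_neg hM0.le, mul_comm]
      have e1 : -(1 - h) = h - 1 := by ring
      rw [e1]
      refine mul_le_mul_of_nonneg_right ?_ (Real.rpow_nonneg hcb.le _)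
      calc (M : ℝ) ^ (-(h - 1)) ≤ (M : ℝ) ^ (1 : ℝ) :=
            Real.rpow_le_rpow_of_exponent_le hMr (by linarith)
        _ = M := Real.rpow_one _
    calc ((T.filter fun t => c b ∣ M * lam M t ∧ ¬ c b ∣ M).card : ℝ)
        ≤ (R : ℝ) ^ 3 * (m : ℝ) ^ (h - 1) := c1.trans c3
      _ ≤ (R : ℝ) ^ 3 * (M * (c b : ℝ) ^ (-(1 - h))) :=
          mul_le_mul_of_nonneg_left (c4.trans c5) hR3
      _ = M * (R : ℝ) ^ 3 * (c b : ℝ) ^ (-(1 - h)) := by ring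
  -- the union bound
  have hcov : (T.filter fun t => ∃ b ∈ B, c b ∣ M * lam M t ∧ ¬ c b ∣ M) ⊆
      B'.biUnion fun b => T.filter fun t => c b ∣ M * lam M t ∧ ¬ c b ∣ M := by
    intro t ht
    rw [Finset.mem_filter] at ht
    obtain ⟨htT, b, hb, hd, hn⟩ := ht
    rw [Finset.mem_biUnion]
    refine ⟨b, ?_, Finset.mem_filter.2 ⟨htT, hd, hn⟩⟩
    rw [hB', Finset.mem_filter]
    exact ⟨hb, t, htT, hd, hn⟩
  have hun : ((T.filter fun t => ∃ b ∈ B, c b ∣ M * lam M t ∧ ¬ c b ∣ M).card : ℝ) ≤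
      ∑ b ∈ B', M * (R : ℝ) ^ 3 * (c b : ℝ) ^ (-(1 - h)) := by
    have u1 : (T.filter fun t => ∃ b ∈ B, c b ∣ M * lam M t ∧ ¬ c b ∣ M).card ≤
        ∑ b ∈ B', (T.filter fun t => c b ∣ M * lam M t ∧ ¬ c b ∣ M).card :=
      (Finset.card_le_card hcov).trans Finset.card_biUnion_le
    have u2 : ((T.filter fun t => ∃ b ∈ B, c b ∣ M * lam M t ∧ ¬ c b ∣ M).card : ℝ) ≤
        ∑ b ∈ B', ((T.filter fun t => c b ∣ M * lam M t ∧ ¬ c b ∣ M).card : ℝ) := by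
      exact_mod_cast u1
    exact u2.trans (Finset.sum_le_sum hone)
  have hdy := h4 ι B' c W (M * (R : ℝ) ^ 3) k (1 - h) (by omega) hk (by linarith)
    (fun b hb => by
      obtain ⟨_, _, s4, _, s6⟩ := hfact b hb
      exact ⟨(s4.le.trans (Nat.div_le_self _ _)), s6⟩)
    (fun Q hQ1 hQ2 => by
      refine le_trans ?_ (hQ Q hQ1 hQ2)
      have hs : (B'.filter fun b => c b ≤ Q) ⊆ B.filter fun b => c b ≤ Q := by
        refine Finset.filter_subset_filter _ ?_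
        intro b hb
        exact (hmem b hb).1
      exact_mod_cast Finset.card_le_card hs)
  have e2 : k - (1 - h) = k + h - 1 := by ring
  rw [e2] at hdy
  rw [← Finset.mul_sum] at hun
  refine le_trans ?_ (hun.trans (mul_le_mul_of_nonneg_left hdy (by positivity)))
  refine le_of_eq ?_
  congr 2

end Pool.Agent.Lib.MP_a260de_nt.CN
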