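import Pool.Agent.Lib.MP_a260de_nt.CN.SpecU

/-!
MP_a260de_nt, PROJECT CN, module U6: parameter inequalities for large y.
-/

set_option autoImplicit false

open Finset Filter

namespace Pool.Agent.Lib.MP_a260de_nt.CN

private lemma U6_W (K y : ℝ) (hK : 1 < K) (h1 : 1 ≤ y) (h2 : 1 / (K - 1) ≤ y) :
    Real.exp y + 1 ≤ Real.exp (K * y) := by
  have hK' : 0 < K - 1 := by linarith
  have e1 : Real.exp (K * y) = Real.exp y * Real.exp ((K - 1) * y) := by
    rw [← Real.exp_add]
    congr 1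
    ring
  have e2 : (K - 1) * y + 1 ≤ Real.exp ((K - 1) * y) := Real.add_one_le_exp _
  have e3 : 1 ≤ (K - 1) * y := by
    rw [div_le_iff₀ hK'] at h2
    linarith
  have e4 : 1 ≤ Real.exp y := by
    have := Real.add_one_le_exp y
    linarith
  rw [e1]
  nlinarith [mul_le_mul_of_nonneg_left e2 (by linarith : (0 : ℝ) ≤ Real.exp y)]

private lemma U6_last (k KM K A D y M W s : ℝ) (hk : 0 < k) (hk1 : k < 1) (hKM : 0 < KM)
    (hK : 8 * KM / (1 - k) + 1 ≤ K) (hy : 1 ≤ y) (hM : 1 ≤ M) (hMe : M ≤ Real.exp (KM * y))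
    (hW : Real.exp (K * y) / 2 ≤ W) (hs : s ≤ -(3 / 4) * (1 - k)) (hs1 : -1 ≤ s)
    (hD : D = 1 - (2 : ℝ) ^ (-(3 / 4) * (1 - k)))
    (hlast : 4 / D * (y ^ A * Real.exp (-(4 * KM) * y)) < 1) :
    M * (2 ^ k * W ^ s / (1 - 2 ^ s)) < 1 / (M * y ^ A) := by
  have h1k : 0 < 1 - k := by linarith
  have hs0 : s < 0 := by nlinarith
  have hD0 : 0 < D := by
    rw [hD]
    have : (2 : ℝ) ^ (-(3 / 4) * (1 - k)) < 1 :=
      Real.rpow_lt_one_of_one_lt_of_neg (by norm_num) (by nlinarith)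
    linarith
  have hD1 : D ≤ 1 - (2 : ℝ) ^ s := by
    rw [hD]
    have : (2 : ℝ) ^ s ≤ (2 : ℝ) ^ (-(3 / 4) * (1 - k)) :=
      Real.rpow_le_rpow_of_exponent_le (by norm_num) hs
    linarith
  have hyA : 0 < y ^ A := Real.rpow_pos_of_pos (by linarith) A
  have hM0 : 0 < M := by linarith
  have hE : 0 < Real.exp (K * y) := Real.exp_pos _
  have hW0 : 0 < W := lt_of_lt_of_le (by positivity) hW
  have hWs : W ^ s ≤ 2 * Real.exp (-(6 * KM) * y) := by
    calc W ^ s ≤ (Real.exp (K * y) / 2) ^ s :=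
          Real.rpow_le_rpow_of_nonpos (by positivity) hW hs0.le
      _ = Real.exp (K * y * s) * (2 : ℝ) ^ (-s) := by
          rw [Real.div_rpow hE.le (by norm_num), ← Real.exp_mul, Real.rpow_neg (by norm_num)]
          ring
      _ ≤ Real.exp (-(6 * KM) * y) * 2 := by
          apply mul_le_mul _ _ (by positivity) (Real.exp_pos _).le
          · rw [Real.exp_le_exp]
            have a1 : 8 * KM + (1 - k) ≤ K * (1 - k) := by
              have := mul_le_mul_of_nonneg_right hK h1k.le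
              rw [add_mul, div_mul_cancel₀ _ h1k.ne'] at this
              linarith
            have a2 : 0 < K := by
              have : 0 < 8 * KM / (1 - k) := by positivity
              linarith
            have a3 : K * y * s ≤ K * y * (-(3 / 4) * (1 - k)) :=
              mul_le_mul_of_nonneg_left hs (by positivity)
            have a4 : 0 ≤ y * (K * (1 - k) - (8 * KM + (1 - k))) := by
              apply mul_nonneg <;> linarith
            have a5 : 0 ≤ y * (1 - k) := by positivity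
            nlinarith
          · calc (2 : ℝ) ^ (-s) ≤ (2 : ℝ) ^ (1 : ℝ) :=
                Real.rpow_le_rpow_of_exponent_le (by norm_num) (by linarith)
              _ = 2 := Real.rpow_one 2
      _ = 2 * Real.exp (-(6 * KM) * y) := by ring
  have h2k : (2 : ℝ) ^ k ≤ 2 := by
    calc (2 : ℝ) ^ k ≤ (2 : ℝ) ^ (1 : ℝ) :=
          Real.rpow_le_rpow_of_exponent_le (by norm_num) hk1.le
      _ = 2 := Real.rpow_one 2
  have h2k0 : 0 < (2 : ℝ) ^ k := Real.rpow_pos_of_pos (by norm_num) k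
  rw [lt_div_iff₀ (by positivity)]
  have hWs0 : 0 < W ^ s := Real.rpow_pos_of_pos hW0 s
  have hq : 2 ^ k * W ^ s / (1 - 2 ^ s) ≤ 2 * (2 * Real.exp (-(6 * KM) * y)) / D := by
    apply div_le_div₀ (by positivity) _ hD0 hD1
    exact mul_le_mul h2k hWs hWs0.le (by norm_num)
  calc M * (2 ^ k * W ^ s / (1 - 2 ^ s)) * (M * y ^ A)
      = (M * M) * (2 ^ k * W ^ s / (1 - 2 ^ s)) * y ^ A := by ring
    _ ≤ (Real.exp (KM * y) * Real.exp (KM * y)) * (2 * (2 * Real.exp (-(6 * KM) * y)) / D) * y ^ A := by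
        apply mul_le_mul_of_nonneg_right _ hyA.le
        apply mul_le_mul (mul_le_mul hMe hMe hM0.le (Real.exp_pos _).le) hq
        · apply div_nonneg (by positivity)
          linarith
        · positivity
    _ = 4 / D * (y ^ A * Real.exp (-(4 * KM) * y)) := by
        have e : Real.exp (-(4 * KM) * y) = Real.exp (KM * y) * Real.exp (KM * y) *
            Real.exp (-(6 * KM) * y) := by
          rw [← Real.exp_add, ← Real.exp_add]
          congr 1
          ring
        rw [e]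
        ring
    _ < 1 := hlast

theorem t_UPar : S_UPar := by
  intro δ k KM K A hδ hk hk1 hKM hA hK
  have h1k : 0 < 1 - k := by linarith
  have hK1 : 1 < K := by
    have : 0 < 8 * KM / (1 - k) := by positivity
    linarith
  set D : ℝ := 1 - (2 : ℝ) ^ (-(3 / 4) * (1 - k)) with hD
  have hD0 : 0 < D := by
    have : (2 : ℝ) ^ (-(3 / 4) * (1 - k)) < 1 :=
      Real.rpow_lt_one_of_one_lt_of_neg (by norm_num) (by nlinarith)
    linarith
  have f1 : ∀ᶠ y : ℝ in atTop, 4 / D * (y ^ A * Real.exp (-(4 * KM) * y)) < 1 := by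
    have t1 := tendsto_rpow_mul_exp_neg_mul_atTop_nhds_zero A (4 * KM) (by positivity)
    have t2 := t1.const_mul (4 / D)
    rw [mul_zero] at t2
    exact t2.eventually (gt_mem_nhds one_pos)
  have f2 : ∀ᶠ y : ℝ in atTop, KM + 1 ≤ y ^ δ :=
    (tendsto_rpow_atTop hδ).eventually (eventually_ge_atTop _)
  have f3 : ∀ᶠ y : ℝ in atTop, 1 ≤ y ∧ 1 / (K - 1) ≤ y ∧ 4 * Real.log 3 / (1 - k) ≤ y :=
    (eventually_ge_atTop _).and ((eventually_ge_atTop _).and (eventually_ge_atTop _))
  have f := tendsto_natCast_atTop_atTop.eventually (f1.and (f2.and f3))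
  obtain ⟨y0, hy0⟩ := eventually_atTop.1 f
  refine ⟨y0, ?_⟩
  intro y M hy hM hMe
  obtain ⟨g1, g2, g3, g4, g5⟩ := hy0 y hy
  have hM1 : (1 : ℝ) ≤ M := by exact_mod_cast hM
  have hexp := U6_W K y hK1 g3 g4
  have he2 : (2 : ℝ) ≤ Real.exp y := by
    have := Real.add_one_le_exp (y : ℝ)
    linarith
  have hfl : Real.exp (K * y) - 1 < (WW y K : ℝ) := by
    rw [WW]
    have := Nat.lt_floor_add_one (Real.exp (K * y))
    linarith
  have hWe : Real.exp y ≤ (WW y K : ℝ) := by linarith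
  have hW2 : (2 : ℝ) ≤ (WW y K : ℝ) := by linarith
  have hW2' : 2 ≤ WW y K := by exact_mod_cast hW2
  have hlogW : (y : ℝ) ≤ Real.log (WW y K) := by
    rw [Real.le_log_iff_exp_le (by linarith)]
    exact hWe
  have hlog3 : 0 < Real.log 3 := Real.log_pos (by norm_num)
  have hh : Real.log 3 / Real.log (WW y K) ≤ (1 - k) / 4 := by
    rw [div_le_iff₀ (by linarith)]
    rw [div_le_iff₀ h1k] at g5
    nlinarith
  have hh0 : 0 < Real.log 3 / Real.log (WW y K) := div_pos hlog3 (by linarith)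
  have hy0' : (0 : ℝ) < y := by linarith
  refine ⟨by exact_mod_cast g3, hW2', hWe, ?_, ?_, by linarith, ?_⟩
  · rw [RR]
    apply Nat.le_floor
    rw [Nat.cast_one]
    exact Real.one_le_exp (Real.rpow_nonneg hy0'.le _)
  · have hR : (RR y δ : ℝ) ≤ Real.exp ((y : ℝ) ^ (1 + δ)) := Nat.floor_le (Real.exp_pos _).le
    have hR3 : (RR y δ : ℝ) ^ 3 ≤ Real.exp (3 * (y : ℝ) ^ (1 + δ)) := by
      calc (RR y δ : ℝ) ^ 3 ≤ Real.exp ((y : ℝ) ^ (1 + δ)) ^ 3 :=
            pow_le_pow_left₀ (Nat.cast_nonneg _) hR 3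
        _ = Real.exp (3 * (y : ℝ) ^ (1 + δ)) := by
            rw [← Real.exp_nat_mul]
            norm_num
    have hlog2 : Real.log 2 ≤ 1 := by
      have := Real.log_two_lt_d9
      linarith
    have hyd : (y : ℝ) ^ (1 + δ) = y * (y : ℝ) ^ δ := by
      rw [Real.rpow_add hy0', Real.rpow_one]
    have hmain : Real.log 2 + KM * y ≤ (y : ℝ) ^ (1 + δ) := by
      rw [hyd]
      nlinarith
    calc 2 * (M * (RR y δ : ℝ) ^ 3) ≤ 2 * (Real.exp (KM * y) * Real.exp (3 * (y : ℝ) ^ (1 + δ))) := by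
          apply mul_le_mul_of_nonneg_left _ (by norm_num)
          exact mul_le_mul hMe hR3 (by positivity) (Real.exp_pos _).le
      _ = Real.exp (Real.log 2 + KM * y + 3 * (y : ℝ) ^ (1 + δ)) := by
          rw [Real.exp_add, Real.exp_add, Real.exp_log (by norm_num)]
          ring
      _ ≤ Real.exp (4 * (y : ℝ) ^ (1 + δ)) := by
          rw [Real.exp_le_exp]
          linarith
  · apply U6_last k KM K A D y M (WW y K) (k + Real.log 3 / Real.log (WW y K) - 1) hk hk1 hKM hK g3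
      hM1 hMe _ (by nlinarith) (by linarith) hD g1
    have : 2 ≤ Real.exp (K * y) := by linarith
    linarith

end Pool.Agent.Lib.MP_a260de_nt.CN
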