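import Pool.Agent.Lib.MP_a260de_nt.CN.SpecU

/-!
MP_a260de_nt, PROJECT CN, module U7: assembly of part U.
-/

set_option autoImplicit false

open Finset

namespace Pool.Agent.Lib.MP_a260de_nt.CN

private lemma U7_rho_pos {M R W r : ℕ} (h : Good M R W r) : 0 < rho M r ∧ rho M r ≤ R := by
  have h1 : 2 ≤ r := h.1.two_le
  have h2 : 0 < r - 1 := by omega
  have h3 : 0 < Nat.gcd (r - 1) M := Nat.gcd_pos_of_pos_left _ h2
  refine ⟨Nat.div_pos (Nat.le_of_dvd h2 (Nat.gcd_dvd_left _ _)) h3, ?_⟩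
  have h4 : rho M r ≤ r - 1 := Nat.div_le_self _ _
  have h5 := h.2.2.1
  omega

private lemma U7_lcm_le (a b : ℕ) (ha : 0 < a) (hb : 0 < b) : Nat.lcm a b ≤ a * b :=
  Nat.le_of_dvd (Nat.mul_pos ha hb) (Nat.lcm_dvd_mul a b)

private lemma U7_lam {M R W : ℕ} {t : ℕ × ℕ × ℕ} (h1 : Good M R W t.1) (h2 : Good M R W t.2.1)
    (h3 : Good M R W t.2.2) : 0 < lam M t ∧ lam M t ≤ R ^ 3 := by
  obtain ⟨a1, b1⟩ := U7_rho_pos h1
  obtain ⟨a2, b2⟩ := U7_rho_pos h2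
  obtain ⟨a3, b3⟩ := U7_rho_pos h3
  have c1 : 0 < Nat.lcm (rho M t.2.1) (rho M t.2.2) := Nat.lcm_pos a2 a3
  refine ⟨Nat.lcm_pos a1 c1, ?_⟩
  calc lam M t ≤ rho M t.1 * Nat.lcm (rho M t.2.1) (rho M t.2.2) := U7_lcm_le _ _ a1 c1
    _ ≤ rho M t.1 * (rho M t.2.1 * rho M t.2.2) := Nat.mul_le_mul_left _ (U7_lcm_le _ _ a2 a3)
    _ ≤ R * (R * R) := Nat.mul_le_mul b1 (Nat.mul_le_mul b2 b3)
    _ = R ^ 3 := by ring

open Classical in
/-- the pairs (q, χ), 2 ≤ q ≤ X, χ bad mod q -/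
private noncomputable def U7_B (S : Finset ℕ) (X : ℕ) :
    Finset (Σ q : ℕ, DirichletCharacter ℂ q) :=
  (Icc 2 X).sigma (fun q => univ.filter (fun χ : DirichletCharacter ℂ q => Bad S χ))

private lemma U7_count (S : Finset ℕ) (X Q : ℕ) :
    ((U7_B S X).filter (fun b => b.1 ≤ Q)).card ≤ nbad S Q := by
  classical
  have hsub : (U7_B S X).filter (fun b => b.1 ≤ Q) ⊆
      (Icc 2 Q).sigma (fun q => univ.filter (fun χ : DirichletCharacter ℂ q => Bad S χ)) := by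
    intro b hb
    rw [mem_filter, U7_B, mem_sigma, mem_Icc] at hb
    rw [mem_sigma, mem_Icc]
    exact ⟨⟨hb.1.1.1, hb.2⟩, hb.1.2⟩
  calc ((U7_B S X).filter (fun b => b.1 ≤ Q)).card ≤ _ := card_le_card hsub
    _ = nbad S Q := by
      rw [card_sigma, nbad]

theorem t_Union (h5 : S_USpoil) (h6 : S_UPar) : S_Union := by
  intro δ κ KM K A hδ hκ hκ1 hKM hA hK
  obtain ⟨y0, hy0⟩ := h6 δ κ KM K A hδ hκ hκ1 hKM hA hK
  refine ⟨y0, ?_⟩
  intro y M c S hy hM hMe hbad T hT hTc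
  classical
  obtain ⟨p1, p2, p3, p4, p5, p6, p7⟩ := hy0 y M hy hM hMe
  set R : ℕ := RR y δ with hR
  set W : ℕ := WW y K with hW
  set X : ℕ := M * R ^ 3 with hX
  have hRr : (0 : ℝ) < R := by exact_mod_cast p4
  have hMr : (0 : ℝ) < M := by exact_mod_cast hM
  have hsp := h5 (Σ q : ℕ, DirichletCharacter ℂ q) (U7_B S X) (fun b => b.1) M R W κ
    (Real.log 3 / Real.log W) (by omega) p2 rfl hκ.le p6
    (by
      intro b hb
      rw [U7_B, mem_sigma, mem_Icc] at hb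
      omega)
    (by
      intro Q hQ1 hQ2
      have h1 : Real.exp y ≤ (Q : ℝ) := p3.trans (by exact_mod_cast hQ1)
      have h2 : (Q : ℝ) ≤ Real.exp (4 * (y : ℝ) ^ (1 + δ)) := hQ2.trans p5
      calc ((((U7_B S X).filter (fun b => b.1 ≤ Q)).card : ℕ) : ℝ) ≤ (nbad S Q : ℝ) := by
            exact_mod_cast U7_count S X Q
        _ ≤ _ := hbad Q h1 h2)
  by_contra hcon
  push Not at hcon
  have hsub : T ⊆ (goods M R W ×ˢ goods M R W ×ˢ goods M R W).filter (fun t =>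
      ∃ b ∈ U7_B S X, (fun b : (Σ q : ℕ, DirichletCharacter ℂ q) => b.1) b ∣ M * lam M t ∧
        ¬ (fun b : (Σ q : ℕ, DirichletCharacter ℂ q) => b.1) b ∣ M) := by
    intro t ht
    obtain ⟨q, χ, hq1, hq2, hq3, hq4⟩ := hcon t ht
    have ht2 := hT ht
    rw [trip, mem_filter, mem_product, mem_product] at ht2
    obtain ⟨⟨m1, m2, m3⟩, g1, g2, g3, -⟩ := ht2
    obtain ⟨l1, l2⟩ := U7_lam g1 g2 g3
    rw [mem_filter, mem_product, mem_product]
    refine ⟨⟨?_, ?_, ?_⟩, ⟨q, χ⟩, ?_, hq3, hq4⟩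
    · rw [goods, mem_filter]
      exact ⟨m1, g1⟩
    · rw [goods, mem_filter]
      exact ⟨m2, g2⟩
    · rw [goods, mem_filter]
      exact ⟨m3, g3⟩
    · rw [U7_B, mem_sigma, mem_Icc, mem_filter]
      refine ⟨⟨?_, ?_⟩, mem_univ _, hq2⟩
      · rcases Nat.lt_or_ge q 2 with h | h
        · exfalso
          have : q = 1 := by omega
          subst this
          exact hq4 (one_dvd _)
        · exact h
      · calc q ≤ M * lam M t := Nat.le_of_dvd (Nat.mul_pos (by omega) l1) hq3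
          _ ≤ M * R ^ 3 := Nat.mul_le_mul_left _ l2
  have h1 : (T.card : ℝ) ≤ M * (R : ℝ) ^ 3 * (2 ^ κ * (W : ℝ) ^ (κ + Real.log 3 / Real.log W - 1) /
      (1 - 2 ^ (κ + Real.log 3 / Real.log W - 1))) :=
    le_trans (by exact_mod_cast card_le_card hsub) hsp
  have h2 : M * (R : ℝ) ^ 3 * (2 ^ κ * (W : ℝ) ^ (κ + Real.log 3 / Real.log W - 1) /
      (1 - 2 ^ (κ + Real.log 3 / Real.log W - 1))) < (R : ℝ) ^ 3 / (M * (y : ℝ) ^ A) := by
    have e1 : M * (R : ℝ) ^ 3 * (2 ^ κ * (W : ℝ) ^ (κ + Real.log 3 / Real.log W - 1) /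
        (1 - 2 ^ (κ + Real.log 3 / Real.log W - 1))) = (R : ℝ) ^ 3 * (M *
        (2 ^ κ * (W : ℝ) ^ (κ + Real.log 3 / Real.log W - 1) /
        (1 - 2 ^ (κ + Real.log 3 / Real.log W - 1)))) := by ring
    have e2 : (R : ℝ) ^ 3 / (M * (y : ℝ) ^ A) = (R : ℝ) ^ 3 * (1 / (M * (y : ℝ) ^ A)) := by
      rw [mul_one_div]
    rw [e1, e2]
    exact mul_lt_mul_of_pos_left p7 (by positivity)
  linarith

end Pool.Agent.Lib.MP_a260de_nt.CN
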