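import Pool.Agent.Lib.MP_a260de_nt.CN.M_All
import Pool.Agent.Lib.MP_a260de_nt.CN.M_Pg
import Pool.Agent.Lib.MP_a260de_nt.CN.U1
import Pool.Agent.Lib.MP_a260de_nt.CN.U2
import Pool.Agent.Lib.MP_a260de_nt.CN.U3
import Pool.Agent.Lib.MP_a260de_nt.CN.U4
import Pool.Agent.Lib.MP_a260de_nt.CN.U5
import Pool.Agent.Lib.MP_a260de_nt.CN.U6
import Pool.Agent.Lib.MP_a260de_nt.CN.U7
import Pool.Agent.Lib.MP_a260de_nt.CN.BadC
import Pool.Agent.Lib.MP_a260de_nt.CN.PopCount
import Pool.Agent.Lib.MP_a260de_nt.CN.Excl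
import Pool.Agent.Lib.MP_a260de_nt.CN.Kor
import Pool.Agent.Lib.MP_a260de_nt.CN.Cx
import Pool.Agent.Lib.MP_a260de_nt.CN.Fin
import Pool.Agent.Lib.MP_a260de_nt.CN.A.All

/-!
MP_a260de_nt, PROJECT CN: composition of all parts (helper74). `aGen` is the general theorem, `aFin` the
theorem with the exponent 7/12.
-/

set_option autoImplicit false

namespace Pool.Agent.Lib.MP_a260de_nt.CN

theorem aMain : S_Main := main_of_Pg (t_Pg m_Dcm m_Cn1 m_Cn2)
theorem aBad : S_Bad := t_Bad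
theorem aUnion : S_Union := t_Union (t_USpoil t_USplit t_UCount t_UOmega t_UDyad) t_UPar
theorem aExcl : S_Excl := t_Excl
theorem aPop : S_Pop := sPop
theorem aCount : S_Count := sCount
theorem aKor : S_Kor := kor
theorem aCx : S_Cx := t_Cx aMain aBad aUnion aExcl aPop aCount aKor
theorem aGen : S_Gen := t_Gen aCx
theorem aFin : S_Fin := t_Fin A.aA aGen

end Pool.Agent.Lib.MP_a260de_nt.CN
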