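import Pool.Agent.Lib.MP_a260de_nt.CN.Top
import Pool.Agent.Lib.MP_a260de_nt.CN.Bdc

/-!
MP_a260de_nt, PROJECT CN, part C: the number of bad primitive characters of conductor at most `Q` is at
most `Q ^ κ` (large sieve for the `j`-th power of the character sum).
-/

set_option autoImplicit false

namespace Pool.Agent.Lib.MP_a260de_nt.CN

open Finset Filter

private lemma nbad_eq (S : Finset ℕ) (Q : ℕ) : nbad S Q = (badc S (1 / 8) Q).card := by
  classical
  rw [nbad, badc, card_sigma]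
  refine sum_congr rfl fun q _ => ?_
  congr 1
  ext χ
  rw [mem_filter, mem_filter, BV.prim, mem_filter]
  simp only [mem_univ, true_and, Bad, chs]
  rw [div_eq_inv_mul, one_div]

/-- the moment bound in exponential form -/
private lemma bound (hL : BV.LsmStmt) (S : Finset ℕ) (ℓ q ε : ℝ) (Q j : ℕ)
    (hQ : 1 ≤ Q) (hq : (Q : ℝ) = Real.exp q) (hj : 1 ≤ j) (hjq : 2 * q ≤ j * ℓ)
    (hS : ∀ p ∈ S, p.Prime ∧ (p : ℝ) ≤ Real.exp ℓ)
    (hcard : Real.exp ((1 - ε) * ℓ) ≤ (S.card : ℝ)) :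
    (nbad S Q : ℝ) ≤ Real.exp (Real.log 40 + j * Real.log 64 + j * Real.log j + j * (ε * ℓ)) := by
  have hz : ∀ p ∈ S, p.Prime ∧ p ≤ ⌊Real.exp ℓ⌋₊ := fun p hp =>
    ⟨(hS p hp).1, Nat.le_floor (hS p hp).2⟩
  have h1 := bdc hL S ⌊Real.exp ℓ⌋₊ hz j Q hQ (1 / 8) (by norm_num)
  rw [← nbad_eq] at h1
  have hzle : ((⌊Real.exp ℓ⌋₊ : ℕ) : ℝ) ^ j ≤ Real.exp (j * ℓ) := by
    rw [Real.exp_nat_mul]
    exact pow_le_pow_left₀ (Nat.cast_nonneg _) (Nat.floor_le (Real.exp_pos _).le) j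
  have hQ2 : (Q : ℝ) ^ 2 ≤ Real.exp (j * ℓ) := by
    rw [hq, ← Real.exp_nat_mul]
    apply Real.exp_le_exp.2
    push_cast
    exact hjq
  have hfac : ((j.factorial : ℕ) : ℝ) ≤ Real.exp (j * Real.log j) := by
    have hj0 : (0 : ℝ) < j := by exact_mod_cast hj
    rw [Real.exp_nat_mul, Real.exp_log hj0]
    exact_mod_cast Nat.factorial_le_pow j
  have h2 : 20 * (((⌊Real.exp ℓ⌋₊ : ℕ) : ℝ) ^ j + (Q : ℝ) ^ 2) * (j.factorial : ℝ) ≤
      40 * Real.exp (j * ℓ) * Real.exp (j * Real.log j) := by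
    have h3 : 20 * (((⌊Real.exp ℓ⌋₊ : ℕ) : ℝ) ^ j + (Q : ℝ) ^ 2) ≤ 40 * Real.exp (j * ℓ) := by
      linarith
    exact mul_le_mul h3 hfac (Nat.cast_nonneg _) (by positivity)
  have h4 : Real.exp (-(j * Real.log 64)) * Real.exp (j * ((1 - ε) * ℓ)) ≤
      (1 / 8 : ℝ) ^ (2 * j) * (S.card : ℝ) ^ j := by
    have h5 : Real.exp (-(j * Real.log 64)) = (1 / 8 : ℝ) ^ (2 * j) := by
      rw [Real.exp_neg, Real.exp_nat_mul, Real.exp_log (by norm_num), pow_mul, ← inv_pow]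
      norm_num
    have h6 : Real.exp (j * ((1 - ε) * ℓ)) ≤ (S.card : ℝ) ^ j := by
      rw [Real.exp_nat_mul]
      exact pow_le_pow_left₀ (Real.exp_pos _).le hcard j
    rw [h5]
    exact mul_le_mul_of_nonneg_left h6 (by positivity)
  have h7 : (nbad S Q : ℝ) * (Real.exp (-(j * Real.log 64)) * Real.exp (j * ((1 - ε) * ℓ))) ≤
      40 * Real.exp (j * ℓ) * Real.exp (j * Real.log j) :=
    (mul_le_mul_of_nonneg_left h4 (Nat.cast_nonneg _)).trans (h1.trans h2)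
  have h8 : (0 : ℝ) < Real.exp (-(j * Real.log 64)) * Real.exp (j * ((1 - ε) * ℓ)) := by positivity
  have h9 : Real.exp (Real.log 40 + j * Real.log 64 + j * Real.log j + j * (ε * ℓ)) *
      (Real.exp (-(j * Real.log 64)) * Real.exp (j * ((1 - ε) * ℓ))) =
      40 * Real.exp (j * ℓ) * Real.exp (j * Real.log j) := by
    have h40 : (40 : ℝ) = Real.exp (Real.log 40) := (Real.exp_log (by norm_num)).symm
    conv_rhs => rw [h40]
    rw [← Real.exp_add, ← Real.exp_add, ← Real.exp_add, ← Real.exp_add]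
    congr 1
    ring
  refine le_of_mul_le_mul_right ?_ h8
  rw [h9]
  exact h7

theorem sBad (hL : BV.LsmStmt) : S_Bad := by
  intro C ε δ κ hC hε hδ hκ
  set g : ℝ := κ - (2 * (1 + δ) / C + 2 * ε) with hg
  have hg0 : 0 < g := by linarith
  have hC0 : 0 < C := by linarith
  -- eventually conditions
  have hlog : Tendsto (fun y : ℕ => Real.log (y : ℝ)) atTop atTop :=
    Real.tendsto_log_atTop.comp tendsto_natCast_atTop_atTop
  have e1 : ∀ᶠ y : ℕ in atTop, max 16 (4 * Real.log 64 / g) ≤ C * Real.log y :=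
    (Tendsto.const_mul_atTop hC0 hlog).eventually_ge_atTop _
  have e2 : ∀ᶠ y : ℕ in atTop, (1 + δ + ε * C) * Real.log y ≤ g / 4 * y := by
    have h1 : Tendsto (fun y : ℕ => Real.log (y : ℝ) / y) atTop (nhds 0) := by
      have := Real.isLittleO_log_id_atTop.tendsto_div_nhds_zero
      exact this.comp tendsto_natCast_atTop_atTop
    have h2 : (0 : ℝ) < g / 4 / (1 + δ + ε * C) := by positivity
    filter_upwards [h1.eventually_lt_const h2, eventually_ge_atTop 1] with y hy hy1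
    have hy0 : (0 : ℝ) < y := by exact_mod_cast hy1
    have hp : (0 : ℝ) < 1 + δ + ε * C := by positivity
    rw [div_lt_div_iff₀ hy0 hp] at hy
    linarith
  have e3 : ∀ᶠ y : ℕ in atTop, Real.log 40 + Real.log 64 ≤ g / 4 * y := by
    have : Tendsto (fun y : ℕ => g / 4 * (y : ℝ)) atTop atTop :=
      Tendsto.const_mul_atTop (by positivity) tendsto_natCast_atTop_atTop
    exact this.eventually_ge_atTop _
  obtain ⟨y0, hy0⟩ := eventually_atTop.1 (e1.and (e2.and (e3.and (eventually_ge_atTop 2))))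
  refine ⟨y0, ?_⟩
  intro y S hy hS hcard Q hQ1 hQ2
  obtain ⟨a1, a2, a3, a4⟩ := hy0 y hy
  have hyR : (2 : ℝ) ≤ y := by exact_mod_cast a4
  have hypos : (0 : ℝ) < y := by linarith
  set ℓ : ℝ := C * Real.log y with hℓ
  have hℓ16 : 16 ≤ ℓ := (le_max_left _ _).trans a1
  have hℓg : 4 * Real.log 64 / g ≤ ℓ := (le_max_right _ _).trans a1
  have hℓ0 : 0 < ℓ := by linarith
  have hQpos : (0 : ℝ) < Q := lt_of_lt_of_le (Real.exp_pos _) hQ1
  have hQ1' : 1 ≤ Q := by exact_mod_cast (by exact_mod_cast hQpos : 0 < Q)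
  set q : ℝ := Real.log Q with hq
  have hQq : (Q : ℝ) = Real.exp q := (Real.exp_log hQpos).symm
  have hqy : (y : ℝ) ≤ q := by
    rw [hq, ← Real.log_exp y]; exact Real.log_le_log (Real.exp_pos _) hQ1
  have hq4 : q ≤ 4 * (y : ℝ) ^ (1 + δ) := by
    rw [hq, Real.log_le_iff_le_exp hQpos]; exact hQ2
  have hq0 : 0 < q := by linarith
  have hZ : (y : ℝ) ^ C = Real.exp ℓ := by
    rw [Real.rpow_def_of_pos hypos, hℓ, mul_comm]
  have hS' : ∀ p ∈ S, p.Prime ∧ (p : ℝ) ≤ Real.exp ℓ := fun p hp => by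
    have := hS p hp
    rw [hZ] at this
    exact this
  have hcard' : Real.exp ((1 - ε) * ℓ) ≤ (S.card : ℝ) := by
    rw [hZ, ← Real.exp_mul, mul_comm] at hcard
    exact hcard
  set j : ℕ := ⌈2 * q / ℓ⌉₊ with hj
  have hjpos : 1 ≤ j := Nat.one_le_iff_ne_zero.2 (by
    rw [hj]
    exact (Nat.ceil_pos.2 (by positivity)).ne')
  have hj1 : 2 * q / ℓ ≤ j := Nat.le_ceil _
  have hj2 : (j : ℝ) < 2 * q / ℓ + 1 := Nat.ceil_lt_add_one (by positivity)
  have hjq : 2 * q ≤ j * ℓ := by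
    rw [div_le_iff₀ hℓ0] at hj1; exact hj1
  have hmain := bound hL S ℓ q ε Q j hQ1' hQq hjpos hjq hS' hcard'
  refine hmain.trans ?_
  rw [hQq, ← Real.exp_mul]
  apply Real.exp_le_exp.2
  -- log j ≤ (1 + δ) log y
  have hyp : (2 : ℝ) ≤ (y : ℝ) ^ (1 + δ) := by
    calc (2 : ℝ) ≤ y := hyR
      _ = (y : ℝ) ^ (1 : ℝ) := (Real.rpow_one _).symm
      _ ≤ (y : ℝ) ^ (1 + δ) := Real.rpow_le_rpow_of_exponent_le (by linarith) (by linarith)
  have hjy : (j : ℝ) ≤ (y : ℝ) ^ (1 + δ) := by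
    have h1 : 2 * q / ℓ ≤ (y : ℝ) ^ (1 + δ) / 2 := by
      rw [div_le_div_iff₀ hℓ0 (by norm_num)]
      nlinarith
    linarith
  have hj0 : (0 : ℝ) < j := by exact_mod_cast hjpos
  have hlogj : Real.log j ≤ (1 + δ) * Real.log y := by
    rw [← Real.log_rpow hypos]
    exact Real.log_le_log hj0 hjy
  have hlogy : 0 < Real.log y := Real.log_pos (by linarith)
  have hlogj0 : 0 ≤ Real.log j := Real.log_nonneg (by exact_mod_cast hjpos)
  have t1 : (j : ℝ) * Real.log j ≤ 2 * (1 + δ) / C * q + (1 + δ) * Real.log y := by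
    calc (j : ℝ) * Real.log j ≤ (2 * q / ℓ + 1) * ((1 + δ) * Real.log y) :=
          mul_le_mul hj2.le hlogj hlogj0 (by positivity)
      _ = 2 * (1 + δ) / C * q + (1 + δ) * Real.log y := by
          rw [hℓ]
          field_simp
  have t2 : (j : ℝ) * (ε * ℓ) ≤ 2 * ε * q + ε * C * Real.log y := by
    calc (j : ℝ) * (ε * ℓ) ≤ (2 * q / ℓ + 1) * (ε * ℓ) :=
          mul_le_mul_of_nonneg_right hj2.le (by positivity)
      _ = 2 * ε * q + ε * C * Real.log y := by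
          rw [hℓ]
          field_simp
  have hl64 : 0 < Real.log 64 := Real.log_pos (by norm_num)
  have t3 : (j : ℝ) * Real.log 64 ≤ g / 2 * q + Real.log 64 := by
    have h1 : 2 * q / ℓ * Real.log 64 ≤ g / 2 * q := by
      rw [div_mul_eq_mul_div, div_le_iff₀ hℓ0]
      rw [div_le_iff₀ hg0] at hℓg
      nlinarith
    nlinarith
  have t4 : g / 4 * y ≤ g / 4 * q := mul_le_mul_of_nonneg_left hqy (by positivity)
  have hκq : q * κ = g * q + (2 * (1 + δ) / C * q + 2 * ε * q) := by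
    rw [hg]; ring
  rw [hκq]
  linarith

end Pool.Agent.Lib.MP_a260de_nt.CN
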