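import Pool.Agent.Lib.MP_a260de_nt.CN.Top

/-!
MP_a260de_nt, PROJECT CN, parts G and D (helper39, with helper14): S_Pop and S_Count from the two
counting theorems.
-/

set_option autoImplicit false

namespace Pool.Agent.Lib.MP_a260de_nt.CN

open Finset

/-- the induced character has the same sum as the primitive one -/
lemma chs_primitive {n : ℕ} (χ : DirichletCharacter ℂ n) (S : Finset ℕ)
    (hS : ∀ p ∈ S, p.Coprime n) : chs S χ.primitiveCharacter = chs S χ := by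
  unfold chs
  refine sum_congr rfl fun p hp => ?_
  have h := χ.primitiveCharacter_apply_of_isCoprime (a := (p : ℤ))
    (Nat.isCoprime_iff_coprime.mpr (hS p hp))
  simpa using h

/-- the count depends on the class only -/
lemma cnt_congr (M : ℕ) (S : Finset ℕ) (t c g : ℕ) (h : c ≡ g [MOD M]) :
    cnt M S t c = cnt M S t g := by
  classical
  unfold cnt
  congr 1
  refine filter_congr fun A _ => ?_
  exact ⟨fun h1 => h1.trans h, fun h1 => h1.trans h.symm⟩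

theorem pop_of
    (hpop : ∀ (M t : ℕ) (S : Finset ℕ), 1 ≤ M → (∀ p ∈ S, p.Coprime M) →
      ∃ g : ℕ, g.Coprime M ∧ (S.card.choose t : ℝ) ≤ (M.totient : ℝ) * (cnt M S t g : ℝ)) :
    S_Pop := by
  intro M t S hM hS _
  obtain ⟨g, hg, h⟩ := hpop M t S hM hS
  refine ⟨g, hg, h.trans ?_⟩
  exact mul_le_mul_of_nonneg_right (by exact_mod_cast Nat.totient_le M) (Nat.cast_nonneg _)

theorem count_of
    (hcnt : ∀ (M Λ t c : ℕ) (S : Finset ℕ), 1 ≤ M → 1 ≤ Λ → M.Coprime Λ → 1 ≤ t →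
      100 * t ≤ S.card → (∀ p ∈ S, p.Coprime (M * Λ)) →
      (∀ χ : DirichletCharacter ℂ (M * Λ), ¬ χ.conductor ∣ M → ‖chs S χ‖ ≤ (S.card : ℝ) / 8) →
      c.Coprime (M * Λ) →
      (cnt M S t c : ℝ) ≤ (Λ.totient : ℝ) *
        ((cnt (M * Λ) S t c : ℝ) + (1 / 2 : ℝ) ^ t * (S.card.choose t : ℝ))) :
    S_Count := by
  intro M Λ t g c S hM hΛ hMΛ ht htS hS h2 _ hc hcg hpop hbad
  have h1 := hcnt M Λ t c S hM hΛ hMΛ ht htS hS (fun χ hχ => by
    by_contra hcon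
    push Not at hcon
    have hne : χ.conductor ≠ 0 := by
      have : NeZero (M * Λ) := ⟨by positivity⟩
      exact χ.conductor_ne_zero
    refine hχ (hbad χ.conductor χ.primitiveCharacter (Nat.one_le_iff_ne_zero.2 hne) ⟨?_, ?_⟩
      χ.conductor_dvd_level)
    · exact χ.primitiveCharacter_isPrimitive
    · rw [chs_primitive χ S hS]
      exact hcon.le) hc
  rw [cnt_congr M S t c g hcg] at h1
  set N : ℝ := (S.card.choose t : ℝ) with hN
  have hN0 : 0 ≤ N := Nat.cast_nonneg _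
  have hM0 : (0 : ℝ) < M := by exact_mod_cast hM
  have hΛ0 : (0 : ℝ) < Λ := by exact_mod_cast hΛ
  have hx0 : (0 : ℝ) ≤ (cnt (M * Λ) S t c : ℝ) := Nat.cast_nonneg _
  have hφ : (Λ.totient : ℝ) ≤ Λ := by exact_mod_cast Nat.totient_le Λ
  have h3 : (2 : ℝ) * M * Λ * (1 / 2 : ℝ) ^ t ≤ 1 := by
    have h4 : (2 : ℝ) * M * Λ ≤ 2 ^ t := by exact_mod_cast h2
    have h5 : (0 : ℝ) < (1 / 2 : ℝ) ^ t := by positivity
    calc (2 : ℝ) * M * Λ * (1 / 2 : ℝ) ^ t ≤ 2 ^ t * (1 / 2 : ℝ) ^ t :=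
          mul_le_mul_of_nonneg_right h4 h5.le
      _ = 1 := by rw [← mul_pow]; norm_num
  have h6 : N ≤ (M : ℝ) * ((Λ : ℝ) *
      ((cnt (M * Λ) S t c : ℝ) + (1 / 2 : ℝ) ^ t * N)) := by
    refine hpop.trans (mul_le_mul_of_nonneg_left (h1.trans ?_) hM0.le)
    exact mul_le_mul_of_nonneg_right hφ (by positivity)
  have h7 : (M : ℝ) * Λ * ((1 / 2 : ℝ) ^ t * N) ≤ N / 2 := by
    have := mul_le_mul_of_nonneg_right h3 hN0
    nlinarith
  nlinarith

end Pool.Agent.Lib.MP_a260de_nt.CN
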