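import Mathlib

/-!
MP_a260de_nt, PROJECT CN: the real analysis of the parameters (helper43).
-/

open Filter

namespace Pool.Agent.Lib.MP_a260de_nt.CN

/-- `c * X ^ a ≤ η * X` eventually for `a < 1` -/
lemma ev_rpow (c a η : ℝ) (ha : a < 1) (hη : 0 < η) : ∀ᶠ X : ℝ in atTop, c * X ^ a ≤ η * X := by
  have h := (tendsto_rpow_atTop (show 0 < 1 - a by linarith)).eventually_ge_atTop (c / η)
  filter_upwards [h, eventually_gt_atTop 0] with X h1 h2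
  have h3 : (0 : ℝ) ≤ X ^ a := Real.rpow_nonneg h2.le _
  have h4 : X ^ (1 - a) * X ^ a = X := by
    rw [← Real.rpow_add h2]; simp
  rw [div_le_iff₀ hη] at h1
  calc c * X ^ a ≤ X ^ (1 - a) * η * X ^ a := mul_le_mul_of_nonneg_right h1 h3
    _ = η * (X ^ (1 - a) * X ^ a) := by ring
    _ = η * X := by rw [h4]

/-- `c * log X ≤ X ^ a` eventually -/
lemma ev_log (c a : ℝ) (ha : 0 < a) : ∀ᶠ X : ℝ in atTop, c * Real.log X ≤ X ^ a := by
  have h := (isLittleO_log_rpow_atTop ha).bound (c := 1 / (|c| + 1)) (by positivity)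
  filter_upwards [h, eventually_gt_atTop 1] with X h1 h2
  have h0 : 0 < X := by linarith
  rw [Real.norm_of_nonneg (Real.log_pos h2).le, Real.norm_of_nonneg (Real.rpow_nonneg h0.le _)] at h1
  have h3 : (0 : ℝ) ≤ Real.log X := (Real.log_pos h2).le
  have h4 : c ≤ |c| + 1 := (le_abs_self c).trans (by linarith)
  have h5 : 0 < |c| + 1 := by positivity
  calc c * Real.log X ≤ (|c| + 1) * Real.log X := mul_le_mul_of_nonneg_right h4 h3
    _ ≤ (|c| + 1) * (1 / (|c| + 1) * X ^ a) := mul_le_mul_of_nonneg_left h1 h5.le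
    _ = X ^ a := by field_simp

/-- Parameters. `X = log x`, `y = ⌊X ^ (1 - δ)⌋`, `t = ⌊(X - 3 y ^ (1 + δ)) / log (y ^ (1/β))⌋`. -/
theorem param (β δ ε ε1 KM : ℝ) (hβ : 0 < β) (hβ2 : β < 1 / 2) (hδ : 0 < δ) (hδ2 : δ ≤ 1 / 4)
    (hε : 0 < ε) (hεb : ε ≤ 1) (hδε : δ ≤ ε / 4) (hε1 : 0 < ε1) (hε12 : ε1 ≤ 1 / 4)
    (hε1ε : ε1 ≤ ε / 4) (hKM : 0 < KM) :
    ∀ᶠ X : ℝ in atTop, ∀ y t : ℕ, y = ⌊X ^ (1 - δ)⌋₊ →
      t = ⌊(X - 3 * (y : ℝ) ^ (1 + δ)) / (1 / β * Real.log y)⌋₊ →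
      1 ≤ t ∧ 3 * (y : ℝ) ^ (1 + δ) + t * (1 / β * Real.log y) ≤ X ∧
      100 * (t : ℝ) ≤ ((y : ℝ) ^ (1 / β)) ^ (1 - ε1) ∧
      Real.log 2 + KM * y + 3 * (y : ℝ) ^ (1 + δ) ≤ t * Real.log 2 ∧
      (1 - β - ε) * X + (Real.log 2 + KM * y + 3 * (y : ℝ) ^ (1 + δ)) ≤
        t * ((1 - ε1) * (1 / β * Real.log y) - Real.log t) := by
  have hη : 0 < ε / 20 := by positivity
  have a1 : (1 : ℝ) - δ ^ 2 < 1 := by nlinarith
  have hlog2 : 0 < Real.log 2 := Real.log_pos (by norm_num)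
  have hδs : 0 < δ ^ 2 := by positivity
  have hδs2 : δ ^ 2 ≤ δ := by nlinarith
  have hlog2' : Real.log 2 < 0.6931471808 := Real.log_two_lt_d9
  set K0 : ℝ := 2 * (2 * Real.log 2 + KM + 3) / Real.log 2 with hK0
  have hK0pos : 0 < K0 := by positivity
  have f1 := ev_rpow 1 (1 - δ ^ 2) (ε / 20) a1 hη
  have f2 := ev_rpow (KM + 1) (1 - δ) (ε / 20) (by linarith) hη
  have f3 := ev_log (1 / β) (1 / 2) (by norm_num)
  have f4 := ev_rpow 1 (1 / 2) (ε / 20) (by norm_num) hη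
  have f5 := (tendsto_rpow_atTop (show 0 < 1 - δ by linarith)).eventually_ge_atTop
    (1000 + Real.exp (10 / ε))
  have f6 := ev_log (K0 * (1 / β)) (δ ^ 2 / 2) (by positivity)
  have f7 := (tendsto_rpow_atTop (show (0 : ℝ) < 1 / 8 by norm_num)).eventually_ge_atTop 300
  filter_upwards [f1, f2, f3, f4, f5, f6, f7, eventually_ge_atTop 1,
    eventually_ge_atTop (20 / ε)] with X g1 g2 g3 g4 g5 g6 g7 hX1 g8 y t hy ht
  have hX0 : 0 < X := by linarith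
  have hXd : 0 ≤ X ^ (1 - δ) := Real.rpow_nonneg hX0.le _
  have y1 : (y : ℝ) ≤ X ^ (1 - δ) := by rw [hy]; exact Nat.floor_le hXd
  have y2 : X ^ (1 - δ) < (y : ℝ) + 1 := by rw [hy]; exact Nat.lt_floor_add_one _
  have hexp : 0 < Real.exp (10 / ε) := Real.exp_pos _
  have y3 : (999 : ℝ) ≤ y := by linarith
  have y4 : Real.exp (10 / ε) ≤ y := by linarith
  have y0 : (0 : ℝ) < y := by linarith
  have y5 : X ^ (1 - δ) ≤ 2 * y := by linarith
  -- u = y ^ (1 + δ)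
  have u0 : 0 ≤ (y : ℝ) ^ (1 + δ) := Real.rpow_nonneg y0.le _
  have u1 : (y : ℝ) ^ (1 + δ) ≤ X ^ (1 - δ ^ 2) := by
    calc (y : ℝ) ^ (1 + δ) ≤ (X ^ (1 - δ)) ^ (1 + δ) :=
          Real.rpow_le_rpow y0.le y1 (by linarith)
      _ = X ^ (1 - δ ^ 2) := by rw [← Real.rpow_mul hX0.le]; congr 1; ring
  have u2 : (y : ℝ) ^ (1 + δ) ≤ ε / 20 * X := by linarith
  have u3 : ε / 20 * X ≤ X / 20 := by
    have : ε * X ≤ 1 * X := mul_le_mul_of_nonneg_right hεb hX0.le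
    linarith
  have k1 : KM * y ≤ ε / 20 * X := by
    have h1 : KM * (y : ℝ) ≤ KM * X ^ (1 - δ) := mul_le_mul_of_nonneg_left y1 hKM.le
    have h2 : (KM + 1) * X ^ (1 - δ) = KM * X ^ (1 - δ) + X ^ (1 - δ) := by ring
    linarith
  -- logs
  set ℓ : ℝ := Real.log y with hℓ
  have l1 : ℓ ≤ Real.log X := by
    have h1 : (y : ℝ) ≤ X := by
      refine y1.trans ?_
      calc X ^ (1 - δ) ≤ X ^ (1 : ℝ) := Real.rpow_le_rpow_of_exponent_le hX1 (by linarith)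
        _ = X := Real.rpow_one X
    exact Real.log_le_log y0 h1
  have l2 : 10 / ε ≤ ℓ := by
    rw [hℓ, Real.le_log_iff_exp_le y0]; exact y4
  have l2' : 10 ≤ ℓ := by
    have : 10 ≤ 10 / ε := by rw [le_div_iff₀ hε]; linarith
    linarith
  have l3 : (1 - δ) * Real.log X ≤ Real.log 2 + ℓ := by
    rw [← Real.log_rpow hX0, hℓ, ← Real.log_mul (by norm_num) y0.ne']
    exact Real.log_le_log (Real.rpow_pos_of_pos hX0 _) y5
  set D : ℝ := 1 / β * ℓ with hD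
  have hβ2' : 2 ≤ 1 / β := by rw [le_div_iff₀ hβ]; linarith
  have hβD : β * D = ℓ := by rw [hD]; field_simp
  have l0 : 0 < ℓ := by linarith
  have D1 : 2 * ℓ ≤ D := by rw [hD]; exact mul_le_mul_of_nonneg_right hβ2' l0.le
  have D2 : 20 ≤ D := by linarith
  have D0 : 0 < D := by linarith
  have D3 : D ≤ 1 / β * Real.log X := by rw [hD]; exact mul_le_mul_of_nonneg_left l1 (by positivity)
  have D4 : D ≤ ε / 20 * X := by linarith
  have D5 : 20 / ε ≤ D := by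
    have : 20 / ε = 2 * (10 / ε) := by ring
    rw [this]; linarith
  have D6 : X / D ≤ ε / 20 * X := by
    rw [div_le_iff₀ D0]
    rw [div_le_iff₀ hε] at D5
    have h1 : 20 * X ≤ D * ε * X := mul_le_mul_of_nonneg_right D5 hX0.le
    have h2 : ε / 20 * X * D = D * ε * X / 20 := by ring
    rw [h2]; linarith
  -- t
  have n0 : 0 ≤ X - 3 * (y : ℝ) ^ (1 + δ) := by linarith
  have t1 : (t : ℝ) ≤ (X - 3 * (y : ℝ) ^ (1 + δ)) / D := by
    rw [ht]; exact Nat.floor_le (div_nonneg n0 D0.le)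
  have t2 : (X - 3 * (y : ℝ) ^ (1 + δ)) / D - 1 < t := by
    rw [ht]; exact Nat.sub_one_lt_floor _
  have t3 : 3 * (y : ℝ) ^ (1 + δ) + t * D ≤ X := by
    rw [le_div_iff₀ D0] at t1; linarith
  have hK1 : K0 * D ≤ X ^ (δ ^ 2 / 2) := by
    calc K0 * D ≤ K0 * (1 / β * Real.log X) := mul_le_mul_of_nonneg_left D3 hK0pos.le
      _ = K0 * (1 / β) * Real.log X := by ring
      _ ≤ _ := g6
  -- (X/2)/D ≥ (K0/2) X^(1-δ²/2)
  have hXs : X ^ (1 - δ ^ 2 / 2) * X ^ (δ ^ 2 / 2) = X := by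
    rw [← Real.rpow_add hX0]; simp
  have hXp : 0 < X ^ (1 - δ ^ 2 / 2) := Real.rpow_pos_of_pos hX0 _
  have q1 : K0 * X ^ (1 - δ ^ 2 / 2) ≤ X / D := by
    rw [le_div_iff₀ D0]
    calc K0 * X ^ (1 - δ ^ 2 / 2) * D = X ^ (1 - δ ^ 2 / 2) * (K0 * D) := by ring
      _ ≤ X ^ (1 - δ ^ 2 / 2) * X ^ (δ ^ 2 / 2) := mul_le_mul_of_nonneg_left hK1 hXp.le
      _ = X := hXs
  have q2 : X ^ (1 - δ ^ 2) ≤ X ^ (1 - δ ^ 2 / 2) :=
    Real.rpow_le_rpow_of_exponent_le hX1 (by linarith)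
  have q3 : X ^ (1 - δ) ≤ X ^ (1 - δ ^ 2 / 2) :=
    Real.rpow_le_rpow_of_exponent_le hX1 (by linarith)
  have q4 : 1 ≤ X ^ (1 - δ ^ 2 / 2) := Real.one_le_rpow hX1 (by linarith)
  have t4 : X / D / 2 - 1 ≤ t := by
    have e1 : (X - 3 * (y : ℝ) ^ (1 + δ)) / D = X / D - 3 * (y : ℝ) ^ (1 + δ) / D := by ring
    have e3 : 3 * (y : ℝ) ^ (1 + δ) ≤ X / 2 := by linarith
    have e2 : 3 * (y : ℝ) ^ (1 + δ) / D ≤ X / 2 / D := div_le_div_of_nonneg_right e3 D0.le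
    have e4 : X / 2 / D = X / D / 2 := by ring
    linarith
  have c1 : Real.log 2 + KM * y + 3 * (y : ℝ) ^ (1 + δ) ≤ t * Real.log 2 := by
    have e1 : K0 / 2 * X ^ (1 - δ ^ 2 / 2) - 1 ≤ t := by linarith
    have e2 : K0 / 2 * Real.log 2 = 2 * Real.log 2 + KM + 3 := by
      rw [hK0]; field_simp
    have e3 : (K0 / 2 * X ^ (1 - δ ^ 2 / 2) - 1) * Real.log 2 ≤ t * Real.log 2 :=
      mul_le_mul_of_nonneg_right e1 hlog2.le
    have e4 : (K0 / 2 * X ^ (1 - δ ^ 2 / 2) - 1) * Real.log 2 =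
        (2 * Real.log 2 + KM + 3) * X ^ (1 - δ ^ 2 / 2) - Real.log 2 := by
      rw [← e2]; ring
    have e5 : KM * (y : ℝ) ≤ KM * X ^ (1 - δ ^ 2 / 2) :=
      mul_le_mul_of_nonneg_left (y1.trans q3) hKM.le
    have e6 : 2 * Real.log 2 ≤ 2 * Real.log 2 * X ^ (1 - δ ^ 2 / 2) :=
      le_mul_of_one_le_right (by linarith) q4
    have e7 : (2 * Real.log 2 + KM + 3) * X ^ (1 - δ ^ 2 / 2) =
      2 * Real.log 2 * X ^ (1 - δ ^ 2 / 2) + KM * X ^ (1 - δ ^ 2 / 2) +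
        3 * X ^ (1 - δ ^ 2 / 2) := by ring
    linarith
  have hyp : 1 ≤ t := by
    have h1 : 1 * Real.log 2 ≤ t * Real.log 2 := by
      have : 0 ≤ KM * (y : ℝ) := by positivity
      linarith
    have h2 : (1 : ℝ) ≤ t := le_of_mul_le_mul_right h1 hlog2
    exact_mod_cast h2
  have tX : (t : ℝ) ≤ X := by
    refine t1.trans ?_
    rw [div_le_iff₀ D0]
    have h1 : X * 1 ≤ X * D := mul_le_mul_of_nonneg_left (by linarith) hX0.le
    linarith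
  have hbb : 100 * (t : ℝ) ≤ ((y : ℝ) ^ (1 / β)) ^ (1 - ε1) := by
    have e1 : (y : ℝ) ^ ((3 : ℝ) / 2) ≤ ((y : ℝ) ^ (1 / β)) ^ (1 - ε1) := by
      rw [← Real.rpow_mul y0.le]
      refine Real.rpow_le_rpow_of_exponent_le (by linarith) ?_
      have h1 : 2 * (1 - ε1) ≤ 1 / β * (1 - ε1) :=
        mul_le_mul_of_nonneg_right hβ2' (by linarith)
      linarith
    have e2 : X ^ ((3 : ℝ) / 4) / 2 ≤ y := by
      have : X ^ ((3 : ℝ) / 4) ≤ X ^ (1 - δ) :=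
        Real.rpow_le_rpow_of_exponent_le hX1 (by linarith)
      linarith
    have e3 : (X ^ ((3 : ℝ) / 4) / 2) ^ ((3 : ℝ) / 2) ≤ (y : ℝ) ^ ((3 : ℝ) / 2) :=
      Real.rpow_le_rpow (by positivity) e2 (by norm_num)
    have e4 : (X ^ ((3 : ℝ) / 4) / 2) ^ ((3 : ℝ) / 2) =
        X ^ ((1 : ℝ) / 8) * X / 2 ^ ((3 : ℝ) / 2) := by
      rw [Real.div_rpow (by positivity) (by norm_num), ← Real.rpow_mul hX0.le]
      congr 1
      have : X ^ ((1 : ℝ) / 8) * X = X ^ ((1 : ℝ) / 8) * X ^ (1 : ℝ) := by rw [Real.rpow_one]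
      rw [this, ← Real.rpow_add hX0]; norm_num
    have e5 : (2 : ℝ) ^ ((3 : ℝ) / 2) ≤ 3 := by
      have : (2 : ℝ) ^ ((3 : ℝ) / 2) = Real.sqrt 8 := by
        rw [Real.sqrt_eq_rpow]
        have : (8 : ℝ) = 2 ^ (3 : ℝ) := by norm_num
        rw [this, ← Real.rpow_mul (by norm_num)]; norm_num
      rw [this, Real.sqrt_le_left (by norm_num)]; norm_num
    have e6 : (0 : ℝ) < 2 ^ ((3 : ℝ) / 2) := by positivity
    have e7 : 100 * X ≤ X ^ ((1 : ℝ) / 8) * X / 2 ^ ((3 : ℝ) / 2) := by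
      rw [le_div_iff₀ e6]
      have h1 : 300 * X ≤ X ^ ((1 : ℝ) / 8) * X := mul_le_mul_of_nonneg_right g7 hX0.le
      have h2 : 100 * X * 2 ^ ((3 : ℝ) / 2) ≤ 100 * X * 3 :=
        mul_le_mul_of_nonneg_left e5 (by positivity)
      linarith
    calc 100 * (t : ℝ) ≤ 100 * X := by linarith
      _ ≤ _ := e7
      _ = _ := e4.symm
      _ ≤ _ := e3
      _ ≤ _ := e1
  refine ⟨hyp, t3, hbb, c1, ?_⟩
  -- main inequality
  have ht0 : (0 : ℝ) < t := by exact_mod_cast hyp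
  have lt1 : Real.log t ≤ Real.log X := Real.log_le_log ht0 tX
  have hd : (0 : ℝ) < 1 - δ := by linarith
  set B : ℝ := 1 - ε1 - β / (1 - δ) with hB
  have B1 : 1 - β - ε / 2 ≤ B := by
    have : β / (1 - δ) ≤ β + δ := by
      rw [div_le_iff₀ hd]
      have h1 : δ * β ≤ δ * (1 / 2) := mul_le_mul_of_nonneg_left hβ2.le hδ.le
      have h2 : δ * δ ≤ δ * (1 / 4) := mul_le_mul_of_nonneg_left hδ2 hδ.le
      have h3 : (β + δ) * (1 - δ) = β + δ - δ * β - δ * δ := by ring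
      linarith
    linarith
  have B2 : B ≤ 1 := by
    have : 0 ≤ β / (1 - δ) := by positivity
    linarith
  have B3 : 1 / 12 ≤ B := by
    have : β / (1 - δ) ≤ 2 / 3 := by
      rw [div_le_iff₀ hd]; linarith
    linarith
  have lt2 : Real.log t ≤ β / (1 - δ) * D + 1 := by
    have h1 : Real.log X ≤ (Real.log 2 + ℓ) / (1 - δ) := by
      rw [le_div_iff₀ hd]; linarith
    have h2 : (Real.log 2 + ℓ) / (1 - δ) = β / (1 - δ) * D + Real.log 2 / (1 - δ) := by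
      rw [← hβD]; ring
    have h3 : Real.log 2 / (1 - δ) ≤ 1 := by
      rw [div_le_one hd]; linarith
    linarith
  have m1 : D * B - 1 ≤ (1 - ε1) * D - Real.log t := by
    have : (1 - ε1) * D - (β / (1 - δ) * D + 1) = D * B - 1 := by rw [hB]; ring
    linarith
  have m2 : 0 ≤ D * B - 1 := by
    have h1 : D * (1 / 12) ≤ D * B := mul_le_mul_of_nonneg_left B3 D0.le
    linarith
  have m3 : ((X - 3 * (y : ℝ) ^ (1 + δ)) / D - 1) * (D * B - 1) ≤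
      t * ((1 - ε1) * D - Real.log t) := by
    calc ((X - 3 * (y : ℝ) ^ (1 + δ)) / D - 1) * (D * B - 1) ≤ t * (D * B - 1) :=
          mul_le_mul_of_nonneg_right t2.le m2
      _ ≤ _ := mul_le_mul_of_nonneg_left m1 ht0.le
  have m4 : ((X - 3 * (y : ℝ) ^ (1 + δ)) / D - 1) * (D * B - 1) =
      (X - 3 * (y : ℝ) ^ (1 + δ)) * B - (X - 3 * (y : ℝ) ^ (1 + δ)) / D - D * B + 1 := by
    field_simp; ring
  have m5 : (X - 3 * (y : ℝ) ^ (1 + δ)) / D ≤ X / D := by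
    exact div_le_div_of_nonneg_right (by linarith) D0.le
  have m6 : D * B ≤ D := by
    have h1 : D * B ≤ D * 1 := mul_le_mul_of_nonneg_left B2 D0.le
    linarith
  have m7 : X * (1 - β - ε / 2) ≤ X * B := mul_le_mul_of_nonneg_left B1 hX0.le
  have m8 : 3 * (y : ℝ) ^ (1 + δ) * B ≤ 3 * (y : ℝ) ^ (1 + δ) * 1 :=
    mul_le_mul_of_nonneg_left B2 (by positivity)
  have m9 : 1 ≤ ε / 20 * X := by
    rw [div_le_iff₀ hε] at g8; linarith
  have m10 : (X - 3 * (y : ℝ) ^ (1 + δ)) * B = X * B - 3 * (y : ℝ) ^ (1 + δ) * B := by ring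
  have m11 : X * (1 - β - ε / 2) = (1 - β - ε) * X + 10 * (ε / 20 * X) := by ring
  linarith

end Pool.Agent.Lib.MP_a260de_nt.CN
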