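import Pool.Agent.Lib.MP_a260de_nt.CN.Top
import Pool.Agent.Lib.MP_a260de_nt.CN.Param

/-!
MP_a260de_nt, PROJECT CN: elementary asymptotics for the assembly `S_Cx` (helper43).
-/

open Filter

namespace Pool.Agent.Lib.MP_a260de_nt.CN

/-- `B * y ^ c ≤ exp y - 1` eventually -/
lemma ev_exp (B c : ℝ) : ∀ᶠ y : ℝ in atTop, B * y ^ c ≤ Real.exp y - 1 := by
  have h1 := (tendsto_exp_div_rpow_atTop c).eventually_ge_atTop (2 * (|B| + 1))
  filter_upwards [h1, eventually_gt_atTop 1] with y h2 h3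
  have h0 : 0 < y := by linarith
  have hp : 0 < y ^ c := Real.rpow_pos_of_pos h0 _
  rw [le_div_iff₀ hp] at h2
  have h4 : B * y ^ c ≤ (|B| + 1) * y ^ c :=
    mul_le_mul_of_nonneg_right ((le_abs_self B).trans (by linarith)) hp.le
  have h5 : (2 : ℝ) ≤ Real.exp y := by
    have := Real.add_one_le_exp y; linarith
  linarith

lemma floor_exp_ge (v : ℝ) : Real.exp v - 1 ≤ ((⌊Real.exp v⌋₊ : ℕ) : ℝ) :=
  (Nat.sub_one_lt_floor _).le

/-- facts on `y` -/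
lemma ev_y (C KM K δ A : ℝ) (hδ : 0 < δ) (hK : 1 ≤ K) (hKM : 0 < KM) :
    ∀ᶠ y : ℕ in atTop, (y : ℝ) ^ C ≤ (WW y K : ℝ) ∧ 2 * (y : ℝ) ^ C ≤ (RR y δ : ℝ) ∧
      2 * (y : ℝ) ^ (4 : ℝ) < (RR y δ : ℝ) ∧ Real.exp (KM * y) ≤ (RR y δ : ℝ) ∧
      12 * (y : ℝ) ^ (2 + A) ≤ (RR y δ : ℝ) ∧ (6 : ℝ) ≤ (RR y δ : ℝ) ∧
      (RR y δ : ℝ) ≤ Real.exp ((y : ℝ) ^ (1 + δ)) := by
  have hc : Tendsto (fun y : ℕ => (y : ℝ)) atTop atTop := tendsto_natCast_atTop_atTop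
  have a1 := hc.eventually (ev_exp 1 C)
  have a2 := hc.eventually (ev_exp 2 C)
  have a3 := hc.eventually (ev_exp 3 4)
  have a4 := hc.eventually (ev_exp 12 (2 + A))
  have a5 := hc.eventually ((tendsto_rpow_atTop hδ).eventually_ge_atTop (KM + 1))
  filter_upwards [a1, a2, a3, a4, a5, eventually_ge_atTop 8] with y b1 b2 b3 b4 b5 b6
  have hy : (8 : ℝ) ≤ y := by exact_mod_cast b6
  have hy0 : (0 : ℝ) < y := by linarith
  have hpow : (y : ℝ) ^ (1 + δ) = y * (y : ℝ) ^ δ := by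
    rw [Real.rpow_add hy0, Real.rpow_one]
  have hpow2 : (KM + 1) * y ≤ (y : ℝ) ^ (1 + δ) := by
    rw [hpow, mul_comm]; exact mul_le_mul_of_nonneg_left b5 hy0.le
  have hpow3 : (y : ℝ) ≤ (y : ℝ) ^ (1 + δ) := by
    have : 0 ≤ KM * (y : ℝ) := by positivity
    linarith
  have hW : Real.exp y - 1 ≤ (WW y K : ℝ) := by
    refine le_trans ?_ (floor_exp_ge (K * y))
    have : Real.exp (y : ℝ) ≤ Real.exp (K * y) := Real.exp_le_exp.2 (by nlinarith)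
    linarith
  have hR : Real.exp y - 1 ≤ (RR y δ : ℝ) := by
    refine le_trans ?_ (floor_exp_ge ((y : ℝ) ^ (1 + δ)))
    have : Real.exp (y : ℝ) ≤ Real.exp ((y : ℝ) ^ (1 + δ)) := Real.exp_le_exp.2 hpow3
    linarith
  have hex : (9 : ℝ) ≤ Real.exp y := by
    have := Real.add_one_le_exp (y : ℝ); linarith
  have hy4 : 0 < (y : ℝ) ^ (4 : ℝ) := Real.rpow_pos_of_pos hy0 _
  refine ⟨by linarith, by linarith, by linarith, ?_, by linarith, by linarith, ?_⟩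
  · refine le_trans ?_ (floor_exp_ge ((y : ℝ) ^ (1 + δ)))
    have h1 : Real.exp ((KM + 1) * y) ≤ Real.exp ((y : ℝ) ^ (1 + δ)) := Real.exp_le_exp.2 hpow2
    have h2 : Real.exp ((KM + 1) * y) = Real.exp (KM * y) * Real.exp y := by
      rw [← Real.exp_add]; congr 1; ring
    have h3 : 1 ≤ Real.exp (KM * y) := Real.one_le_exp (by positivity)
    have h4 : Real.exp (KM * y) * 2 ≤ Real.exp (KM * y) * Real.exp y :=
      mul_le_mul_of_nonneg_left (by linarith) (by positivity)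
    linarith
  · exact Nat.floor_le (Real.exp_pos _).le

/-- `y = ⌊X ^ (1 - δ)⌋` tends to infinity -/
lemma tendsto_yX {δ : ℝ} (hδ : δ < 1) : Tendsto (fun X : ℝ => ⌊X ^ (1 - δ)⌋₊) atTop atTop :=
  tendsto_nat_floor_atTop.comp (tendsto_rpow_atTop (by linarith))

/-- relations between `X` and `y` -/
lemma ev_X (β δ η : ℝ) (hβ : 0 < β) (hδ : 0 < δ) (hδ2 : δ ≤ 1 / 4) (hη : η < 1)
    (h : 2 * β < (1 - δ) * (1 - η)) :
    ∀ᶠ X : ℝ in atTop, ∀ y : ℕ, y = ⌊X ^ (1 - δ)⌋₊ →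
      X ^ 2 < ((y : ℝ) ^ (1 / β)) ^ (1 - η) ∧ 2 * X ≤ (y : ℝ) ^ ((3 : ℝ) / 2) ∧
      X ^ 2 ≤ (y : ℝ) ^ (4 : ℝ) := by
  set σ : ℝ := 1 / β * (1 - η) with hσ
  have hσ1 : 2 < (1 - δ) * σ := by
    rw [hσ]
    have : (1 - δ) * (1 / β * (1 - η)) = ((1 - δ) * (1 - η)) / β := by ring
    rw [this, lt_div_iff₀ hβ]; exact h
  have hσ0 : 0 < σ := by
    have h1 : 0 < 1 - η := by linarith
    positivity
  have a1 := (tendsto_rpow_atTop (show 0 < (1 - δ) * σ - 2 by linarith)).eventually_ge_atTop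
    (2 ^ σ + 1)
  have a2 := (tendsto_rpow_atTop (show (0 : ℝ) < 1 / 8 by norm_num)).eventually_ge_atTop 6
  have a3 := (tendsto_rpow_atTop (show (0 : ℝ) < 1 - δ by linarith)).eventually_ge_atTop 100
  filter_upwards [a1, a2, a3, eventually_ge_atTop 1] with X b1 b2 b3 b4 y hy
  have hX0 : 0 < X := by linarith
  have hXd : 0 ≤ X ^ (1 - δ) := Real.rpow_nonneg hX0.le _
  have y2 : X ^ (1 - δ) < (y : ℝ) + 1 := by rw [hy]; exact Nat.lt_floor_add_one _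
  have y3 : (99 : ℝ) ≤ y := by linarith
  have y0 : (0 : ℝ) < y := by linarith
  have y5 : X ^ (1 - δ) / 2 ≤ y := by linarith
  have hsec : 2 * X ≤ (y : ℝ) ^ ((3 : ℝ) / 2) := by
    have e2 : X ^ ((3 : ℝ) / 4) / 2 ≤ y := by
      have : X ^ ((3 : ℝ) / 4) ≤ X ^ (1 - δ) :=
        Real.rpow_le_rpow_of_exponent_le b4 (by linarith)
      linarith
    have e3 : (X ^ ((3 : ℝ) / 4) / 2) ^ ((3 : ℝ) / 2) ≤ (y : ℝ) ^ ((3 : ℝ) / 2) :=
      Real.rpow_le_rpow (by positivity) e2 (by norm_num)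
    have e4 : (X ^ ((3 : ℝ) / 4) / 2) ^ ((3 : ℝ) / 2) =
        X ^ ((1 : ℝ) / 8) * X / 2 ^ ((3 : ℝ) / 2) := by
      rw [Real.div_rpow (by positivity) (by norm_num), ← Real.rpow_mul hX0.le]
      congr 1
      have : X ^ ((1 : ℝ) / 8) * X = X ^ ((1 : ℝ) / 8) * X ^ (1 : ℝ) := by rw [Real.rpow_one]
      rw [this, ← Real.rpow_add hX0]; norm_num
    have e5 : (2 : ℝ) ^ ((3 : ℝ) / 2) ≤ 3 := by
      have : (2 : ℝ) ^ ((3 : ℝ) / 2) = Real.sqrt 8 := by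
        rw [Real.sqrt_eq_rpow]
        have : (8 : ℝ) = 2 ^ (3 : ℝ) := by norm_num
        rw [this, ← Real.rpow_mul (by norm_num)]; norm_num
      rw [this, Real.sqrt_le_left (by norm_num)]; norm_num
    have e6 : (0 : ℝ) < 2 ^ ((3 : ℝ) / 2) := by positivity
    have e7 : 2 * X ≤ X ^ ((1 : ℝ) / 8) * X / 2 ^ ((3 : ℝ) / 2) := by
      rw [le_div_iff₀ e6]
      have h1 : 6 * X ≤ X ^ ((1 : ℝ) / 8) * X := mul_le_mul_of_nonneg_right b2 hX0.le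
      have h2 : 2 * X * 2 ^ ((3 : ℝ) / 2) ≤ 2 * X * 3 :=
        mul_le_mul_of_nonneg_left e5 (by positivity)
      linarith
    rw [← e4] at e7
    exact e7.trans e3
  refine ⟨?_, hsec, ?_⟩
  · rw [← Real.rpow_mul y0.le]
    have e1 : (X ^ (1 - δ) / 2) ^ σ ≤ (y : ℝ) ^ σ := Real.rpow_le_rpow (by positivity) y5 hσ0.le
    have e2 : (X ^ (1 - δ) / 2) ^ σ = X ^ ((1 - δ) * σ - 2) * X ^ 2 / 2 ^ σ := by
      rw [Real.div_rpow hXd (by norm_num), ← Real.rpow_mul hX0.le]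
      congr 1
      rw [← Real.rpow_two, ← Real.rpow_add hX0]; congr 1; ring
    have e3 : 0 < (2 : ℝ) ^ σ := by positivity
    have e4 : X ^ 2 < X ^ ((1 - δ) * σ - 2) * X ^ 2 / 2 ^ σ := by
      rw [lt_div_iff₀ e3, mul_comm]
      exact mul_lt_mul_of_pos_right (by linarith) (by positivity)
    rw [← e2] at e4
    exact e4.trans_le e1
  · have e1 : 0 ≤ 2 * X := by linarith
    have e2 : (2 * X) ^ 2 ≤ ((y : ℝ) ^ ((3 : ℝ) / 2)) ^ 2 := pow_le_pow_left₀ e1 hsec 2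
    have e3 : ((y : ℝ) ^ ((3 : ℝ) / 2)) ^ 2 = (y : ℝ) ^ (3 : ℝ) := by
      rw [← Real.rpow_natCast, ← Real.rpow_mul y0.le]; norm_num
    have e4 : (y : ℝ) ^ (3 : ℝ) ≤ (y : ℝ) ^ (4 : ℝ) :=
      Real.rpow_le_rpow_of_exponent_le (by linarith) (by norm_num)
    nlinarith

end Pool.Agent.Lib.MP_a260de_nt.CN
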