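import Pool.Agent.Lib.MP_a260de_nt.CN.CxA

/-!
MP_a260de_nt, PROJECT CN: the size of the set `S0` of the assembly `S_Cx` (helper43).
-/

open Filter Finset

namespace Pool.Agent.Lib.MP_a260de_nt.CN

/-- the number of prime factors of `m ≤ exp X` -/
lemma omega_le {m : ℕ} {X : ℝ} (hm : 1 ≤ m) (hX : (m : ℝ) ≤ Real.exp X) (hX0 : 0 ≤ X) :
    (m.primeFactors.card : ℝ) ≤ 2 * X := by
  have h1 : 2 ^ m.primeFactors.card ≤ m := by
    calc 2 ^ m.primeFactors.card = ∏ _p ∈ m.primeFactors, 2 := by simp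
      _ ≤ ∏ p ∈ m.primeFactors, p :=
          Finset.prod_le_prod' fun p hp => (Nat.prime_of_mem_primeFactors hp).two_le
      _ ≤ m := Nat.le_of_dvd hm (Nat.prod_primeFactors_dvd m)
  have h2 : (2 : ℝ) ^ m.primeFactors.card ≤ Real.exp X := by
    refine le_trans ?_ hX
    exact_mod_cast h1
  have h3 : (m.primeFactors.card : ℝ) * Real.log 2 ≤ X := by
    have := Real.log_le_log (by positivity) h2
    rwa [Real.log_exp, Real.log_pow] at this
  have h4 : 0.6931471803 < Real.log 2 := Real.log_two_gt_d9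
  have h5 : (0 : ℝ) ≤ m.primeFactors.card := Nat.cast_nonneg _
  nlinarith

/-- the asymptotics in `z` -/
lemma ev_z (ε0 η ε' : ℝ) (h1 : ε' < ε0) (h2 : ε' < η) (h3 : ε' < 1 / 4) :
    ∀ᶠ z : ℝ in atTop, z ^ (1 - ε0) + z ^ (1 - η) + z ^ ((3 : ℝ) / 4) ≤ z ^ (1 - ε') := by
  have a1 := (tendsto_rpow_atTop (show 0 < ε0 - ε' by linarith)).eventually_ge_atTop 3
  have a2 := (tendsto_rpow_atTop (show 0 < η - ε' by linarith)).eventually_ge_atTop 3
  have a3 := (tendsto_rpow_atTop (show 0 < 1 / 4 - ε' by linarith)).eventually_ge_atTop 3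
  filter_upwards [a1, a2, a3, eventually_gt_atTop 0] with z b1 b2 b3 b4
  have key : ∀ a : ℝ, 3 ≤ z ^ (a - ε') → z ^ (1 - a) ≤ z ^ (1 - ε') / 3 := by
    intro a ha
    have h0 : 0 < z ^ (1 - a) := Real.rpow_pos_of_pos b4 _
    have e : z ^ (1 - ε') = z ^ (a - ε') * z ^ (1 - a) := by
      rw [← Real.rpow_add b4]; congr 1; ring
    rw [e]; nlinarith
  have c1 := key ε0 b1
  have c2 := key η b2
  have c3 := key (1 / 4) b3
  have e3 : (1 : ℝ) - 1 / 4 = 3 / 4 := by norm_num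
  rw [e3] at c3
  linarith

open Classical in
/-- the set `S0`: primes `z ^ (1-η) < p ≤ z`, `p - 1` smooth, `p ∤ m` -/
noncomputable def S0 (z β η : ℝ) (m : ℕ) : Finset ℕ :=
  ((Icc 1 ⌊z⌋₊).filter (fun p : ℕ => p.Prime ∧ ∀ q ∈ (p - 1).primeFactors, (q : ℝ) ≤ z ^ β)).filter
    (fun p => z ^ (1 - η) < (p : ℝ) ∧ ¬ p ∣ m)

lemma mem_S0 {z β η : ℝ} {m p : ℕ} : p ∈ S0 z β η m ↔
    p ∈ Icc 1 ⌊z⌋₊ ∧ (p.Prime ∧ ∀ q ∈ (p - 1).primeFactors, (q : ℝ) ≤ z ^ β) ∧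
      (z ^ (1 - η) < (p : ℝ) ∧ ¬ p ∣ m) := by
  simp only [S0, Finset.mem_filter, and_assoc]

lemma S0_card {β η ε0 : ℝ} (hS : ShiftedSmooth β) (h0 : 0 < ε0) (hη : 0 < η) :
    ∀ᶠ z : ℝ in atTop, ∀ m : ℕ, 1 ≤ m → (m.primeFactors.card : ℝ) ≤ z ^ ((3 : ℝ) / 4) →
      z ^ (1 - ε0) ≤ ((S0 z β η m).card : ℝ) := by
  classical
  set ε' : ℝ := min (min ε0 η) (1 / 4) / 2 with hε'
  have hmin : 0 < min (min ε0 η) (1 / 4) := by
    refine lt_min (lt_min h0 hη) (by norm_num)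
  have m1 : min (min ε0 η) (1 / 4) ≤ ε0 := (min_le_left _ _).trans (min_le_left _ _)
  have m2 : min (min ε0 η) (1 / 4) ≤ η := (min_le_left _ _).trans (min_le_right _ _)
  have m3 : min (min ε0 η) (1 / 4) ≤ 1 / 4 := min_le_right _ _
  obtain ⟨z0, hz0⟩ := hS ε' (by linarith)
  filter_upwards [ev_z ε0 η ε' (by linarith) (by linarith) (by linarith),
    eventually_ge_atTop z0, eventually_ge_atTop 1] with z b1 b2 b3 m hm hω
  have hexF : ∃ F : Finset ℕ, (∀ p, p ∈ F ↔ p ∈ Icc 1 ⌊z⌋₊ ∧ (p.Prime ∧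
      ∀ q ∈ (p - 1).primeFactors, (q : ℝ) ≤ z ^ β)) ∧ z ^ (1 - ε') ≤ (F.card : ℝ) := by
    refine ⟨_, fun p => ?_, hz0 z b2⟩
    simp only [Finset.mem_filter]
  obtain ⟨F, hF, h1⟩ := hexF
  have hsub : F ⊆ S0 z β η m ∪ (Icc 1 ⌊z ^ (1 - η)⌋₊ ∪ m.primeFactors) := by
    intro p hp
    rw [Finset.mem_union, Finset.mem_union]
    by_cases c1 : z ^ (1 - η) < (p : ℝ)
    · by_cases c2 : p ∣ m
      · right; right
        rw [Nat.mem_primeFactors]
        exact ⟨((hF p).1 hp).2.1, c2, by omega⟩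
      · left
        rw [mem_S0]
        exact ⟨((hF p).1 hp).1, ((hF p).1 hp).2, c1, c2⟩
    · right; left
      rw [Finset.mem_Icc]
      refine ⟨(Finset.mem_Icc.1 ((hF p).1 hp).1).1, Nat.le_floor (not_lt.1 c1)⟩
  have hcard : (F.card : ℝ) ≤ (S0 z β η m).card + (z ^ (1 - η) + m.primeFactors.card) := by
    have e1 : F.card ≤ (S0 z β η m).card + (⌊z ^ (1 - η)⌋₊ + m.primeFactors.card) := by
      refine (Finset.card_le_card hsub).trans ((Finset.card_union_le _ _).trans ?_)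
      refine Nat.add_le_add_left ((Finset.card_union_le _ _).trans ?_) _
      simp
    have e2 : ((⌊z ^ (1 - η)⌋₊ : ℕ) : ℝ) ≤ z ^ (1 - η) :=
      Nat.floor_le (Real.rpow_nonneg (by linarith) _)
    have e3 : (F.card : ℝ) ≤ (S0 z β η m).card + ((⌊z ^ (1 - η)⌋₊ : ℕ) + m.primeFactors.card) := by
      exact_mod_cast e1
    linarith
  linarith

end Pool.Agent.Lib.MP_a260de_nt.CN
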