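import Mathlib

/-!
MP_a260de_nt, PROJECT CN (helper74, helper5; proof notes 3797 and 3800): more than x^(7/12) Carmichael
numbers up to x. Common definitions of all parts.
Parameters: y, z = y^C, R = RR y δ = exp(y^(1+δ)), W = WW y K = exp(K y).
-/

namespace Pool.Agent.Lib.MP_a260de_nt.CN

open Finset

/-- all prime factors of n are at most y -/
def Smooth (y n : ℕ) : Prop := ∀ q : ℕ, q.Prime → q ∣ n → q ≤ y

/-- all prime factors of n are greater than w -/
def Rough (w n : ℕ) : Prop := ∀ q : ℕ, q.Prime → q ∣ n → w < q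

/-- Carmichael numbers -/
def Carm (n : ℕ) : Prop := 1 < n ∧ ¬ n.Prime ∧ ∀ b : ℕ, b.Coprime n → b ^ (n - 1) ≡ 1 [MOD n]

open Classical in
/-- the number of Carmichael numbers up to x all of whose prime factors are > L -/
noncomputable def carmCount (L : ℕ) (x : ℝ) : ℕ :=
  ((Icc 1 ⌊x⌋₊).filter (fun n => Carm n ∧ Rough L n)).card

/-- the size of the auxiliary primes -/
noncomputable def RR (y : ℕ) (δ : ℝ) : ℕ := ⌊Real.exp ((y : ℝ) ^ (1 + δ))⌋₊

/-- the roughness of the auxiliary primes -/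
noncomputable def WW (y : ℕ) (K : ℝ) : ℕ := ⌊Real.exp (K * y)⌋₊

/-! ### Smooth shifted primes -/

open Classical in
/-- for every ε > 0 and all large z there are at least z^(1-ε) primes p ≤ z such that p - 1 has no
prime factor > z^β -/
def ShiftedSmooth (β : ℝ) : Prop :=
  ∀ ε : ℝ, 0 < ε → ∃ z0 : ℝ, ∀ z : ℝ, z0 ≤ z →
    z ^ (1 - ε) ≤ (((Icc 1 ⌊z⌋₊).filter (fun p : ℕ => p.Prime ∧
      ∀ q ∈ (p - 1).primeFactors, (q : ℝ) ≤ z ^ β)).card : ℝ)

/-! ### Characters -/

/-- the sum of χ over the set S -/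
noncomputable def chs (S : Finset ℕ) {q : ℕ} (χ : DirichletCharacter ℂ q) : ℂ :=
  ∑ p ∈ S, χ (p : ZMod q)

/-- χ is primitive and bad for S -/
def Bad (S : Finset ℕ) {q : ℕ} (χ : DirichletCharacter ℂ q) : Prop :=
  χ.IsPrimitive ∧ (S.card : ℝ) / 8 ≤ ‖chs S χ‖

open Classical in
/-- the number of bad primitive characters with conductor in [2, Q] -/
noncomputable def nbad (S : Finset ℕ) (Q : ℕ) : ℕ :=
  ∑ q ∈ Icc 2 Q, (univ.filter (fun χ : DirichletCharacter ℂ q => Bad S χ)).card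

/-! ### Auxiliary primes -/

/-- the part of r - 1 outside M (for good primes it is coprime to M) -/
def rho (M r : ℕ) : ℕ := (r - 1) / Nat.gcd (r - 1) M

/-- the good auxiliary primes: r in (R/2, R] prime, r - 1 = h ρ with h ∣ M, ρ coprime to M, all
prime factors of ρ greater than W -/
def Good (M R W r : ℕ) : Prop :=
  r.Prime ∧ R < 2 * r ∧ r ≤ R ∧ (rho M r).Coprime M ∧ Rough W (rho M r)

/-- the least common multiple of the three ρ -/
def lam (M : ℕ) (r : ℕ × ℕ × ℕ) : ℕ := Nat.lcm (rho M r.1) (Nat.lcm (rho M r.2.1) (rho M r.2.2))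

open Classical in
/-- the triples of distinct good primes with product ≡ c mod M -/
noncomputable def trip (M R W c : ℕ) : Finset (ℕ × ℕ × ℕ) :=
  ((Icc 1 R) ×ˢ (Icc 1 R) ×ˢ (Icc 1 R)).filter (fun r =>
    Good M R W r.1 ∧ Good M R W r.2.1 ∧ Good M R W r.2.2 ∧
    r.1 ≠ r.2.1 ∧ r.1 ≠ r.2.2 ∧ r.2.1 ≠ r.2.2 ∧ r.1 * r.2.1 * r.2.2 ≡ c [MOD M])

/-! ### Subset products -/

open Classical in
/-- the number of t-subsets A of S with product ≡ c mod M -/
noncomputable def cnt (M : ℕ) (S : Finset ℕ) (t c : ℕ) : ℕ :=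
  ((S.powersetCard t).filter (fun A => ∏ p ∈ A, p ≡ c [MOD M])).card

end Pool.Agent.Lib.MP_a260de_nt.CN
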