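import Mathlib

/-!
MP_a260de_nt, package CN (many Carmichael numbers), module Esb: a bound for the elementary symmetric
functions of numbers of absolute value at most one with a small sum.
-/

set_option autoImplicit false

namespace Pool.Agent.Lib.MP_a260de_nt.CN

open Finset

private lemma norm_one_add_le (v : ℂ) : ‖1 + v‖ ≤ Real.exp (v.re + ‖v‖ ^ 2 / 2) := by
  have h1 : ‖1 + v‖ ^ 2 = 1 + 2 * v.re + ‖v‖ ^ 2 := by
    rw [← Complex.normSq_eq_norm_sq, ← Complex.normSq_eq_norm_sq, Complex.normSq_apply,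
      Complex.normSq_apply]
    simp
    ring
  have h2 : ‖1 + v‖ ^ 2 ≤ (Real.exp (v.re + ‖v‖ ^ 2 / 2)) ^ 2 := by
    rw [h1, ← Real.exp_nat_mul]
    have := Real.add_one_le_exp (((2 : ℕ) : ℝ) * (v.re + ‖v‖ ^ 2 / 2))
    push_cast at this ⊢
    linarith
  have h3 := abs_le_of_sq_le_sq h2 (Real.exp_pos _).le
  rwa [abs_norm] at h3

private lemma prod_norm_le {ι : Type*} (S : Finset ι) (u : ι → ℂ) (hu : ∀ p ∈ S, ‖u p‖ ≤ 1)
    (w : ℂ) : ‖∏ p ∈ S, (1 + w * u p)‖ ≤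
      Real.exp (‖w‖ * ‖∑ p ∈ S, u p‖ + ‖w‖ ^ 2 * S.card / 2) := by
  rw [norm_prod]
  have h1 : ∏ p ∈ S, ‖1 + w * u p‖ ≤ ∏ p ∈ S, Real.exp ((w * u p).re + ‖w‖ ^ 2 / 2) := by
    refine prod_le_prod (fun p _ => norm_nonneg _) fun p hp => ?_
    refine (norm_one_add_le _).trans (Real.exp_le_exp.2 ?_)
    have h3 : ‖w * u p‖ ^ 2 ≤ ‖w‖ ^ 2 := by
      rw [norm_mul, mul_pow]
      have := pow_le_one₀ (norm_nonneg _) (hu p hp) (n := 2)
      nlinarith [sq_nonneg ‖w‖]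
    linarith
  refine h1.trans ?_
  rw [← Real.exp_sum]
  apply Real.exp_le_exp.2
  rw [sum_add_distrib, sum_const, nsmul_eq_mul]
  have h4 : ∑ p ∈ S, (w * u p).re = (w * ∑ p ∈ S, u p).re := by
    rw [mul_sum, Complex.re_sum]
  have h5 : (w * ∑ p ∈ S, u p).re ≤ ‖w‖ * ‖∑ p ∈ S, u p‖ := by
    rw [← norm_mul]; exact Complex.re_le_norm _
  rw [h4]
  linarith

private lemma coeff_extract {ι : Type*} [DecidableEq ι] (S : Finset ι) (u : ι → ℂ) (t : ℕ)
    (ρ : ℂ) (N : ℕ) (hN : S.card < N) (ht : t < N) (ω : ℂ) (hω : IsPrimitiveRoot ω N) :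
    ∑ j ∈ range N, (ω⁻¹) ^ (j * t) * ∏ p ∈ S, (1 + ρ * ω ^ j * u p) =
      (N : ℂ) * (ρ ^ t * ∑ A ∈ S.powersetCard t, ∏ p ∈ A, u p) := by
  have hω0 : ω ≠ 0 := hω.ne_zero (by omega)
  have h1 : ∀ j, ∏ p ∈ S, (1 + ρ * ω ^ j * u p) =
      ∑ A ∈ S.powerset, (ρ * ω ^ j) ^ A.card * ∏ p ∈ A, u p := by
    intro j
    rw [prod_one_add]
    refine sum_congr rfl fun A _ => ?_
    rw [prod_mul_distrib, prod_const]
  simp only [h1, mul_sum]
  rw [sum_comm]
  have h2 : ∀ A ∈ S.powerset, ∑ j ∈ range N, (ω⁻¹) ^ (j * t) * ((ρ * ω ^ j) ^ A.card *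
      ∏ p ∈ A, u p) = if A.card = t then (N : ℂ) * (ρ ^ t * ∏ p ∈ A, u p) else 0 := by
    intro A hA
    have hAc : A.card < N := lt_of_le_of_lt (card_le_card (mem_powerset.1 hA)) hN
    split_ifs with h
    · subst h
      have : ∀ j ∈ range N, (ω⁻¹) ^ (j * A.card) * ((ρ * ω ^ j) ^ A.card * ∏ p ∈ A, u p) =
          ρ ^ A.card * ∏ p ∈ A, u p := by
        intro j _
        rw [mul_pow, ← pow_mul]
        have : (ω⁻¹) ^ (j * A.card) * ω ^ (j * A.card) = 1 := by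
          rw [← mul_pow, inv_mul_cancel₀ hω0, one_pow]
        linear_combination (ρ ^ A.card * ∏ p ∈ A, u p) * this
      rw [sum_congr rfl this, sum_const, card_range, nsmul_eq_mul]
    · -- geometric sum with ratio ζ = ω ^ card / ω ^ t
      have hz : ∀ j ∈ range N, (ω⁻¹) ^ (j * t) * ((ρ * ω ^ j) ^ A.card * ∏ p ∈ A, u p) =
          (ρ ^ A.card * ∏ p ∈ A, u p) * ((ω⁻¹) ^ t * ω ^ A.card) ^ j := by
        intro j _
        rw [mul_pow, mul_pow, ← pow_mul, ← pow_mul, ← pow_mul]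
        rw [mul_comm t j, mul_comm A.card j]
        ring
      rw [sum_congr rfl hz, ← mul_sum]
      have hr : (ω⁻¹) ^ t * ω ^ A.card ≠ 1 := by
        intro hc
        apply h
        have h5 : ω ^ A.card = ω ^ t := by
          have := congrArg (fun x => ω ^ t * x) hc
          simp only [mul_one] at this
          rw [← mul_assoc, ← mul_pow, mul_inv_cancel₀ hω0, one_pow, one_mul] at this
          exact this
        exact hω.pow_inj hAc ht h5
      have hN1 : ((ω⁻¹) ^ t * ω ^ A.card) ^ N = 1 := by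
        rw [mul_pow, ← pow_mul, ← pow_mul, mul_comm t N, mul_comm A.card N, pow_mul, pow_mul,
          inv_pow, hω.pow_eq_one]
        simp
      have := geom_sum_eq hr N
      rw [this, hN1]
      simp
  rw [sum_congr rfl h2, ← sum_filter]
  have h3 : S.powerset.filter (fun A => A.card = t) = S.powersetCard t := by
    ext A
    simp [mem_powersetCard]
  rw [h3]

/-- Cauchy's estimate for the elementary symmetric functions. -/
theorem esb_gen {ι : Type*} [DecidableEq ι] (S : Finset ι) (u : ι → ℂ)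
    (hu : ∀ p ∈ S, ‖u p‖ ≤ 1) (t : ℕ) (ρ : ℝ) (hρ : 0 < ρ) :
    ‖∑ A ∈ S.powersetCard t, ∏ p ∈ A, u p‖ * ρ ^ t ≤
      Real.exp (ρ * ‖∑ p ∈ S, u p‖ + ρ ^ 2 * S.card / 2) := by
  set N := S.card + t + 1 with hNdef
  have hN0 : N ≠ 0 := by omega
  set ω : ℂ := Complex.exp (2 * Real.pi * Complex.I / N) with hωdef
  have hω : IsPrimitiveRoot ω N := Complex.isPrimitiveRoot_exp N hN0
  have hωn : ‖ω‖ = 1 := hω.norm'_eq_one hN0
  have key := coeff_extract S u t (ρ : ℂ) N (by omega) (by omega) ω hω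
  have hNpos : (0 : ℝ) < N := by positivity
  have h1 : ‖∑ j ∈ range N, (ω⁻¹) ^ (j * t) * ∏ p ∈ S, (1 + (ρ : ℂ) * ω ^ j * u p)‖ ≤
      N * Real.exp (ρ * ‖∑ p ∈ S, u p‖ + ρ ^ 2 * S.card / 2) := by
    refine (norm_sum_le _ _).trans ?_
    have : ∀ j ∈ range N, ‖(ω⁻¹) ^ (j * t) * ∏ p ∈ S, (1 + (ρ : ℂ) * ω ^ j * u p)‖ ≤
        Real.exp (ρ * ‖∑ p ∈ S, u p‖ + ρ ^ 2 * S.card / 2) := by
      intro j _
      rw [norm_mul, norm_pow, norm_inv, hωn, inv_one, one_pow, one_mul]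
      refine (prod_norm_le S u hu _).trans (le_of_eq ?_)
      have : ‖(ρ : ℂ) * ω ^ j‖ = ρ := by
        rw [norm_mul, norm_pow, hωn, one_pow, mul_one, Complex.norm_real, Real.norm_eq_abs,
          abs_of_pos hρ]
      rw [this]
    refine (sum_le_sum this).trans ?_
    rw [sum_const, card_range, nsmul_eq_mul]
  rw [key, norm_mul, norm_mul, norm_pow, Complex.norm_real, Real.norm_eq_abs, abs_of_pos hρ,
    Complex.norm_natCast] at h1
  have h2 := le_of_mul_le_mul_left h1 hNpos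
  linarith [mul_comm (ρ ^ t) ‖∑ A ∈ S.powersetCard t, ∏ p ∈ A, u p‖]

/-- `(n / t) ^ t ≤ C(n, t)`. -/
theorem div_pow_le_choose : ∀ (n t : ℕ), 1 ≤ t → t ≤ n →
    ((n : ℝ) / t) ^ t ≤ (n.choose t : ℝ) := by
  intro n t
  induction t generalizing n with
  | zero => intro h; omega
  | succ t ih =>
    intro _ htn
    rcases Nat.eq_zero_or_pos t with h0 | h0
    · subst h0; simp
    · obtain ⟨m, rfl⟩ : ∃ m, n = m + 1 := ⟨n - 1, by omega⟩
      have hih := ih m h0 (by omega)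
      have h1 : ((m + 1 : ℕ) : ℝ) * (m.choose t : ℝ) =
          ((m + 1).choose (t + 1) : ℝ) * ((t + 1 : ℕ) : ℝ) := by
        exact_mod_cast Nat.add_one_mul_choose_eq m t
      have ht0 : (0 : ℝ) < t := by exact_mod_cast h0
      have ht1 : (0 : ℝ) < ((t + 1 : ℕ) : ℝ) := by positivity
      have hc : (((m + 1).choose (t + 1) : ℕ) : ℝ) =
          ((m + 1 : ℕ) : ℝ) / ((t + 1 : ℕ) : ℝ) * (m.choose t : ℝ) := by
        field_simp
        linarith
      rw [hc, pow_succ, mul_comm]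
      refine mul_le_mul_of_nonneg_left ?_ (by positivity)
      refine le_trans ?_ hih
      refine pow_le_pow_left₀ (by positivity) ?_ t
      rw [div_le_div_iff₀ ht1 ht0]
      have : (t : ℝ) ≤ m := by exact_mod_cast (by omega : t ≤ m)
      push_cast
      nlinarith

/-- The elementary symmetric functions of degree `t ≤ |S| / 100` are exponentially small compared
with `C(|S|, t)` if the sum of the `u p` is at most `|S| / 8`. -/
theorem esb {ι : Type*} [DecidableEq ι] (S : Finset ι) (u : ι → ℂ)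
    (hu : ∀ p ∈ S, ‖u p‖ ≤ 1) (h8 : ‖∑ p ∈ S, u p‖ ≤ (S.card : ℝ) / 8) (t : ℕ) (ht : 1 ≤ t)
    (h100 : 100 * t ≤ S.card) :
    ‖∑ A ∈ S.powersetCard t, ∏ p ∈ A, u p‖ ≤ (1 / 2) ^ t * (S.card.choose t : ℝ) := by
  have htR : (1 : ℝ) ≤ t := by exact_mod_cast ht
  have hS : 100 * (t : ℝ) ≤ S.card := by exact_mod_cast h100
  have hS0 : (0 : ℝ) < S.card := by linarith
  have hρ : (0 : ℝ) < 8 * t / S.card := by positivity
  have h1 := esb_gen S u hu t (8 * t / S.card) hρ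
  have h2 : (8 * (t : ℝ) / S.card) * ‖∑ p ∈ S, u p‖ +
      (8 * (t : ℝ) / S.card) ^ 2 * S.card / 2 ≤ t * (1.32 : ℝ) := by
    have h3 : (8 * (t : ℝ) / S.card) * ‖∑ p ∈ S, u p‖ ≤ t := by
      calc (8 * (t : ℝ) / S.card) * ‖∑ p ∈ S, u p‖ ≤ (8 * (t : ℝ) / S.card) * (S.card / 8) :=
            mul_le_mul_of_nonneg_left h8 hρ.le
        _ = t := by field_simp
    have h4 : (8 * (t : ℝ) / S.card) ^ 2 * S.card / 2 = 32 * t * (t / S.card) := by
      field_simp; ring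
    have h5 : (t : ℝ) / S.card ≤ 1 / 100 := by
      rw [div_le_div_iff₀ hS0 (by norm_num)]; linarith
    rw [h4]
    nlinarith
  have h32 : Real.exp (1.32 : ℝ) ≤ 4 := by
    have ha : Real.exp (1.32 : ℝ) = Real.exp 1 * Real.exp (0.32 : ℝ) := by
      rw [← Real.exp_add]; norm_num
    have hb : Real.exp (0.32 : ℝ) ≤ 1 / 0.68 := by
      have h := Real.add_one_le_exp (-(0.32 : ℝ))
      rw [Real.exp_neg] at h
      have h0 := Real.exp_pos (0.32 : ℝ)
      rw [le_div_iff₀ (by norm_num)]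
      have h1 : (Real.exp (0.32 : ℝ)) * (Real.exp (0.32 : ℝ))⁻¹ = 1 := mul_inv_cancel₀ h0.ne'
      nlinarith
    have hc : Real.exp 1 ≤ 2.7182818286 := Real.exp_one_lt_d9.le
    rw [ha]
    calc Real.exp 1 * Real.exp (0.32 : ℝ) ≤ 2.7182818286 * (1 / 0.68) :=
          mul_le_mul hc hb (Real.exp_pos _).le (by norm_num)
      _ ≤ 4 := by norm_num
  have h6 : Real.exp (t * (1.32 : ℝ)) ≤ 4 ^ t := by
    rw [Real.exp_nat_mul]
    exact pow_le_pow_left₀ (Real.exp_pos _).le h32 t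
  have h7 : ‖∑ A ∈ S.powersetCard t, ∏ p ∈ A, u p‖ * (8 * t / S.card) ^ t ≤ 4 ^ t :=
    h1.trans ((Real.exp_le_exp.2 h2).trans h6)
  have h8' : ((S.card : ℝ) / t) ^ t ≤ (S.card.choose t : ℝ) :=
    div_pow_le_choose _ _ ht (by omega)
  have h9 : (0 : ℝ) < (8 * t / S.card) ^ t := by positivity
  have h10 : ‖∑ A ∈ S.powersetCard t, ∏ p ∈ A, u p‖ ≤ 4 ^ t / (8 * t / S.card) ^ t := by
    rw [le_div_iff₀ h9]; exact h7
  refine h10.trans (le_trans (le_of_eq ?_) (mul_le_mul_of_nonneg_left h8' (by positivity)))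
  rw [← div_pow, ← mul_pow]
  congr 1
  field_simp
  norm_num

end Pool.Agent.Lib.MP_a260de_nt.CN
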