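import Pool.Agent.Lib.MP_a260de_nt.CN.Top

/-!
MP_a260de_nt, PROJECT CN: few triples contain a prime of a small set (helper74).
-/

namespace Pool.Agent.Lib.MP_a260de_nt.CN

open Finset

theorem cls_card {M R a c : ℕ} (hc : c.Coprime M) :
    ((Icc 1 R).filter (fun k => a * k ≡ c [MOD M])).card ≤ R / M + 1 := by
  rw [← card_range (R / M + 1)]
  refine card_le_card_of_injOn (fun k => k / M) ?_ ?_
  · intro k hk
    simp only [coe_filter, mem_Icc, Set.mem_ofPred_eq] at hk
    simp only [coe_range, Set.mem_Iio]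
    have := Nat.div_le_div_right (c := M) hk.1.2
    omega
  · intro k hk l hl hkl
    simp only [coe_filter, mem_Icc, Set.mem_ofPred_eq] at hk hl
    have hcop : Nat.Coprime (a * k) M := by
      have := hk.2.gcd_eq
      rw [Nat.coprime_iff_gcd_eq_one, this]
      exact hc
    have ha : Nat.Coprime M a := (Nat.Coprime.coprime_mul_right hcop).symm
    have h1 : a * k ≡ a * l [MOD M] := hk.2.trans hl.2.symm
    have h2 : k ≡ l [MOD M] := Nat.ModEq.cancel_left_of_coprime ha h1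
    have h3 : k % M = l % M := h2
    have h4 : k / M = l / M := hkl
    rw [← Nat.div_add_mod k M, ← Nat.div_add_mod l M, h3, h4]

theorem t_Excl : S_Excl := by
  classical
  intro M R W c e E hM hMR hc hE
  set N : ℕ := E.card * (R * (R / M + 1)) with hN
  have key : ∀ (f : ℕ → ℕ → ℕ → ℕ × ℕ × ℕ),
      (E.biUnion (fun u => (Icc 1 R).biUnion (fun v =>
        ((Icc 1 R).filter (fun k => (u * v) * k ≡ c [MOD M])).image (fun k => f u v k)))).card ≤ N := by
    intro f
    refine card_biUnion_le_card_mul _ _ _ (fun u _ => ?_)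
    have h1 := card_biUnion_le_card_mul (Icc 1 R) (fun v =>
      ((Icc 1 R).filter (fun k => (u * v) * k ≡ c [MOD M])).image (fun k => f u v k)) (R / M + 1)
      (fun v _ => card_image_le.trans (cls_card hc))
    simpa using h1
  have hsub : (trip M R W c).filter (fun r => r.1 ∈ E ∨ r.2.1 ∈ E ∨ r.2.2 ∈ E) ⊆
      (E.biUnion (fun u => (Icc 1 R).biUnion (fun v =>
        ((Icc 1 R).filter (fun k => (u * v) * k ≡ c [MOD M])).image (fun k => (u, v, k))))) ∪
      ((E.biUnion (fun u => (Icc 1 R).biUnion (fun v =>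
        ((Icc 1 R).filter (fun k => (u * v) * k ≡ c [MOD M])).image (fun k => (v, u, k))))) ∪
      (E.biUnion (fun u => (Icc 1 R).biUnion (fun v =>
        ((Icc 1 R).filter (fun k => (u * v) * k ≡ c [MOD M])).image (fun k => (v, k, u)))))) := by
    rintro ⟨r1, r2, r3⟩ hr
    simp only [trip, mem_filter, mem_product] at hr
    obtain ⟨⟨⟨h1, h2, h3⟩, -, -, -, -, -, -, hc'⟩, hE'⟩ := hr
    simp only [mem_union, mem_biUnion, mem_image, mem_filter, Prod.mk.injEq]
    rcases hE' with h | h | h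
    · exact Or.inl ⟨r1, h, r2, h2, r3, ⟨h3, hc'⟩, rfl, rfl, rfl⟩
    · refine Or.inr (Or.inl ⟨r2, h, r1, h1, r3, ⟨h3, ?_⟩, rfl, rfl, rfl⟩)
      rwa [mul_comm r2 r1]
    · refine Or.inr (Or.inr ⟨r3, h, r1, h1, r2, ⟨h2, ?_⟩, rfl, rfl, rfl⟩)
      rwa [mul_assoc, mul_comm r3, ]
  have hcard : ((trip M R W c).filter (fun r => r.1 ∈ E ∨ r.2.1 ∈ E ∨ r.2.2 ∈ E)).card ≤ 3 * N := by
    refine (card_le_card hsub).trans ((card_union_le _ _).trans ?_)
    have a1 := key (fun u v k => (u, v, k))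
    have a2 := key (fun u v k => (v, u, k))
    have a3 := key (fun u v k => (v, k, u))
    have a4 := card_union_le (E.biUnion (fun u => (Icc 1 R).biUnion (fun v =>
        ((Icc 1 R).filter (fun k => (u * v) * k ≡ c [MOD M])).image (fun k => (v, u, k)))))
      (E.biUnion (fun u => (Icc 1 R).biUnion (fun v =>
        ((Icc 1 R).filter (fun k => (u * v) * k ≡ c [MOD M])).image (fun k => (v, k, u)))))
    omega
  have hMpos : (0 : ℝ) < M := by exact_mod_cast hM
  have hdiv : (((R / M : ℕ) : ℝ)) ≤ (R : ℝ) / M := Nat.cast_div_le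
  have h1 : (1 : ℝ) ≤ (R : ℝ) / M := by
    rw [le_div_iff₀ hMpos, one_mul]
    exact_mod_cast hMR
  have hR0 : (0 : ℝ) ≤ R := Nat.cast_nonneg R
  have he0 : (0 : ℝ) ≤ (E.card : ℝ) := Nat.cast_nonneg _
  have heE : (E.card : ℝ) ≤ e := by exact_mod_cast hE
  calc ((((trip M R W c).filter (fun r => r.1 ∈ E ∨ r.2.1 ∈ E ∨ r.2.2 ∈ E)).card : ℕ) : ℝ)
      ≤ ((3 * N : ℕ) : ℝ) := by exact_mod_cast hcard
    _ = 3 * ((E.card : ℝ) * (R * ((R / M : ℕ) + 1))) := by rw [hN]; push_cast; ring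
    _ ≤ 3 * ((e : ℝ) * (R * (2 * ((R : ℝ) / M)))) := by
        have : ((R / M : ℕ) : ℝ) + 1 ≤ 2 * ((R : ℝ) / M) := by linarith
        gcongr
    _ = 6 * (e : ℝ) * (R : ℝ) ^ 2 / M := by ring

end Pool.Agent.Lib.MP_a260de_nt.CN
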