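import Mathlib

/-!
MP_a260de_nt, PROJECT CN (helper90): the sum of a primitive character mod f over the classes which are
coprime to f and not 1 modulo any prime factor of f is μ(f).
-/

namespace Pool.Agent.Lib.MP_a260de_nt.CN

open Finset

/-- translation by a unit: the sum over c ≡ 1 mod d vanishes if χ is not trivial there -/
private lemma Gs_zero {f d : ℕ} [NeZero f] (χ : DirichletCharacter ℂ f) (hd : d ∣ f)
    (h : ¬ χ.FactorsThrough d) :
    ∑ x ∈ (univ : Finset (ZMod f)).filter (fun x => ZMod.castHom hd (ZMod d) x = 1), χ x = 0 := by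
  classical
  rw [DirichletCharacter.factorsThrough_iff_ker_unitsMap hd] at h
  obtain ⟨u, hu1, hu2⟩ := SetLike.not_le_iff_exists.1 h
  have hχu : χ (u : ZMod f) ≠ 1 := by
    intro h1
    apply hu2
    rw [MonoidHom.mem_ker]
    ext
    rw [MulChar.coe_toUnitHom, h1]
    simp
  have hcu : ZMod.castHom hd (ZMod d) (u : ZMod f) = 1 := by
    rw [MonoidHom.mem_ker] at hu1
    have := congrArg (Units.val) hu1
    rw [ZMod.unitsMap_def] at this
    simpa using this
  set T := (univ : Finset (ZMod f)).filter (fun x => ZMod.castHom hd (ZMod d) x = 1) with hT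
  have key : ∑ x ∈ T, χ x = χ (u : ZMod f) * ∑ x ∈ T, χ x := by
    rw [mul_sum]
    symm
    apply Finset.sum_bij' (fun x _ => (u : ZMod f) * x) (fun x _ => ((u⁻¹ : (ZMod f)ˣ) : ZMod f) * x)
    · intro x hx
      rw [hT, mem_filter] at hx ⊢
      refine ⟨mem_univ _, ?_⟩
      rw [map_mul, hcu, hx.2, one_mul]
    · intro x hx
      rw [hT, mem_filter] at hx ⊢
      refine ⟨mem_univ _, ?_⟩
      have h2 : ZMod.castHom hd (ZMod d) ((u⁻¹ : (ZMod f)ˣ) : ZMod f) = 1 := by
        have h3 : ZMod.castHom hd (ZMod d) ((u : ZMod f) * ((u⁻¹ : (ZMod f)ˣ) : ZMod f)) = 1 := by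
          rw [Units.mul_inv, map_one]
        rw [map_mul, hcu, one_mul] at h3
        exact h3
      rw [map_mul, h2, hx.2, one_mul]
    · intro x _
      simp
    · intro x _
      simp
    · intro x _
      rw [map_mul]
  have h4 : (χ (u : ZMod f) - 1) * ∑ x ∈ T, χ x = 0 := by
    rw [sub_mul, one_mul, ← key, sub_self]
  rcases mul_eq_zero.1 h4 with h5 | h5
  · exact absurd (sub_eq_zero.1 h5) hχu
  · exact h5

private lemma Gs_cast {f d : ℕ} [NeZero f] (χ : DirichletCharacter ℂ f) (hd : d ∣ f) :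
    ∑ c ∈ (range f).filter (fun c => c ≡ 1 [MOD d]), χ (c : ZMod f) =
      ∑ x ∈ (univ : Finset (ZMod f)).filter (fun x => ZMod.castHom hd (ZMod d) x = 1), χ x := by
  classical
  refine Finset.sum_bij' (fun (c : ℕ) _ => (c : ZMod f)) (fun (x : ZMod f) _ => x.val) ?_ ?_ ?_ ?_ ?_
  · intro c hc
    rw [mem_filter] at hc ⊢
    refine ⟨mem_univ _, ?_⟩
    rw [map_natCast]
    have := (ZMod.natCast_eq_natCast_iff c 1 d).2 hc.2
    simpa using this
  · intro x hx
    rw [mem_filter] at hx ⊢
    refine ⟨mem_range.2 (ZMod.val_lt x), ?_⟩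
    rw [← ZMod.natCast_eq_natCast_iff, Nat.cast_one]
    have h1 := hx.2
    rw [← ZMod.natCast_zmod_val x, map_natCast] at h1
    exact h1
  · intro c hc
    rw [mem_filter] at hc
    rw [ZMod.val_natCast, Nat.mod_eq_of_lt (mem_range.1 hc.1)]
  · intro x _
    exact ZMod.natCast_zmod_val x
  · intro c _
    rfl

/-- the sum of a primitive character over the classes ≢ 1 modulo every prime factor of f -/
theorem Gsum (f : ℕ) (χ : DirichletCharacter ℂ f) (hf : 2 ≤ f) (hχ : χ.IsPrimitive) :
    ∑ c ∈ (range f).filter (fun c => c.Coprime f ∧ ∀ l ∈ f.primeFactors, ¬ c ≡ 1 [MOD l]),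
      χ (c : ZMod f) = ((ArithmeticFunction.moebius f : ℤ) : ℂ) := by
  classical
  have : NeZero f := ⟨by omega⟩
  set L := f.primeFactors with hL
  have hp : ∀ l ∈ L, l.Prime := fun l hl => Nat.prime_of_mem_primeFactors hl
  -- the indicator
  have hind : ∀ c : ℕ, (if (∀ l ∈ L, ¬ c ≡ 1 [MOD l]) then (1 : ℂ) else 0) =
      ∑ s ∈ L.powerset, (-1 : ℂ) ^ s.card * (if c ≡ 1 [MOD (∏ l ∈ s, l)] then (1 : ℂ) else 0) := by
    intro c
    have h1 : (if (∀ l ∈ L, ¬ c ≡ 1 [MOD l]) then (1 : ℂ) else 0) =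
        ∏ l ∈ L, (1 - if c ≡ 1 [MOD l] then (1 : ℂ) else 0) := by
      split_ifs with h
      · symm
        apply Finset.prod_eq_one
        intro l hl
        rw [if_neg (h l hl), sub_zero]
      · push Not at h
        obtain ⟨l, hl, hl2⟩ := h
        symm
        apply Finset.prod_eq_zero hl
        rw [if_pos hl2, sub_self]
    rw [h1, Finset.prod_sub]
    apply Finset.sum_congr rfl
    intro s hs
    rw [Finset.mem_powerset] at hs
    have h2 : ∏ l ∈ s, (if c ≡ 1 [MOD l] then (1 : ℂ) else 0) =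
        if c ≡ 1 [MOD (∏ l ∈ s, l)] then (1 : ℂ) else 0 := by
      have h3 : (∀ l ∈ s, c ≡ 1 [MOD l]) ↔ c ≡ 1 [MOD (∏ l ∈ s, l)] := by
        constructor
        · intro h
          rw [Nat.modEq_iff_dvd]
          push_cast
          apply Finset.prod_dvd_of_coprime
          · intro a ha b hb hab
            have ha' := hp a (hs ha)
            have hb' := hp b (hs hb)
            exact Nat.isCoprime_iff_coprime.2 ((Nat.coprime_primes ha' hb').2 hab)
          · intro a ha
            exact_mod_cast (Nat.modEq_iff_dvd.1 (h a ha))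
        · intro h l hl
          exact h.of_dvd (Finset.dvd_prod_of_mem _ hl)
      by_cases hall : ∀ l ∈ s, c ≡ 1 [MOD l]
      · rw [if_pos (h3.1 hall)]
        apply Finset.prod_eq_one
        intro l hl
        rw [if_pos (hall l hl)]
      · rw [if_neg (fun h => hall (h3.2 h))]
        push Not at hall
        obtain ⟨l, hl, hl2⟩ := hall
        apply Finset.prod_eq_zero hl
        rw [if_neg hl2]
    simp only [Finset.prod_const_one, mul_one, h2]
  have h0 : ∑ c ∈ (range f).filter (fun c => c.Coprime f ∧ ∀ l ∈ L, ¬ c ≡ 1 [MOD l]), χ (c : ZMod f) =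
      ∑ s ∈ L.powerset, (-1 : ℂ) ^ s.card *
        ∑ c ∈ (range f).filter (fun c => c ≡ 1 [MOD (∏ l ∈ s, l)]), χ (c : ZMod f) := by
    have h1 : ∑ c ∈ (range f).filter (fun c => c.Coprime f ∧ ∀ l ∈ L, ¬ c ≡ 1 [MOD l]), χ (c : ZMod f) =
        ∑ c ∈ range f, χ (c : ZMod f) * (if (∀ l ∈ L, ¬ c ≡ 1 [MOD l]) then (1 : ℂ) else 0) := by
      rw [Finset.sum_filter]
      apply Finset.sum_congr rfl
      intro c _
      by_cases hc : c.Coprime f
      · by_cases h : ∀ l ∈ L, ¬ c ≡ 1 [MOD l]
        · rw [if_pos ⟨hc, h⟩, if_pos h, mul_one]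
        · rw [if_neg (fun h' => h h'.2), if_neg h, mul_zero]
      · rw [if_neg (fun h' => hc h'.1)]
        have : χ (c : ZMod f) = 0 := by
          apply χ.map_nonunit
          intro hu
          exact hc ((ZMod.isUnit_iff_coprime c f).1 hu)
        rw [this, zero_mul]
    rw [h1]
    simp_rw [hind, mul_sum]
    rw [Finset.sum_comm]
    apply Finset.sum_congr rfl
    intro s _
    rw [Finset.sum_filter]
    apply Finset.sum_congr rfl
    intro c _
    split_ifs <;> ring
  rw [h0]
  -- the divisor sums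
  have hdvd : ∀ s ∈ L.powerset, (∏ l ∈ s, l) ∣ f := by
    intro s hs
    rw [Finset.mem_powerset] at hs
    exact (Finset.prod_dvd_prod_of_subset s L (fun l => l) hs).trans (Nat.prod_primeFactors_dvd f)
  have hz : ∀ s ∈ L.powerset, (∏ l ∈ s, l) ≠ f →
      ∑ c ∈ (range f).filter (fun c => c ≡ 1 [MOD (∏ l ∈ s, l)]), χ (c : ZMod f) = 0 := by
    intro s hs hne
    rw [Gs_cast χ (hdvd s hs)]
    apply Gs_zero
    intro hft
    apply hne
    have h1 : χ.conductor ∣ ∏ l ∈ s, l := χ.conductor_dvd_of_mem_conductorSet hft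
    rw [hχ] at h1
    exact Nat.dvd_antisymm (hdvd s hs) h1
  have hone : ∑ c ∈ (range f).filter (fun c => c ≡ 1 [MOD f]), χ (c : ZMod f) = 1 := by
    have h1 : (range f).filter (fun c => c ≡ 1 [MOD f]) = {1} := by
      ext c
      rw [mem_filter, mem_range, mem_singleton]
      constructor
      · rintro ⟨h1, h2⟩
        have := Nat.ModEq.eq_of_lt_of_lt h2 h1 (by omega)
        exact this
      · rintro rfl
        exact ⟨by omega, Nat.ModEq.refl 1⟩
    rw [h1, Finset.sum_singleton, Nat.cast_one, map_one]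
  by_cases hsq : Squarefree f
  · have hprod : ∏ l ∈ L, l = f := Nat.prod_primeFactors_of_squarefree hsq
    rw [Finset.sum_eq_single L]
    · rw [hprod, hone, mul_one, ArithmeticFunction.moebius_apply_of_squarefree hsq]
      push_cast
      congr 1
      have h2 := (ArithmeticFunction.cardDistinctFactors_eq_cardFactors_iff_squarefree (by omega : f ≠ 0)).2 hsq
      rw [← h2, ArithmeticFunction.cardDistinctFactors_apply, hL]
      rfl
    · intro s hs hne
      rw [hz s hs, mul_zero]
      intro h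
      apply hne
      have h3 : (∏ l ∈ s, l).primeFactors = s := by
        rw [Finset.mem_powerset] at hs
        exact Nat.primeFactors_prod (fun l hl => hp l (hs hl))
      rw [← h3, h]
    · intro h
      exact absurd (Finset.mem_powerset.2 (Finset.Subset.refl L)) h
  · rw [ArithmeticFunction.moebius_eq_zero_of_not_squarefree hsq, Int.cast_zero]
    apply Finset.sum_eq_zero
    intro s hs
    rw [hz s hs, mul_zero]
    intro h
    apply hsq
    rw [← h]
    rw [Finset.mem_powerset] at hs
    have h3 : (∏ l ∈ s, l).primeFactors = s := Nat.primeFactors_prod (fun l hl => hp l (hs hl))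
    rw [Nat.squarefree_iff_prime_squarefree] 
    intro x hx hxx
    have hmem : x ∈ s := by
      rw [← h3]
      exact Nat.mem_primeFactors.2 ⟨hx, (dvd_mul_right x x).trans hxx,
        Finset.prod_ne_zero_iff.2 (fun l hl => (hp l (hs hl)).ne_zero)⟩
    rw [← Finset.mul_prod_erase s (fun l => l) hmem] at hxx
    have h4 : x ∣ ∏ l ∈ s.erase x, l := Nat.dvd_of_mul_dvd_mul_left hx.pos hxx
    rw [Prime.dvd_finsetProd_iff (Nat.prime_iff.1 hx)] at h4
    obtain ⟨a, ha, hxa⟩ := h4
    have ha' := Finset.mem_erase.1 ha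
    exact ha'.1 ((Nat.prime_dvd_prime_iff_eq hx (hp a (hs ha'.2))).1 hxa).symm

end Pool.Agent.Lib.MP_a260de_nt.CN
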