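import Pool.Agent.Lib.MP_a260de_nt.CN.SpecM

/-!
MP_a260de_nt, project CN, part BadC: large sieve for a set.
-/

set_option autoImplicit false

namespace Pool.Agent.Lib.MP_a260de_nt.CN

open Finset
open Pool.Agent.Lib.BV (prim BnfStmt EsyStmt ExtStmt MsbStmt LsmStmt)
open Pool.Agent.Results.MP_00e23e_nt (li maxErr)

theorem t_BadC (h : LsmStmt) : S_BadC := by
  classical
  intro S n Q τ hQ hτ hS
  have h1 := h Q n (fun m => if m ∈ S then 1 else 0) hQ
  have hsum : ∀ (q : ℕ) (χ : DirichletCharacter ℂ q),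
      ∑ m ∈ Icc 1 n, (if m ∈ S then (1 : ℂ) else 0) * χ (m : ZMod q) =
        ∑ m ∈ S, χ (m : ZMod q) := by
    intro q χ
    simp only [ite_mul, one_mul, zero_mul]
    rw [← sum_filter, filter_mem_eq_inter, inter_eq_right.2 hS]
  have hnorm : ∑ m ∈ Icc 1 n, ‖(if m ∈ S then (1 : ℂ) else 0)‖ ^ 2 = (S.card : ℝ) := by
    have h2 : ∀ m ∈ Icc 1 n, ‖(if m ∈ S then (1 : ℂ) else 0)‖ ^ 2 =
        if m ∈ S then (1 : ℝ) else 0 := by
      intro m _
      split_ifs <;> simp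
    rw [sum_congr rfl h2, ← sum_filter, filter_mem_eq_inter, inter_eq_right.2 hS, sum_const,
      nsmul_eq_mul, mul_one]
  simp only [hsum] at h1
  rw [hnorm] at h1
  refine le_trans ?_ h1
  have hsub : badC S τ Q ⊆ Icc 2 Q := by
    unfold badC
    exact filter_subset _ _
  calc ((badC S τ Q).card : ℝ) * τ ^ 2 = ∑ _q ∈ badC S τ Q, τ ^ 2 := by
        rw [sum_const, nsmul_eq_mul]
    _ ≤ ∑ q ∈ badC S τ Q, (q : ℝ) / (q.totient : ℝ) *
          ∑ χ ∈ prim q, ‖∑ m ∈ S, χ (m : ZMod q)‖ ^ 2 := by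
        refine sum_le_sum fun q hq => ?_
        have hq2 := hq
        unfold badC at hq2
        obtain ⟨hq3, χ, hχ, hτχ⟩ := mem_filter.1 hq2
        have hq4 : 2 ≤ q := (mem_Icc.1 hq3).1
        have h3 : τ ^ 2 ≤ ∑ χ ∈ prim q, ‖∑ m ∈ S, χ (m : ZMod q)‖ ^ 2 := by
          refine le_trans (pow_le_pow_left₀ hτ hτχ 2) ?_
          exact single_le_sum (f := fun χ : DirichletCharacter ℂ q =>
            ‖∑ m ∈ S, χ (m : ZMod q)‖ ^ 2) (fun _ _ => by positivity) hχ
        have h4 : (1 : ℝ) ≤ (q : ℝ) / (q.totient : ℝ) := by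
          have h5 : 0 < q.totient := Nat.totient_pos.2 (by omega)
          rw [le_div_iff₀ (by exact_mod_cast h5), one_mul]
          exact_mod_cast Nat.totient_le q
        calc τ ^ 2 ≤ ∑ χ ∈ prim q, ‖∑ m ∈ S, χ (m : ZMod q)‖ ^ 2 := h3
          _ = 1 * ∑ χ ∈ prim q, ‖∑ m ∈ S, χ (m : ZMod q)‖ ^ 2 := (one_mul _).symm
          _ ≤ _ := by
            refine mul_le_mul_of_nonneg_right h4 ?_
            exact sum_nonneg fun _ _ => by positivity
    _ ≤ _ := by
        refine sum_le_sum_of_subset_of_nonneg hsub fun q _ _ => ?_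
        exact mul_nonneg (by positivity) (sum_nonneg fun _ _ => by positivity)

end Pool.Agent.Lib.MP_a260de_nt.CN
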