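import Pool.Agent.Lib.MP_a260de_nt.CN.SpecM

/-!
# MP_a260de_nt, project CN: the auxiliary primes in residue classes (part M_Cls)
-/

set_option autoImplicit false

namespace Pool.Agent.Lib.MP_a260de_nt.CN

open Finset
open Pool.Agent.Lib.BV (prim BnfStmt EsyStmt ExtStmt MsbStmt LsmStmt)
open Pool.Agent.Results.MP_00e23e_nt (li maxErr)

private lemma cls_one_sub {x : ℝ} (h0 : 0 ≤ x) (h1 : x ≤ 1 / 2) : Real.exp (-2 * x) ≤ 1 - x := by
  have h2 : 0 < 1 - x := by linarith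
  have h3 : (1 - x)⁻¹ ≤ Real.exp (2 * x) := by
    have h4 : (1 - x)⁻¹ ≤ 2 * x + 1 := by
      rw [inv_le_iff_one_le_mul₀ h2]
      nlinarith
    exact h4.trans (Real.add_one_le_exp _)
  rw [neg_mul, Real.exp_neg]
  exact inv_le_of_inv_le₀ h2 h3

private lemma cls_mem_pS {W m l : ℕ} : l ∈ pS W m ↔ (3 ≤ l ∧ l ≤ W) ∧ l.Prime ∧ ¬ l ∣ m := by
  unfold pS
  rw [mem_filter, mem_Icc]

private lemma cls_V {y : ℕ} {K κ : ℝ} (m : ℕ) (hy : 1 ≤ y)
    (h : ∑ l ∈ pS (WW y K) 1, 1 / ((l : ℝ) - 1) ≤ κ * Real.log y) :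
    (y : ℝ) ^ (-(2 * κ)) ≤ ∏ l ∈ pS (WW y K) m, (1 - 1 / ((l : ℝ) - 1)) := by
  have hy0 : (0 : ℝ) < y := by exact_mod_cast hy
  have hsub : pS (WW y K) m ⊆ pS (WW y K) 1 := by
    intro l hl
    rw [cls_mem_pS] at hl ⊢
    exact ⟨hl.1, hl.2.1, fun h => hl.2.1.one_lt.ne' (Nat.dvd_one.1 h)⟩
  have hl3 : ∀ (m : ℕ), ∀ l ∈ pS (WW y K) m, (2 : ℝ) ≤ (l : ℝ) - 1 := by
    intro m l hl
    rw [cls_mem_pS] at hl
    have : (3 : ℝ) ≤ l := by exact_mod_cast hl.1.1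
    linarith
  have hs : ∑ l ∈ pS (WW y K) m, 1 / ((l : ℝ) - 1) ≤ κ * Real.log y := by
    refine le_trans (sum_le_sum_of_subset_of_nonneg hsub fun l hl _ => ?_) h
    have := hl3 1 l hl
    positivity
  calc (y : ℝ) ^ (-(2 * κ)) = Real.exp (-2 * (κ * Real.log y)) := by
        rw [Real.rpow_def_of_pos hy0]
        ring_nf
    _ ≤ Real.exp (-2 * ∑ l ∈ pS (WW y K) m, 1 / ((l : ℝ) - 1)) :=
        Real.exp_le_exp.2 (by linarith)
    _ = ∏ l ∈ pS (WW y K) m, Real.exp (-2 * (1 / ((l : ℝ) - 1))) := by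
        rw [mul_sum, Real.exp_sum]
    _ ≤ _ := by
        refine prod_le_prod (fun _ _ => (Real.exp_pos _).le) fun l hl => cls_one_sub ?_ ?_
        · have := hl3 m l hl
          positivity
        · have := hl3 m l hl
          rw [div_le_div_iff₀ (by linarith) (by norm_num)]
          linarith

private lemma cls_filter {R W m f b c a : ℕ} (hm2 : 2 ∣ m) (hfm : f.Coprime m) (hc : 1 ≤ c)
    (hcf : (c - 1).Coprime f) (ham : a ≡ b [MOD m]) (haf : a ≡ c [MOD f]) :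
    ((RA R W m b).filter fun r => r ≡ c [MOD f]) =
      (Icc 1 R).filter fun r => r.Prime ∧ R < 2 * r ∧ r ≡ a [MOD (m * f)] ∧
        ∀ l ∈ pS W (m * f), ¬ l ∣ r - 1 := by
  ext r
  unfold RA
  simp only [mem_filter, mem_Ioc, mem_Icc]
  constructor
  · rintro ⟨⟨⟨h1, h2⟩, hp, hb, hl⟩, hcc⟩
    refine ⟨⟨hp.one_lt.le, h2⟩, hp, ?_, ?_, ?_⟩
    · omega
    · exact (Nat.modEq_and_modEq_iff_modEq_mul hfm.symm).1
        ⟨hb.trans ham.symm, hcc.trans haf.symm⟩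
    · intro l hlS hlr
      rw [cls_mem_pS] at hlS
      exact hlS.2.2 ((hl l hlS.2.1 hlS.1.2 hlr).mul_right f)
  · rintro ⟨⟨h1, h2⟩, hp, hR, ha, hl⟩
    obtain ⟨ha1, ha2⟩ := (Nat.modEq_and_modEq_iff_modEq_mul hfm.symm).2 ha
    have hcc : r ≡ c [MOD f] := ha2.trans haf
    refine ⟨⟨⟨by omega, h2⟩, hp, ha1.trans ham, ?_⟩, hcc⟩
    intro l hlp hlW hlr
    by_contra hlm
    have hl2 : l ≠ 2 := by
      rintro rfl
      exact hlm hm2
    have hl3 : 3 ≤ l := by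
      have := hlp.two_le
      omega
    have hlf : l ∣ f := by
      by_contra hlf
      refine hl l ?_ hlr
      rw [cls_mem_pS]
      refine ⟨⟨hl3, hlW⟩, hlp, fun h => ?_⟩
      rcases hlp.dvd_mul.1 h with h | h
      · exact hlm h
      · exact hlf h
    have h3 : l ∣ c - 1 := by
      have h4 : r ≡ c [MOD l] := hcc.of_dvd hlf
      have h5 : r - 1 ≡ c - 1 [MOD l] := by
        have h6 : (r - 1) + 1 ≡ (c - 1) + 1 [MOD l] := by
          rwa [Nat.sub_add_cancel h1, Nat.sub_add_cancel hc]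
        exact Nat.ModEq.add_right_cancel' 1 h6
      exact (h5.dvd_iff dvd_rfl).1 hlr
    exact hlp.one_lt.ne' (Nat.dvd_one.1 (hcf ▸ Nat.dvd_gcd h3 hlf))

private lemma cls_prod {W m f : ℕ} (hf : Squarefree f) (hfm : f.Coprime m) (hm2 : 2 ∣ m)
    (hfW : f ≤ W) :
    ∏ l ∈ pS W m, (1 - 1 / ((l : ℝ) - 1)) =
      (∏ l ∈ pS W (m * f), (1 - 1 / ((l : ℝ) - 1))) *
        ∏ l ∈ f.primeFactors, (1 - 1 / ((l : ℝ) - 1)) := by
  have hf0 : f ≠ 0 := hf.ne_zero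
  have hdis : Disjoint (pS W (m * f)) f.primeFactors := by
    rw [disjoint_left]
    intro l hl hl2
    rw [cls_mem_pS] at hl
    exact hl.2.2 ((Nat.dvd_of_mem_primeFactors hl2).mul_left m)
  rw [← prod_union hdis]
  refine prod_congr ?_ fun _ _ => rfl
  ext l
  rw [mem_union, cls_mem_pS, cls_mem_pS, Nat.mem_primeFactors]
  constructor
  · rintro ⟨h1, h2, h3⟩
    by_cases hlf : l ∣ f
    · exact Or.inr ⟨h2, hlf, hf0⟩
    · refine Or.inl ⟨h1, h2, fun h => ?_⟩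
      rcases h2.dvd_mul.1 h with h | h
      · exact h3 h
      · exact hlf h
  · rintro (⟨h1, h2, h3⟩ | ⟨h1, h2, -⟩)
    · exact ⟨h1, h2, fun h => h3 (h.mul_right f)⟩
    · have h4 : ¬ l ∣ m := fun h => h1.one_lt.ne' (Nat.dvd_one.1 (hfm ▸ Nat.dvd_gcd h2 h))
      refine ⟨⟨?_, (Nat.le_of_dvd (Nat.pos_of_ne_zero hf0) h2).trans hfW⟩, h1, h4⟩
      have h5 : l ≠ 2 := by
        rintro rfl
        exact h4 hm2
      have := h1.two_le
      omega

private lemma cls_odd {m f l : ℕ} (hfm : f.Coprime m) (hm2 : 2 ∣ m) (hl : l ∈ f.primeFactors) :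
    (3 : ℝ) ≤ l := by
  have h1 := Nat.prime_of_mem_primeFactors hl
  have h2 := Nat.dvd_of_mem_primeFactors hl
  have h4 : ¬ l ∣ m := fun h => h1.one_lt.ne' (Nat.dvd_one.1 (hfm ▸ Nat.dvd_gcd h2 h))
  have h5 : l ≠ 2 := by
    rintro rfl
    exact h4 hm2
  have := h1.two_le
  have h6 : 3 ≤ l := by omega
  exact_mod_cast h6

private lemma cls_gg {m f : ℕ} (hfm : f.Coprime m) (hm2 : 2 ∣ m) : 1 ≤ gg f := by
  unfold gg
  have : ∀ l ∈ f.primeFactors, (1 : ℝ) ≤ (l : ℝ) - 2 := by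
    intro l hl
    have := cls_odd hfm hm2 hl
    linarith
  calc (1 : ℝ) = ∏ l ∈ f.primeFactors, (1 : ℝ) := by rw [prod_const_one]
    _ ≤ _ := prod_le_prod (fun _ _ => zero_le_one) this

private lemma cls_phi {m f : ℕ} (hf : Squarefree f) (hfm : f.Coprime m) (hm2 : 2 ∣ m) :
    (∏ l ∈ f.primeFactors, (1 - 1 / ((l : ℝ) - 1))) * (f.totient : ℝ) = gg f := by
  have hf0 : f ≠ 0 := hf.ne_zero
  have h1 : (f.totient : ℝ) = ∏ l ∈ f.primeFactors, ((l : ℝ) - 1) := by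
    have h2 := Nat.totient_mul_prod_primeFactors f
    rw [Nat.prod_primeFactors_of_squarefree hf, mul_comm] at h2
    have h3 : f.totient = ∏ p ∈ f.primeFactors, (p - 1) :=
      Nat.eq_of_mul_eq_mul_left (Nat.pos_of_ne_zero hf0) h2
    rw [h3]
    push_cast
    refine prod_congr rfl fun l hl => ?_
    rw [Nat.cast_sub (Nat.prime_of_mem_primeFactors hl).one_lt.le]
    simp
  rw [h1, ← prod_mul_distrib]
  unfold gg
  refine prod_congr rfl fun l hl => ?_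
  have := cls_odd hfm hm2 hl
  have h4 : (l : ℝ) - 1 ≠ 0 := by linarith
  field_simp
  ring

theorem t_Cls (hG : S_SvG) (hM : S_Mer) (hL : S_Lid) : S_Cls := by
  obtain ⟨κ, hκ, hM⟩ := hM
  refine ⟨2 * κ + 4, by linarith, ?_⟩
  intro δ K A₀ A hδ hδ1 hK hA₀ hA
  obtain ⟨y1, h1⟩ := hG δ K (A + A₀ + (2 * κ + 4) + 6) (A₀ + A) hδ hK (by linarith) (by linarith)
  obtain ⟨y2, h2⟩ := hM K hK
  obtain ⟨y3, h3⟩ := hL δ hδ hδ1
  have h4 : ∀ᶠ x : ℝ in Filter.atTop, x ^ A ≤ Real.exp (K * x) := by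
    have h5 := tendsto_rpow_mul_exp_neg_mul_atTop_nhds_zero A K hK
    filter_upwards [h5.eventually_le_const one_pos] with x hx
    rw [neg_mul, Real.exp_neg] at hx
    rwa [← div_eq_mul_inv, div_le_one (Real.exp_pos _)] at hx
  obtain ⟨y4, h4⟩ := Filter.eventually_atTop.1 h4
  refine ⟨max (max y1 y2) (max y3 (max ⌈y4⌉₊ 2)), ?_⟩
  intro y m b hy hm1 hm2 hmA hbm
  have hy1 : y1 ≤ y := le_trans (le_trans (le_max_left _ _) (le_max_left _ _)) hy
  have hy2 : y2 ≤ y := le_trans (le_trans (le_max_right _ _) (le_max_left _ _)) hy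
  have hy3 : y3 ≤ y := le_trans (le_trans (le_max_left _ _) (le_max_right _ _)) hy
  have hy4 : ⌈y4⌉₊ ≤ y := le_trans (le_trans (le_trans (le_max_left _ _) (le_max_right _ _))
    (le_max_right _ _)) hy
  have hy5 : 2 ≤ y := le_trans (le_trans (le_trans (le_max_right _ _) (le_max_right _ _))
    (le_max_right _ _)) hy
  have hyR : (2 : ℝ) ≤ y := by exact_mod_cast hy5
  have hy0 : (0 : ℝ) < y := by linarith
  have hy1R : (1 : ℝ) ≤ y := by linarith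
  have hyA : (y : ℝ) ^ A ≤ Real.exp (K * y) := h4 y (le_trans (Nat.le_ceil _) (by exact_mod_cast hy4))
  obtain ⟨Δ, hΔ⟩ : ∃ Δ, Δ = li (RR y δ : ℝ) - li ((RR y δ / 2 : ℕ) : ℝ) := ⟨_, rfl⟩
  obtain ⟨R, hR⟩ : ∃ R, R = RR y δ := ⟨_, rfl⟩
  obtain ⟨W, hW⟩ : ∃ W, W = WW y K := ⟨_, rfl⟩
  obtain ⟨V, hV⟩ : ∃ V : ℝ, V = ∏ l ∈ pS W m, (1 - 1 / ((l : ℝ) - 1)) := ⟨_, rfl⟩
  have hVl : (y : ℝ) ^ (-(2 * κ)) ≤ V := by
    rw [hV, hW]
    exact cls_V m (by omega) (h2 y hy2)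
  obtain ⟨A', hA'⟩ : ∃ A', A' = A + A₀ + (2 * κ + 4) + 6 := ⟨_, rfl⟩
  obtain ⟨X, hX⟩ : ∃ X : ℝ, X = Δ / (m.totient : ℝ) * V := ⟨_, rfl⟩
  have hR0 : (0 : ℝ) ≤ R := Nat.cast_nonneg _
  have hφm : (0 : ℝ) < (m.totient : ℝ) := by exact_mod_cast Nat.totient_pos.2 hm1
  have hkey : ∀ f c : ℕ, Squarefree f → f.Coprime m → (f : ℝ) ≤ (y : ℝ) ^ A → 1 ≤ c →
      c.Coprime f → (c - 1).Coprime f →
      |(((RA R W m b).filter fun r => r ≡ c [MOD f]).card : ℝ) - X / gg f| ≤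
        (R : ℝ) / (y : ℝ) ^ A' := by
    intro f c hf hfm hfA hc hcf hcf1
    have hfW : f ≤ W := by
      rw [hW]
      exact Nat.le_floor (hfA.trans hyA)
    obtain ⟨a, ha1, ha2⟩ := Nat.chineseRemainder hfm.symm b c
    have hab : a.Coprime (m * f) := by
      refine Nat.Coprime.mul_right ?_ ?_
      · have := ha1.gcd_eq
        rw [Nat.coprime_iff_gcd_eq_one]
        rw [Nat.coprime_iff_gcd_eq_one] at hbm
        rw [this, hbm]
      · have := ha2.gcd_eq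
        rw [Nat.coprime_iff_gcd_eq_one]
        rw [Nat.coprime_iff_gcd_eq_one] at hcf
        rw [this, hcf]
    have hmf1 : 1 ≤ m * f := Nat.mul_pos hm1 (Nat.pos_of_ne_zero hf.ne_zero)
    have hmfB : ((m * f : ℕ) : ℝ) ≤ (y : ℝ) ^ (A₀ + A) := by
      rw [Real.rpow_add hy0]
      push_cast
      exact mul_le_mul hmA hfA (Nat.cast_nonneg _) (by positivity)
    have hS := h1 y hy1 (m * f) a (pS W (m * f)) hmf1 hmfB hab (by
      intro l hl
      rw [cls_mem_pS] at hl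
      exact ⟨hl.2.1, hl.1.1, by rw [← hW]; exact hl.1.2, hl.2.2⟩)
    rw [← hR] at hS
    rw [cls_filter hm2 hfm hc hcf1 ha1 ha2]
    have hmain : (li (R : ℝ) - li ((R / 2 : ℕ) : ℝ)) / ((m * f).totient : ℝ) *
        ∏ l ∈ pS W (m * f), (1 - 1 / ((l : ℝ) - 1)) = X / gg f := by
      have e1 := cls_prod (W := W) hf hfm hm2 hfW
      have e2 := cls_phi hf hfm hm2
      have e3 := cls_gg hfm hm2
      rw [← hV] at e1
      have e4 : Δ = li (R : ℝ) - li ((R / 2 : ℕ) : ℝ) := by rw [hΔ, hR]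
      rw [← e4, Nat.totient_mul hfm.symm, hX, e1, ← e2]
      push_cast
      have e5 : (∏ l ∈ f.primeFactors, (1 - 1 / ((l : ℝ) - 1))) ≠ 0 := by
        intro h
        rw [h, zero_mul] at e2
        linarith
      have e6 : (f.totient : ℝ) ≠ 0 := by
        intro h
        rw [h, mul_zero] at e2
        linarith
      field_simp
    rw [hmain] at hS
    rw [hA']
    exact hS
  have hRA1 : |(((RA R W m b).card : ℕ) : ℝ) - X| ≤ (R : ℝ) / (y : ℝ) ^ A' := by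
    have := hkey 1 1 squarefree_one (Nat.coprime_one_left m)
      (by simpa using Real.one_le_rpow hy1R hA.le) le_rfl (Nat.coprime_one_right 1)
      (Nat.coprime_one_right _)
    have e1 : ((RA R W m b).filter fun r => r ≡ 1 [MOD 1]) = RA R W m b := by
      refine filter_true_of_mem fun r _ => ?_
      exact Nat.modEq_one
    have e2 : gg 1 = 1 := by simp [gg]
    rwa [e1, e2, div_one] at this
  have hΔl : (R : ℝ) / (2 * (y : ℝ) ^ (2 : ℝ)) ≤ Δ := by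
    rw [hΔ, hR]
    exact (h3 y hy3).1
  have hXl : (R : ℝ) / (2 * (y : ℝ) ^ (2 : ℝ)) / (y : ℝ) ^ A₀ * (y : ℝ) ^ (-(2 * κ)) ≤ X := by
    rw [hX]
    refine mul_le_mul ?_ hVl (by positivity) ?_
    · refine div_le_div₀ (le_trans (by positivity) hΔl) hΔl hφm (le_trans ?_ hmA)
      exact_mod_cast Nat.totient_le m
    · exact div_nonneg (le_trans (by positivity) hΔl) hφm.le
  have hexp : ∀ t : ℝ, 0 < (y : ℝ) ^ t := fun t => Real.rpow_pos_of_pos hy0 t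
  constructor
  · rw [← hR, ← hW]
    have h5 : (R : ℝ) / (y : ℝ) ^ A' ≤ (R : ℝ) / (y : ℝ) ^ (2 * κ + 4 + A₀) := by
      refine div_le_div_of_nonneg_left hR0 (hexp _) ?_
      exact Real.rpow_le_rpow_of_exponent_le hy1R (by rw [hA']; linarith)
    have h6 : 2 * ((R : ℝ) / (y : ℝ) ^ (2 * κ + 4 + A₀)) ≤
        (R : ℝ) / (2 * (y : ℝ) ^ (2 : ℝ)) / (y : ℝ) ^ A₀ * (y : ℝ) ^ (-(2 * κ)) := by
      rw [Real.rpow_neg hy0.le]
      have e1 : (y : ℝ) ^ (2 * κ + 4 + A₀) =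
          (y : ℝ) ^ (2 * κ) * ((y : ℝ) ^ (2 : ℝ) * (y : ℝ) ^ (2 : ℝ)) * (y : ℝ) ^ A₀ := by
        rw [← Real.rpow_add hy0, ← Real.rpow_add hy0, ← Real.rpow_add hy0]
        congr 1
        ring
      have e2 : (4 : ℝ) ≤ (y : ℝ) ^ (2 : ℝ) := by
        rw [Real.rpow_two]
        nlinarith
      rw [e1]
      have p1 := hexp (2 * κ)
      have p2 := hexp 2
      have p3 := hexp A₀
      rw [div_div, mul_div_assoc', div_mul_eq_mul_div, ← div_eq_mul_inv, div_div]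
      rw [div_le_div_iff₀ (by positivity) (by positivity)]
      have e3 : 0 ≤ (R : ℝ) * ((y : ℝ) ^ (2 * κ) * (y : ℝ) ^ (2 : ℝ) * (y : ℝ) ^ A₀) := by positivity
      have e4 := mul_le_mul_of_nonneg_left e2 e3
      nlinarith [e4]
    have h7 := (abs_le.1 hRA1).1
    have h8 : (R : ℝ) / (y : ℝ) ^ (2 * κ + 4 + A₀) =
      (R : ℝ) / (y : ℝ) ^ (2 * κ + 4 + A₀) := rfl
    linarith
  · intro f c hf hfm hfA hc hcf hcf1
    rw [← hR, ← hW]
    have e0 := hkey f c hf hfm hfA hc hcf hcf1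
    have e3 := cls_gg hfm hm2
    have e4 : |X / gg f - ((RA R W m b).card : ℝ) / gg f| ≤ (R : ℝ) / (y : ℝ) ^ A' := by
      rw [← sub_div, abs_div, abs_of_pos (lt_of_lt_of_le one_pos e3), abs_sub_comm]
      exact (div_le_self (abs_nonneg _) e3).trans hRA1
    have e5 : 2 * ((R : ℝ) / (y : ℝ) ^ A') ≤ (R : ℝ) / (y : ℝ) ^ A := by
      have e6 : (y : ℝ) ^ A * 2 ≤ (y : ℝ) ^ A' := by
        calc (y : ℝ) ^ A * 2 ≤ (y : ℝ) ^ A * (y : ℝ) ^ (1 : ℝ) := by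
              rw [Real.rpow_one]
              exact mul_le_mul_of_nonneg_left hyR (hexp _).le
          _ = (y : ℝ) ^ (A + 1) := (Real.rpow_add hy0 _ _).symm
          _ ≤ (y : ℝ) ^ A' := Real.rpow_le_rpow_of_exponent_le hy1R (by rw [hA']; linarith)
      have p1 := hexp A
      have p2 := hexp A'
      rw [mul_div_assoc', div_le_div_iff₀ p2 p1]
      have := mul_le_mul_of_nonneg_left e6 hR0
      linarith
    calc |(((RA R W m b).filter fun r => r ≡ c [MOD f]).card : ℝ) -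
          ((RA R W m b).card : ℝ) / gg f|
        ≤ |(((RA R W m b).filter fun r => r ≡ c [MOD f]).card : ℝ) - X / gg f| +
          |X / gg f - ((RA R W m b).card : ℝ) / gg f| := abs_sub_le _ _ _
      _ ≤ (R : ℝ) / (y : ℝ) ^ A := by linarith

end Pool.Agent.Lib.MP_a260de_nt.CN
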