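import Pool.Agent.Lib.MP_a260de_nt.CN.SpecM

set_option autoImplicit false

namespace Pool.Agent.Lib.MP_a260de_nt.CN

open Finset
open Pool.Agent.Lib.BV (prim BnfStmt EsyStmt ExtStmt MsbStmt LsmStmt)
open Pool.Agent.Results.MP_00e23e_nt (li maxErr)

open Classical in
private noncomputable def smCn1 (X : ℕ) : Finset ℕ :=
  (Icc 1 X).filter fun s => ∀ q : ℕ, q.Prime → q ∣ s → q < 200

private lemma vle {X s p : ℕ} (hs1 : 1 ≤ s) (hs : s ≤ X) (hp : p.Prime) :
    s.factorization p ≤ Nat.log 2 X := by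
  apply Nat.le_log_of_pow_le (by norm_num)
  calc 2 ^ s.factorization p ≤ p ^ s.factorization p := Nat.pow_le_pow_left hp.two_le _
    _ ≤ s := Nat.ordProj_le p (by omega)
    _ ≤ X := hs

private lemma smCn1_card (X : ℕ) : (smCn1 X).card ≤ (Nat.log 2 X + 1) ^ 200 := by
  classical
  let F : ℕ → (Fin 200 → Fin (Nat.log 2 X + 1)) := fun s q =>
    ⟨min (s.factorization q) (Nat.log 2 X), by omega⟩
  have hinj : Set.InjOn F (smCn1 X : Set ℕ) := by
    intro s hs t ht h
    have hs' := mem_filter.mp (mem_coe.mp hs)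
    have ht' := mem_filter.mp (mem_coe.mp ht)
    have hs1 := mem_Icc.mp hs'.1
    have ht1 := mem_Icc.mp ht'.1
    apply Nat.eq_of_factorization_eq (by omega) (by omega)
    intro p
    by_cases hp : p.Prime
    · by_cases hp2 : p < 200
      · have h0 := congrFun h ⟨p, hp2⟩
        have h1 := vle hs1.1 hs1.2 hp
        have h2 := vle ht1.1 ht1.2 hp
        have h3 : min (s.factorization p) (Nat.log 2 X) = min (t.factorization p) (Nat.log 2 X) :=
          congrArg Fin.val h0
        omega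
      · rw [Nat.factorization_eq_zero_of_not_dvd (fun hd => hp2 (hs'.2 p hp hd)),
          Nat.factorization_eq_zero_of_not_dvd (fun hd => hp2 (ht'.2 p hp hd))]
    · rw [Nat.factorization_eq_zero_of_not_prime _ hp, Nat.factorization_eq_zero_of_not_prime _ hp]
  have h := Finset.card_le_card_of_injOn F (t := (univ : Finset (Fin 200 → Fin (Nat.log 2 X + 1))))
    (fun _ _ => by simp) hinj
  simpa using h

theorem t_Cn1 : S_Cn1 := by
  classical
  intro X T hX hT
  have hXr : (1 : ℝ) ≤ (X : ℝ) := by exact_mod_cast hX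
  have hlog : 0 ≤ Real.log X := Real.log_nonneg hXr
  have hcard : ((smCn1 X).card : ℝ) ≤ (2 + 2 * Real.log X) ^ 200 := by
    have h1 : ((smCn1 X).card : ℝ) ≤ ((Nat.log 2 X : ℝ) + 1) ^ 200 := by
      exact_mod_cast smCn1_card X
    refine h1.trans (pow_le_pow_left₀ (by positivity) ?_ 200)
    have h2 : (Nat.log 2 X : ℝ) ≤ Real.logb 2 X := by
      have := Real.natLog_le_logb X 2
      simpa using this
    have h3 : Real.logb 2 X ≤ 2 * Real.log X := by
      unfold Real.logb
      have hl2 : (0.6931471803 : ℝ) < Real.log 2 := Real.log_two_gt_d9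
      rw [div_le_iff₀ (by linarith)]
      nlinarith
    linarith
  have hsub : ((Icc 1 X).filter fun n => ∃ s : ℕ, s ∣ n ∧ T < (s : ℝ) ∧
      ∀ q : ℕ, q.Prime → q ∣ s → q < 200) ⊆
      ((smCn1 X).filter fun s : ℕ => T < (s : ℝ)).biUnion fun s : ℕ => (Ioc 0 X).filter fun n : ℕ => s ∣ n := by
    intro n hn
    obtain ⟨hn1, s, hsn, hTs, hq⟩ := mem_filter.mp hn
    have hn2 := mem_Icc.mp hn1
    have hs0 : 0 < s := by
      rcases Nat.eq_zero_or_pos s with h | h
      · subst h
        norm_num at hTs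
        linarith
      · exact h
    have hsX : s ≤ X := (Nat.le_of_dvd (by omega) hsn).trans hn2.2
    refine mem_biUnion.mpr ⟨s, mem_filter.mpr ⟨mem_filter.mpr ⟨mem_Icc.mpr ⟨hs0, hsX⟩, hq⟩, hTs⟩, ?_⟩
    exact mem_filter.mpr ⟨mem_Ioc.mpr ⟨by omega, hn2.2⟩, hsn⟩
  calc (((Icc 1 X).filter fun n => ∃ s : ℕ, s ∣ n ∧ T < (s : ℝ) ∧
      ∀ q : ℕ, q.Prime → q ∣ s → q < 200).card : ℝ)
      ≤ (∑ s ∈ (smCn1 X).filter fun s : ℕ => T < (s : ℝ),
          ((Ioc 0 X).filter fun n : ℕ => s ∣ n).card : ℕ) := by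
        exact_mod_cast (card_le_card hsub).trans card_biUnion_le
    _ = ∑ s ∈ (smCn1 X).filter fun s : ℕ => T < (s : ℝ),
          (((Ioc 0 X).filter fun n : ℕ => s ∣ n).card : ℝ) := by push_cast; rfl
    _ ≤ ∑ _s ∈ (smCn1 X).filter fun s : ℕ => T < (s : ℝ), (X / T : ℝ) := by
        apply sum_le_sum
        intro s hs
        have hTs := (mem_filter.mp hs).2
        rw [Nat.Ioc_filter_dvd_card_eq_div]
        have h1 : ((X / s : ℕ) : ℝ) ≤ (X : ℝ) / (s : ℝ) := Nat.cast_div_le
        refine h1.trans ?_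
        apply div_le_div_of_nonneg_left (by linarith) (by linarith) hTs.le
    _ = (((smCn1 X).filter fun s : ℕ => T < (s : ℝ)).card : ℝ) * (X / T) := by
        rw [sum_const, nsmul_eq_mul]
    _ ≤ ((smCn1 X).card : ℝ) * (X / T) := by
        apply mul_le_mul_of_nonneg_right _ (div_nonneg (by linarith) (by linarith))
        exact_mod_cast card_le_card (filter_subset _ _)
    _ ≤ (2 + 2 * Real.log X) ^ 200 * (X / T) := by
        apply mul_le_mul_of_nonneg_right hcard (div_nonneg (by linarith) (by linarith))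

end Pool.Agent.Lib.MP_a260de_nt.CN
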