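import Pool.Agent.Lib.MP_a260de_nt.CN.SpecM

set_option autoImplicit false

namespace Pool.Agent.Lib.MP_a260de_nt.CN

open Finset
open Pool.Agent.Lib.BV (prim BnfStmt EsyStmt ExtStmt MsbStmt LsmStmt)
open Pool.Agent.Results.MP_00e23e_nt (li maxErr)

open Classical in
/-- Numbers divisible by a large square. -/
theorem t_Cn2 : S_Cn2 := by
  intro X U _hX hU
  have hU0 : 0 < U := by linarith
  set k : ℕ := ⌊U⌋₊ with hk
  have hkU : U < (k : ℝ) + 1 := Nat.lt_floor_add_one U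
  have hsub : ((Icc 1 X).filter fun n => ∃ u : ℕ, U < (u : ℝ) ∧ u ^ 2 ∣ n) ⊆
      (Ioo k (X + 1)).biUnion fun u => (Ioc 0 X).filter fun n => u ^ 2 ∣ n := by
    intro n hn
    obtain ⟨hn1, u, hu, hd⟩ := mem_filter.mp hn
    have hn2 := mem_Icc.mp hn1
    have hu1 : k < u := (Nat.floor_lt hU0.le).mpr hu
    have hle : u ^ 2 ≤ n := Nat.le_of_dvd (by omega) hd
    have hu2 : u ≤ u ^ 2 := Nat.le_self_pow (by norm_num) u
    refine mem_biUnion.mpr ⟨u, mem_Ioo.mpr ⟨hu1, by omega⟩, mem_filter.mpr ⟨?_, hd⟩⟩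
    exact mem_Ioc.mpr ⟨by omega, hn2.2⟩
  calc (((Icc 1 X).filter fun n => ∃ u : ℕ, U < (u : ℝ) ∧ u ^ 2 ∣ n).card : ℝ)
      ≤ ((∑ u ∈ Ioo k (X + 1), X / u ^ 2 : ℕ) : ℝ) := by
        refine Nat.cast_le.mpr ((card_le_card hsub).trans (card_biUnion_le.trans ?_))
        refine sum_le_sum fun u _ => ?_
        rw [Nat.Ioc_filter_dvd_card_eq_div]
    _ ≤ ∑ u ∈ Ioo k (X + 1), (X : ℝ) * ((u : ℝ) ^ 2)⁻¹ := by
        rw [Nat.cast_sum]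
        refine sum_le_sum fun u _ => ?_
        calc ((X / u ^ 2 : ℕ) : ℝ) ≤ (X : ℝ) / ((u ^ 2 : ℕ) : ℝ) := Nat.cast_div_le
          _ = (X : ℝ) * ((u : ℝ) ^ 2)⁻¹ := by rw [Nat.cast_pow, div_eq_mul_inv]
    _ = (X : ℝ) * ∑ u ∈ Ioo k (X + 1), ((u : ℝ) ^ 2)⁻¹ := by rw [mul_sum]
    _ ≤ (X : ℝ) * (2 / ((k : ℝ) + 1)) := by
        gcongr
        exact sum_Ioo_inv_sq_le k (X + 1)
    _ ≤ (X : ℝ) * (2 / U) := by gcongr
    _ = 2 * ((X : ℝ) / U) := by ring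

end Pool.Agent.Lib.MP_a260de_nt.CN
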