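import Pool.Agent.Lib.MP_a260de_nt.CN.SpecM
import Pool.Agent.Lib.MP_a260de_nt.CN.Gsum

/-!
# MP_a260de_nt, project CN, module Cs1
-/

set_option autoImplicit false

namespace Pool.Agent.Lib.MP_a260de_nt.CN

open Finset

theorem t_Cs1 : S_Cs1 := by
  intro f χ hf hχ
  have hset : (range f).filter (fun c => c.Coprime f ∧ (c - 1).Coprime f) =
      (range f).filter (fun c => c.Coprime f ∧ ∀ l ∈ f.primeFactors, ¬ c ≡ 1 [MOD l]) := by
    apply Finset.filter_congr
    intro c _
    by_cases hc : c.Coprime f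
    · have hc1 : 1 ≤ c := by
        rcases Nat.eq_zero_or_pos c with h | h
        · subst h
          rw [Nat.coprime_zero_left] at hc
          omega
        · exact h
      refine ⟨fun h0 => ⟨hc, ?_⟩, fun h0 => ⟨hc, ?_⟩⟩
      · have h := h0.2
        intro l hl h1
        have hp := Nat.prime_of_mem_primeFactors hl
        have hd : l ∣ c - 1 := (Nat.modEq_iff_dvd' hc1).1 h1.symm
        exact hp.one_lt.ne' (Nat.eq_one_of_dvd_coprimes h hd (Nat.dvd_of_mem_primeFactors hl))
      · have h := h0.2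
        apply Nat.Coprime.symm
        apply Nat.coprime_of_dvd
        intro l hl hlf hlc
        exact h l (Nat.mem_primeFactors.2 ⟨hl, hlf, by omega⟩) ((Nat.modEq_iff_dvd' hc1).2 hlc).symm
    · exact ⟨fun h => absurd h.1 hc, fun h => absurd h.1 hc⟩
  rw [hset, Gsum f χ hf hχ]
  have h1 : |ArithmeticFunction.moebius f| ≤ 1 := ArithmeticFunction.abs_moebius_le_one
  have h2 : ‖((ArithmeticFunction.moebius f : ℤ) : ℂ)‖ = |((ArithmeticFunction.moebius f : ℤ) : ℝ)| := by
    rw [Complex.norm_intCast]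
  rw [h2]
  exact_mod_cast h1

end Pool.Agent.Lib.MP_a260de_nt.CN
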