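import Pool.Agent.Lib.MP_a260de_nt.CN.SpecM

/-!
# MP_a260de_nt, project CN: decomposition of n
-/

set_option autoImplicit false

namespace Pool.Agent.Lib.MP_a260de_nt.CN

open Finset

theorem t_Dcm : S_Dcm := by
  classical
  intro n hn
  have hn0 : n ≠ 0 := by omega
  set v : ℕ → ℕ := fun q => n.factorization q with hv
  set A : Finset ℕ := n.primeFactors.filter (fun q => q < 200) with hA
  set B : Finset ℕ := n.primeFactors.filter (fun q => ¬ q < 200 ∧ 2 ≤ v q) with hB
  set D : Finset ℕ := n.primeFactors.filter (fun q => ¬ q < 200 ∧ ¬ 2 ≤ v q) with hD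
  have hpA : ∀ q ∈ A, q.Prime := fun q hq => Nat.prime_of_mem_primeFactors (Finset.mem_filter.1 hq).1
  have hpB : ∀ q ∈ B, q.Prime := fun q hq => Nat.prime_of_mem_primeFactors (Finset.mem_filter.1 hq).1
  have hpD : ∀ q ∈ D, q.Prime := fun q hq => Nat.prime_of_mem_primeFactors (Finset.mem_filter.1 hq).1
  set s : ℕ := ∏ q ∈ A, q ^ v q with hs
  set w : ℕ := ∏ q ∈ B, q ^ v q with hw
  set u : ℕ := ∏ q ∈ B, q ^ (v q / 2) with hu
  set t : ℕ := ∏ q ∈ D, q with ht
  have hvpos : ∀ q ∈ n.primeFactors, 1 ≤ v q := by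
    intro q hq
    have := (Nat.prime_of_mem_primeFactors hq).factorization_pos_of_dvd hn0
      (Nat.dvd_of_mem_primeFactors hq)
    exact this
  have htv : t = ∏ q ∈ D, q ^ v q := by
    rw [ht]
    apply Finset.prod_congr rfl
    intro q hq
    have h1 := (Finset.mem_filter.1 hq)
    have h2 := hvpos q h1.1
    have h3 : v q = 1 := by
      have := h1.2.2
      omega
    rw [h3, pow_one]
  have hprod : s * w * t = n := by
    have h0 : ∏ q ∈ n.primeFactors, q ^ v q = n := Nat.factorization_prod_pow_eq_self hn0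
    have h1 : n.primeFactors = A ∪ (B ∪ D) := by
      ext q
      rw [Finset.mem_union, Finset.mem_union, hA, hB, hD, Finset.mem_filter, Finset.mem_filter,
        Finset.mem_filter]
      tauto
    have hd1 : Disjoint A (B ∪ D) := by
      rw [Finset.disjoint_left]
      intro q hq hq2
      rw [Finset.mem_union, hB, hD, Finset.mem_filter, Finset.mem_filter] at hq2
      rw [hA, Finset.mem_filter] at hq
      tauto
    have hd2 : Disjoint B D := by
      rw [Finset.disjoint_left]
      intro q hq hq2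
      rw [hD, Finset.mem_filter] at hq2
      rw [hB, Finset.mem_filter] at hq
      tauto
    rw [h1, Finset.prod_union hd1, Finset.prod_union hd2] at h0
    rw [← h0, ← htv, ← hs, ← hw, mul_assoc]
  have hspos : 0 < s := Finset.prod_pos fun q hq => pow_pos (hpA q hq).pos _
  have hwpos : 0 < w := Finset.prod_pos fun q hq => pow_pos (hpB q hq).pos _
  have hdiv : n / (s * w) = t := by
    rw [← hprod]
    exact Nat.mul_div_cancel_left t (Nat.mul_pos hspos hwpos)
  have hcopA : ∀ q ∈ D, Nat.Coprime q s := by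
    intro q hq
    apply Nat.Coprime.prod_right
    intro p hp
    apply Nat.Coprime.pow_right
    rw [Nat.coprime_primes (hpD q hq) (hpA p hp)]
    rintro rfl
    exact (Finset.mem_filter.1 hq).2.1 (Finset.mem_filter.1 hp).2
  have hcopB : ∀ q ∈ D, Nat.Coprime q w := by
    intro q hq
    apply Nat.Coprime.prod_right
    intro p hp
    apply Nat.Coprime.pow_right
    rw [Nat.coprime_primes (hpD q hq) (hpB p hp)]
    rintro rfl
    exact (Finset.mem_filter.1 hq).2.2 (Finset.mem_filter.1 hp).2.2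
  refine ⟨s * w, s, w, u, rfl, ?_, ?_, ?_, ?_, ?_, ?_, ?_, ?_, ?_⟩
  · exact ⟨t, hprod.symm⟩
  · exact ⟨w * t, by rw [← mul_assoc]; exact hprod.symm⟩
  · have h1 : u ^ 2 ∣ w := by
      rw [hu, hw, ← Finset.prod_pow]
      apply Finset.prod_dvd_prod_of_dvd
      intro q _
      rw [← pow_mul]
      apply pow_dvd_pow
      omega
    exact h1.trans ⟨s * t, by rw [← hprod]; ring⟩
  · rw [hu, hw, ← Finset.prod_pow]
    apply Finset.prod_le_prod'
    intro q hq
    rw [← pow_mul]
    apply Nat.pow_le_pow_right (hpB q hq).pos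
    have := (Finset.mem_filter.1 hq).2.2
    omega
  · intro q hq hqs
    rw [hs, Prime.dvd_finset_prod_iff (Nat.Prime.prime hq)] at hqs
    obtain ⟨p, hp, hqp⟩ := hqs
    have h1 := (Nat.prime_dvd_prime_iff_eq hq (hpA p hp)).1 (hq.dvd_of_dvd_pow hqp)
    rw [h1]
    exact (Finset.mem_filter.1 hp).2
  · rw [hdiv]
    rw [Nat.squarefree_iff_prime_squarefree]
    intro p hp hpp
    have h1 : p ∣ t := (dvd_mul_right p p).trans hpp
    rw [ht, Prime.dvd_finset_prod_iff (Nat.Prime.prime hp)] at h1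
    obtain ⟨q, hq, hpq⟩ := h1
    have h2 := (Nat.prime_dvd_prime_iff_eq hp (hpD q hq)).1 hpq
    subst h2
    rw [ht, ← Finset.mul_prod_erase D _ hq] at hpp
    have h3 := Nat.dvd_of_mul_dvd_mul_left hp.pos hpp
    rw [Prime.dvd_finset_prod_iff (Nat.Prime.prime hp)] at h3
    obtain ⟨r, hr, hpr⟩ := h3
    have h4 := (Nat.prime_dvd_prime_iff_eq hp (hpD r (Finset.mem_of_mem_erase hr))).1 hpr
    exact (Finset.mem_erase.1 hr).1 h4.symm
  · rw [hdiv]
    apply Nat.Coprime.prod_left
    intro q hq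
    exact Nat.Coprime.mul_right (hcopA q hq) (hcopB q hq)
  · rw [hdiv]
    intro q hq hqt
    rw [ht, Prime.dvd_finset_prod_iff (Nat.Prime.prime hq)] at hqt
    obtain ⟨p, hp, hqp⟩ := hqt
    have h1 := (Nat.prime_dvd_prime_iff_eq hq (hpD p hp)).1 hqp
    rw [h1]
    exact not_lt.1 (Finset.mem_filter.1 hp).2.1
  · intro h2n
    have h2A : 2 ∈ A := by
      rw [hA, Finset.mem_filter]
      exact ⟨Nat.mem_primeFactors.2 ⟨Nat.prime_two, h2n, hn0⟩, by norm_num⟩
    have h3 : 2 ∣ 2 ^ v 2 := by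
      apply dvd_pow_self
      have := hvpos 2 (Finset.mem_filter.1 h2A).1
      omega
    exact (h3.trans (Finset.dvd_prod_of_mem (fun q => q ^ v q) h2A)).trans (dvd_mul_right s w)

end Pool.Agent.Lib.MP_a260de_nt.CN
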