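import Pool.Agent.Lib.MP_a260de_nt.CN.SpecM

/-!
MP_a260de_nt, PROJECT CN, part M: the depth of the sieve (S_Dep).
-/

set_option autoImplicit false

namespace Pool.Agent.Lib.MP_a260de_nt.CN

open Finset

/-- `(κ L)^n/n! ≤ exp(-A L)` for `n ≥ 2 (4 κ + A) L` -/
private lemma fac_part (κ A L : ℝ) (hκ : 0 < κ) (hA : 0 < A) (hL : 0 ≤ L) (n : ℕ)
    (hn : 2 * (4 * κ + A) * L ≤ n) :
    (κ * L) ^ n / (n.factorial : ℝ) ≤ Real.exp (-(A * L)) := by
  have h1 := Real.pow_div_factorial_le_exp (8 * (κ * L)) (by positivity) n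
  have h2 : (8 * (κ * L)) ^ n / (n.factorial : ℝ) = 8 ^ n * ((κ * L) ^ n / (n.factorial : ℝ)) := by
    rw [mul_pow]; ring
  rw [h2] at h1
  have h8 : Real.exp 2 ≤ 8 := by
    have he := Real.exp_one_lt_d9
    have : Real.exp 2 = Real.exp 1 * Real.exp 1 := by rw [← Real.exp_add]; norm_num
    rw [this]
    have h0 := Real.exp_pos 1
    nlinarith
  have h3 : Real.exp (2 * n) ≤ 8 ^ n := by
    have : Real.exp (2 * n) = Real.exp 2 ^ n := by
      rw [← Real.exp_nat_mul]; ring_nf
    rw [this]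
    exact pow_le_pow_left₀ (Real.exp_nonneg _) h8 n
  have h4 : 0 ≤ (κ * L) ^ n / (n.factorial : ℝ) := by positivity
  have h5 : Real.exp (2 * n) * ((κ * L) ^ n / (n.factorial : ℝ)) ≤ Real.exp (8 * (κ * L)) :=
    (mul_le_mul_of_nonneg_right h3 h4).trans h1
  have h6 : (κ * L) ^ n / (n.factorial : ℝ) ≤ Real.exp (8 * (κ * L)) * Real.exp (-(2 * n)) := by
    have hpos := Real.exp_pos (2 * (n : ℝ))
    rw [Real.exp_neg, ← div_eq_mul_inv, le_div_iff₀ hpos]
    linarith
  refine h6.trans ?_
  rw [← Real.exp_add]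
  apply Real.exp_le_exp.2
  have h7 : 0 ≤ κ * L := by positivity
  have h8 : 0 ≤ A * L := by positivity
  nlinarith

/-- `R^(2/5) ≥ exp(y^(1+δ)/3)` -/
private lemma R_low (y : ℕ) (δ : ℝ) (hδ : 0 < δ) (hy : 6 ≤ y) :
    Real.exp ((y : ℝ) ^ (1 + δ) / 3) ≤ (RR y δ : ℝ) ^ (2 / 5 : ℝ) := by
  set T := (y : ℝ) ^ (1 + δ) with hT
  have hy1 : (6 : ℝ) ≤ y := by exact_mod_cast hy
  have hT6 : 6 ≤ T := by
    calc (6 : ℝ) ≤ y := hy1
      _ = (y : ℝ) ^ (1 : ℝ) := (Real.rpow_one _).symm
      _ ≤ T := Real.rpow_le_rpow_of_exponent_le (by linarith) (by linarith)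
  have h1 : Real.exp T - 1 ≤ (RR y δ : ℝ) := by
    unfold RR
    have := Nat.lt_floor_add_one (Real.exp ((y : ℝ) ^ (1 + δ)))
    rw [← hT] at this
    linarith
  have hexp2 : (2 : ℝ) ≤ Real.exp T := by
    have := Real.add_one_le_exp T
    linarith
  have h2 : Real.exp (5 / 6 * T) ≤ (RR y δ : ℝ) := by
    refine le_trans ?_ h1
    have h3 : Real.exp (5 / 6 * T) * 2 ≤ Real.exp T := by
      have h4 : Real.exp T = Real.exp (5 / 6 * T) * Real.exp (T / 6) := by
        rw [← Real.exp_add]; ring_nf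
      rw [h4]
      apply mul_le_mul_of_nonneg_left _ (Real.exp_nonneg _)
      have := Real.add_one_le_exp (T / 6)
      linarith
    linarith
  calc Real.exp (T / 3) = Real.exp (5 / 6 * T) ^ (2 / 5 : ℝ) := by
        rw [← Real.exp_mul]; ring_nf
    _ ≤ _ := Real.rpow_le_rpow (Real.exp_nonneg _) h2 (by norm_num)

theorem t_Dep : S_Dep := by
  intro κ δ K A hκ hδ hK hA
  set c := 4 * κ + A with hc
  have hc0 : 0 < c := by rw [hc]; linarith
  set D := 3 * (A + 3 * K) + 12 * c * K / δ + 1 with hD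
  have hD1 : 1 ≤ D := by
    have : 0 ≤ 12 * c * K / δ := by positivity
    rw [hD]; linarith
  refine ⟨⌈D ^ (2 / δ)⌉₊ + 6, fun y hy => ?_⟩
  have hy6 : 6 ≤ y := by omega
  have hy1 : (6 : ℝ) ≤ y := by exact_mod_cast hy6
  have hy0 : (0 : ℝ) < y := by linarith
  set L := Real.log y with hL
  have hL0 : 0 ≤ L := Real.log_nonneg (by linarith)
  set k := ⌈c * L⌉₊ with hk
  refine ⟨k, ?_, ?_⟩
  · -- the first inequality
    refine le_trans ?_ (R_low y δ hδ hy6)
    set t := (y : ℝ) ^ (δ / 2) with ht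
    have htD : D ≤ t := by
      have h1 : D ^ (2 / δ) ≤ y := by
        refine (Nat.le_ceil _).trans ?_
        exact_mod_cast (by omega : ⌈D ^ (2 / δ)⌉₊ ≤ y)
      calc D = (D ^ (2 / δ)) ^ (δ / 2) := by
            rw [← Real.rpow_mul (by linarith)]
            have : 2 / δ * (δ / 2) = 1 := by field_simp
            rw [this, Real.rpow_one]
        _ ≤ t := Real.rpow_le_rpow (Real.rpow_nonneg (by linarith) _) h1 (by positivity)
    have ht1 : 1 ≤ t := hD1.trans htD
    have hLt : L ≤ 2 / δ * t := by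
      have := Real.log_le_rpow_div hy0.le (half_pos hδ)
      calc L ≤ (y : ℝ) ^ (δ / 2) / (δ / 2) := this
        _ = 2 / δ * t := by rw [← ht]; field_simp
    have hLy : L ≤ y := by
      have := Real.log_le_sub_one_of_pos hy0
      linarith
    have hT : (y : ℝ) ^ (1 + δ) = y * (t * t) := by
      rw [ht, ← Real.rpow_add hy0, Real.rpow_add hy0, Real.rpow_one]
      ring_nf
    have hW : (WW y K : ℝ) ≤ Real.exp (K * y) := by
      unfold WW
      exact Nat.floor_le (Real.exp_nonneg _)
    have hWn : (WW y K : ℝ) ^ (2 * k + 1) ≤ Real.exp ((2 * k + 1 : ℕ) * (K * y)) := by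
      rw [Real.exp_nat_mul]
      exact pow_le_pow_left₀ (Nat.cast_nonneg _) hW _
    have hyA : (y : ℝ) ^ A = Real.exp (A * L) := by
      rw [Real.rpow_def_of_pos hy0, mul_comm]
    have hkle : (k : ℝ) ≤ c * L + 1 := (Nat.ceil_lt_add_one (by positivity)).le
    calc (y : ℝ) ^ A * (WW y K : ℝ) ^ (2 * k + 1)
        ≤ Real.exp (A * L) * Real.exp ((2 * k + 1 : ℕ) * (K * y)) := by
          rw [hyA]
          exact mul_le_mul_of_nonneg_left hWn (Real.exp_nonneg _)
      _ = Real.exp (A * L + (2 * k + 1 : ℕ) * (K * y)) := by rw [Real.exp_add]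
      _ ≤ Real.exp ((y : ℝ) ^ (1 + δ) / 3) := by
          apply Real.exp_le_exp.2
          push_cast
          rw [hT]
          have hKy : 0 < K * y := by positivity
          have e1 : (2 * (k : ℝ) + 1) * (K * y) ≤ (2 * c * L + 3) * (K * y) :=
            mul_le_mul_of_nonneg_right (by linarith) hKy.le
          have e2 : A * L ≤ A * y := mul_le_mul_of_nonneg_left hLy hA.le
          have e3 : 3 * (A + (2 * c * L + 3) * K) ≤ t * t := by
            have f1 : 3 * (A + (2 * c * L + 3) * K) = 3 * (A + 3 * K) + 6 * c * K * L := by ring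
            have f2 : 6 * c * K * L ≤ 12 * c * K / δ * t := by
              calc 6 * c * K * L ≤ 6 * c * K * (2 / δ * t) :=
                    mul_le_mul_of_nonneg_left hLt (by positivity)
                _ = 12 * c * K / δ * t := by ring
            have f3 : 3 * (A + 3 * K) ≤ 3 * (A + 3 * K) * t :=
              le_mul_of_one_le_right (by positivity) ht1
            have f4 : (3 * (A + 3 * K) + 12 * c * K / δ) * t ≤ t * t := by
              apply mul_le_mul_of_nonneg_right _ (by linarith)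
              rw [hD] at htD
              linarith
            rw [f1]
            nlinarith
          have e4 : A * L + (2 * (k : ℝ) + 1) * (K * y) ≤ y * (A + (2 * c * L + 3) * K) := by
            calc A * L + (2 * (k : ℝ) + 1) * (K * y) ≤ A * y + (2 * c * L + 3) * (K * y) :=
                  add_le_add e2 e1
              _ = y * (A + (2 * c * L + 3) * K) := by ring
          have e5 : y * (A + (2 * c * L + 3) * K) ≤ y * (t * t) / 3 := by
            have : y * (3 * (A + (2 * c * L + 3) * K)) ≤ y * (t * t) :=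
              mul_le_mul_of_nonneg_left e3 hy0.le
            linarith
          exact e4.trans e5
  · -- the second inequality
    have hyA : (y : ℝ) ^ (-A) = Real.exp (-(A * L)) := by
      rw [Real.rpow_def_of_pos hy0]
      congr 1
      ring
    rw [hyA]
    apply fac_part κ A L hκ hA hL0
    have h1 : c * L ≤ (k : ℝ) := Nat.le_ceil _
    push_cast
    have h2 : 2 * (4 * κ + A) * L = 2 * (c * L) := by rw [hc]; ring
    rw [h2]
    linarith

end Pool.Agent.Lib.MP_a260de_nt.CN
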