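import Pool.Agent.Lib.MP_a260de_nt.CN.SpecM

/-! Part Ee: Bombieri-Vinogradov for the sums EE. -/

namespace Pool.Agent.Lib.MP_a260de_nt.CN

open Finset Filter Pool.Agent.Results.MP_00e23e_nt
open Pool.Agent.Lib.BV (ExtStmt Kf)

private theorem ee_asy (C A : ℝ) : ∃ x0 : ℝ, ∀ x : ℝ, x0 ≤ x →
    C / Real.log x + C * ((Real.log x) ^ (A + 2) / x ^ ((1 : ℝ) / 10)) ≤ 1 := by
  have h1 : Tendsto (fun x : ℝ => C / Real.log x) atTop (nhds 0) :=
    Tendsto.div_atTop tendsto_const_nhds Real.tendsto_log_atTop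
  have h2 : Tendsto (fun x : ℝ => (Real.log x) ^ (A + 2) / x ^ ((1 : ℝ) / 10)) atTop (nhds 0) :=
    (isLittleO_log_rpow_rpow_atTop (A + 2) (by norm_num : (0:ℝ) < 1 / 10)).tendsto_div_nhds_zero
  have h3 : Tendsto (fun x : ℝ => C / Real.log x +
      C * ((Real.log x) ^ (A + 2) / x ^ ((1 : ℝ) / 10))) atTop (nhds (0 + C * 0)) :=
    h1.add (h2.const_mul C)
  rw [mul_zero, add_zero] at h3
  have h4 := h3.eventually (eventually_le_nhds (by norm_num : (0:ℝ) < 1))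
  obtain ⟨x0, hx0⟩ := eventually_atTop.1 h4
  exact ⟨x0, hx0⟩

private theorem ee_core (hE : ExtStmt) (A : ℝ) (hA : 0 < A) : ∃ x0 : ℝ, ∀ (x : ℝ) (D : ℕ) (y : ℕ → ℝ), x0 ≤ x →
    (D : ℝ) ≤ x ^ ((2 : ℝ) / 5) → (∀ d, 2 ≤ y d ∧ y d ≤ x) →
    ∑ d ∈ Icc 1 D, maxErr (y d) d ≤ x / (Real.log x) ^ A := by
  obtain ⟨C, hC⟩ := hE (A + 1) (by linarith)
  obtain ⟨x1, hx1⟩ := ee_asy (max C 1) A
  refine ⟨max x1 100, fun x D y hx hD hy => ?_⟩
  have hx1' : x1 ≤ x := (le_max_left _ _).trans hx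
  have hx100 : 100 ≤ x := (le_max_right _ _).trans hx
  have hxpos : 0 < x := by linarith
  have hL : 1 ≤ Real.log x := by
    rw [Real.le_log_iff_exp_le hxpos]
    have := Real.exp_one_lt_d9
    linarith
  have hLpos : 0 < Real.log x := by linarith
  have hLA : 0 < (Real.log x) ^ A := Real.rpow_pos_of_pos hLpos _
  rcases Nat.eq_zero_or_pos D with h0 | hD1
  · subst h0
    simp
    positivity
  have hE := hC x D y (by linarith) hD1 hy
  have hD1' : (1 : ℝ) ≤ D := by exact_mod_cast hD1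
  have hsq : 10 ≤ Real.sqrt x := by
    apply Real.le_sqrt_of_sq_le
    linarith
  have hsq2 : Real.sqrt x * Real.sqrt x = x := Real.mul_self_sqrt hxpos.le
  have hK1 : 16 ≤ Kf x D := by
    unfold Kf
    have : 0 ≤ Real.sqrt x / ((D : ℝ) * Real.log x) := by positivity
    linarith
  have hK2 : Kf x D ≤ x := by
    unfold Kf
    have h1 : 1 ≤ (D : ℝ) * Real.log x := by nlinarith
    have : Real.sqrt x / ((D : ℝ) * Real.log x) ≤ Real.sqrt x := div_le_self (by positivity) h1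
    nlinarith
  have hl1 : Real.log (Kf x D) ≤ Real.log x := Real.log_le_log (by linarith) hK2
  have hl0 : 1 ≤ Real.log (Kf x D) := by
    rw [Real.le_log_iff_exp_le (by linarith)]
    have := Real.exp_one_lt_d9
    linarith
  have hl2 : Real.log (Real.log (Kf x D)) ≤ Real.log x :=
    (Real.log_le_self (by linarith)).trans hl1
  have hl3 : 0 ≤ Real.log (Real.log (Kf x D)) := Real.log_nonneg hl0
  have hm : Real.log (Kf x D) * Real.log (Real.log (Kf x D)) ≤ Real.log x * Real.log x :=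
    mul_le_mul hl1 hl2 hl3 hLpos.le
  have hsD : Real.sqrt x * D ≤ x ^ ((9 : ℝ) / 10) := by
    rw [Real.sqrt_eq_rpow]
    calc x ^ ((1:ℝ)/2) * D ≤ x ^ ((1:ℝ)/2) * x ^ ((2:ℝ)/5) :=
          mul_le_mul_of_nonneg_left hD (by positivity)
      _ = x ^ ((9 : ℝ) / 10) := by rw [← Real.rpow_add hxpos]; norm_num
  have hfin := hx1 x hx1'
  set C' := max C 1 with hC'
  have hC1 : C ≤ C' := le_max_left _ _
  have hC0 : 1 ≤ C' := le_max_right _ _
  have hB : x / (Real.log x) ^ (A + 1) + Real.sqrt x * D *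
      (Real.log (Kf x D) * Real.log (Real.log (Kf x D))) ≤
      x / (Real.log x) ^ (A + 1) + x ^ ((9 : ℝ) / 10) * (Real.log x * Real.log x) := by
    gcongr
  have hB0 : 0 ≤ x / (Real.log x) ^ (A + 1) + Real.sqrt x * D *
      (Real.log (Kf x D) * Real.log (Real.log (Kf x D))) := by
    have := mul_nonneg (by linarith : 0 ≤ Real.log (Kf x D)) hl3
    positivity
  calc ∑ d ∈ Icc 1 D, maxErr (y d) d ≤ C * (x / (Real.log x) ^ (A + 1) + Real.sqrt x * D *
        (Real.log (Kf x D) * Real.log (Real.log (Kf x D)))) := hE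
    _ ≤ C' * (x / (Real.log x) ^ (A + 1) + Real.sqrt x * D *
        (Real.log (Kf x D) * Real.log (Real.log (Kf x D)))) := mul_le_mul_of_nonneg_right hC1 hB0
    _ ≤ C' * (x / (Real.log x) ^ (A + 1) + x ^ ((9 : ℝ) / 10) * (Real.log x * Real.log x)) :=
        mul_le_mul_of_nonneg_left hB (by linarith)
    _ = x / (Real.log x) ^ A * (C' / Real.log x +
        C' * ((Real.log x) ^ (A + 2) / x ^ ((1 : ℝ) / 10))) := by
        rw [Real.rpow_add hLpos, Real.rpow_add hLpos, Real.rpow_one]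
        rw [show x ^ ((9:ℝ)/10) = x / x ^ ((1:ℝ)/10) by
          rw [eq_div_iff (by positivity), ← Real.rpow_add hxpos]; norm_num]
        rw [show (Real.log x) ^ (2:ℝ) = Real.log x * Real.log x by
          rw [show (2:ℝ) = ((2:ℕ):ℝ) by norm_num, Real.rpow_natCast, sq]]
        field_simp
    _ ≤ x / (Real.log x) ^ A * 1 := mul_le_mul_of_nonneg_left hfin (by positivity)
    _ = x / (Real.log x) ^ A := mul_one _

/-- for large y, exp y + 2 ≤ R and y ≤ log R -/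
private theorem ee_R (δ : ℝ) (hδ : 0 < δ) : ∃ y0 : ℕ, ∀ y : ℕ, y0 ≤ y →
    Real.exp y ≤ (RR y δ : ℝ) := by
  have h1 : Tendsto (fun y : ℕ => ((y : ℕ) : ℝ) ^ δ) atTop atTop :=
    (tendsto_rpow_atTop hδ).comp tendsto_natCast_atTop_atTop
  obtain ⟨y1, hy1⟩ := eventually_atTop.1 (h1.eventually_ge_atTop 2)
  refine ⟨max y1 1, fun y hy => ?_⟩
  have hy2 := hy1 y ((le_max_left _ _).trans hy)
  have hyn : 1 ≤ y := (le_max_right _ _).trans hy
  have hy1R : (1 : ℝ) ≤ y := by exact_mod_cast hyn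
  have h2 : (y : ℝ) + 1 ≤ (y : ℝ) ^ (1 + δ) := by
    rw [Real.rpow_add (by linarith), Real.rpow_one]
    nlinarith
  have h3 : Real.exp ((y : ℝ) + 1) ≤ Real.exp ((y : ℝ) ^ (1 + δ)) := Real.exp_le_exp.2 h2
  have h4 : Real.exp ((y : ℝ) ^ (1 + δ)) < (RR y δ : ℝ) + 1 := by
    unfold RR
    exact Nat.lt_floor_add_one _
  have h5 : 1 ≤ Real.exp (y : ℝ) := Real.one_le_exp (by linarith)
  have h6 : 2 * Real.exp (y : ℝ) ≤ Real.exp ((y : ℝ) + 1) := by
    rw [Real.exp_add, mul_comm]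
    have := Real.exp_one_gt_d9
    gcongr
    linarith
  linarith

theorem t_Ee (hE : ExtStmt) : S_Ee := by
  intro δ A hδ hA
  obtain ⟨x0, hx0⟩ := ee_core hE (A + 1) (by linarith)
  obtain ⟨y1, hy1⟩ := ee_R δ hδ
  have h1 : Tendsto (fun y : ℕ => ((y : ℕ) : ℝ)) atTop atTop := tendsto_natCast_atTop_atTop
  obtain ⟨y2, hy2⟩ := eventually_atTop.1 (h1.eventually_ge_atTop x0)
  refine ⟨max y1 (max y2 4), fun y hy => ?_⟩
  have hyR := hy1 y ((le_max_left _ _).trans hy)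
  have hyx := hy2 y ((le_max_left _ _).trans ((le_max_right _ _).trans hy))
  have hy4 : 4 ≤ y := (le_max_right _ _).trans ((le_max_right _ _).trans hy)
  have hy4R : (4 : ℝ) ≤ y := by exact_mod_cast hy4
  have hyR' : (y : ℝ) + 1 ≤ (RR y δ : ℝ) := (Real.add_one_le_exp (y : ℝ)).trans hyR
  have hR0 : (0 : ℝ) < RR y δ := by linarith
  have hlog : (y : ℝ) ≤ Real.log (RR y δ) := by
    rw [Real.le_log_iff_exp_le hR0]
    exact hyR
  have hD : ((⌊(RR y δ : ℝ) ^ (2 / 5 : ℝ)⌋₊ : ℕ) : ℝ) ≤ (RR y δ : ℝ) ^ ((2 : ℝ) / 5) :=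
    Nat.floor_le (by positivity)
  have hN : 5 ≤ RR y δ := by
    have : ((5 : ℕ) : ℝ) ≤ (RR y δ : ℝ) := by push_cast; linarith
    exact_mod_cast this
  have e1 := hx0 (RR y δ) ⌊(RR y δ : ℝ) ^ (2 / 5 : ℝ)⌋₊ (fun _ => (RR y δ : ℝ)) (by linarith) hD
    (fun _ => ⟨by linarith, le_rfl⟩)
  have e2 := hx0 (RR y δ) ⌊(RR y δ : ℝ) ^ (2 / 5 : ℝ)⌋₊ (fun _ => ((RR y δ / 2 : ℕ) : ℝ))
    (by linarith) hD (fun _ => ⟨by exact_mod_cast (by omega : 2 ≤ RR y δ / 2), by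
      exact_mod_cast Nat.div_le_self _ _⟩)
  have hfin : (RR y δ : ℝ) / (Real.log (RR y δ)) ^ (A + 1) ≤ (RR y δ : ℝ) / (y : ℝ) ^ A / 4 := by
    have h3 : (y : ℝ) ^ (A + 1) ≤ (Real.log (RR y δ)) ^ (A + 1) :=
      Real.rpow_le_rpow (by linarith) hlog (by linarith)
    have h4 : (y : ℝ) ^ (A + 1) = (y : ℝ) ^ A * y := by
      rw [Real.rpow_add (by linarith), Real.rpow_one]
    have h5 : 0 < (y : ℝ) ^ A := Real.rpow_pos_of_pos (by linarith) _
    rw [div_div]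
    apply div_le_div_of_nonneg_left hR0.le (by positivity)
    refine le_trans ?_ h3
    rw [h4]
    gcongr
  have h6 : 0 < (RR y δ : ℝ) / (y : ℝ) ^ A :=
    div_pos hR0 (Real.rpow_pos_of_pos (by linarith) _)
  unfold EE
  rw [Finset.sum_add_distrib]
  linarith

end Pool.Agent.Lib.MP_a260de_nt.CN
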