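import Pool.Agent.Lib.MP_a260de_nt.CN.SpecM

/-!
# MP_a260de_nt, project CN: the Euler product bound
-/

set_option autoImplicit false

namespace Pool.Agent.Lib.MP_a260de_nt.CN

open Finset

private theorem eul_term (l : ℝ) (hl : 200 ≤ l) :
    (l - 1) / (l - 2) ^ 3 ≤ 1 / (l - 3) - 1 / (l - 2) := by
  have h3 : 0 < l - 3 := by linarith
  have h2 : 0 < l - 2 := by linarith
  have e : 1 / (l - 3) - 1 / (l - 2) = 1 / ((l - 3) * (l - 2)) := by
    field_simp
    ring
  rw [e, div_le_div_iff₀ (by positivity) (by positivity)]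
  have h4 : (l - 1) * (l - 3) ≤ (l - 2) ^ 2 := by nlinarith
  have h5 := mul_le_mul_of_nonneg_right h4 h2.le
  nlinarith

private theorem eul_tel (n : ℕ) :
    ∑ k ∈ range n, (1 / ((k : ℝ) + 197) - 1 / ((k : ℝ) + 198)) =
      1 / 197 - 1 / ((n : ℝ) + 197) := by
  induction n with
  | zero => norm_num
  | succ n ih =>
    rw [sum_range_succ, ih]
    push_cast
    ring

private theorem eul_sum (S : Finset ℕ) (hS : ∀ l ∈ S, 200 ≤ l) :
    ∑ l ∈ S, ((l : ℝ) - 1) / ((l : ℝ) - 2) ^ 3 ≤ 1 / 197 := by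
  obtain ⟨n, hn⟩ : ∃ n : ℕ, ∀ l ∈ S, l < n + 200 := by
    refine ⟨S.sup id + 1, fun l hl => ?_⟩
    have h1 : l ≤ S.sup id := Finset.le_sup (f := id) hl
    omega
  have h1 : ∑ l ∈ S, ((l : ℝ) - 1) / ((l : ℝ) - 2) ^ 3 ≤
      ∑ l ∈ S, (1 / ((l : ℝ) - 3) - 1 / ((l : ℝ) - 2)) := by
    refine sum_le_sum fun l hl => eul_term _ ?_
    exact_mod_cast hS l hl
  have h2 : ∑ l ∈ S, (1 / ((l : ℝ) - 3) - 1 / ((l : ℝ) - 2)) ≤
      ∑ l ∈ (range n).image (fun k : ℕ => (k + 200 : ℕ)), (1 / ((l : ℝ) - 3) - 1 / ((l : ℝ) - 2)) := by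
    refine sum_le_sum_of_subset_of_nonneg ?_ ?_
    · intro l hl
      rw [mem_image]
      refine ⟨l - 200, ?_, ?_⟩
      · rw [mem_range]
        have := hn l hl
        have := hS l hl
        omega
      · have := hS l hl
        omega
    · intro l hl _
      rw [mem_image] at hl
      obtain ⟨k, -, rfl⟩ := hl
      have hk : (0 : ℝ) ≤ k := Nat.cast_nonneg k
      rw [sub_nonneg]
      push_cast
      exact one_div_le_one_div_of_le (by linarith) (by linarith)
  have h3 : ∑ l ∈ (range n).image (fun k : ℕ => (k + 200 : ℕ)), (1 / ((l : ℝ) - 3) - 1 / ((l : ℝ) - 2)) =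
      1 / 197 - 1 / ((n : ℝ) + 197) := by
    rw [sum_image (fun a _ b _ hab => Nat.add_right_cancel hab), ← eul_tel n]
    refine sum_congr rfl fun k _ => ?_
    push_cast
    congr 2 <;> ring
  have h4 : (0 : ℝ) ≤ 1 / ((n : ℝ) + 197) := by positivity
  linarith

private theorem eul_phi (d : ℕ) (hd : Squarefree d) :
    (d.totient : ℝ) / gg d ^ 3 =
      ∏ l ∈ d.primeFactors, (((l : ℝ) - 1) / ((l : ℝ) - 2) ^ 3) := by
  have h1 := Nat.totient_mul_prod_primeFactors d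
  rw [Nat.prod_primeFactors_of_squarefree hd, mul_comm] at h1
  have h2 : d.totient = ∏ p ∈ d.primeFactors, (p - 1) :=
    Nat.eq_of_mul_eq_mul_left (Nat.pos_of_ne_zero hd.ne_zero) h1
  have h3 : (d.totient : ℝ) = ∏ p ∈ d.primeFactors, ((p : ℝ) - 1) := by
    rw [h2, Nat.cast_prod]
    refine prod_congr rfl fun p hp => ?_
    rw [Nat.cast_sub (Nat.prime_of_mem_primeFactors hp).one_lt.le, Nat.cast_one]
  rw [h3, gg, ← prod_pow, prod_div_distrib]

theorem t_Eul : S_Eul := by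
  intro N hN hl
  obtain ⟨g, hg⟩ : ∃ g : ℕ → ℝ, g = fun l : ℕ => ((l : ℝ) - 1) / ((l : ℝ) - 2) ^ 3 := ⟨_, rfl⟩
  have hmul : (ArithmeticFunction.prodPrimeFactors g).IsMultiplicative :=
    ArithmeticFunction.IsMultiplicative.prodPrimeFactors g
  have h1 := hmul.prodPrimeFactors_one_add_of_squarefree hN
  have h2 : ∑ f ∈ N.divisors, (f.totient : ℝ) / gg f ^ 3 =
      ∏ l ∈ N.primeFactors, (1 + g l) := by
    have h3 : ∏ l ∈ N.primeFactors, (1 + g l) =
        ∏ l ∈ N.primeFactors, (1 + (ArithmeticFunction.prodPrimeFactors g) l) := by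
      refine prod_congr rfl fun l hl => ?_
      have hp := Nat.prime_of_mem_primeFactors hl
      rw [ArithmeticFunction.prodPrimeFactors_apply hp.ne_zero, hp.primeFactors, prod_singleton]
    rw [h3, h1]
    refine sum_congr rfl fun f hf => ?_
    have hf1 : Squarefree f := hN.squarefree_of_dvd (Nat.dvd_of_mem_divisors hf)
    rw [ArithmeticFunction.prodPrimeFactors_apply hf1.ne_zero, eul_phi f hf1, hg]
  have h200 : ∀ l ∈ N.primeFactors, 200 ≤ l := fun l hl' =>
    hl l (Nat.prime_of_mem_primeFactors hl') (Nat.dvd_of_mem_primeFactors hl')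
  have h4 : ∏ l ∈ N.primeFactors, (1 + g l) ≤ Real.exp (∑ l ∈ N.primeFactors, g l) := by
    rw [Real.exp_sum]
    refine prod_le_prod (fun l hl' => ?_) (fun l _ => ?_)
    · have h5 : (200 : ℝ) ≤ l := by exact_mod_cast h200 l hl'
      have h6 : 0 ≤ g l := by
        rw [hg]
        exact div_nonneg (by linarith) (pow_nonneg (by linarith) 3)
      linarith
    · have := Real.add_one_le_exp (g l)
      linarith
  have h5 : ∑ l ∈ N.primeFactors, g l ≤ 1 / 197 := by
    rw [hg]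
    exact eul_sum _ h200
  have h6 : Real.exp (∑ l ∈ N.primeFactors, g l) ≤ Real.exp (1 / 197) := Real.exp_le_exp.2 h5
  have h7 : Real.exp (1 / 197) ≤ 197 / 196 := by
    have h8 := Real.add_one_le_exp (-(1 / 197 : ℝ))
    rw [Real.exp_neg] at h8
    have h9 : 0 < Real.exp (1 / 197 : ℝ) := Real.exp_pos _
    have h10 : (-(1 / 197 : ℝ) + 1) * Real.exp (1 / 197) ≤
        (Real.exp (1 / 197))⁻¹ * Real.exp (1 / 197) := mul_le_mul_of_nonneg_right h8 h9.le
    rw [inv_mul_cancel₀ h9.ne'] at h10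
    linarith
  have hmem : (1 : ℕ) ∈ N.divisors := Nat.mem_divisors.2 ⟨one_dvd _, hN.ne_zero⟩
  have h11 := Finset.add_sum_erase N.divisors (fun f : ℕ => (f.totient : ℝ) / gg f ^ 3) hmem
  have h12 : ((1 : ℕ).totient : ℝ) / gg 1 ^ 3 = 1 := by
    simp [gg]
  have h13 : ∑ f ∈ N.divisors, (f.totient : ℝ) / gg f ^ 3 ≤ 197 / 196 := by
    rw [h2]
    exact le_trans h4 (le_trans h6 h7)
  have h14 : ∑ f ∈ N.divisors.erase 1, (f.totient : ℝ) / gg f ^ 3 =
      ∑ f ∈ N.divisors, (f.totient : ℝ) / gg f ^ 3 - 1 := by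
    have h15 : ((1 : ℕ).totient : ℝ) / gg 1 ^ 3 +
        ∑ f ∈ N.divisors.erase 1, (f.totient : ℝ) / gg f ^ 3 =
        ∑ f ∈ N.divisors, (f.totient : ℝ) / gg f ^ 3 := h11
    rw [h12] at h15
    linarith
  rw [h14]
  linarith

end Pool.Agent.Lib.MP_a260de_nt.CN
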