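import Pool.Agent.Lib.MP_a260de_nt.CN.SpecM

/-!
# MP_a260de_nt, project CN: elements of `RA` are good auxiliary primes; the class `-1`
-/

set_option autoImplicit false

namespace Pool.Agent.Lib.MP_a260de_nt.CN

open Finset

private lemma pow_dvd_ar (a q : ℕ) (ha : a ≠ 0) (hq : q.Prime) (hqa : q ∣ a) :
    q ^ (a.factorization q + 1) ∣ ar a := by
  unfold ar
  rw [pow_succ]
  apply Nat.mul_dvd_mul (Nat.ordProj_dvd a q)
  exact Finset.dvd_prod_of_mem (fun q => q) (Nat.mem_primeFactors.2 ⟨hq, hqa, ha⟩)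

private lemma dvd_of_dvd_ar (a q : ℕ) (hq : q.Prime) (h : q ∣ ar a) : q ∣ a := by
  unfold ar at h
  rcases hq.dvd_mul.1 h with h | h
  · exact h
  · exact h.trans (Nat.prod_primeFactors_dvd a)

private lemma key (a N W b r : ℕ) (ha : 2 ≤ a)
    (hW : ∀ l : ℕ, l.Prime → l ∣ a * N → l ≤ W) (hb : 1 ≤ b)
    (hb2 : ∀ q : ℕ, q.Prime → q ∣ a → ¬ q ^ (a.factorization q + 1) ∣ b - 1)
    (hr : r.Prime) (hrb : r ≡ b [MOD ar a])
    (hrl : ∀ l : ℕ, l.Prime → l ≤ W → l ∣ r - 1 → l ∣ ar a) (q : ℕ) (hq : q.Prime)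
    (hqr : q ∣ rho (a * N) r) : ¬ q ∣ a * N ∧ W < q := by
  have hr1 : 1 ≤ r := hr.one_lt.le
  have hrpos : 0 < r - 1 := Nat.sub_pos_of_lt hr.one_lt
  have hgd : Nat.gcd (r - 1) (a * N) ∣ r - 1 := Nat.gcd_dvd_left _ _
  unfold rho at hqr
  have hmul : Nat.gcd (r - 1) (a * N) * q ∣ r - 1 := by
    obtain ⟨c, hc⟩ := hqr
    refine ⟨c, ?_⟩
    have h1 : r - 1 = Nat.gcd (r - 1) (a * N) * ((r - 1) / Nat.gcd (r - 1) (a * N)) :=
      (Nat.mul_div_cancel' hgd).symm
    calc r - 1 = Nat.gcd (r - 1) (a * N) * ((r - 1) / Nat.gcd (r - 1) (a * N)) := h1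
      _ = Nat.gcd (r - 1) (a * N) * (q * c) := by rw [hc]
      _ = Nat.gcd (r - 1) (a * N) * q * c := by ring
  have hqr1 : q ∣ r - 1 := (Dvd.intro_left _ rfl).trans hmul
  have hna : ¬ q ∣ a := by
    intro hqa
    have h1 : ¬ q ^ (a.factorization q + 1) ∣ r - 1 := by
      intro h2
      apply hb2 q hq hqa
      have h3 : r ≡ b [MOD q ^ (a.factorization q + 1)] :=
        hrb.of_dvd (pow_dvd_ar a q (by omega) hq hqa)
      have h4 : (1 : ℕ) ≡ r [MOD q ^ (a.factorization q + 1)] :=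
        (Nat.modEq_iff_dvd' hr1).2 h2
      exact (Nat.modEq_iff_dvd' hb).1 (h4.trans h3)
    set k := (r - 1).factorization q with hk
    have hk1 : q ^ k ∣ r - 1 := Nat.ordProj_dvd _ _
    have hkle : k ≤ a.factorization q := by
      by_contra h
      push Not at h
      exact h1 ((pow_dvd_pow q h).trans hk1)
    have hk2 : q ^ k ∣ a * N :=
      ((pow_dvd_pow q hkle).trans (Nat.ordProj_dvd a q)).trans (Dvd.intro _ rfl)
    have hk3 : q ^ k ∣ Nat.gcd (r - 1) (a * N) := Nat.dvd_gcd hk1 hk2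
    have hk4 : q ^ (k + 1) ∣ r - 1 := by
      rw [pow_succ]
      exact (Nat.mul_dvd_mul_right hk3 q).trans hmul
    exact Nat.pow_succ_factorization_not_dvd hrpos.ne' hq hk4
  by_cases hqW : q ≤ W
  · exact absurd (dvd_of_dvd_ar a q hq (hrl q hq hqW hqr1)) hna
  · push Not at hqW
    refine ⟨?_, hqW⟩
    intro h
    exact absurd (hW q hq h) (by omega)

open Classical in
theorem t_Gd : S_Gd := by
  constructor
  · intro a N R W b r ha _ _ hW hb hb2 hr
    unfold RA at hr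
    rw [Finset.mem_filter, Finset.mem_Ioc] at hr
    obtain ⟨⟨hr1, hr2⟩, hr3, hr4, hr5⟩ := hr
    have hk := key a N W b r ha hW hb hb2 hr3 hr4 hr5
    refine ⟨hr3, by omega, hr2, ?_, ?_⟩
    · exact Nat.coprime_of_dvd (fun q hq h1 => (hk q hq h1).1)
    · intro q hq h1
      exact (hk q hq h1).2
  · intro a ha
    have ha0 : a ≠ 0 := by omega
    have hle : ∏ q ∈ a.primeFactors, q ≤ a :=
      Nat.le_of_dvd (by omega) (Nat.prod_primeFactors_dvd a)
    have h2 : 2 ≤ ∏ q ∈ a.primeFactors, q := by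
      obtain ⟨p, hp, hpa⟩ := Nat.exists_prime_and_dvd (n := a) (by omega)
      have h3 : p ∣ ∏ q ∈ a.primeFactors, q :=
        Finset.dvd_prod_of_mem (fun q => q) (Nat.mem_primeFactors.2 ⟨hp, hpa, ha0⟩)
      have h4 : 0 < ∏ q ∈ a.primeFactors, q :=
        Finset.prod_pos (fun q hq => (Nat.prime_of_mem_primeFactors hq).pos)
      exact hp.two_le.trans (Nat.le_of_dvd h4 h3)
    have h4 : 4 ≤ ar a := by
      unfold ar
      nlinarith
    refine ⟨by omega, ?_, ?_, ?_⟩
    · have h5 : ar a = (ar a - 1) + 1 := by omega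
      rw [h5, Nat.add_sub_cancel]
      exact Nat.coprime_self_add_right.2 (Nat.coprime_one_right _)
    · have h5 : ar a ≤ a ^ 2 := by
        unfold ar
        rw [sq]
        exact Nat.mul_le_mul_left a hle
      exact_mod_cast h5
    · intro q hq hqa h5
      have h6 := pow_dvd_ar a q ha0 hq hqa
      have h7 := Nat.dvd_sub h6 h5
      have h8 : ar a - (ar a - 1 - 1) = 2 := by omega
      rw [h8] at h7
      have h9 := Nat.le_of_dvd (by norm_num) h7
      have h10 : 1 ≤ a.factorization q := by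
        exact (hq.dvd_iff_one_le_factorization ha0).1 hqa
      have h11 : q ^ 2 ≤ q ^ (a.factorization q + 1) :=
        Nat.pow_le_pow_right hq.pos (by omega)
      have h12 := hq.two_le
      nlinarith

end Pool.Agent.Lib.MP_a260de_nt.CN
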