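import Pool.Agent.Lib.MP_a260de_nt.CN.SpecM

/-!
# MP_a260de_nt, project CN, part M: `S_Lid` (size of `li R - li (R/2)`)
-/

set_option autoImplicit false

namespace Pool.Agent.Lib.MP_a260de_nt.CN

open Finset
open Pool.Agent.Lib.BV (prim BnfStmt EsyStmt ExtStmt MsbStmt LsmStmt)
open Pool.Agent.Results.MP_00e23e_nt (li maxErr)

private theorem Lid_int (a b : ℝ) (ha : 2 ≤ a) (hb : 2 ≤ b) :
    IntervalIntegrable (fun t => (Real.log t)⁻¹) MeasureTheory.volume a b := by
  apply ContinuousOn.intervalIntegrable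
  intro t ht
  have ht2 : 2 ≤ t := (le_min ha hb).trans ht.1
  apply ContinuousAt.continuousWithinAt
  apply ContinuousAt.inv₀
  · exact Real.continuousAt_log (by linarith)
  · exact (Real.log_pos (by linarith)).ne'

private theorem Lid_sub {a b : ℝ} (ha : 2 ≤ a) (hab : a ≤ b) :
    (b - a) / Real.log b ≤ li b - li a ∧ li b - li a ≤ 2 * (b - a) := by
  have hb : 2 ≤ b := ha.trans hab
  have h1 : li b - li a = ∫ t in a..b, (Real.log t)⁻¹ := by
    unfold li
    rw [intervalIntegral.integral_interval_sub_left (Lid_int 2 b le_rfl hb)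
      (Lid_int 2 a le_rfl ha)]
  rw [h1]
  constructor
  · have h2 : ∫ _ in a..b, (Real.log b)⁻¹ ≤ ∫ t in a..b, (Real.log t)⁻¹ := by
      refine intervalIntegral.integral_mono_on hab (by simp) (Lid_int a b ha hb) ?_
      intro t ht
      have h3 : 0 < Real.log t := Real.log_pos (by linarith [ht.1])
      exact inv_anti₀ h3 (Real.log_le_log (by linarith [ht.1]) ht.2)
    rw [intervalIntegral.integral_const, smul_eq_mul] at h2
    rw [div_eq_mul_inv]
    exact h2
  · have h := intervalIntegral.norm_integral_le_of_norm_le_const (a := a) (b := b)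
      (f := fun t => (Real.log t)⁻¹) (C := 2) (by
        intro t ht
        rw [Set.uIoc_of_le hab] at ht
        have h1 : Real.log 2 ≤ Real.log t := Real.log_le_log (by norm_num) (by linarith [ht.1])
        have h2 : (0.5 : ℝ) < Real.log 2 := by
          have := Real.log_two_gt_d9
          linarith
        rw [Real.norm_eq_abs, abs_of_nonneg (inv_nonneg.mpr (by linarith))]
        rw [show (2 : ℝ) = (0.5)⁻¹ by norm_num]
        exact inv_anti₀ (by norm_num) (by linarith))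
    rw [abs_of_nonneg (by linarith)] at h
    exact (le_abs_self _).trans h

/-- Size of `li R - li (R/2)`. -/
theorem t_Lid : S_Lid := by
  intro δ hδ hδ1
  refine ⟨3, fun y hy => ?_⟩
  have hy3 : (3 : ℝ) ≤ (y : ℝ) := by exact_mod_cast hy
  have hy1 : (1 : ℝ) ≤ (y : ℝ) := by linarith
  have hpow : (3 : ℝ) ≤ (y : ℝ) ^ (1 + δ) := by
    refine hy3.trans ?_
    calc (y : ℝ) = (y : ℝ) ^ (1 : ℝ) := (Real.rpow_one _).symm
      _ ≤ (y : ℝ) ^ (1 + δ) := Real.rpow_le_rpow_of_exponent_le hy1 (by linarith)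
  have hpow2 : (y : ℝ) ^ (1 + δ) ≤ (y : ℝ) ^ (2 : ℝ) :=
    Real.rpow_le_rpow_of_exponent_le hy1 (by linarith)
  have hR4 : 4 ≤ RR y δ := by
    unfold RR
    refine Nat.le_floor ?_
    have := Real.add_one_le_exp ((y : ℝ) ^ (1 + δ))
    push_cast
    linarith
  have hRle : (RR y δ : ℝ) ≤ Real.exp ((y : ℝ) ^ (1 + δ)) := Nat.floor_le (Real.exp_pos _).le
  have hRpos : (0 : ℝ) < RR y δ := by
    have : (4 : ℝ) ≤ (RR y δ : ℝ) := by exact_mod_cast hR4
    linarith
  have hlog : Real.log (RR y δ) ≤ (y : ℝ) ^ (2 : ℝ) := by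
    refine le_trans ?_ hpow2
    calc Real.log (RR y δ) ≤ Real.log (Real.exp ((y : ℝ) ^ (1 + δ))) :=
          Real.log_le_log hRpos hRle
      _ = _ := Real.log_exp _
  have hlogpos : 0 < Real.log (RR y δ) := Real.log_pos (by
    have : (4 : ℝ) ≤ (RR y δ : ℝ) := by exact_mod_cast hR4
    linarith)
  have hn2 : 2 ≤ RR y δ / 2 := by omega
  have hn2' : (2 : ℝ) ≤ ((RR y δ / 2 : ℕ) : ℝ) := by exact_mod_cast hn2
  have hhalf : ((RR y δ / 2 : ℕ) : ℝ) ≤ (RR y δ : ℝ) / 2 := by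
    have := @Nat.cast_div_le ℝ _ _ _ (RR y δ) 2
    exact_mod_cast this
  obtain ⟨h1, h2⟩ := Lid_sub (a := ((RR y δ / 2 : ℕ) : ℝ)) (b := (RR y δ : ℝ)) hn2' (by linarith)
  constructor
  · refine le_trans ?_ h1
    rw [div_le_div_iff₀ (by positivity) hlogpos]
    have h3 : (RR y δ : ℝ) / 2 ≤ (RR y δ : ℝ) - ((RR y δ / 2 : ℕ) : ℝ) := by linarith
    have h4 : (0 : ℝ) ≤ (y : ℝ) ^ (2 : ℝ) := by positivity
    calc (RR y δ : ℝ) * Real.log (RR y δ) ≤ (RR y δ : ℝ) * (y : ℝ) ^ (2 : ℝ) :=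
          mul_le_mul_of_nonneg_left hlog hRpos.le
      _ = (RR y δ : ℝ) / 2 * (2 * (y : ℝ) ^ (2 : ℝ)) := by ring
      _ ≤ _ := mul_le_mul_of_nonneg_right h3 (by positivity)
  · linarith

end Pool.Agent.Lib.MP_a260de_nt.CN
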