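import Pool.Agent.Lib.MP_a260de_nt.CN.SpecM

/-!
MP_a260de_nt, PROJECT CN, module M_Lift (helper74).
-/

set_option autoImplicit false

namespace Pool.Agent.Lib.MP_a260de_nt.CN

open Finset

theorem t_Lift : S_Lift := by
  classical
  intro a c ha hc
  rcases Nat.lt_or_ge a 2 with ha2 | ha2
  · have ha1 : a = 1 := by omega
    subst ha1
    refine ⟨1, le_refl _, Nat.coprime_one_left _, Nat.modEq_one, fun q hq hq1 => ?_⟩
    exact absurd (Nat.dvd_one.1 hq1) hq.one_lt.ne'
  have hc1 : 1 ≤ c := by
    rcases Nat.eq_zero_or_pos c with h | h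
    · subst h
      rw [Nat.coprime_zero_left] at hc
      omega
    · exact h
  set T : Finset ℕ := a.primeFactors.filter (fun q => ¬ q ^ (a.factorization q + 1) ∣ c - 1) with hT
  set j : ℕ := ∏ q ∈ T, q with hj
  set P : ℕ := ∏ q ∈ a.primeFactors, q with hP
  have ha0 : a ≠ 0 := by omega
  have hTp : ∀ q ∈ T, q.Prime := fun q hq => Nat.prime_of_mem_primeFactors (mem_filter.1 hq).1
  have hj0 : j ≠ 0 := Finset.prod_ne_zero_iff.2 (fun q hq => (hTp q hq).ne_zero)
  have hP0 : P ≠ 0 := Finset.prod_ne_zero_iff.2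
    (fun q hq => (Nat.prime_of_mem_primeFactors hq).ne_zero)
  have hbcop : Nat.Coprime (c + a * (j + P)) a := by
    have := (Nat.coprime_add_mul_left_left c a (j + P)).2 hc
    exact this
  refine ⟨c + a * (j + P), by omega, ?_, ?_, ?_⟩
  · refine Nat.Coprime.mul_right hbcop (Nat.Coprime.prod_right (fun q hq => ?_))
    exact hbcop.coprime_dvd_right (Nat.dvd_of_mem_primeFactors hq)
  · unfold Nat.ModEq
    exact Nat.add_mul_mod_self_left c a (j + P)
  · intro q hq hqa hdiv
    have hqm : q ∈ a.primeFactors := Nat.mem_primeFactors.2 ⟨hq, hqa, ha0⟩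
    have e1 : c + a * (j + P) - 1 = (c - 1) + a * j + a * P := by
      rw [mul_add]
      omega
    rw [e1] at hdiv
    have hqP : q ∣ P := Finset.dvd_prod_of_mem _ hqm
    have hv : q ^ a.factorization q ∣ a := Nat.ordProj_dvd a q
    have h1 : q ^ (a.factorization q + 1) ∣ a * P := by
      rw [pow_succ]
      exact mul_dvd_mul hv hqP
    have h2 : q ^ (a.factorization q + 1) ∣ (c - 1) + a * j := (Nat.dvd_add_left h1).1 hdiv
    by_cases hqT : q ∈ T
    · have hqj : q ∣ j := Finset.dvd_prod_of_mem _ hqT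
      have h3 : q ^ (a.factorization q + 1) ∣ a * j := by
        rw [pow_succ]
        exact mul_dvd_mul hv hqj
      exact (mem_filter.1 hqT).2 ((Nat.dvd_add_left h3).1 h2)
    · have h4 : q ^ (a.factorization q + 1) ∣ c - 1 := by
        by_contra h
        exact hqT (mem_filter.2 ⟨hqm, h⟩)
      have h5 : q ^ (a.factorization q + 1) ∣ a * j := (Nat.dvd_add_right h4).1 h2
      have hqj : ¬ q ∣ j := by
        intro h
        rw [hj, hq.prime.dvd_finsetProd_iff] at h
        obtain ⟨l, hl, hql⟩ := h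
        rw [Nat.prime_dvd_prime_iff_eq hq (hTp l hl)] at hql
        subst hql
        exact hqT hl
      have h6 := (hq.pow_dvd_iff_le_factorization (mul_ne_zero ha0 hj0)).1 h5
      rw [Nat.factorization_mul ha0 hj0, Finsupp.add_apply, Nat.factorization_eq_zero_of_not_dvd hqj]
        at h6
      omega

end Pool.Agent.Lib.MP_a260de_nt.CN
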