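import Pool.Agent.Lib.MP_a260de_nt.CN.SpecM

/-!
# MP_a260de_nt, project CN, part MainM: assembly of parts B and M
-/

set_option autoImplicit false

namespace Pool.Agent.Lib.MP_a260de_nt.CN

open Finset
open Pool.Agent.Lib.BV (prim BnfStmt EsyStmt ExtStmt MsbStmt LsmStmt)
open Pool.Agent.Results.MP_00e23e_nt (li maxErr)

private lemma four_le (y : ℕ) : (4 : ℝ) ^ (y : ℝ) ≤ Real.exp ((3 / 2 : ℝ) * y) := by
  rw [Real.rpow_def_of_pos (by norm_num : (0 : ℝ) < 4)]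
  apply Real.exp_le_exp.2
  have h1 : Real.log 4 ≤ 3 / 2 := by
    have h2 : (4 : ℝ) = 2 ^ 2 := by norm_num
    rw [h2, Real.log_pow]
    have := Real.log_two_lt_d9
    push_cast
    linarith
  exact mul_le_mul_of_nonneg_right h1 (Nat.cast_nonneg y)

private lemma big (C ε δ s : ℝ) (hC : 1 ≤ C) (hε : 0 < ε) (hδ : 0 < δ) (hs : 0 ≤ s) :
    ∃ y0 : ℕ, ∀ y : ℕ, y0 ≤ y → 10 ≤ y ∧
      ((y : ℝ) ^ C) ^ (8 * ε) * 4 ^ (y : ℝ) ≤ Real.exp (2 * y) ∧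
      2 ≤ ((y : ℝ) ^ C) ^ ε ∧ 30 * (4 : ℝ) ^ (y : ℝ) * (y : ℝ) ^ s ≤ (RR y δ : ℝ) := by
  have t : Filter.Tendsto (fun y : ℕ => (y : ℝ)) Filter.atTop Filter.atTop :=
    tendsto_natCast_atTop_atTop
  have e1 : ∀ᶠ y : ℕ in Filter.atTop, (y : ℝ) ^ (C * (8 * ε)) ≤ Real.exp ((1 / 2 : ℝ) * y) := by
    have h := (isLittleO_rpow_exp_pos_mul_atTop (C * (8 * ε)) (b := 1 / 2) (by norm_num)).bound
      (c := 1) (by norm_num)
    have h' := t.eventually h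
    filter_upwards [h'] with y hy
    have h2 : ‖(y : ℝ) ^ (C * (8 * ε))‖ = (y : ℝ) ^ (C * (8 * ε)) :=
      Real.norm_of_nonneg (Real.rpow_nonneg (Nat.cast_nonneg y) _)
    rw [h2, one_mul, Real.norm_of_nonneg (Real.exp_pos _).le] at hy
    exact hy
  have e2 : ∀ᶠ y : ℕ in Filter.atTop, (y : ℝ) ^ s ≤ (1 / 31) * Real.exp ((1 : ℝ) * y) := by
    have h := (isLittleO_rpow_exp_pos_mul_atTop s (b := 1) (by norm_num)).bound
      (c := 1 / 31) (by norm_num)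
    have h' := t.eventually h
    filter_upwards [h'] with y hy
    have h2 : ‖(y : ℝ) ^ s‖ = (y : ℝ) ^ s :=
      Real.norm_of_nonneg (Real.rpow_nonneg (Nat.cast_nonneg y) _)
    rw [h2, Real.norm_of_nonneg (Real.exp_pos _).le] at hy
    exact hy
  have e3 : ∀ᶠ y : ℕ in Filter.atTop, 2 ≤ (y : ℝ) ^ (C * ε) :=
    t.eventually ((tendsto_rpow_atTop (by positivity : 0 < C * ε)).eventually_ge_atTop 2)
  have e4 : ∀ᶠ y : ℕ in Filter.atTop, 3 ≤ (y : ℝ) ^ δ :=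
    t.eventually ((tendsto_rpow_atTop hδ).eventually_ge_atTop 3)
  obtain ⟨y0, hy0⟩ := Filter.eventually_atTop.1 (e1.and (e2.and (e3.and e4)))
  refine ⟨max y0 10, fun y hy => ?_⟩
  obtain ⟨f1, f2, f3, f4⟩ := hy0 y (le_trans (le_max_left _ _) hy)
  have hy10 : 10 ≤ y := le_trans (le_max_right _ _) hy
  have hyR : (10 : ℝ) ≤ y := by exact_mod_cast hy10
  have hyp : (0 : ℝ) < y := by linarith
  refine ⟨hy10, ?_, ?_, ?_⟩
  · rw [← Real.rpow_mul hyp.le]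
    calc (y : ℝ) ^ (C * (8 * ε)) * 4 ^ (y : ℝ)
        ≤ Real.exp ((1 / 2 : ℝ) * y) * Real.exp ((3 / 2 : ℝ) * y) :=
          mul_le_mul f1 (four_le y) (by positivity) (Real.exp_pos _).le
      _ = Real.exp (2 * y) := by
          rw [← Real.exp_add]
          congr 1
          ring
  · rw [← Real.rpow_mul hyp.le]
    exact f3
  · have g1 : (3 : ℝ) * y ≤ (y : ℝ) ^ (1 + δ) := by
      rw [Real.rpow_add hyp, Real.rpow_one]
      nlinarith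
    have g2 : Real.exp (3 * y) ≤ Real.exp ((y : ℝ) ^ (1 + δ)) := Real.exp_le_exp.2 g1
    have g3 : Real.exp ((y : ℝ) ^ (1 + δ)) - 1 ≤ (RR y δ : ℝ) := by
      unfold RR
      have := Nat.lt_floor_add_one (Real.exp ((y : ℝ) ^ (1 + δ)))
      linarith
    have g4 : (1 : ℝ) ≤ 4 ^ (y : ℝ) := Real.one_le_rpow (by norm_num) hyp.le
    have g5 : (1 : ℝ) ≤ (y : ℝ) ^ s := Real.one_le_rpow (by linarith) hs
    have g6 : (1 : ℝ) ≤ 4 ^ (y : ℝ) * (y : ℝ) ^ s := by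
      calc (1 : ℝ) = 1 * 1 := by norm_num
        _ ≤ _ := mul_le_mul g4 g5 (by norm_num) (by positivity)
    have g7 : (4 : ℝ) ^ (y : ℝ) * (y : ℝ) ^ s ≤
        Real.exp ((3 / 2 : ℝ) * y) * ((1 / 31) * Real.exp ((1 : ℝ) * y)) :=
      mul_le_mul (four_le y) f2 (by positivity) (Real.exp_pos _).le
    have g8 : Real.exp ((3 / 2 : ℝ) * y) * ((1 / 31) * Real.exp ((1 : ℝ) * y)) ≤
        (1 / 31) * Real.exp (3 * y) := by
      have : Real.exp ((3 / 2 : ℝ) * y) * Real.exp ((1 : ℝ) * y) ≤ Real.exp (3 * y) := by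
        rw [← Real.exp_add]
        apply Real.exp_le_exp.2
        linarith
      linarith
    linarith

private lemma ra_prop {R W m b r : ℕ} (hr : r ∈ RA R W m b) :
    R / 2 < r ∧ r ≤ R ∧ r.Prime ∧ r ≡ b [MOD m] ∧
      ∀ l : ℕ, l.Prime → l ≤ W → l ∣ r - 1 → l ∣ m := by
  unfold RA at hr
  simp only [mem_filter, mem_Ioc] at hr
  exact ⟨hr.1.1, hr.1.2, hr.2.1, hr.2.2.1, hr.2.2.2⟩

private lemma cop_ar {a n : ℕ} (h : n.Coprime a) : n.Coprime (ar a) := by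
  unfold ar
  refine Nat.Coprime.mul_right h ?_
  refine Nat.Coprime.prod_right fun q hq => ?_
  exact Nat.Coprime.coprime_dvd_right (Nat.dvd_of_mem_primeFactors hq) h

/-- elements of `RA` against `N` -/
private lemma ra_cop {R W m b r N y : ℕ} (hr : r ∈ RA R W m b) (hR : 2 * y + 2 ≤ R) (hyW : y ≤ W)
    (hNm : N.Coprime m) (hN : ∀ l : ℕ, l.Prime → l ∣ N → l ≤ y) :
    1 ≤ r ∧ r.Coprime N ∧ (r - 1).Coprime N := by
  obtain ⟨h1, h2, h3, h4, h5⟩ := ra_prop hr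
  have hyr : y < r := by omega
  refine ⟨h3.one_lt.le, ?_, ?_⟩
  · rw [Nat.Prime.coprime_iff_not_dvd h3]
    intro h
    have := hN r h3 h
    omega
  · refine Nat.Coprime.symm ?_
    refine Nat.coprime_of_dvd fun l hl hlN hlr => ?_
    have h6 : l ∣ m := h5 l hl ((hN l hl hlN).trans hyW) hlr
    have h7 := Nat.Coprime.eq_one_of_dvd (Nat.Coprime.coprime_dvd_left hlN hNm) h6
    exact hl.one_lt.ne' h7

theorem t_MainM (hPg : S_Pg) (hTh : S_Ths) (hC : S_Cls) (hR : S_Rep) (hL : S_Lift) (hG : S_Gd) :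
    S_MainM := by
  classical
  intro C hC2
  refine ⟨2, by norm_num, ?_⟩
  intro ε δ K hε hδ hδ1 hK
  obtain ⟨yP, hP⟩ := hPg C ε (by linarith) hε
  obtain ⟨A₀, hA₀⟩ : ∃ A₀ : ℝ, A₀ = 16 * C * ε + 1 := ⟨_, rfl⟩
  have hA₀p : 0 < A₀ := by rw [hA₀]; positivity
  obtain ⟨A₃, A₅, hA₃, hA₅, ⟨B₁', hB₁', hBA, yT1, hT1⟩, yT, hT⟩ :=
    hTh C δ K A₀ ε (by linarith) hδ hδ1 hK hA₀p hε
  obtain ⟨B₁, hB₁, hCl'⟩ := hC
  obtain ⟨yC, hCl⟩ := hCl' δ K A₀ (B₁ + A₀ + 3 * A₃) hδ hδ1 (by linarith) hA₀p (by linarith)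
  obtain ⟨yE, hE⟩ := big C ε δ (B₁' + A₀) (by linarith) hε hδ (by linarith)
  refine ⟨3 * (B₁ + A₀) + 1, max yP (max yT1 (max yT (max yC yE))), by positivity, ?_⟩
  intro y S0 hy hS0 hcard
  have hyP : yP ≤ y := le_trans (le_max_left _ _) hy
  have hy2 := le_trans (le_max_right _ _) hy
  have hyT1 : yT1 ≤ y := le_trans (le_max_left _ _) hy2
  have hy3 := le_trans (le_max_right _ _) hy2
  have hyT : yT ≤ y := le_trans (le_max_left _ _) hy3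
  have hy4 := le_trans (le_max_right _ _) hy3
  have hyC : yC ≤ y := le_trans (le_max_left _ _) hy4
  have hyE : yE ≤ y := le_trans (le_max_right _ _) hy4
  obtain ⟨hy10, hE1, hE2, hE3⟩ := hE y hyE
  have hyR : (10 : ℝ) ≤ y := by exact_mod_cast hy10
  have hyp : (0 : ℝ) < y := by linarith
  have hy1 : (1 : ℝ) ≤ y := by linarith
  have hz0 : (0 : ℝ) < (y : ℝ) ^ C := Real.rpow_pos_of_pos hyp _
  obtain ⟨a, S', ha1, ha2, haz, hasm, hS'S, hS'c, hS'p⟩ := hP y S0 hyP hS0 hcard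
  have ha2' : 2 ≤ a := Nat.le_of_dvd ha1 ha2
  obtain ⟨hG1, hG2⟩ := hG
  obtain ⟨har1, harc, har2, harv⟩ := hG2 a ha2'
  have hm1 : 1 ≤ ar a := by omega
  have hadvd : a ∣ ar a := by unfold ar; exact Dvd.intro _ rfl
  have hm2 : 2 ∣ ar a := ha2.trans hadvd
  have hmA : ((ar a : ℕ) : ℝ) ≤ (y : ℝ) ^ A₀ := by
    refine har2.trans ?_
    have h1 : (a : ℝ) ^ 2 ≤ (((y : ℝ) ^ C) ^ (8 * ε)) ^ 2 := by gcongr
    refine h1.trans ?_
    rw [← Real.rpow_mul hyp.le, ← Real.rpow_natCast, ← Real.rpow_mul hyp.le]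
    apply Real.rpow_le_rpow_of_exponent_le hy1
    rw [hA₀]
    push_cast
    linarith
  -- the numbers (p-1)/a
  have hSne : S'.Nonempty := by
    rw [← card_pos]
    have : (0 : ℝ) < (S'.card : ℝ) := lt_of_lt_of_le (Real.rpow_pos_of_pos hz0 _) hS'c
    exact_mod_cast this
  have hh : ∀ p ∈ S', 1 ≤ (p - 1) / a ∧ (((p - 1) / a : ℕ) : ℝ) ≤ (y : ℝ) ^ C ∧
      Squarefree ((p - 1) / a) ∧ ((p - 1) / a).Coprime (ar a) ∧
        ∀ q : ℕ, q.Prime → q ∣ (p - 1) / a → 200 ≤ q ∧ q ≤ y := by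
    intro p hp
    obtain ⟨q1, q2, q3, q4⟩ := hS'p p hp
    obtain ⟨p1, p2, p3, p4⟩ := hS0 p (hS'S hp)
    have hp1 : 0 < p - 1 := by have := p1.one_lt; omega
    refine ⟨Nat.div_pos (Nat.le_of_dvd hp1 q1) ha1, ?_, q2, cop_ar q3, ?_⟩
    · refine le_trans ?_ p3
      have : (p - 1) / a ≤ p := (Nat.div_le_self _ _).trans (Nat.sub_le _ _)
      exact_mod_cast this
    · intro q hq hqd
      exact ⟨q4 q hq hqd, p4 q hq (hqd.trans (Nat.div_dvd_of_dvd q1))⟩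
  obtain ⟨N, hNs, hNm, hN4, hNl, hNc, hNb⟩ :=
    hT y (ar a) S' (fun p => (p - 1) / a) hyT hm1 hm2 hmA hSne hh
  have hN1 : 1 ≤ N := Nat.one_le_iff_ne_zero.2 hNs.ne_zero
  have haN : a.Coprime N := (Nat.Coprime.coprime_dvd_right hadvd hNm).symm
  have hsm : Smooth y (a * N) := by
    intro q hq hqd
    rcases (Nat.Prime.dvd_mul hq).1 hqd with h | h
    · exact hasm q hq h
    · exact (hNl q hq h).2
  refine ⟨a * N, S'.filter (fun p => (p - 1) / a ∣ N), Nat.mul_pos ha1 hN1, ?_, hsm,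
    (filter_subset _ _).trans hS'S, ?_, ?_, ?_⟩
  · push_cast
    refine le_trans ?_ hE1
    exact mul_le_mul haz hN4 (Nat.cast_nonneg _) (by positivity)
  · intro p hp
    rw [mem_filter] at hp
    obtain ⟨q1, -⟩ := hS'p p hp.1
    calc p - 1 = a * ((p - 1) / a) := (Nat.mul_div_cancel' q1).symm
      _ ∣ a * N := Nat.mul_dvd_mul_left a hp.2
  · refine le_trans ?_ hNc
    have h1 : ((y : ℝ) ^ C) ^ (1 - 12 * ε) * ((y : ℝ) ^ C) ^ ε =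
        ((y : ℝ) ^ C) ^ (-ε) * ((y : ℝ) ^ C) ^ (1 - 10 * ε) := by
      rw [← Real.rpow_add hz0, ← Real.rpow_add hz0]
      congr 1
      ring
    have h2 : 0 < ((y : ℝ) ^ C) ^ (1 - 12 * ε) := Real.rpow_pos_of_pos hz0 _
    have h3 : 0 < ((y : ℝ) ^ C) ^ (-ε) := Real.rpow_pos_of_pos hz0 _
    have h4 : ((y : ℝ) ^ C) ^ (1 - 12 * ε) * 2 ≤
        ((y : ℝ) ^ C) ^ (1 - 12 * ε) * ((y : ℝ) ^ C) ^ ε :=
      mul_le_mul_of_nonneg_left hE2 h2.le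
    have h5 : ((y : ℝ) ^ C) ^ (-ε) * ((y : ℝ) ^ C) ^ (1 - 10 * ε) ≤
        ((y : ℝ) ^ C) ^ (-ε) * (S'.card : ℝ) := mul_le_mul_of_nonneg_left hS'c h3.le
    linarith
  -- the triples
  intro c hc
  have hca : c.Coprime a := Nat.Coprime.coprime_mul_right_right hc
  have hcN : c.Coprime N := Nat.Coprime.coprime_mul_left_right hc
  obtain ⟨b, hb1, hbc, hba, hbv⟩ := hL a c ha1 hca
  have hRbig : 30 * (4 : ℝ) ^ (y : ℝ) ≤ (RR y δ : ℝ) := by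
    refine le_trans ?_ hE3
    have g5 : (1 : ℝ) ≤ (y : ℝ) ^ (B₁' + A₀) := Real.one_le_rpow hy1 (by linarith)
    have : (0 : ℝ) ≤ 30 * (4 : ℝ) ^ (y : ℝ) := by positivity
    nlinarith
  have hy4 : ((y : ℝ) + 1) ≤ (4 : ℝ) ^ (y : ℝ) := by
    rw [Real.rpow_natCast]
    have : y + 1 ≤ 4 ^ y := Nat.lt_pow_self (by norm_num)
    exact_mod_cast this
  have hRy : 2 * y + 2 ≤ RR y δ := by
    have : (2 : ℝ) * y + 2 ≤ (RR y δ : ℝ) := by linarith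
    exact_mod_cast this
  have hRpos : (0 : ℝ) < (RR y δ : ℝ) := by
    have : 0 < RR y δ := by omega
    exact_mod_cast this
  have hyW : y ≤ WW y K := by
    unfold WW
    apply Nat.le_floor
    have h1 : (y : ℝ) + 1 ≤ Real.exp y := Real.add_one_le_exp _
    have h2 : Real.exp y ≤ Real.exp (K * y) := by
      apply Real.exp_le_exp.2
      nlinarith
    linarith
  have hlW : ∀ l : ℕ, l.Prime → l ∣ a * N → l ≤ WW y K := fun l hl h => (hsm l hl h).trans hyW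
  have hNl' : ∀ l : ℕ, l.Prime → l ∣ N → l ≤ y := fun l hl h => (hNl l hl h).2
  -- cardinalities
  obtain ⟨c1, k1⟩ := hCl y (ar a) b hyC hm1 hm2 hmA hbc
  obtain ⟨c2, k2⟩ := hCl y (ar a) (ar a - 1) hyC hm1 hm2 hmA harc
  have c3 := hT1 y (ar a) (ar a - 1) hyT1 hm1 hm2 hmA harc
  set R : ℕ := RR y δ with hRdef
  set W : ℕ := WW y K with hWdef
  set S₁ : Finset ℕ := RA R W (ar a) b with hS₁
  set S₂ : Finset ℕ := RA R W (ar a) (ar a - 1) with hS₂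
  have hpB : (0 : ℝ) < (y : ℝ) ^ (B₁ + A₀) := Real.rpow_pos_of_pos hyp _
  have hpB' : (0 : ℝ) < (y : ℝ) ^ (B₁' + A₀) := Real.rpow_pos_of_pos hyp _
  have hcls : ∀ b' : ℕ, (R : ℝ) / (y : ℝ) ^ (B₁ + A₀) ≤ ((RA R W (ar a) b').card : ℝ) →
      (∀ f c : ℕ, Squarefree f → f.Coprime (ar a) → (f : ℝ) ≤ (y : ℝ) ^ (B₁ + A₀ + 3 * A₃) →
        1 ≤ c → c.Coprime f → (c - 1).Coprime f →
        |(((RA R W (ar a) b').filter fun r => r ≡ c [MOD f]).card : ℝ) -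
          ((RA R W (ar a) b').card : ℝ) / gg f| ≤ (R : ℝ) / (y : ℝ) ^ (B₁ + A₀ + 3 * A₃)) →
      ∀ f c : ℕ, f ∣ N → f ≤ ⌊(y : ℝ) ^ A₃⌋₊ → 1 ≤ c → c.Coprime f → (c - 1).Coprime f →
        |(((RA R W (ar a) b').filter fun r => r ≡ c [MOD f]).card : ℝ) -
          ((RA R W (ar a) b').card : ℝ) / gg f| ≤
          (y : ℝ) ^ (-(3 * A₃)) * ((RA R W (ar a) b').card : ℝ) := by
    intro b' hcb hkb f c' hf hfB hc1 hc2 hc3
    have hfA : (f : ℝ) ≤ (y : ℝ) ^ A₃ :=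
      le_trans (by exact_mod_cast hfB) (Nat.floor_le (Real.rpow_nonneg hyp.le _))
    have hfA' : (f : ℝ) ≤ (y : ℝ) ^ (B₁ + A₀ + 3 * A₃) :=
      hfA.trans (Real.rpow_le_rpow_of_exponent_le hy1 (by linarith))
    refine (hkb f c' (hNs.squarefree_of_dvd hf) (Nat.Coprime.coprime_dvd_left hf hNm) hfA'
      hc1 hc2 hc3).trans ?_
    have h1 : (R : ℝ) / (y : ℝ) ^ (B₁ + A₀ + 3 * A₃) =
        (y : ℝ) ^ (-(3 * A₃)) * ((R : ℝ) / (y : ℝ) ^ (B₁ + A₀)) := by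
      rw [Real.rpow_add hyp (B₁ + A₀) (3 * A₃), Real.rpow_neg hyp.le]
      have := Real.rpow_pos_of_pos hyp (3 * A₃)
      field_simp
    rw [h1]
    exact mul_le_mul_of_nonneg_left hcb (Real.rpow_nonneg hyp.le _)
  have hNR : (N : ℝ) ≤ (R : ℝ) := by
    have h1 : (0 : ℝ) < (4 : ℝ) ^ (y : ℝ) := by positivity
    linarith
  have hrep := hR N R ⌊(y : ℝ) ^ A₃⌋₊ ((y : ℝ) ^ (-(3 * A₃))) ((y : ℝ) ^ (-A₅)) S₁ S₂ hNs
    (fun l hl h => (hNl l hl h).1)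
    (by
      intro r hr
      obtain ⟨h1, h2, h3, -⟩ := ra_prop hr
      rw [mem_Icc]
      exact ⟨h3.one_lt.le, h2⟩)
    (fun r hr => ra_cop hr hRy hyW hNm hNl')
    (fun r hr => ra_cop hr hRy hyW hNm hNl')
    (by exact_mod_cast hNR)
    (by
      apply Nat.le_floor
      push_cast
      exact Real.one_le_rpow hy1 (by linarith))
    (Real.rpow_nonneg hyp.le _) (Real.rpow_nonneg hyp.le _)
    (by
      intro S hS f c' hf hfB hc1 hc2 hc3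
      rcases hS with rfl | rfl
      · exact hcls b c1 k1 f c' hf hfB hc1 hc2 hc3
      · exact hcls (ar a - 1) c2 k2 f c' hf hfB hc1 hc2 hc3)
    (by
      intro f hf hfB χ hχ
      exact hNb b f hbc hf (Nat.lt_of_floor_lt hfB) χ hχ)
    (by
      have h1 : ((⌊(y : ℝ) ^ A₃⌋₊ : ℕ) : ℝ) ≤ (y : ℝ) ^ A₃ := Nat.floor_le (Real.rpow_nonneg hyp.le _)
      have h2 : ((⌊(y : ℝ) ^ A₃⌋₊ : ℕ) : ℝ) ^ 2 ≤ ((y : ℝ) ^ A₃) ^ 2 := by gcongr
      have h3 : ((y : ℝ) ^ A₃) ^ 2 * (y : ℝ) ^ (-(3 * A₃)) = (y : ℝ) ^ (-A₃) := by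
        rw [← Real.rpow_natCast, ← Real.rpow_mul hyp.le, ← Real.rpow_add hyp]
        congr 1
        push_cast
        ring
      have h4 : (y : ℝ) ^ (-A₃) ≤ (y : ℝ) ^ (-1 : ℝ) :=
        Real.rpow_le_rpow_of_exponent_le hy1 (by linarith)
      have h5 : (y : ℝ) ^ (-1 : ℝ) ≤ 1 / 10 := by
        rw [Real.rpow_neg_one, ← one_div]
        exact one_div_le_one_div_of_le (by norm_num) hyR
      have h6 : ((⌊(y : ℝ) ^ A₃⌋₊ : ℕ) : ℝ) ^ 2 * (y : ℝ) ^ (-(3 * A₃)) ≤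
          ((y : ℝ) ^ A₃) ^ 2 * (y : ℝ) ^ (-(3 * A₃)) :=
        mul_le_mul_of_nonneg_right h2 (Real.rpow_nonneg hyp.le _)
      linarith)
    (by
      refine le_trans ?_ c3
      rw [le_div_iff₀ hpB']
      have h1 : (y : ℝ) ^ (-A₅) * (y : ℝ) ^ (B₁' + A₀) ≤ (y : ℝ) ^ (-2 : ℝ) := by
        rw [← Real.rpow_add hyp]
        exact Real.rpow_le_rpow_of_exponent_le hy1 (by linarith)
      have h2 : (y : ℝ) ^ (-2 : ℝ) ≤ 1 / 100 := by
        rw [Real.rpow_neg hyp.le, ← one_div]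
        apply one_div_le_one_div_of_le (by norm_num)
        have : (y : ℝ) ^ (2 : ℝ) = (y : ℝ) ^ 2 := by
          rw [← Real.rpow_natCast]
          norm_num
        rw [this]
        nlinarith
      have h3 : (y : ℝ) ^ (-A₅) * (y : ℝ) ^ (B₁' + A₀) * R ≤ 1 / 100 * R :=
        mul_le_mul_of_nonneg_right (h1.trans h2) hRpos.le
      nlinarith)
    (by
      refine le_trans ?_ c3
      rw [le_div_iff₀ hpB']
      have h1 : (N.totient : ℝ) ≤ (4 : ℝ) ^ (y : ℝ) :=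
        le_trans (by exact_mod_cast Nat.totient_le N) hN4
      refine le_trans ?_ hE3
      gcongr) c hcN
  -- the triples are in trip
  have hsub : ((S₁ ×ˢ (S₂ ×ˢ S₂)).filter fun t => t.1 ≠ t.2.1 ∧ t.1 ≠ t.2.2 ∧ t.2.1 ≠ t.2.2 ∧
      t.1 * t.2.1 * t.2.2 ≡ c [MOD N]) ⊆ trip (a * N) R W c := by
    intro t ht
    simp only [mem_filter, mem_product] at ht
    obtain ⟨⟨m1, m2, m3⟩, n1, n2, n3, hmod⟩ := ht
    obtain ⟨p11, p12, p13, p14, -⟩ := ra_prop m1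
    obtain ⟨p21, p22, p23, p24, -⟩ := ra_prop m2
    obtain ⟨p31, p32, p33, p34, -⟩ := ra_prop m3
    have q1 : Good (a * N) R W t.1 := hG1 a N R W b t.1 ha2' hN1 haN hlW hb1 hbv m1
    have q2 : Good (a * N) R W t.2.1 := hG1 a N R W (ar a - 1) t.2.1 ha2' hN1 haN hlW har1 harv m2
    have q3 : Good (a * N) R W t.2.2 := hG1 a N R W (ar a - 1) t.2.2 ha2' hN1 haN hlW har1 harv m3
    have r1 : t.1 ≡ c [MOD a] := (Nat.ModEq.of_dvd hadvd p14).trans hba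
    have r2 : t.2.1 * t.2.2 ≡ 1 [MOD a] := by
      have h1 : t.2.1 * t.2.2 ≡ (ar a - 1) * (ar a - 1) [MOD a] :=
        Nat.ModEq.mul (Nat.ModEq.of_dvd hadvd p24) (Nat.ModEq.of_dvd hadvd p34)
      refine h1.trans ?_
      obtain ⟨x, hx⟩ : ∃ x, ar a = x + 2 := ⟨ar a - 2, by omega⟩
      have h2 : (ar a - 1) * (ar a - 1) = ar a * x + 1 := by
        rw [hx]
        have : x + 2 - 1 = x + 1 := by omega
        rw [this]
        ring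
      rw [h2]
      have h3 : ar a * x ≡ 0 [MOD a] := (Nat.modEq_zero_iff_dvd).2 (hadvd.mul_right x)
      simpa using h3.add_right 1
    have r3 : t.1 * t.2.1 * t.2.2 ≡ c [MOD a] := by
      have := r1.mul r2
      rw [mul_one, ← mul_assoc] at this
      exact this
    have r4 : t.1 * t.2.1 * t.2.2 ≡ c [MOD a * N] :=
      (Nat.modEq_and_modEq_iff_modEq_mul haN).1 ⟨r3, hmod⟩
    unfold trip
    simp only [mem_filter, mem_product, mem_Icc]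
    exact ⟨⟨⟨p13.one_lt.le, p12⟩, ⟨p23.one_lt.le, p22⟩, ⟨p33.one_lt.le, p32⟩⟩, q1, q2, q3,
      n1, n2, n3, r4⟩
  have hcardle : (((S₁ ×ˢ (S₂ ×ˢ S₂)).filter fun t => t.1 ≠ t.2.1 ∧ t.1 ≠ t.2.2 ∧ t.2.1 ≠ t.2.2 ∧
      t.1 * t.2.1 * t.2.2 ≡ c [MOD N]).card : ℝ) ≤ ((trip (a * N) R W c).card : ℝ) := by
    exact_mod_cast card_le_card hsub
  refine le_trans ?_ (hrep.trans hcardle)
  -- final inequality
  have hφ : (0 : ℝ) < (N.totient : ℝ) := by exact_mod_cast Nat.totient_pos.2 hN1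
  have hφN : (N.totient : ℝ) ≤ (N : ℝ) := by exact_mod_cast Nat.totient_le N
  have hNp : (0 : ℝ) < (N : ℝ) := by exact_mod_cast hN1
  have ha2R : (2 : ℝ) ≤ (a : ℝ) := by exact_mod_cast ha2'
  have hL0 : (0 : ℝ) < (R : ℝ) / (y : ℝ) ^ (B₁ + A₀) := by positivity
  have f1 : ((R : ℝ) / (y : ℝ) ^ (B₁ + A₀)) ^ 3 ≤ (S₁.card : ℝ) * (S₂.card : ℝ) ^ 2 := by
    have h1 : ((R : ℝ) / (y : ℝ) ^ (B₁ + A₀)) ^ 3 =
        ((R : ℝ) / (y : ℝ) ^ (B₁ + A₀)) * ((R : ℝ) / (y : ℝ) ^ (B₁ + A₀)) ^ 2 := by ring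
    rw [h1]
    gcongr
  have f2 : ((R : ℝ) / (y : ℝ) ^ (B₁ + A₀)) ^ 3 = (R : ℝ) ^ 3 / (y : ℝ) ^ (3 * (B₁ + A₀)) := by
    rw [div_pow]
    congr 1
    rw [← Real.rpow_natCast, ← Real.rpow_mul hyp.le]
    congr 1
    push_cast
    ring
  have f3 : (y : ℝ) ^ (3 * (B₁ + A₀)) ≤ (y : ℝ) ^ (3 * (B₁ + A₀) + 1) :=
    Real.rpow_le_rpow_of_exponent_le hy1 (by linarith)
  have f4 : (0 : ℝ) < (y : ℝ) ^ (3 * (B₁ + A₀)) := Real.rpow_pos_of_pos hyp _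
  calc (R : ℝ) ^ 3 / (((a * N : ℕ) : ℝ) * (y : ℝ) ^ (3 * (B₁ + A₀) + 1))
      ≤ (R : ℝ) ^ 3 / ((2 * (N.totient : ℝ)) * (y : ℝ) ^ (3 * (B₁ + A₀))) := by
        push_cast
        gcongr
    _ = ((R : ℝ) ^ 3 / (y : ℝ) ^ (3 * (B₁ + A₀))) / (2 * (N.totient : ℝ)) := by
        field_simp
    _ ≤ (S₁.card : ℝ) * (S₂.card : ℝ) ^ 2 / (2 * (N.totient : ℝ)) := by
        rw [← f2]
        gcongr

end Pool.Agent.Lib.MP_a260de_nt.CN
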