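import Pool.Agent.Lib.MP_a260de_nt.CN.SpecM

/-!
# MP_a260de_nt, project CN, module Mer: crude Mertens bound
-/

set_option autoImplicit false

namespace Pool.Agent.Lib.MP_a260de_nt.CN

open Finset
open Pool.Agent.Lib.BV (prim BnfStmt EsyStmt ExtStmt MsbStmt LsmStmt)
open Pool.Agent.Results.MP_00e23e_nt (li maxErr)

private theorem mer_step {κ₀ : ℝ}
    (h : ∀ t : ℕ, ∑ p ∈ (Ioc (Nat.sqrt t) t).filter Nat.Prime, 1 / (p : ℝ) ≤ κ₀) :
    ∀ J t : ℕ, t < 3 ^ (2 ^ J) →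
      ∑ p ∈ (Icc 3 t).filter Nat.Prime, 1 / (p : ℝ) ≤ κ₀ * J := by
  intro J
  induction J with
  | zero =>
    intro t ht
    have h1 : Icc 3 t = ∅ := by
      rw [Finset.Icc_eq_empty]
      simp at ht
      omega
    rw [h1]
    simp
  | succ J ih =>
    intro t ht
    have h1 : Nat.sqrt t < 3 ^ (2 ^ J) := by
      rw [Nat.sqrt_lt']
      calc t < 3 ^ (2 ^ (J + 1)) := ht
        _ = (3 ^ (2 ^ J)) ^ 2 := by rw [← pow_mul, pow_succ]
    have h2 : (Icc 3 t).filter Nat.Prime ⊆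
        (Icc 3 (Nat.sqrt t)).filter Nat.Prime ∪ (Ioc (Nat.sqrt t) t).filter Nat.Prime := by
      intro p hp
      rw [mem_filter, mem_Icc] at hp
      rw [mem_union, mem_filter, mem_filter, mem_Icc, mem_Ioc]
      rcases le_or_gt p (Nat.sqrt t) with hps | hps
      · exact Or.inl ⟨⟨hp.1.1, hps⟩, hp.2⟩
      · exact Or.inr ⟨⟨hps, hp.1.2⟩, hp.2⟩
    calc ∑ p ∈ (Icc 3 t).filter Nat.Prime, 1 / (p : ℝ)
        ≤ ∑ p ∈ (Icc 3 (Nat.sqrt t)).filter Nat.Prime ∪
            (Ioc (Nat.sqrt t) t).filter Nat.Prime, 1 / (p : ℝ) :=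
          sum_le_sum_of_subset_of_nonneg h2 fun p _ _ => by positivity
      _ ≤ ∑ p ∈ (Icc 3 (Nat.sqrt t)).filter Nat.Prime, 1 / (p : ℝ) +
            ∑ p ∈ (Ioc (Nat.sqrt t) t).filter Nat.Prime, 1 / (p : ℝ) := by
          rw [← sum_union_inter]
          have : 0 ≤ ∑ p ∈ (Icc 3 (Nat.sqrt t)).filter Nat.Prime ∩
              (Ioc (Nat.sqrt t) t).filter Nat.Prime, 1 / (p : ℝ) :=
            sum_nonneg fun p _ => by positivity
          linarith
      _ ≤ κ₀ * J + κ₀ := add_le_add (ih _ h1) (h t)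
      _ = κ₀ * ((J + 1 : ℕ) : ℝ) := by
          push_cast
          ring

theorem t_Mer (h : MsbStmt) : S_Mer := by
  obtain ⟨κ₀, hκ₀, hM⟩ := h
  refine ⟨8 * κ₀, by linarith, fun K hK => ?_⟩
  refine ⟨⌈K⌉₊ + 3, fun y hy => ?_⟩
  have hy3 : 3 ≤ y := by omega
  have hyK : K ≤ y := by
    have h1 : K ≤ ⌈K⌉₊ := Nat.le_ceil K
    have h2 : (⌈K⌉₊ : ℝ) ≤ y := by
      have : ⌈K⌉₊ ≤ y := by omega
      exact_mod_cast this
    linarith
  have hyR : (3 : ℝ) ≤ y := by exact_mod_cast hy3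
  have hy0 : (0 : ℝ) < y := by linarith
  have hlog1 : 1 ≤ Real.log y := by
    rw [Real.le_log_iff_exp_le hy0]
    have := Real.exp_one_lt_d9
    linarith
  have hl2 : (0.6931471803 : ℝ) < Real.log 2 := Real.log_two_gt_d9
  have hl2' : 0 < Real.log 2 := by linarith
  set J := ⌊2 * Real.log y / Real.log 2⌋₊ + 1 with hJ
  have hJ1 : 2 * Real.log y / Real.log 2 < J := by
    rw [hJ]
    push_cast
    exact Nat.lt_floor_add_one _
  have hJ2 : (J : ℝ) ≤ 4 * Real.log y := by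
    have h1 : ((⌊2 * Real.log y / Real.log 2⌋₊ : ℕ) : ℝ) ≤ 2 * Real.log y / Real.log 2 :=
      Nat.floor_le (by positivity)
    have h2 : 2 * Real.log y / Real.log 2 ≤ 3 * Real.log y := by
      rw [div_le_iff₀ hl2']
      nlinarith
    rw [hJ]
    push_cast
    linarith
  have hJ3 : (y : ℝ) ^ 2 < 2 ^ J := by
    have h1 : 2 * Real.log y < J * Real.log 2 := by
      rwa [div_lt_iff₀ hl2'] at hJ1
    have h2 : (2 : ℝ) ^ J = Real.exp (J * Real.log 2) := by
      rw [Real.exp_nat_mul, Real.exp_log (by norm_num)]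
    have h3 : (y : ℝ) ^ 2 = Real.exp (2 * Real.log y) := by
      have h4 : (2 : ℝ) * Real.log y = ((2 : ℕ) : ℝ) * Real.log y := by norm_num
      rw [h4, Real.exp_nat_mul, Real.exp_log hy0]
    rw [h2, h3]
    exact Real.exp_lt_exp.mpr h1
  have hW : WW y K < 3 ^ (2 ^ J) := by
    have h1 : (WW y K : ℝ) ≤ Real.exp (K * y) := Nat.floor_le (Real.exp_pos _).le
    have h2 : K * y < ((2 ^ J : ℕ) : ℝ) := by
      push_cast
      nlinarith
    have h3 : Real.exp (K * y) < (3 : ℝ) ^ (2 ^ J) := by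
      calc Real.exp (K * y) < Real.exp (((2 ^ J : ℕ) : ℝ) * 1) := by
            rw [mul_one]
            exact Real.exp_lt_exp.mpr h2
        _ = Real.exp 1 ^ (2 ^ J) := Real.exp_nat_mul _ _
        _ ≤ (3 : ℝ) ^ (2 ^ J) := by
            apply pow_le_pow_left₀ (Real.exp_pos 1).le
            have := Real.exp_one_lt_d9
            linarith
    have h4 : (WW y K : ℝ) < ((3 ^ (2 ^ J) : ℕ) : ℝ) := by
      push_cast
      linarith
    exact_mod_cast h4
  have hmain := mer_step hM J (WW y K) hW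
  have hsub : pS (WW y K) 1 = (Icc 3 (WW y K)).filter Nat.Prime := by
    unfold pS
    ext l
    simp only [mem_filter, mem_Icc, Nat.dvd_one]
    constructor
    · rintro ⟨h1, h2, -⟩
      exact ⟨h1, h2⟩
    · rintro ⟨h1, h2⟩
      exact ⟨h1, h2, h2.one_lt.ne'⟩
  rw [hsub]
  have h5 : ∑ l ∈ (Icc 3 (WW y K)).filter Nat.Prime, 1 / ((l : ℝ) - 1) ≤
      ∑ l ∈ (Icc 3 (WW y K)).filter Nat.Prime, 2 * (1 / (l : ℝ)) := by
    apply sum_le_sum
    intro l hl
    rw [mem_filter, mem_Icc] at hl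
    have hl3 : (3 : ℝ) ≤ l := by exact_mod_cast hl.1.1
    rw [mul_one_div, div_le_div_iff₀ (by linarith) (by linarith)]
    linarith
  rw [← mul_sum] at h5
  have h6 : κ₀ * J ≤ κ₀ * (4 * Real.log y) := mul_le_mul_of_nonneg_left hJ2 (by linarith)
  linarith

end Pool.Agent.Lib.MP_a260de_nt.CN
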