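import Pool.Agent.Lib.MP_a260de_nt.CN.SpecM

/-!
# MP_a260de_nt, project CN, module Nch
-/

set_option autoImplicit false

namespace Pool.Agent.Lib.MP_a260de_nt.CN

open Finset
open Pool.Agent.Lib.BV (prim)

private lemma Nch_ft {m f : ℕ} (χ : DirichletCharacter ℂ m) (h : χ.conductor = f) :
    χ.FactorsThrough f := h ▸ χ.factorsThrough_conductor

theorem t_Nch : S_Nch := by
  classical
  intro m f hm
  have : NeZero m := ⟨by omega⟩
  constructor
  · set T := (univ : Finset (DirichletCharacter ℂ m)).filter fun χ => χ.conductor = f with hT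
    rcases T.eq_empty_or_nonempty with h0 | ⟨χ, hχ⟩
    · rw [h0, Finset.card_empty, Nat.cast_zero]
      exact Nat.cast_nonneg _
    · have hχf : χ.conductor = f := (mem_filter.1 hχ).2
      have hd : f ∣ m := (Nch_ft χ hχf).dvd
      have : NeZero f := ⟨fun h => by
        rw [h] at hd
        exact (NeZero.ne m) (Nat.eq_zero_of_zero_dvd hd)⟩
      have hsub : T ⊆ (univ : Finset (DirichletCharacter ℂ f)).image
          (fun ψ => DirichletCharacter.changeLevel hd ψ) := by
        intro ψ hψ
        obtain ⟨hd', ψ₀, hψ₀⟩ := Nch_ft ψ (mem_filter.1 hψ).2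
        exact mem_image.2 ⟨ψ₀, mem_univ _, hψ₀.symm⟩
      have h1 : T.card ≤ (univ : Finset (DirichletCharacter ℂ f)).card :=
        (Finset.card_le_card hsub).trans Finset.card_image_le
      have h2 : (univ : Finset (DirichletCharacter ℂ f)).card = f.totient := by
        rw [Finset.card_univ, ← Nat.card_eq_fintype_card]
        exact DirichletCharacter.card_eq_totient_of_hasEnoughRootsOfUnity ℂ f
      rw [h2] at h1
      exact_mod_cast h1
  · intro χ hχ
    obtain ⟨hd, χ₀, h0⟩ := Nch_ft χ hχ
    refine ⟨χ₀, ?_, ?_⟩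
    · unfold prim
      rw [mem_filter]
      refine ⟨mem_univ _, ?_⟩
      rw [DirichletCharacter.isPrimitive_def, ← DirichletCharacter.conductor_changeLevel χ₀ hd, ← h0, hχ]
    · intro S hS
      apply Finset.sum_congr rfl
      intro r hr
      have h1 := DirichletCharacter.changeLevel_eq_cast_of_dvd' χ₀ hd (a := (r : ℤ))
        (Nat.isCoprime_iff_coprime.2 (hS r hr))
      rw [← h0] at h1
      simpa using h1

end Pool.Agent.Lib.MP_a260de_nt.CN
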