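import Pool.Agent.Lib.MP_a260de_nt.CN.SpecM

/-!
# MP_a260de_nt, project CN: Parseval for a set of integers
-/

set_option autoImplicit false

namespace Pool.Agent.Lib.MP_a260de_nt.CN

open Finset
open Pool.Agent.Lib.BV (prim BnfStmt EsyStmt ExtStmt MsbStmt LsmStmt)
open Pool.Agent.Results.MP_00e23e_nt (li maxErr)

private lemma Psv_char {m : ℕ} [NeZero m] {r r' : ℕ} (hr : r.Coprime m) :
    ∑ χ : DirichletCharacter ℂ m, χ (r' : ZMod m) * (starRingEnd ℂ) (χ (r : ZMod m)) =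
      if r' ≡ r [MOD m] then (m.totient : ℂ) else 0 := by
  have hu : IsUnit (r : ZMod m) := (ZMod.isUnit_iff_coprime r m).2 hr
  have h1 : ∀ χ : DirichletCharacter ℂ m,
      χ (r' : ZMod m) * (starRingEnd ℂ) (χ (r : ZMod m)) =
        χ ((r : ZMod m)⁻¹) * χ (r' : ZMod m) := by
    intro χ
    have h3 : (starRingEnd ℂ) (χ (r : ZMod m)) = χ⁻¹ (r : ZMod m) :=
      MulChar.star_apply' χ (r : ZMod m)
    have h4 : χ⁻¹ (r : ZMod m) = χ ((r : ZMod m)⁻¹) := by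
      obtain ⟨u, hu'⟩ := hu
      rw [MulChar.inv_apply, ← hu', Ring.inverse_unit, ZMod.inv_coe_unit]
    rw [h3, h4, mul_comm]
  rw [sum_congr rfl (fun χ _ => h1 χ), DirichletCharacter.sum_char_inv_mul_char_eq ℂ hu]
  have h5 : ((r : ZMod m) = (r' : ZMod m)) ↔ r' ≡ r [MOD m] := by
    rw [ZMod.natCast_eq_natCast_iff]
    exact Nat.ModEq.comm
  by_cases hc : r' ≡ r [MOD m]
  · rw [if_pos hc, if_pos (h5.2 hc)]
  · rw [if_neg hc, if_neg fun h => hc (h5.1 h)]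

private lemma Psv_cnt {m R : ℕ} {S : Finset ℕ} (hm : 1 ≤ m) (hS : S ⊆ Icc 1 R) (r : ℕ) :
    ((S.filter fun r' => r' ≡ r [MOD m]).card : ℝ) ≤ (R : ℝ) / m + 1 := by
  have hm0 : (0 : ℝ) < m := by exact_mod_cast hm
  have h1 : ((S.filter fun r' => r' ≡ r [MOD m]).card : ℤ) ≤
      (((Ioc 0 R).filter fun r' => r' ≡ r [MOD m]).card : ℤ) := by
    exact_mod_cast card_le_card (filter_subset_filter _ (fun x hx => by
      have h2 := mem_Icc.1 (hS hx)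
      exact mem_Ioc.2 ⟨by omega, h2.2⟩))
  rw [Nat.Ioc_filter_modEq_card 0 R (by omega : 0 < m) r] at h1
  have h2 : (max (⌊((R : ℚ) - r) / m⌋ - ⌊(((0 : ℕ) : ℚ) - r) / m⌋) 0 : ℤ) ≤
      (⌊(R : ℚ) / m + 1⌋ : ℤ) := by
    apply max_le
    · apply Int.le_floor.2
      push_cast
      have h3 := Int.floor_le (((R : ℚ) - r) / m)
      have h4 := Int.lt_floor_add_one ((((0 : ℕ) : ℚ) - r) / m)
      push_cast at h4
      have h5 : ((R : ℚ) - r) / m = (R : ℚ) / m + (0 - r) / m := by ring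
      linarith
    · apply Int.floor_nonneg.2
      positivity
  have h3 : ((S.filter fun r' => r' ≡ r [MOD m]).card : ℚ) ≤ (R : ℚ) / m + 1 := by
    have h4 : (((S.filter fun r' => r' ≡ r [MOD m]).card : ℤ) : ℚ) ≤
        ((⌊(R : ℚ) / m + 1⌋ : ℤ) : ℚ) := by exact_mod_cast h1.trans h2
    have h5 := Int.floor_le ((R : ℚ) / m + 1)
    push_cast at h4
    linarith
  have h4 : (((S.filter fun r' => r' ≡ r [MOD m]).card : ℚ) : ℝ) ≤
      (((R : ℚ) / m + 1 : ℚ) : ℝ) := by exact_mod_cast h3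
  push_cast at h4
  exact h4

theorem t_Psv : S_Psv := by
  intro m R S hm hS hc
  have : NeZero m := ⟨by omega⟩
  have key : ((∑ χ : DirichletCharacter ℂ m, ‖∑ r ∈ S, χ (r : ZMod m)‖ ^ 2 : ℝ) : ℂ) =
      ((((m.totient : ℝ) * ∑ r ∈ S, ((S.filter fun r' => r' ≡ r [MOD m]).card : ℝ)) : ℝ) : ℂ) := by
    push_cast
    have h1 : ∀ χ : DirichletCharacter ℂ m,
        ((‖∑ r ∈ S, χ (r : ZMod m)‖ : ℝ) : ℂ) ^ 2 =
          ∑ r' ∈ S, ∑ r ∈ S, χ (r' : ZMod m) * (starRingEnd ℂ) (χ (r : ZMod m)) := by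
      intro χ
      rw [← Complex.mul_conj', map_sum, sum_mul_sum]
    rw [sum_congr rfl (fun χ _ => h1 χ)]
    have h2 : ∑ χ : DirichletCharacter ℂ m, ∑ r' ∈ S, ∑ r ∈ S,
        χ (r' : ZMod m) * (starRingEnd ℂ) (χ (r : ZMod m)) =
        ∑ r ∈ S, ∑ r' ∈ S, ∑ χ : DirichletCharacter ℂ m,
          χ (r' : ZMod m) * (starRingEnd ℂ) (χ (r : ZMod m)) := by
      rw [sum_comm]
      rw [sum_congr rfl (fun r' _ => sum_comm)]
      rw [sum_comm]
    rw [h2, mul_sum]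
    refine sum_congr rfl (fun r hr => ?_)
    rw [sum_congr rfl (fun r' _ => Psv_char (hc r hr)), ← sum_filter, sum_const, nsmul_eq_mul,
      mul_comm]
  have key2 : (∑ χ : DirichletCharacter ℂ m, ‖∑ r ∈ S, χ (r : ZMod m)‖ ^ 2 : ℝ) =
      (m.totient : ℝ) * ∑ r ∈ S, ((S.filter fun r' => r' ≡ r [MOD m]).card : ℝ) := by
    exact_mod_cast key
  rw [key2]
  refine mul_le_mul_of_nonneg_left ?_ (Nat.cast_nonneg _)
  calc ∑ r ∈ S, ((S.filter fun r' => r' ≡ r [MOD m]).card : ℝ)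
      ≤ ∑ _r ∈ S, ((R : ℝ) / m + 1) := sum_le_sum fun r _ => Psv_cnt hm hS r
    _ = S.card * ((R : ℝ) / m + 1) := by rw [sum_const, nsmul_eq_mul]

end Pool.Agent.Lib.MP_a260de_nt.CN
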