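import Pool.Agent.Lib.MP_a260de_nt.CN.SpecM

/-!
# MP_a260de_nt, project CN, part Rep: every class contains many triples
-/

set_option autoImplicit false

namespace Pool.Agent.Lib.MP_a260de_nt.CN

open Finset
open Pool.Agent.Lib.BV (prim BnfStmt EsyStmt ExtStmt MsbStmt LsmStmt)
open Pool.Agent.Results.MP_00e23e_nt (li maxErr)

open Classical in
private lemma card12 (S₁ S₂ : Finset ℕ) :
    ((S₁ ×ˢ (S₂ ×ˢ S₂)).filter fun t => t.1 = t.2.1).card ≤ S₁.card * S₂.card := by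
  rw [← card_product]
  refine card_le_card_of_injOn (fun t => (t.1, t.2.2)) ?_ ?_
  · intro t ht
    simp only [coe_filter, Set.mem_ofPred_eq, mem_product] at ht
    simp only [coe_product, Set.mem_prod, mem_coe]
    exact ⟨ht.1.1, ht.1.2.2⟩
  · rintro ⟨a, b, c⟩ ht ⟨a', b', c'⟩ ht' h
    simp only [coe_filter, Set.mem_ofPred_eq, mem_product] at ht ht'
    simp only [Prod.mk.injEq] at h ⊢
    obtain ⟨h1, h2⟩ := h
    exact ⟨h1, by rw [← ht.2, ← ht'.2]; exact h1, h2⟩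

open Classical in
private lemma card13 (S₁ S₂ : Finset ℕ) :
    ((S₁ ×ˢ (S₂ ×ˢ S₂)).filter fun t => t.1 = t.2.2).card ≤ S₁.card * S₂.card := by
  rw [← card_product]
  refine card_le_card_of_injOn (fun t => (t.1, t.2.1)) ?_ ?_
  · intro t ht
    simp only [coe_filter, Set.mem_ofPred_eq, mem_product] at ht
    simp only [coe_product, Set.mem_prod, mem_coe]
    exact ⟨ht.1.1, ht.1.2.1⟩
  · rintro ⟨a, b, c⟩ ht ⟨a', b', c'⟩ ht' h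
    simp only [coe_filter, Set.mem_ofPred_eq, mem_product] at ht ht'
    simp only [Prod.mk.injEq] at h ⊢
    obtain ⟨h1, h2⟩ := h
    exact ⟨h1, h2, by rw [← ht.2, ← ht'.2]; exact h1⟩

open Classical in
private lemma card23 (S₁ S₂ : Finset ℕ) :
    ((S₁ ×ˢ (S₂ ×ˢ S₂)).filter fun t => t.2.1 = t.2.2).card ≤ S₁.card * S₂.card := by
  rw [← card_product]
  refine card_le_card_of_injOn (fun t => (t.1, t.2.1)) ?_ ?_
  · intro t ht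
    simp only [coe_filter, Set.mem_ofPred_eq, mem_product] at ht
    simp only [coe_product, Set.mem_prod, mem_coe]
    exact ⟨ht.1.1, ht.1.2.1⟩
  · rintro ⟨a, b, c⟩ ht ⟨a', b', c'⟩ ht' h
    simp only [coe_filter, Set.mem_ofPred_eq, mem_product] at ht ht'
    simp only [Prod.mk.injEq] at h ⊢
    obtain ⟨h1, h2⟩ := h
    exact ⟨h1, h2, by rw [← ht.2, ← ht'.2]; exact h2⟩

open Classical in
private lemma card_sub (N c : ℕ) (S₁ S₂ : Finset ℕ) :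
    (((S₁ ×ˢ (S₂ ×ˢ S₂)).filter fun t => t.1 * t.2.1 * t.2.2 ≡ c [MOD N]).card : ℝ) ≤
      (((S₁ ×ˢ (S₂ ×ˢ S₂)).filter fun t => t.1 ≠ t.2.1 ∧ t.1 ≠ t.2.2 ∧ t.2.1 ≠ t.2.2 ∧
      t.1 * t.2.1 * t.2.2 ≡ c [MOD N]).card : ℝ) + 3 * ((S₁.card : ℝ) * (S₂.card : ℝ)) := by
  have h : ((S₁ ×ˢ (S₂ ×ˢ S₂)).filter fun t => t.1 * t.2.1 * t.2.2 ≡ c [MOD N]) ⊆
      ((((S₁ ×ˢ (S₂ ×ˢ S₂)).filter fun t => t.1 ≠ t.2.1 ∧ t.1 ≠ t.2.2 ∧ t.2.1 ≠ t.2.2 ∧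
      t.1 * t.2.1 * t.2.2 ≡ c [MOD N]) ∪ ((S₁ ×ˢ (S₂ ×ˢ S₂)).filter fun t => t.1 = t.2.1)) ∪
      ((S₁ ×ˢ (S₂ ×ˢ S₂)).filter fun t => t.1 = t.2.2)) ∪
      ((S₁ ×ˢ (S₂ ×ˢ S₂)).filter fun t => t.2.1 = t.2.2) := by
    intro t ht
    simp only [mem_filter] at ht
    simp only [mem_union, mem_filter]
    by_cases h1 : t.1 = t.2.1
    · exact Or.inl (Or.inl (Or.inr ⟨ht.1, h1⟩))
    by_cases h2 : t.1 = t.2.2
    · exact Or.inl (Or.inr ⟨ht.1, h2⟩)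
    by_cases h3 : t.2.1 = t.2.2
    · exact Or.inr ⟨ht.1, h3⟩
    exact Or.inl (Or.inl (Or.inl ⟨ht.1, h1, h2, h3, ht.2⟩))
  have h1 := card_le_card h
  have h2 := h1.trans (card_union_le _ _)
  have h3 := h2.trans (Nat.add_le_add_right (card_union_le _ _) _)
  have h4 := h3.trans (Nat.add_le_add_right (Nat.add_le_add_right (card_union_le _ _) _) _)
  have h5 := card12 S₁ S₂
  have h6 := card13 S₁ S₂
  have h7 := card23 S₁ S₂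
  have h8 : ((S₁ ×ˢ (S₂ ×ˢ S₂)).filter fun t => t.1 * t.2.1 * t.2.2 ≡ c [MOD N]).card ≤
      ((S₁ ×ˢ (S₂ ×ˢ S₂)).filter fun t => t.1 ≠ t.2.1 ∧ t.1 ≠ t.2.2 ∧ t.2.1 ≠ t.2.2 ∧
      t.1 * t.2.1 * t.2.2 ≡ c [MOD N]).card + 3 * (S₁.card * S₂.card) := by omega
  exact_mod_cast h8

theorem t_Rep (hT : S_Tri) (hE : S_Err) : S_Rep := by
  classical
  intro N R B δ τ S₁ S₂ hN hl hS2 h1 h2 hNR hB hδ hτ hcl hch hBδ hτR h30 c hc
  have hN1 : 1 ≤ N := Nat.one_le_iff_ne_zero.2 hN.ne_zero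
  have hφ : (0 : ℝ) < (N.totient : ℝ) := by exact_mod_cast Nat.totient_pos.2 hN1
  have e1 := hT N c S₁ S₂ hN1 hc (fun r hr => (h1 r hr).2.1) (fun r hr => (h2 r hr).2.1)
  have e2 := hE N R B δ τ S₁ S₂ hN hl hS2 h1 h2 hNR hB hδ hτ hcl hch hBδ hτR
  have e3 : (univ : Finset (DirichletCharacter ℂ N)).erase 1 =
      (univ : Finset (DirichletCharacter ℂ N)).filter (fun χ => χ ≠ 1) := by
    ext χ
    simp
  rw [e3] at e1
  have e4 := (abs_le.1 (e1.trans e2)).1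
  have e5 := card_sub N c S₁ S₂
  set T0 : ℝ := (((S₁ ×ˢ (S₂ ×ˢ S₂)).filter fun t => t.1 * t.2.1 * t.2.2 ≡ c [MOD N]).card : ℝ)
    with hT0
  set T1 : ℝ := (((S₁ ×ˢ (S₂ ×ˢ S₂)).filter fun t => t.1 ≠ t.2.1 ∧ t.1 ≠ t.2.2 ∧ t.2.1 ≠ t.2.2 ∧
      t.1 * t.2.1 * t.2.2 ≡ c [MOD N]).card : ℝ) with hT1
  set s1 : ℝ := (S₁.card : ℝ)
  set s2 : ℝ := (S₂.card : ℝ)
  have hs1 : 0 ≤ s1 := Nat.cast_nonneg _
  have hs2 : 0 ≤ s2 := Nat.cast_nonneg _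
  rw [div_le_iff₀ (by positivity)]
  have e6 : (N.totient : ℝ) * T0 ≤ (N.totient : ℝ) * (T1 + 3 * (s1 * s2)) :=
    mul_le_mul_of_nonneg_left e5 hφ.le
  have e7 : 30 * (N.totient : ℝ) * (s1 * s2) ≤ s2 * (s1 * s2) :=
    mul_le_mul_of_nonneg_right h30 (by positivity)
  have e8 : 0 ≤ s1 * s2 ^ 2 := by positivity
  nlinarith [e4, e6, e7, e8]

end Pool.Agent.Lib.MP_a260de_nt.CN
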