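import Pool.Agent.Lib.MP_a260de_nt.CN.SvB

/-! Part SvG: Brun's pure sieve and Bombieri-Vinogradov, choice of the parameters. -/

namespace Pool.Agent.Lib.MP_a260de_nt.CN

open Finset Filter Pool.Agent.Results.MP_00e23e_nt
open Pool.Agent.Lib.BV (BnfStmt EsyStmt)

private theorem svg_li {a b : ℝ} (ha : 2 ≤ a) (hab : a ≤ b) : li a ≤ li b := by
  have hcont : ∀ c d : ℝ, 2 ≤ c → c ≤ d →
      IntervalIntegrable (fun t => (Real.log t)⁻¹) MeasureTheory.volume c d := by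
    intro c d hc hcd
    apply ContinuousOn.intervalIntegrable
    rw [Set.uIcc_of_le hcd]
    apply ContinuousOn.inv₀
    · apply Real.continuousOn_log.mono
      intro t ht
      simp only [Set.mem_compl_iff, Set.mem_singleton_iff]
      have := ht.1
      intro h
      linarith
    · intro t ht
      exact (Real.log_pos (by linarith [ht.1])).ne'
  have h1 : li b - li a = ∫ t in a..b, (Real.log t)⁻¹ := by
    unfold li
    rw [intervalIntegral.integral_interval_sub_left (hcont 2 b le_rfl (by linarith))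
      (hcont 2 a le_rfl ha)]
  have h2 : 0 ≤ ∫ t in a..b, (Real.log t)⁻¹ := by
    apply intervalIntegral.integral_nonneg hab
    intro t ht
    exact inv_nonneg.2 (Real.log_nonneg (by linarith [ht.1]))
  linarith

theorem t_SvG (hEe : S_Ee) (hMer : S_Mer) (hDep : S_Dep) (_ : BnfStmt) (_ : EsyStmt) : S_SvG := by
  intro δ K A B hδ hK hA hB
  obtain ⟨κ, hκ, hMer⟩ := hMer
  obtain ⟨y1, hy1⟩ := hMer K hK
  obtain ⟨y2, hy2⟩ := hDep κ δ K (max (A + 3) B) (by linarith) hδ hK (by positivity)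
  obtain ⟨y3, hy3⟩ := hEe δ (A + 3) hδ (by linarith)
  have hW : Tendsto (fun y : ℕ => Real.exp (K * (y : ℝ))) atTop atTop :=
    Real.tendsto_exp_atTop.comp (tendsto_natCast_atTop_atTop.const_mul_atTop hK)
  obtain ⟨y4, hy4⟩ := eventually_atTop.1 (hW.eventually_ge_atTop 1)
  have hRt : Tendsto (fun y : ℕ => Real.exp ((y : ℝ) ^ (1 + δ))) atTop atTop :=
    Real.tendsto_exp_atTop.comp ((tendsto_rpow_atTop (by linarith)).comp
      tendsto_natCast_atTop_atTop)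
  obtain ⟨y5, hy5⟩ := eventually_atTop.1 (hRt.eventually_ge_atTop 5)
  refine ⟨max y1 (max y2 (max y3 (max y4 (max y5 2)))), fun y hy q a P hq hqB ha hP => ?_⟩
  simp only [max_le_iff] at hy
  obtain ⟨h1, h2, h3, h4, h5, h6⟩ := hy
  have hM := hy1 y h1
  obtain ⟨k, hk1, hk2⟩ := hy2 y h2
  have hE := hy3 y h3
  have hW1 : 1 ≤ WW y K := by
    unfold WW
    exact Nat.le_floor (by simpa using hy4 y h4)
  have hR5 : 5 ≤ RR y δ := by
    unfold RR
    exact Nat.le_floor (by exact_mod_cast hy5 y h5)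
  have hy2R : (2 : ℝ) ≤ y := by exact_mod_cast h6
  have hR5R : (5 : ℝ) ≤ RR y δ := by exact_mod_cast hR5
  have hX0 : 0 ≤ li (RR y δ) - li ((RR y δ / 2 : ℕ) : ℝ) := by
    have h7 : li ((RR y δ / 2 : ℕ) : ℝ) ≤ li (RR y δ) :=
      svg_li (by exact_mod_cast (by omega : 2 ≤ RR y δ / 2))
        (by exact_mod_cast Nat.div_le_self _ _)
    linarith
  have hX1 : li (RR y δ) - li ((RR y δ / 2 : ℕ) : ℝ) ≤ 2 * RR y δ := by
    have h7 := Pool.Agent.Lib.EH.li_le (x := (RR y δ : ℝ)) (by linarith)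
    have h8 := Pool.Agent.Lib.EH.li_nonneg (x := ((RR y δ / 2 : ℕ) : ℝ))
      (by exact_mod_cast (by omega : 2 ≤ RR y δ / 2))
    linarith
  have hD : q * (WW y K) ^ (2 * k + 1) ≤ ⌊(RR y δ : ℝ) ^ (2 / 5 : ℝ)⌋₊ := by
    apply Nat.le_floor
    push_cast
    refine le_trans ?_ hk1
    refine mul_le_mul_of_nonneg_right (hqB.trans ?_) (by positivity)
    exact Real.rpow_le_rpow_of_exponent_le (by linarith) (le_max_right _ _)
  have hmain := svB (RR y δ) q a k (WW y K) _ P hq ha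
    (fun l hl => ⟨(hP l hl).1, (hP l hl).2.1, (hP l hl).2.2.2⟩) (fun l hl => (hP l hl).2.2.1) hW1 hD hX0
  have hsum0 : 0 ≤ ∑ l ∈ P, 1 / ((l : ℝ) - 1) := by
    refine Finset.sum_nonneg fun l hl => ?_
    have h3 : (3 : ℝ) ≤ l := by exact_mod_cast (hP l hl).2.1
    apply div_nonneg zero_le_one
    linarith
  have hsum : ∑ l ∈ P, 1 / ((l : ℝ) - 1) ≤ κ * Real.log y := by
    refine le_trans ?_ hM
    apply Finset.sum_le_sum_of_subset_of_nonneg
    · intro l hl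
      obtain ⟨p1, p2, p3, p4⟩ := hP l hl
      unfold pS
      rw [Finset.mem_filter, Finset.mem_Icc]
      exact ⟨⟨p2, p3⟩, p1, fun h => p1.one_lt.ne' (Nat.dvd_one.1 h)⟩
    · intro l hl _
      unfold pS at hl
      rw [Finset.mem_filter, Finset.mem_Icc] at hl
      have h3 : (3 : ℝ) ≤ l := by exact_mod_cast hl.1.1
      apply div_nonneg zero_le_one
      linarith
  have hφ : (1 : ℝ) ≤ q.totient := by exact_mod_cast Nat.totient_pos.2 hq
  have hyA : (y : ℝ) ^ (-(max (A + 3) B)) ≤ (y : ℝ) ^ (-(A + 3)) :=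
    Real.rpow_le_rpow_of_exponent_le (by linarith) (neg_le_neg (le_max_left _ _))
  have hpow : (∑ l ∈ P, 1 / ((l : ℝ) - 1)) ^ (2 * k + 1) / ((2 * k + 1).factorial : ℝ) ≤
      (y : ℝ) ^ (-(A + 3)) := by
    refine le_trans ?_ (hk2.trans hyA)
    gcongr
  have hpow0 : 0 ≤ (∑ l ∈ P, 1 / ((l : ℝ) - 1)) ^ (2 * k + 1) / ((2 * k + 1).factorial : ℝ) := by
    positivity
  have hXq : (li (RR y δ) - li ((RR y δ / 2 : ℕ) : ℝ)) / (q.totient : ℝ) ≤ 2 * RR y δ :=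
    (div_le_self hX0 hφ).trans hX1
  have hterm : (li (RR y δ) - li ((RR y δ / 2 : ℕ) : ℝ)) / (q.totient : ℝ) *
      ((∑ l ∈ P, 1 / ((l : ℝ) - 1)) ^ (2 * k + 1) / ((2 * k + 1).factorial : ℝ)) ≤
      2 * RR y δ * (y : ℝ) ^ (-(A + 3)) :=
    mul_le_mul hXq hpow hpow0 (by positivity)
  have hfin : 5 * ((RR y δ : ℝ) * (y : ℝ) ^ (-(A + 3))) ≤ (RR y δ : ℝ) / (y : ℝ) ^ A := by
    have e1 : (y : ℝ) ^ (-(A + 3)) = ((y : ℝ) ^ A)⁻¹ * ((y : ℝ) ^ 3)⁻¹ := by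
      rw [Real.rpow_neg (by linarith), Real.rpow_add (by linarith), mul_inv]
      norm_num
    have e2 : (8 : ℝ) ≤ (y : ℝ) ^ 3 := by
      calc (8 : ℝ) = 2 ^ 3 := by norm_num
        _ ≤ (y : ℝ) ^ 3 := by gcongr
    have e3 : ((y : ℝ) ^ 3)⁻¹ ≤ 1 / 5 := by
      rw [inv_eq_one_div]
      apply one_div_le_one_div_of_le (by norm_num)
      linarith
    rw [e1, div_eq_mul_inv]
    have e4 : 0 < ((y : ℝ) ^ A)⁻¹ := inv_pos.2 (Real.rpow_pos_of_pos (by linarith) _)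
    calc 5 * ((RR y δ : ℝ) * (((y : ℝ) ^ A)⁻¹ * ((y : ℝ) ^ 3)⁻¹)) =
          (RR y δ : ℝ) * ((y : ℝ) ^ A)⁻¹ * (5 * ((y : ℝ) ^ 3)⁻¹) := by ring
      _ ≤ (RR y δ : ℝ) * ((y : ℝ) ^ A)⁻¹ * 1 := by
          apply mul_le_mul_of_nonneg_left _ (by positivity)
          linarith
      _ = _ := mul_one _
  have hE' : EE (RR y δ) ⌊(RR y δ : ℝ) ^ (2 / 5 : ℝ)⌋₊ ≤ (RR y δ : ℝ) * (y : ℝ) ^ (-(A + 3)) := by
    rw [Real.rpow_neg (by linarith), ← div_eq_mul_inv]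
    exact hE
  have hset : rset (RR y δ) q a P = (Icc 1 (RR y δ)).filter fun r => r.Prime ∧
      RR y δ < 2 * r ∧ r ≡ a [MOD q] ∧ ∀ l ∈ P, ¬ l ∣ r - 1 := rfl
  rw [← hset]
  linarith

end Pool.Agent.Lib.MP_a260de_nt.CN
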