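import Pool.Agent.Lib.MP_a260de_nt.CN.SpecM

/-!
# MP_a260de_nt, project CN, part M: `S_Thin` (random subset)
-/

set_option autoImplicit false

namespace Pool.Agent.Lib.MP_a260de_nt.CN

open Finset
open Pool.Agent.Lib.BV (prim BnfStmt EsyStmt ExtStmt MsbStmt LsmStmt)
open Pool.Agent.Results.MP_00e23e_nt (li maxErr)

/-- The probability of the subset `Q`. -/
private noncomputable def Thin_w (P : Finset ℕ) (c : ℕ → ℝ) (Q : Finset ℕ) : ℝ :=
  (∏ q ∈ Q, c q) * ∏ q ∈ P \ Q, (1 - c q)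

private theorem Thin_sum (P D : Finset ℕ) (c : ℕ → ℝ) (hD : D ⊆ P) :
    ∑ Q ∈ P.powerset, (if D ⊆ Q then Thin_w P c Q else 0) = ∏ q ∈ D, c q := by
  have h1 := Finset.prod_add (fun q => c q) (fun q => if q ∈ D then (0 : ℝ) else 1 - c q) P
  have h2 : ∏ q ∈ P, (c q + if q ∈ D then (0 : ℝ) else 1 - c q) = ∏ q ∈ D, c q := by
    have h3 : ∀ q ∈ P, (c q + if q ∈ D then (0 : ℝ) else 1 - c q) = if q ∈ D then c q else 1 := by
      intro q _
      split_ifs <;> ring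
    rw [Finset.prod_congr rfl h3, ← Finset.prod_filter]
    congr 1
    ext q
    rw [mem_filter]
    exact ⟨fun h => h.2, fun h => ⟨hD h, h⟩⟩
  rw [← h2, h1]
  refine Finset.sum_congr rfl fun Q _ => ?_
  unfold Thin_w
  split_ifs with h
  · congr 1
    refine Finset.prod_congr rfl fun q hq => ?_
    rw [if_neg]
    intro hqD
    exact (mem_sdiff.1 hq).2 (h hqD)
  · obtain ⟨q, hqD, hqQ⟩ := Finset.not_subset.1 h
    rw [Finset.prod_eq_zero (i := q) (mem_sdiff.2 ⟨hD hqD, hqQ⟩) (by rw [if_pos hqD]), mul_zero]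

private theorem Thin_sq {P : Finset ℕ} (hP : ∀ q ∈ P, q.Prime) : Squarefree (∏ q ∈ P, q) := by
  refine Finset.squarefree_prod_of_pairwise_isCoprime (fun _ hp _ hq hpq ↦ ?_)
    fun _ hp ↦ (hP _ hp).squarefree
  simp only [← Nat.coprime_iff_isRelPrime]
  exact (Nat.coprime_primes (hP _ hp) (hP _ hq)).mpr hpq

private theorem Thin_dvd {P Q : Finset ℕ} (hP : ∀ q ∈ P, q.Prime) (hQ : Q ⊆ P) {m : ℕ}
    (hm : m ∣ ∏ q ∈ P, q) : m ∣ ∏ q ∈ Q, q ↔ m.primeFactors ⊆ Q := by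
  have hPQ : ∀ q ∈ Q, q.Prime := fun q hq => hP q (hQ hq)
  constructor
  · intro h
    have h1 := Nat.primeFactors_mono h (Finset.prod_ne_zero_iff.2 fun q hq => (hPQ q hq).ne_zero)
    rwa [Nat.primeFactors_prod hPQ] at h1
  · intro h
    have h1 : Squarefree m := (Thin_sq hP).squarefree_of_dvd hm
    rw [← Nat.prod_primeFactors_of_squarefree h1]
    exact Finset.prod_dvd_prod_of_subset _ _ _ h

/-- The expectation of the indicator of `m ∣ ∏ Q`. -/
private theorem Thin_exp {P : Finset ℕ} (hP : ∀ q ∈ P, q.Prime) (ε : ℝ) {m : ℕ}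
    (hm : m ∣ ∏ q ∈ P, q) :
    ∑ Q ∈ P.powerset, (if m ∣ ∏ q ∈ Q, q then Thin_w P (fun q => (q : ℝ) ^ (-ε)) Q else 0) =
      (m : ℝ) ^ (-ε) := by
  have h0 : (∏ q ∈ P, q) ≠ 0 := Finset.prod_ne_zero_iff.2 fun q hq => (hP q hq).ne_zero
  have hsub : m.primeFactors ⊆ P := by
    have h1 := Nat.primeFactors_mono hm h0
    rwa [Nat.primeFactors_prod hP] at h1
  have h1 : Squarefree m := (Thin_sq hP).squarefree_of_dvd hm
  have h2 : ∏ q ∈ m.primeFactors, ((q : ℝ) ^ (-ε)) = (m : ℝ) ^ (-ε) := by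
    rw [Real.finsetProd_rpow _ _ fun q _ => Nat.cast_nonneg q]
    congr 1
    conv_rhs => rw [← Nat.prod_primeFactors_of_squarefree h1]
    push_cast
    rfl
  rw [← h2, ← Thin_sum P m.primeFactors _ hsub]
  refine Finset.sum_congr rfl fun Q hQ => ?_
  simp only [Thin_dvd hP (mem_powerset.1 hQ) hm]

private theorem Thin_nonneg {P : Finset ℕ} (hP : ∀ q ∈ P, q.Prime) {ε : ℝ} (hε : 0 ≤ ε)
    {Q : Finset ℕ} (hQ : Q ⊆ P) : 0 ≤ Thin_w P (fun q => (q : ℝ) ^ (-ε)) Q := by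
  have h1 : ∀ q ∈ P, 0 ≤ (q : ℝ) ^ (-ε) ∧ (q : ℝ) ^ (-ε) ≤ 1 := fun q hq =>
    ⟨Real.rpow_nonneg (Nat.cast_nonneg q) _,
      Real.rpow_le_one_of_one_le_of_nonpos (by exact_mod_cast (hP q hq).one_lt.le) (by linarith)⟩
  refine mul_nonneg (Finset.prod_nonneg fun q hq => (h1 q (hQ hq)).1)
    (Finset.prod_nonneg fun q hq => ?_)
  have := (h1 q (mem_sdiff.1 hq).1).2
  linarith

/-- Random subset. -/
theorem t_Thin : S_Thin := by
  intro P S F h ε z B hP hS hε hz hB hSh hFB hF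
  have hSc : (0 : ℝ) < S.card := by exact_mod_cast hS.card_pos
  have h0 : (∏ q ∈ P, q) ≠ 0 := Finset.prod_ne_zero_iff.2 fun q hq => (hP q hq).ne_zero
  have hz0 : (0 : ℝ) < z := by linarith
  have hzε : (0 : ℝ) < z ^ (-ε) := Real.rpow_pos_of_pos hz0 _
  have hB0 : (0 : ℝ) < B := by linarith
  set w : Finset ℕ → ℝ := Thin_w P (fun q => (q : ℝ) ^ (-ε)) with hw
  -- total mass
  have htot : ∑ Q ∈ P.powerset, w Q = 1 := by
    have h1 := Thin_exp hP ε (m := 1) (one_dvd _)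
    simpa using h1
  -- the function to be averaged
  set f1 : Finset ℕ → ℝ := fun Q => ((S.filter fun p => h p ∣ ∏ q ∈ Q, q).card : ℝ) with hf1
  set f2 : Finset ℕ → ℝ := fun Q => ((F.filter fun f => f ∣ ∏ q ∈ Q, q).card : ℝ) with hf2
  have hE1 : (S.card : ℝ) * z ^ (-ε) ≤ ∑ Q ∈ P.powerset, w Q * f1 Q := by
    have h1 : ∑ Q ∈ P.powerset, w Q * f1 Q = ∑ p ∈ S, ((h p : ℕ) : ℝ) ^ (-ε) := by
      have h2 : ∀ Q ∈ P.powerset, w Q * f1 Q =
          ∑ p ∈ S, (if h p ∣ ∏ q ∈ Q, q then w Q else 0) := by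
        intro Q _
        rw [← Finset.sum_filter, Finset.sum_const, nsmul_eq_mul, mul_comm]
      rw [Finset.sum_congr rfl h2, Finset.sum_comm]
      exact Finset.sum_congr rfl fun p hp => Thin_exp hP ε (hSh p hp).1
    rw [h1, ← nsmul_eq_mul]
    refine Finset.card_nsmul_le_sum _ _ _ fun p hp => ?_
    have h3 : 0 < h p := Nat.pos_of_ne_zero fun h4 => h0 (by
      have := (hSh p hp).1
      rw [h4] at this
      exact Nat.eq_zero_of_zero_dvd this)
    exact Real.rpow_le_rpow_of_nonpos (by exact_mod_cast h3) (hSh p hp).2 (by linarith)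
  have hE2 : ∑ Q ∈ P.powerset, w Q * f2 Q ≤ (F.card : ℝ) * B ^ (-ε) := by
    have h1 : ∑ Q ∈ P.powerset, w Q * f2 Q =
        ∑ f ∈ F, ∑ Q ∈ P.powerset, (if f ∣ ∏ q ∈ Q, q then w Q else 0) := by
      have h2 : ∀ Q ∈ P.powerset, w Q * f2 Q =
          ∑ f ∈ F, (if f ∣ ∏ q ∈ Q, q then w Q else 0) := by
        intro Q _
        rw [← Finset.sum_filter, Finset.sum_const, nsmul_eq_mul, mul_comm]
      rw [Finset.sum_congr rfl h2, Finset.sum_comm]
    rw [h1, ← nsmul_eq_mul]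
    refine Finset.sum_le_card_nsmul _ _ _ fun f hf => ?_
    by_cases hfP : f ∣ ∏ q ∈ P, q
    · rw [Thin_exp hP ε hfP]
      exact Real.rpow_le_rpow_of_nonpos hB0 (hFB f hf hfP) (by linarith)
    · have h3 : ∑ Q ∈ P.powerset, (if f ∣ ∏ q ∈ Q, q then w Q else 0) = 0 := by
        refine Finset.sum_eq_zero fun Q hQ => if_neg fun h4 => hfP (h4.trans ?_)
        exact Finset.prod_dvd_prod_of_subset _ _ _ (mem_powerset.1 hQ)
      rw [h3]
      positivity
  -- a good subset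
  obtain ⟨Q, hQ, hQge⟩ : ∃ Q ∈ P.powerset,
      z ^ (-ε) / 2 * (S.card : ℝ) ≤ f1 Q - (S.card : ℝ) * f2 Q := by
    by_contra hcon
    push Not at hcon
    have h1 : ∑ Q ∈ P.powerset, w Q * (f1 Q - (S.card : ℝ) * f2 Q) <
        ∑ Q ∈ P.powerset, w Q * (z ^ (-ε) / 2 * (S.card : ℝ)) := by
      refine Finset.sum_lt_sum (fun Q hQ => mul_le_mul_of_nonneg_left (hcon Q hQ).le
        (Thin_nonneg hP hε (mem_powerset.1 hQ))) ?_
      by_contra h2
      push Not at h2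
      have h3 : ∀ Q ∈ P.powerset, w Q = 0 := by
        intro Q hQ
        have h4 := Thin_nonneg hP hε (mem_powerset.1 hQ)
        have h5 := h2 Q hQ
        have h6 := hcon Q hQ
        by_contra h7
        have h8 : 0 < w Q := lt_of_le_of_ne h4 (Ne.symm h7)
        exact absurd (le_of_mul_le_mul_left h5 h8) (not_le.2 h6)
      rw [Finset.sum_eq_zero h3] at htot
      exact zero_ne_one htot
    rw [← Finset.sum_mul, htot, one_mul] at h1
    have h2 : ∑ Q ∈ P.powerset, w Q * (f1 Q - (S.card : ℝ) * f2 Q) =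
        ∑ Q ∈ P.powerset, w Q * f1 Q - (S.card : ℝ) * ∑ Q ∈ P.powerset, w Q * f2 Q := by
      rw [Finset.mul_sum, ← Finset.sum_sub_distrib]
      refine Finset.sum_congr rfl fun Q _ => ?_
      ring
    rw [h2] at h1
    have h3 : (S.card : ℝ) * ∑ Q ∈ P.powerset, w Q * f2 Q ≤ (S.card : ℝ) * (z ^ (-ε) / 2) :=
      mul_le_mul_of_nonneg_left (hE2.trans hF) hSc.le
    nlinarith
  have hpos : 0 < z ^ (-ε) / 2 * (S.card : ℝ) := by positivity
  have hf1le : f1 Q ≤ (S.card : ℝ) := by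
    simp only [hf1]
    exact_mod_cast Finset.card_filter_le _ _
  have hf2zero : f2 Q = 0 := by
    by_contra h1
    have h2 : (1 : ℝ) ≤ f2 Q := by
      simp only [hf2] at h1 ⊢
      have h3 : (F.filter fun f => f ∣ ∏ q ∈ Q, q).card ≠ 0 := fun h => h1 (by rw [h]; norm_num)
      exact_mod_cast Nat.one_le_iff_ne_zero.2 h3
    nlinarith
  refine ⟨Q, mem_powerset.1 hQ, ?_, fun f hf hfQ => ?_⟩
  · rw [hf2zero, mul_zero, sub_zero] at hQge
    exact hQge
  · simp only [hf2] at hf2zero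
    have h3 : (F.filter fun f => f ∣ ∏ q ∈ Q, q).card = 0 := by exact_mod_cast hf2zero
    rw [Finset.card_eq_zero] at h3
    have h4 : f ∈ F.filter fun f => f ∣ ∏ q ∈ Q, q := mem_filter.2 ⟨hf, hfQ⟩
    rw [h3] at h4
    exact (Finset.notMem_empty f) h4

end Pool.Agent.Lib.MP_a260de_nt.CN
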