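import Pool.Agent.Lib.MP_a260de_nt.CN.SpecM

/-!
# MP_a260de_nt, project CN, M_Ths: the choice of the modulus
-/

set_option autoImplicit false

namespace Pool.Agent.Lib.MP_a260de_nt.CN

open Finset
open Pool.Agent.Lib.BV (prim)

/-- the primes in `[200, y]` not dividing `m` -/
private def tP (y m : ℕ) : Finset ℕ := (Icc 200 y).filter fun q => q.Prime ∧ ¬ q ∣ m

private theorem mem_tP (y m q : ℕ) : q ∈ tP y m ↔ (200 ≤ q ∧ q ≤ y) ∧ q.Prime ∧ ¬ q ∣ m := by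
  simp [tP]

private theorem ths_dvd (y m : ℕ) (Q : Finset ℕ) (hQ : Q ⊆ tP y m) :
    ∏ q ∈ Q, q ∣ primorial y := by
  unfold primorial
  refine Finset.prod_dvd_prod_of_subset _ _ _ fun q hq => ?_
  have h := (mem_tP y m q).1 (hQ hq)
  exact Finset.mem_filter.2 ⟨Finset.mem_range.2 (by omega), h.2.1⟩

private theorem ths_mem (y m : ℕ) (Q : Finset ℕ) (hQ : Q ⊆ tP y m) (l : ℕ) (hl : l.Prime)
    (h : l ∣ ∏ q ∈ Q, q) : l ∈ Q := by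
  obtain ⟨q, hq, hlq⟩ := hl.prime.exists_mem_finset_dvd h
  have h1 := (mem_tP y m q).1 (hQ hq)
  rw [(Nat.prime_dvd_prime_iff_eq hl h1.2.1).1 hlq]
  exact hq

private theorem ths_h (y m h : ℕ) (hs : Squarefree h) (hm : h.Coprime m)
    (hq : ∀ q : ℕ, q.Prime → q ∣ h → 200 ≤ q ∧ q ≤ y) : h ∣ ∏ q ∈ tP y m, q := by
  conv_lhs => rw [← Nat.prod_primeFactors_of_squarefree hs]
  refine Finset.prod_dvd_prod_of_subset _ _ _ fun q hq1 => ?_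
  have h1 := Nat.prime_of_mem_primeFactors hq1
  have h2 := Nat.dvd_of_mem_primeFactors hq1
  refine (mem_tP y m q).2 ⟨hq q h1 h2, h1, fun h3 => ?_⟩
  exact Nat.Prime.one_lt h1 |>.ne' (Nat.dvd_one.1 (by
    rw [← hm]; exact Nat.dvd_gcd h2 h3))

private theorem ths_RA (R W m b : ℕ) : RA R W m b = RA R W m (b % m) := by
  have h : ∀ r : ℕ, r ≡ b [MOD m] ↔ r ≡ b % m [MOD m] := fun r => by
    unfold Nat.ModEq
    rw [Nat.mod_mod]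
  ext r
  simp only [RA, Finset.mem_filter, h r]

/-- size of `R` -/
private theorem ths_R (δ : ℝ) (hδ : 0 < δ) : ∃ y0 : ℕ, ∀ y : ℕ, y0 ≤ y →
    ((4 ^ y : ℕ) : ℝ) ^ 2 ≤ (RR y δ : ℝ) := by
  refine ⟨⌈(3 : ℝ) ^ (1 / δ)⌉₊ + 1, fun y hy => ?_⟩
  have hy1 : (1 : ℕ) ≤ y := by omega
  have hy1' : (1 : ℝ) ≤ y := by exact_mod_cast hy1
  have h0 : (0 : ℝ) < y := by linarith
  have h1 : (3 : ℝ) ^ (1 / δ) ≤ y := (Nat.le_ceil _).trans (by exact_mod_cast (by omega :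
    ⌈(3 : ℝ) ^ (1 / δ)⌉₊ ≤ y))
  have h2 : (3 : ℝ) ≤ (y : ℝ) ^ δ := by
    have h3 := Real.rpow_le_rpow (by positivity) h1 hδ.le
    rwa [← Real.rpow_mul (by norm_num), one_div, inv_mul_cancel₀ hδ.ne', Real.rpow_one] at h3
  have h3 : (3 : ℝ) * y ≤ (y : ℝ) ^ (1 + δ) := by
    rw [Real.rpow_add h0, Real.rpow_one]
    nlinarith
  have h4 : ((16 ^ y : ℕ) : ℝ) ≤ Real.exp ((y : ℝ) ^ (1 + δ)) := by
    have h5 : (16 : ℝ) ≤ Real.exp 3 := by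
      have h6 : Real.exp 3 = Real.exp 1 ^ 3 := by
        rw [← Real.exp_nat_mul]; norm_num
      rw [h6]
      have h7 : (2.7 : ℝ) ≤ Real.exp 1 := by
        have := Real.exp_one_gt_d9; linarith
      calc (16 : ℝ) ≤ 2.7 ^ 3 := by norm_num
        _ ≤ _ := pow_le_pow_left₀ (by norm_num) h7 3
    calc ((16 ^ y : ℕ) : ℝ) = (16 : ℝ) ^ y := by push_cast; ring
      _ ≤ Real.exp 3 ^ y := pow_le_pow_left₀ (by norm_num) h5 y
      _ = Real.exp (3 * y) := by rw [← Real.exp_nat_mul]; congr 1; ring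
      _ ≤ _ := Real.exp_le_exp.2 h3
  have h5 : (16 ^ y : ℕ) ≤ RR y δ := Nat.le_floor h4
  have h6 : ((4 ^ y : ℕ) : ℝ) ^ 2 = ((16 ^ y : ℕ) : ℝ) := by
    push_cast
    rw [← pow_mul, mul_comm y 2, pow_mul]
    norm_num
  rw [h6]
  exact_mod_cast h5

/-- the number of bad conductors -/
private theorem ths_bad (hB : S_BadC) (y R Q : ℕ) (S : Finset ℕ) (A₅ E : ℝ) (hy : 1 ≤ y)
    (hQ : 1 ≤ Q) (hQR : (Q : ℝ) ^ 2 ≤ R) (hS : S ⊆ Icc 1 R)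
    (hc : (R : ℝ) / (y : ℝ) ^ E ≤ (S.card : ℝ)) :
    ((badC S ((y : ℝ) ^ (-A₅) * S.card) Q).card : ℝ) ≤ 40 * (y : ℝ) ^ (2 * A₅ + E) := by
  have hy0 : (0 : ℝ) < y := by exact_mod_cast hy
  have hQ1 : (1 : ℝ) ≤ Q := by exact_mod_cast hQ
  have hR : (0 : ℝ) < R := by nlinarith
  have hE : 0 < (y : ℝ) ^ E := Real.rpow_pos_of_pos hy0 _
  have hA : 0 < (y : ℝ) ^ (-A₅) := Real.rpow_pos_of_pos hy0 _
  have hc0 : (0 : ℝ) < (S.card : ℝ) := lt_of_lt_of_le (div_pos hR hE) hc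
  have h1 := hB S R Q ((y : ℝ) ^ (-A₅) * S.card) hQ (by positivity) hS
  set b : ℝ := ((badC S ((y : ℝ) ^ (-A₅) * S.card) Q).card : ℝ) with hb
  have hb0 : 0 ≤ b := Nat.cast_nonneg _
  have h2 : b * ((y : ℝ) ^ (-A₅)) ^ 2 * S.card ≤ 40 * R := by
    have h3 : (b * ((y : ℝ) ^ (-A₅)) ^ 2 * S.card) * S.card ≤ (40 * R) * S.card := by
      calc _ = b * ((y : ℝ) ^ (-A₅) * S.card) ^ 2 := by ring
        _ ≤ 20 * ((R : ℝ) + (Q : ℝ) ^ 2) * S.card := h1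
        _ ≤ _ := mul_le_mul_of_nonneg_right (by linarith) hc0.le
    exact le_of_mul_le_mul_right h3 hc0
  have h3 : b * ((y : ℝ) ^ (-A₅)) ^ 2 * ((R : ℝ) / (y : ℝ) ^ E) ≤ 40 * R :=
    (mul_le_mul_of_nonneg_left hc (by positivity)).trans h2
  have h4 : b * ((y : ℝ) ^ (-A₅)) ^ 2 ≤ 40 * (y : ℝ) ^ E := by
    have h5 : (b * ((y : ℝ) ^ (-A₅)) ^ 2) * R ≤ (40 * (y : ℝ) ^ E) * R := by
      have h6 := mul_le_mul_of_nonneg_right h3 hE.le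
      have h7 : b * ((y : ℝ) ^ (-A₅)) ^ 2 * ((R : ℝ) / (y : ℝ) ^ E) * (y : ℝ) ^ E =
          (b * ((y : ℝ) ^ (-A₅)) ^ 2) * R := by field_simp
      rw [h7] at h6
      linarith
    exact le_of_mul_le_mul_right h5 hR
  have h5 : ((y : ℝ) ^ (-A₅)) ^ 2 * (y : ℝ) ^ (2 * A₅) = 1 := by
    rw [← Real.rpow_natCast, ← Real.rpow_mul hy0.le, ← Real.rpow_add hy0]
    push_cast
    rw [show -A₅ * 2 + 2 * A₅ = 0 by ring, Real.rpow_zero]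
  have h6 : 0 ≤ (y : ℝ) ^ (2 * A₅) := Real.rpow_nonneg hy0.le _
  calc b = b * (((y : ℝ) ^ (-A₅)) ^ 2 * (y : ℝ) ^ (2 * A₅)) := by rw [h5, mul_one]
    _ = (b * ((y : ℝ) ^ (-A₅)) ^ 2) * (y : ℝ) ^ (2 * A₅) := by ring
    _ ≤ (40 * (y : ℝ) ^ E) * (y : ℝ) ^ (2 * A₅) := mul_le_mul_of_nonneg_right h4 h6
    _ = _ := by rw [Real.rpow_add hy0]; ring

/-- **Ths**. -/
theorem t_Ths (h1 : S_Cls) (h2 : S_BadC) (h3 : S_Thin) : S_Ths := by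
  classical
  intro C δ K A₀ ε hC hδ hδ1 hK hA₀ hε
  obtain ⟨B₁, hB₁, hcls⟩ := h1
  obtain ⟨y1, hy1⟩ := hcls δ K A₀ 1 hδ hδ1 (by linarith) hA₀ one_pos
  obtain ⟨y2, hy2⟩ := ths_R δ hδ
  obtain ⟨A₅, hA₅⟩ : ∃ A₅ : ℝ, A₅ = B₁ + A₀ + 2 := ⟨_, rfl⟩
  obtain ⟨A₃, hA₃⟩ : ∃ A₃ : ℝ, A₃ = max 1 ((2 * A₅ + B₁ + 2 * A₀ + 2 + C * ε) / ε) := ⟨_, rfl⟩
  have hA₃1 : 1 ≤ A₃ := by rw [hA₃]; exact le_max_left _ _
  have hA₃2 : 2 * A₅ + B₁ + 2 * A₀ + 2 + C * ε ≤ A₃ * ε := by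
    have h4 : (2 * A₅ + B₁ + 2 * A₀ + 2 + C * ε) / ε ≤ A₃ := by rw [hA₃]; exact le_max_right _ _
    exact (div_le_iff₀ hε).1 h4
  refine ⟨A₃, A₅, hA₃1, by linarith, ⟨B₁, hB₁, hA₅.ge, y1, fun y m b hy hm h2m hmA hb =>
    (hy1 y m b hy hm h2m hmA hb).1⟩, y1 + y2 + 9, ?_⟩
  intro y m S h hy hm h2m hmA hS hh
  have hy9 : 9 ≤ y := by omega
  have hy9' : (9 : ℝ) ≤ y := by exact_mod_cast hy9
  have hy0 : (0 : ℝ) < y := by linarith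
  have hy1' : (1 : ℝ) ≤ y := by linarith
  have hQR := hy2 y (by omega)
  have hQ1 : 1 ≤ 4 ^ y := Nat.one_le_pow _ _ (by norm_num)
  have hC0 : 0 ≤ C := by linarith
  -- the sets of the auxiliary primes
  have hRA : ∀ b : ℕ, RA (RR y δ) (WW y K) m b ⊆ Icc 1 (RR y δ) := by
    intro b r hr
    have h4 := Finset.mem_Ioc.1 (Finset.mem_filter.1 hr).1
    exact Finset.mem_Icc.2 ⟨by omega, h4.2⟩
  -- the bad conductors
  obtain ⟨F, hF⟩ : ∃ F : Finset ℕ, F = ((range m).filter fun b => b.Coprime m).biUnion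
      fun b => (badC (RA (RR y δ) (WW y K) m b) ((y : ℝ) ^ (-A₅) *
        ((RA (RR y δ) (WW y K) m b).card : ℝ)) (4 ^ y)).filter
          fun f : ℕ => (y : ℝ) ^ A₃ < (f : ℝ) := ⟨_, rfl⟩
  have hFc : (F.card : ℝ) ≤ 40 * (y : ℝ) ^ (2 * A₅ + B₁ + 2 * A₀) := by
    have h4 : F.card ≤ ∑ b ∈ (range m).filter (fun b => b.Coprime m),
        ((badC (RA (RR y δ) (WW y K) m b) ((y : ℝ) ^ (-A₅) *
          ((RA (RR y δ) (WW y K) m b).card : ℝ)) (4 ^ y)).filter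
            (fun f : ℕ => (y : ℝ) ^ A₃ < (f : ℝ))).card := by
      rw [hF]; exact Finset.card_biUnion_le
    have h5 : ∀ b ∈ (range m).filter (fun b => b.Coprime m),
        ((((badC (RA (RR y δ) (WW y K) m b) ((y : ℝ) ^ (-A₅) *
          ((RA (RR y δ) (WW y K) m b).card : ℝ)) (4 ^ y)).filter
            (fun f : ℕ => (y : ℝ) ^ A₃ < (f : ℝ))).card : ℕ) : ℝ) ≤
          40 * (y : ℝ) ^ (2 * A₅ + (B₁ + A₀)) := by
      intro b hb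
      have h6 := (hy1 y m b (by omega) hm h2m hmA (Finset.mem_filter.1 hb).2).1
      refine le_trans (by exact_mod_cast Finset.card_filter_le _ _) (ths_bad h2 y (RR y δ) (4 ^ y)
        (RA (RR y δ) (WW y K) m b) A₅ (B₁ + A₀) (by omega) hQ1 hQR (hRA b) h6)
    have h6 := Finset.sum_le_card_nsmul _ _ _ h5
    rw [nsmul_eq_mul] at h6
    have h7 : (((range m).filter (fun b => b.Coprime m)).card : ℝ) ≤ (y : ℝ) ^ A₀ := by
      refine le_trans ?_ hmA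
      exact_mod_cast (Finset.card_filter_le _ _).trans (Finset.card_range m).le
    have h8 : 0 ≤ 40 * (y : ℝ) ^ (2 * A₅ + (B₁ + A₀)) := by positivity
    have h9 : (F.card : ℝ) ≤ ∑ b ∈ (range m).filter (fun b => b.Coprime m),
        ((((badC (RA (RR y δ) (WW y K) m b) ((y : ℝ) ^ (-A₅) *
          ((RA (RR y δ) (WW y K) m b).card : ℝ)) (4 ^ y)).filter
            (fun f : ℕ => (y : ℝ) ^ A₃ < (f : ℝ))).card : ℕ) : ℝ) := by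
      exact_mod_cast h4
    calc (F.card : ℝ) ≤ _ := h9.trans h6
      _ ≤ (y : ℝ) ^ A₀ * (40 * (y : ℝ) ^ (2 * A₅ + (B₁ + A₀))) :=
          mul_le_mul_of_nonneg_right h7 h8
      _ = 40 * ((y : ℝ) ^ A₀ * (y : ℝ) ^ (2 * A₅ + (B₁ + A₀))) := by ring
      _ = _ := by
          rw [← Real.rpow_add hy0]
          congr 2
          ring
  have hFB : (F.card : ℝ) * ((y : ℝ) ^ A₃) ^ (-ε) ≤ ((y : ℝ) ^ C) ^ (-ε) / 2 := by
    rw [← Real.rpow_mul hy0.le, ← Real.rpow_mul hy0.le]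
    have h4 : 0 ≤ (y : ℝ) ^ (A₃ * -ε) := Real.rpow_nonneg hy0.le _
    have h5 : (y : ℝ) ^ (2 * A₅ + B₁ + 2 * A₀) * (y : ℝ) ^ (A₃ * -ε) ≤
        (y : ℝ) ^ (-2 : ℝ) * (y : ℝ) ^ (C * -ε) := by
      rw [← Real.rpow_add hy0, ← Real.rpow_add hy0]
      exact Real.rpow_le_rpow_of_exponent_le hy1' (by nlinarith)
    have h6 : 0 ≤ (y : ℝ) ^ (C * -ε) := Real.rpow_nonneg hy0.le _
    have h7 : 40 * (y : ℝ) ^ (-2 : ℝ) ≤ 1 / 2 := by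
      have h8 : (y : ℝ) ^ (-2 : ℝ) = ((y : ℝ) ^ 2)⁻¹ := by
        rw [Real.rpow_neg hy0.le]; norm_num
      rw [h8, ← div_eq_mul_inv, div_le_iff₀ (by positivity)]
      nlinarith
    calc (F.card : ℝ) * (y : ℝ) ^ (A₃ * -ε)
        ≤ (40 * (y : ℝ) ^ (2 * A₅ + B₁ + 2 * A₀)) * (y : ℝ) ^ (A₃ * -ε) :=
          mul_le_mul_of_nonneg_right hFc h4
      _ = 40 * ((y : ℝ) ^ (2 * A₅ + B₁ + 2 * A₀) * (y : ℝ) ^ (A₃ * -ε)) := by ring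
      _ ≤ 40 * ((y : ℝ) ^ (-2 : ℝ) * (y : ℝ) ^ (C * -ε)) := by linarith
      _ = (40 * (y : ℝ) ^ (-2 : ℝ)) * (y : ℝ) ^ (C * -ε) := by ring
      _ ≤ (1 / 2) * (y : ℝ) ^ (C * -ε) := mul_le_mul_of_nonneg_right h7 h6
      _ = _ := by ring
  -- thinning
  have hg1 : ∀ p ∈ S, h p ∣ ∏ q ∈ tP y m, q ∧ (h p : ℝ) ≤ (y : ℝ) ^ C := by
    intro p hp
    obtain ⟨h4, h5, h6, h7, h8⟩ := hh p hp
    exact ⟨ths_h y m (h p) h6 h7 h8, h5⟩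
  have hg2 : ∀ f ∈ F, f ∣ ∏ q ∈ tP y m, q → (y : ℝ) ^ A₃ ≤ (f : ℝ) := by
    intro f hf _
    rw [hF, Finset.mem_biUnion] at hf
    obtain ⟨b, _, hb⟩ := hf
    exact (Finset.mem_filter.1 hb).2.le
  obtain ⟨Q, hQP, hQ2, hQ3⟩ := h3 (tP y m) S F h ε ((y : ℝ) ^ C) ((y : ℝ) ^ A₃)
    (fun q hq => ((mem_tP y m q).1 hq).2.1) hS hε.le (Real.one_le_rpow hy1' hC0)
    (Real.one_le_rpow hy1' (by linarith)) hg1 hg2 hFB
  have hN0 : ∏ q ∈ Q, q ≤ 4 ^ y := (Nat.le_of_dvd (primorial_pos y) (ths_dvd y m Q hQP)).trans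
    (primorial_le_four_pow y)
  refine ⟨∏ q ∈ Q, q, (squarefree_primorial y).squarefree_of_dvd (ths_dvd y m Q hQP),
    Nat.Coprime.prod_left fun q hq => ?_, ?_, fun l hl hlN => ?_, hQ2, ?_⟩
  · have h4 := (mem_tP y m q).1 (hQP hq)
    exact (Nat.Prime.coprime_iff_not_dvd h4.2.1).2 h4.2.2
  · rw [Real.rpow_natCast]
    exact_mod_cast hN0
  · exact ((mem_tP y m l).1 (hQP (ths_mem y m Q hQP l hl hlN))).1
  · intro b f hb hf hfy χ hχ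
    rw [ths_RA (RR y δ) (WW y K) m b]
    by_contra hcon
    refine hQ3 f ?_ hf
    rw [hF, Finset.mem_biUnion]
    have hf1 : (1 : ℝ) < f := lt_of_le_of_lt (Real.one_le_rpow hy1' (by linarith)) hfy
    have hf2 : 1 < f := by exact_mod_cast hf1
    have hNpos : 0 < ∏ q ∈ Q, q := Finset.prod_pos fun q hq =>
      ((mem_tP y m q).1 (hQP hq)).2.1.pos
    refine ⟨b % m, Finset.mem_filter.2 ⟨Finset.mem_range.2 (Nat.mod_lt _ hm), ?_⟩,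
      Finset.mem_filter.2 ⟨Finset.mem_filter.2 ⟨Finset.mem_Icc.2 ⟨hf2, (Nat.le_of_dvd hNpos
        hf).trans hN0⟩, χ, hχ, (not_le.1 hcon).le⟩, hfy⟩⟩
    have h4 : Nat.gcd (b % m) m = Nat.gcd b m := by
      rw [Nat.gcd_comm b m, Nat.gcd_rec m b]
    exact h4.trans hb

end Pool.Agent.Lib.MP_a260de_nt.CN
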