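import Pool.Agent.Lib.MP_a260de_nt.CN.SpecM

/-!
# MP_a260de_nt, project CN: counting triples by characters
-/

set_option autoImplicit false

namespace Pool.Agent.Lib.MP_a260de_nt.CN

open Finset
open Pool.Agent.Lib.BV (prim BnfStmt EsyStmt ExtStmt MsbStmt LsmStmt)
open Pool.Agent.Results.MP_00e23e_nt (li maxErr)

private lemma tri_prod {m : ℕ} (S₁ S₂ : Finset ℕ) (χ : DirichletCharacter ℂ m) :
    (∑ r ∈ S₁, χ (r : ZMod m)) * (∑ r ∈ S₂, χ (r : ZMod m)) ^ 2 =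
      ∑ t ∈ S₁ ×ˢ (S₂ ×ˢ S₂), χ ((t.1 * t.2.1 * t.2.2 : ℕ) : ZMod m) := by
  rw [pow_two, sum_mul_sum, ← sum_product', sum_mul_sum, ← sum_product']
  refine sum_congr rfl fun t _ => ?_
  push_cast
  rw [map_mul, map_mul, mul_assoc]

open Classical in
private lemma tri_count {m c : ℕ} [NeZero m] (hc : c.Coprime m) (S₁ S₂ : Finset ℕ) :
    (m.totient : ℂ) * (((S₁ ×ˢ (S₂ ×ˢ S₂)).filter
      fun t => t.1 * t.2.1 * t.2.2 ≡ c [MOD m]).card : ℂ) =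
    ∑ χ : DirichletCharacter ℂ m, χ ((c : ZMod m)⁻¹) *
      ((∑ r ∈ S₁, χ (r : ZMod m)) * (∑ r ∈ S₂, χ (r : ZMod m)) ^ 2) := by
  have hu : IsUnit (c : ZMod m) := (ZMod.isUnit_iff_coprime c m).2 hc
  have e1 : ∀ χ : DirichletCharacter ℂ m, χ ((c : ZMod m)⁻¹) *
      ((∑ r ∈ S₁, χ (r : ZMod m)) * (∑ r ∈ S₂, χ (r : ZMod m)) ^ 2) =
      ∑ t ∈ S₁ ×ˢ (S₂ ×ˢ S₂), χ ((c : ZMod m)⁻¹) *
        χ ((t.1 * t.2.1 * t.2.2 : ℕ) : ZMod m) := by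
    intro χ
    rw [tri_prod, mul_sum]
  rw [sum_congr rfl fun χ _ => e1 χ, sum_comm]
  have e2 : ∀ t ∈ S₁ ×ˢ (S₂ ×ˢ S₂), ∑ χ : DirichletCharacter ℂ m, χ ((c : ZMod m)⁻¹) *
      χ ((t.1 * t.2.1 * t.2.2 : ℕ) : ZMod m) =
      if t.1 * t.2.1 * t.2.2 ≡ c [MOD m] then (m.totient : ℂ) else 0 := by
    intro t _
    rw [DirichletCharacter.sum_char_inv_mul_char_eq ℂ hu]
    have h : ((c : ZMod m) = ((t.1 * t.2.1 * t.2.2 : ℕ) : ZMod m)) ↔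
        t.1 * t.2.1 * t.2.2 ≡ c [MOD m] := by
      rw [eq_comm, ZMod.natCast_eq_natCast_iff]
    by_cases h1 : t.1 * t.2.1 * t.2.2 ≡ c [MOD m]
    · rw [if_pos (h.2 h1), if_pos h1]
    · rw [if_neg (fun h2 => h1 (h.1 h2)), if_neg h1]
  rw [sum_congr rfl e2, ← sum_filter, sum_const, nsmul_eq_mul, mul_comm]

private lemma tri_one {m : ℕ} (S : Finset ℕ) (h : ∀ r ∈ S, r.Coprime m) :
    ∑ r ∈ S, (1 : DirichletCharacter ℂ m) (r : ZMod m) = (S.card : ℂ) := by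
  rw [sum_congr rfl fun r hr => MulChar.one_apply ((ZMod.isUnit_iff_coprime r m).2 (h r hr)),
    sum_const, nsmul_eq_mul, mul_one]

theorem t_Tri : S_Tri := by
  intro m c S₁ S₂ hm hc h₁ h₂
  classical
  have : NeZero m := ⟨by omega⟩
  have hu : IsUnit (c : ZMod m) := (ZMod.isUnit_iff_coprime c m).2 hc
  have hui : IsUnit ((c : ZMod m)⁻¹) := by
    obtain ⟨u, hu'⟩ := hu
    rw [← hu', ZMod.inv_coe_unit]
    exact Units.isUnit _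
  have key := tri_count hc S₁ S₂
  rw [← add_sum_erase univ _ (mem_univ (1 : DirichletCharacter ℂ m)), tri_one S₁ h₁,
    tri_one S₂ h₂, MulChar.one_apply hui, one_mul] at key
  have e3 : (((m.totient : ℝ) * (((S₁ ×ˢ (S₂ ×ˢ S₂)).filter
      fun t => t.1 * t.2.1 * t.2.2 ≡ c [MOD m]).card : ℝ) -
        (S₁.card : ℝ) * (S₂.card : ℝ) ^ 2 : ℝ) : ℂ) =
      ∑ χ ∈ (univ : Finset (DirichletCharacter ℂ m)).erase 1, χ ((c : ZMod m)⁻¹) *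
      ((∑ r ∈ S₁, χ (r : ZMod m)) * (∑ r ∈ S₂, χ (r : ZMod m)) ^ 2) := by
    push_cast
    rw [key]
    ring
  rw [← Real.norm_eq_abs, ← Complex.norm_real, e3]
  refine (norm_sum_le _ _).trans ?_
  have e4 : ∀ χ : DirichletCharacter ℂ m, ‖χ ((c : ZMod m)⁻¹) *
      ((∑ r ∈ S₁, χ (r : ZMod m)) * (∑ r ∈ S₂, χ (r : ZMod m)) ^ 2)‖ ≤
      ‖∑ r ∈ S₁, χ (r : ZMod m)‖ * ‖∑ r ∈ S₂, χ (r : ZMod m)‖ ^ 2 := by
    intro χ
    rw [norm_mul, norm_mul, norm_pow]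
    calc ‖χ ((c : ZMod m)⁻¹)‖ * (‖∑ r ∈ S₁, χ (r : ZMod m)‖ * ‖∑ r ∈ S₂, χ (r : ZMod m)‖ ^ 2)
        ≤ 1 * (‖∑ r ∈ S₁, χ (r : ZMod m)‖ * ‖∑ r ∈ S₂, χ (r : ZMod m)‖ ^ 2) :=
          mul_le_mul_of_nonneg_right (DirichletCharacter.norm_le_one χ _) (by positivity)
      _ = _ := one_mul _
  refine (sum_le_sum fun χ _ => e4 χ).trans (le_of_eq (sum_congr ?_ fun _ _ => rfl))
  ext χ
  simp only [mem_erase]

end Pool.Agent.Lib.MP_a260de_nt.CN
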