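import Pool.Agent.Lib.BV.All
import Pool.Agent.Lib.MP_a260de_nt.CN.Top
import Pool.Agent.Lib.MP_a260de_nt.CN.M_BadC
import Pool.Agent.Lib.MP_a260de_nt.CN.M_Cls
import Pool.Agent.Lib.MP_a260de_nt.CN.M_Cn1
import Pool.Agent.Lib.MP_a260de_nt.CN.M_Cn2
import Pool.Agent.Lib.MP_a260de_nt.CN.M_Cs1
import Pool.Agent.Lib.MP_a260de_nt.CN.M_Dcm
import Pool.Agent.Lib.MP_a260de_nt.CN.M_Dep
import Pool.Agent.Lib.MP_a260de_nt.CN.M_Ee
import Pool.Agent.Lib.MP_a260de_nt.CN.M_Err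
import Pool.Agent.Lib.MP_a260de_nt.CN.M_Eul
import Pool.Agent.Lib.MP_a260de_nt.CN.M_Gd
import Pool.Agent.Lib.MP_a260de_nt.CN.M_Lid
import Pool.Agent.Lib.MP_a260de_nt.CN.M_Lift
import Pool.Agent.Lib.MP_a260de_nt.CN.M_MainM
import Pool.Agent.Lib.MP_a260de_nt.CN.M_Mer
import Pool.Agent.Lib.MP_a260de_nt.CN.M_Nch
import Pool.Agent.Lib.MP_a260de_nt.CN.M_Psv
import Pool.Agent.Lib.MP_a260de_nt.CN.M_Rep
import Pool.Agent.Lib.MP_a260de_nt.CN.M_Sml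
import Pool.Agent.Lib.MP_a260de_nt.CN.M_SvG
import Pool.Agent.Lib.MP_a260de_nt.CN.M_Thin
import Pool.Agent.Lib.MP_a260de_nt.CN.M_Ths
import Pool.Agent.Lib.MP_a260de_nt.CN.M_Tri

/-!
MP_a260de_nt, project CN: composition of the parts B and M (helper5). The result is `S_Main`.
-/

set_option autoImplicit false

namespace Pool.Agent.Lib.MP_a260de_nt.CN

open Pool.Agent.Lib

theorem m_Ee : S_Ee := t_Ee BV.aExt
theorem m_Mer : S_Mer := t_Mer BV.aMsb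
theorem m_Dep : S_Dep := t_Dep
theorem m_SvG : S_SvG := t_SvG m_Ee m_Mer m_Dep BV.aBnf BV.aEsy
theorem m_Lid : S_Lid := t_Lid
theorem m_Cls : S_Cls := t_Cls m_SvG m_Mer m_Lid
theorem m_BadC : S_BadC := t_BadC BV.aLsm
theorem m_Thin : S_Thin := t_Thin
theorem m_Ths : S_Ths := t_Ths m_Cls m_BadC m_Thin
theorem m_Cs1 : S_Cs1 := t_Cs1
theorem m_Sml : S_Sml := t_Sml m_Cs1
theorem m_Psv : S_Psv := t_Psv
theorem m_Nch : S_Nch := t_Nch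
theorem m_Eul : S_Eul := t_Eul
theorem m_Err : S_Err := t_Err m_Sml m_Psv m_Nch m_Eul
theorem m_Tri : S_Tri := t_Tri
theorem m_Rep : S_Rep := t_Rep m_Tri m_Err
theorem m_Lift : S_Lift := t_Lift
theorem m_Gd : S_Gd := t_Gd
theorem m_Dcm : S_Dcm := t_Dcm
theorem m_Cn1 : S_Cn1 := t_Cn1
theorem m_Cn2 : S_Cn2 := t_Cn2

theorem m_MainM (h : S_Pg) : S_MainM := t_MainM h m_Ths m_Cls m_Rep m_Lift m_Gd

theorem main_of_Pg (h : S_Pg) : S_Main := m_MainM h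

end Pool.Agent.Lib.MP_a260de_nt.CN
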