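import Pool.Agent.Lib.MP_a260de_nt.CN.SpecM

/-!
# MP_a260de_nt, project CN, M_Err: the contribution of the nontrivial characters
-/

set_option autoImplicit false

namespace Pool.Agent.Lib.MP_a260de_nt.CN

open Finset
open Pool.Agent.Lib.BV (prim)

private theorem err_gg (N f : ℕ) (h : ∀ l : ℕ, l.Prime → l ∣ N → 200 ≤ l) (hf : f ∣ N) :
    1 ≤ gg f := by
  unfold gg
  refine Finset.prod_induction _ (fun x : ℝ => 1 ≤ x)
    (fun a b ha hb => one_le_mul_of_one_le_of_one_le ha hb) le_rfl fun l hl => ?_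
  have h1 := h l (Nat.prime_of_mem_primeFactors hl) ((Nat.dvd_of_mem_primeFactors hl).trans hf)
  have h2 : (200 : ℝ) ≤ l := by exact_mod_cast h1
  linarith

private theorem err_cube (a b : ℝ) (ha : 0 ≤ a) (hb : 0 ≤ b) :
    (a + b) ^ 3 ≤ 4 * (a ^ 3 + b ^ 3) := by
  have h1 : 0 ≤ (a + b) * (a - b) ^ 2 := mul_nonneg (add_nonneg ha hb) (sq_nonneg _)
  nlinarith

open Classical in
private theorem err_small (hSml : S_Sml) (hNch : S_Nch) (N B : ℕ) (δ : ℝ) (S₁ S₂ : Finset ℕ)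
    (hN : Squarefree N) (h200 : ∀ l : ℕ, l.Prime → l ∣ N → 200 ≤ l)
    (h1 : ∀ r ∈ S₁, 1 ≤ r ∧ r.Coprime N ∧ (r - 1).Coprime N)
    (h2 : ∀ r ∈ S₂, 1 ≤ r ∧ r.Coprime N ∧ (r - 1).Coprime N) (hδ : 0 ≤ δ)
    (hcl : ∀ S : Finset ℕ, S = S₁ ∨ S = S₂ → ∀ f c : ℕ, f ∣ N → f ≤ B → 1 ≤ c → c.Coprime f →
      (c - 1).Coprime f →
      |((S.filter fun r => r ≡ c [MOD f]).card : ℝ) - S.card / gg f| ≤ δ * S.card)
    (χ : DirichletCharacter ℂ N) (hχ : χ ≠ 1) (hB : χ.conductor ≤ B) :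
    ‖∑ r ∈ S₁, χ (r : ZMod N)‖ * ‖∑ r ∈ S₂, χ (r : ZMod N)‖ ^ 2 ≤
      (S₁.card : ℝ) * (S₂.card : ℝ) ^ 2 * (4 * ((1 / gg χ.conductor) ^ 3 +
        ((χ.conductor : ℝ) * δ) ^ 3)) := by
  have hN0 : N ≠ 0 := hN.ne_zero
  have : NeZero N := ⟨hN0⟩
  have hf : χ.conductor ∣ N := DirichletCharacter.conductor_dvd_level χ
  have hf0 : χ.conductor ≠ 0 := DirichletCharacter.conductor_ne_zero χ
  have hf1 : χ.conductor ≠ 1 := fun h => hχ ((DirichletCharacter.eq_one_iff_conductor_eq_one).2 h)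
  have hf2 : 2 ≤ χ.conductor := by omega
  obtain ⟨χ₁, hχ₁, hs⟩ := (hNch N χ.conductor (Nat.pos_of_ne_zero hN0)).2 χ rfl
  have hp : χ₁.IsPrimitive := (Finset.mem_filter.1 hχ₁).2
  have hg : 1 ≤ gg χ.conductor := err_gg N _ h200 hf
  have key : ∀ S : Finset ℕ, S = S₁ ∨ S = S₂ →
      (∀ r ∈ S, 1 ≤ r ∧ r.Coprime N ∧ (r - 1).Coprime N) →
      ‖∑ r ∈ S, χ (r : ZMod N)‖ ≤ (S.card : ℝ) * (1 / gg χ.conductor +
        (χ.conductor : ℝ) * δ) := by
    intro S hS hS'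
    rw [hs S fun r hr => (hS' r hr).2.1]
    refine (hSml χ.conductor χ₁ S δ hf2 hp hδ (by linarith) (fun r hr => ⟨(hS' r hr).1,
      Nat.Coprime.coprime_dvd_right hf (hS' r hr).2.1,
      Nat.Coprime.coprime_dvd_right hf (hS' r hr).2.2⟩)
      (fun c hc1 hc2 hc3 => hcl S hS χ.conductor c hf hB hc1 hc2 hc3)).trans (le_of_eq ?_)
    ring
  have k1 := key S₁ (Or.inl rfl) h1
  have k2 := key S₂ (Or.inr rfl) h2
  have ha : 0 ≤ 1 / gg χ.conductor := by positivity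
  have hb : 0 ≤ (χ.conductor : ℝ) * δ := mul_nonneg (Nat.cast_nonneg _) hδ
  calc ‖∑ r ∈ S₁, χ (r : ZMod N)‖ * ‖∑ r ∈ S₂, χ (r : ZMod N)‖ ^ 2
      ≤ ((S₁.card : ℝ) * (1 / gg χ.conductor + (χ.conductor : ℝ) * δ)) *
        ((S₂.card : ℝ) * (1 / gg χ.conductor + (χ.conductor : ℝ) * δ)) ^ 2 :=
        mul_le_mul k1 (pow_le_pow_left₀ (norm_nonneg _) k2 2) (by positivity) (by positivity)
    _ = (S₁.card : ℝ) * (S₂.card : ℝ) ^ 2 * (1 / gg χ.conductor +
        (χ.conductor : ℝ) * δ) ^ 3 := by ring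
    _ ≤ _ := mul_le_mul_of_nonneg_left (err_cube _ _ ha hb) (by positivity)

open Classical in
/-- **Err**. -/
theorem t_Err (hSml : S_Sml) (hPsv : S_Psv) (hNch : S_Nch) (hEul : S_Eul) : S_Err := by
  intro N R B δ τ S₁ S₂ hN h200 hS2 h1 h2 hNR hB hδ hτ hcl hlg hBδ hτR
  have hN0 : N ≠ 0 := hN.ne_zero
  have hN1 : 1 ≤ N := Nat.pos_of_ne_zero hN0
  have : NeZero N := ⟨hN0⟩
  have hn1 : (0 : ℝ) ≤ (S₁.card : ℝ) := Nat.cast_nonneg _
  have hn2 : (0 : ℝ) ≤ (S₂.card : ℝ) := Nat.cast_nonneg _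
  have hBr : (1 : ℝ) ≤ B := by exact_mod_cast hB
  -- small conductors
  have P1 : ∑ χ ∈ ((univ : Finset (DirichletCharacter ℂ N)).filter (fun χ => χ ≠ 1)).filter
      (fun χ => χ.conductor ≤ B), ‖∑ r ∈ S₁, χ (r : ZMod N)‖ *
        ‖∑ r ∈ S₂, χ (r : ZMod N)‖ ^ 2 ≤
      (S₁.card : ℝ) * (S₂.card : ℝ) ^ 2 * (4 * (1 / 40 + 1 / 1000)) := by
    have hmaps : ∀ χ ∈ ((univ : Finset (DirichletCharacter ℂ N)).filter
        (fun χ => χ ≠ 1)).filter (fun χ => χ.conductor ≤ B),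
        χ.conductor ∈ (N.divisors.erase 1).filter (fun f => f ≤ B) := by
      intro χ hχ
      obtain ⟨h3, h4⟩ := Finset.mem_filter.1 hχ
      have h5 : χ ≠ 1 := (Finset.mem_filter.1 h3).2
      refine Finset.mem_filter.2 ⟨Finset.mem_erase.2 ⟨fun h => h5
        ((DirichletCharacter.eq_one_iff_conductor_eq_one).2 h), Nat.mem_divisors.2
          ⟨DirichletCharacter.conductor_dvd_level χ, hN0⟩⟩, h4⟩
    rw [← Finset.sum_fiberwise_of_maps_to hmaps]
    have hfib : ∀ f ∈ (N.divisors.erase 1).filter (fun f => f ≤ B),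
        ∑ χ ∈ (((univ : Finset (DirichletCharacter ℂ N)).filter
          (fun χ => χ ≠ 1)).filter (fun χ => χ.conductor ≤ B)).filter
            (fun χ => χ.conductor = f), ‖∑ r ∈ S₁, χ (r : ZMod N)‖ *
              ‖∑ r ∈ S₂, χ (r : ZMod N)‖ ^ 2 ≤
        (f.totient : ℝ) * ((S₁.card : ℝ) * (S₂.card : ℝ) ^ 2 * (4 * ((1 / gg f) ^ 3 +
          ((f : ℝ) * δ) ^ 3))) := by
      intro f hf
      have hfN : f ∣ N := Nat.dvd_of_mem_divisors (Finset.mem_erase.1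
        (Finset.mem_filter.1 hf).1).2
      have hg : 1 ≤ gg f := err_gg N f h200 hfN
      have hnn : 0 ≤ (S₁.card : ℝ) * (S₂.card : ℝ) ^ 2 * (4 * ((1 / gg f) ^ 3 +
          ((f : ℝ) * δ) ^ 3)) := by positivity
      have h3 := Finset.sum_le_card_nsmul ((((univ : Finset (DirichletCharacter ℂ N)).filter
          (fun χ => χ ≠ 1)).filter (fun χ => χ.conductor ≤ B)).filter
            (fun χ => χ.conductor = f)) (fun χ => ‖∑ r ∈ S₁, χ (r : ZMod N)‖ *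
              ‖∑ r ∈ S₂, χ (r : ZMod N)‖ ^ 2)
          ((S₁.card : ℝ) * (S₂.card : ℝ) ^ 2 * (4 * ((1 / gg f) ^ 3 +
            ((f : ℝ) * δ) ^ 3))) (by
        intro χ hχ
        obtain ⟨h4, h5⟩ := Finset.mem_filter.1 hχ
        obtain ⟨h6, h7⟩ := Finset.mem_filter.1 h4
        have h8 := err_small hSml hNch N B δ S₁ S₂ hN h200 h1 h2 hδ hcl χ
          (Finset.mem_filter.1 h6).2 h7
        rw [h5] at h8
        exact h8)
      rw [nsmul_eq_mul] at h3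
      refine h3.trans (mul_le_mul_of_nonneg_right ?_ hnn)
      refine le_trans ?_ (hNch N f hN1).1
      exact_mod_cast Finset.card_le_card (fun χ hχ => Finset.mem_filter.2 ⟨Finset.mem_univ _,
        (Finset.mem_filter.1 hχ).2⟩)
    refine (Finset.sum_le_sum hfib).trans ?_
    have hA : ∑ f ∈ (N.divisors.erase 1).filter (fun f => f ≤ B), (f.totient : ℝ) *
        (1 / gg f) ^ 3 ≤ 1 / 40 := by
      refine le_trans ?_ (hEul N hN h200)
      have h3 : ∀ f ∈ N.divisors.erase 1, (0 : ℝ) ≤ (f.totient : ℝ) / gg f ^ 3 := by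
        intro f hf
        have hg : 1 ≤ gg f := err_gg N f h200 (Nat.dvd_of_mem_divisors
          (Finset.mem_erase.1 hf).2)
        positivity
      refine le_trans (le_of_eq ?_) (Finset.sum_le_sum_of_subset_of_nonneg
        (Finset.filter_subset (fun f => f ≤ B) (N.divisors.erase 1)) fun f hf _ => h3 f hf)
      refine Finset.sum_congr rfl fun f _ => ?_
      rw [one_div, inv_pow]
      rfl
    have hC : ∑ f ∈ (N.divisors.erase 1).filter (fun f => f ≤ B), (f.totient : ℝ) *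
        ((f : ℝ) * δ) ^ 3 ≤ 1 / 1000 := by
      have h3 : ∀ f ∈ (N.divisors.erase 1).filter (fun f => f ≤ B), (f.totient : ℝ) *
          ((f : ℝ) * δ) ^ 3 ≤ (B : ℝ) * ((B : ℝ) * δ) ^ 3 := by
        intro f hf
        have h4 : f ≤ B := (Finset.mem_filter.1 hf).2
        have h5 : (f : ℝ) ≤ B := by exact_mod_cast h4
        have h6 : (f.totient : ℝ) ≤ B := by exact_mod_cast (Nat.totient_le f).trans h4
        have h7 : (f : ℝ) * δ ≤ (B : ℝ) * δ := mul_le_mul_of_nonneg_right h5 hδ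
        exact mul_le_mul h6 (pow_le_pow_left₀ (by positivity) h7 3) (by positivity)
          (by positivity)
      have h4 := Finset.sum_le_card_nsmul _ _ _ h3
      have h5 : (((N.divisors.erase 1).filter (fun f => f ≤ B)).card : ℝ) ≤ B := by
        have h6 : (N.divisors.erase 1).filter (fun f => f ≤ B) ⊆ Finset.Icc 1 B := by
          intro f hf
          obtain ⟨h7, h8⟩ := Finset.mem_filter.1 hf
          have h9 : f ∈ N.divisors := (Finset.mem_erase.1 h7).2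
          exact Finset.mem_Icc.2 ⟨Nat.pos_of_mem_divisors h9, h8⟩
        have h7 := Finset.card_le_card h6
        rw [Nat.card_Icc, Nat.add_sub_cancel] at h7
        exact_mod_cast h7
      rw [nsmul_eq_mul] at h4
      have h6 : 0 ≤ (B : ℝ) * ((B : ℝ) * δ) ^ 3 := by positivity
      have h7 : (B : ℝ) ^ 2 * δ ≤ 1 / 10 := by linarith
      have h8 : ((B : ℝ) ^ 2 * δ) ^ 3 ≤ (1 / 10) ^ 3 :=
        pow_le_pow_left₀ (by positivity) h7 3
      calc _ ≤ (((N.divisors.erase 1).filter (fun f => f ≤ B)).card : ℝ) *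
            ((B : ℝ) * ((B : ℝ) * δ) ^ 3) := h4
        _ ≤ (B : ℝ) * ((B : ℝ) * ((B : ℝ) * δ) ^ 3) := mul_le_mul_of_nonneg_right h5 h6
        _ = (B : ℝ) ^ 5 * δ ^ 3 * 1 := by ring
        _ ≤ (B : ℝ) ^ 5 * δ ^ 3 * B := mul_le_mul_of_nonneg_left hBr (by positivity)
        _ = ((B : ℝ) ^ 2 * δ) ^ 3 := by ring
        _ ≤ 1 / 1000 := by linarith
    have hsum : ∑ f ∈ (N.divisors.erase 1).filter (fun f => f ≤ B), (f.totient : ℝ) *
        ((S₁.card : ℝ) * (S₂.card : ℝ) ^ 2 * (4 * ((1 / gg f) ^ 3 + ((f : ℝ) * δ) ^ 3))) =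
        (S₁.card : ℝ) * (S₂.card : ℝ) ^ 2 * (4 * (
          (∑ f ∈ (N.divisors.erase 1).filter (fun f => f ≤ B), (f.totient : ℝ) *
            (1 / gg f) ^ 3) +
          ∑ f ∈ (N.divisors.erase 1).filter (fun f => f ≤ B), (f.totient : ℝ) *
            ((f : ℝ) * δ) ^ 3)) := by
      rw [← Finset.sum_add_distrib, Finset.mul_sum, Finset.mul_sum]
      refine Finset.sum_congr rfl fun f _ => ?_
      ring
    rw [hsum]
    refine mul_le_mul_of_nonneg_left ?_ (by positivity)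
    linarith
  -- large conductors
  have P2 : ∑ χ ∈ ((univ : Finset (DirichletCharacter ℂ N)).filter (fun χ => χ ≠ 1)).filter
      (fun χ => ¬ χ.conductor ≤ B), ‖∑ r ∈ S₁, χ (r : ZMod N)‖ *
        ‖∑ r ∈ S₂, χ (r : ZMod N)‖ ^ 2 ≤
      (S₁.card : ℝ) * (S₂.card : ℝ) ^ 2 * (1 / 10) := by
    have h3 : ∀ χ ∈ ((univ : Finset (DirichletCharacter ℂ N)).filter
        (fun χ => χ ≠ 1)).filter (fun χ => ¬ χ.conductor ≤ B),
        ‖∑ r ∈ S₁, χ (r : ZMod N)‖ * ‖∑ r ∈ S₂, χ (r : ZMod N)‖ ^ 2 ≤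
          (τ * S₁.card) * ‖∑ r ∈ S₂, χ (r : ZMod N)‖ ^ 2 := by
      intro χ hχ
      have h4 : B < χ.conductor := not_le.1 (Finset.mem_filter.1 hχ).2
      obtain ⟨χ₁, hχ₁, hs⟩ := (hNch N χ.conductor hN1).2 χ rfl
      refine mul_le_mul_of_nonneg_right ?_ (by positivity)
      rw [hs S₁ fun r hr => (h1 r hr).2.1]
      exact hlg χ.conductor (DirichletCharacter.conductor_dvd_level χ) h4 χ₁ hχ₁
    refine (Finset.sum_le_sum h3).trans ?_
    rw [← Finset.mul_sum]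
    have h4 : ∑ χ ∈ ((univ : Finset (DirichletCharacter ℂ N)).filter
        (fun χ => χ ≠ 1)).filter (fun χ => ¬ χ.conductor ≤ B),
          ‖∑ r ∈ S₂, χ (r : ZMod N)‖ ^ 2 ≤
        ∑ χ : DirichletCharacter ℂ N, ‖∑ r ∈ S₂, χ (r : ZMod N)‖ ^ 2 :=
      Finset.sum_le_sum_of_subset_of_nonneg (Finset.subset_univ _) fun χ _ _ => by positivity
    have h5 := hPsv N R S₂ hN1 hS2 fun r hr => (h2 r hr).2.1
    have hNr : (0 : ℝ) < N := by exact_mod_cast hN1
    have hNRr : (N : ℝ) ≤ R := by exact_mod_cast hNR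
    have h6 : (N.totient : ℝ) * (S₂.card * ((R : ℝ) / N + 1)) ≤ 2 * R * S₂.card := by
      have h7 : (N.totient : ℝ) ≤ N := by exact_mod_cast Nat.totient_le N
      have h8 : 0 ≤ (S₂.card : ℝ) * ((R : ℝ) / N + 1) := by positivity
      calc (N.totient : ℝ) * (S₂.card * ((R : ℝ) / N + 1))
          ≤ N * (S₂.card * ((R : ℝ) / N + 1)) := mul_le_mul_of_nonneg_right h7 h8
        _ = (R + N) * S₂.card := by field_simp
        _ ≤ 2 * R * S₂.card := mul_le_mul_of_nonneg_right (by linarith) hn2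
    have h9 : 0 ≤ τ * (S₁.card : ℝ) := mul_nonneg hτ hn1
    calc τ * (S₁.card : ℝ) * _ ≤ τ * (S₁.card : ℝ) * (2 * R * S₂.card) :=
          mul_le_mul_of_nonneg_left (h4.trans (h5.trans h6)) h9
      _ = (S₁.card : ℝ) * (S₂.card : ℝ) * (1 / 10 * (20 * (τ * R))) := by ring
      _ ≤ (S₁.card : ℝ) * (S₂.card : ℝ) * (1 / 10 * (S₂.card : ℝ)) :=
          mul_le_mul_of_nonneg_left (by linarith) (by positivity)
      _ = _ := by ring
  have h10 : 0 ≤ (S₁.card : ℝ) * (S₂.card : ℝ) ^ 2 := by positivity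
  have hsplit := Finset.sum_filter_add_sum_filter_not
    ((univ : Finset (DirichletCharacter ℂ N)).filter (fun χ => χ ≠ 1))
    (fun χ => χ.conductor ≤ B) (fun χ => ‖∑ r ∈ S₁, χ (r : ZMod N)‖ *
      ‖∑ r ∈ S₂, χ (r : ZMod N)‖ ^ 2)
  refine (le_of_eq ((Finset.sum_congr ?_ fun _ _ => rfl).trans hsplit.symm)).trans
    ((add_le_add P1 P2).trans ?_)
  · ext χ
    simp only [Finset.mem_filter, Finset.mem_univ, true_and]
  · linarith

end Pool.Agent.Lib.MP_a260de_nt.CN
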