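import Pool.Agent.Lib.MP_a260de_nt.CN.SpecM

/-!
# MP_a260de_nt, project CN, module Sml
-/

set_option autoImplicit false

namespace Pool.Agent.Lib.MP_a260de_nt.CN

open Finset

theorem t_Sml (h1 : S_Cs1) : S_Sml := by
  classical
  intro f χ S δ hf hχ hδ hg hS hcl
  set G := (range f).filter (fun c => c.Coprime f ∧ (c - 1).Coprime f) with hG
  have hcs : ‖∑ c ∈ G, χ (c : ZMod f)‖ ≤ 1 := h1 f χ hf hχ
  -- reduction mod f maps S to G
  have hmaps : ∀ r ∈ S, r % f ∈ G := by
    intro r hr
    obtain ⟨hr1, hr2, hr3⟩ := hS r hr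
    rw [hG, mem_filter, mem_range]
    refine ⟨Nat.mod_lt _ (by omega), ?_, ?_⟩
    · exact Nat.Coprime.symm (by
        rw [Nat.coprime_iff_gcd_eq_one, Nat.gcd_comm, ← Nat.gcd_rec]
        rw [Nat.gcd_comm]
        exact hr2)
    · have hpos : 1 ≤ r % f := by
        rcases Nat.eq_zero_or_pos (r % f) with h | h
        · exfalso
          have h2 : f ∣ r := Nat.dvd_of_mod_eq_zero h
          have h3 : f = 1 := Nat.eq_one_of_dvd_coprimes hr2 h2 (dvd_refl f)
          omega
        · exact h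
      have hmod : r % f - 1 ≡ r - 1 [MOD f] := by
        have h2 : r % f ≡ r [MOD f] := Nat.mod_modEq r f
        exact Nat.ModEq.sub hpos hr1 h2 (Nat.ModEq.refl 1)
      have := hmod.gcd_eq
      rw [Nat.coprime_iff_gcd_eq_one, this]
      exact hr3
  have hfib : ∀ c ∈ G, S.filter (fun r => r % f = c) = S.filter (fun r => r ≡ c [MOD f]) := by
    intro c hc
    rw [hG, mem_filter, mem_range] at hc
    apply Finset.filter_congr
    intro r _
    unfold Nat.ModEq
    rw [Nat.mod_eq_of_lt hc.1]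
  have hsum : ∑ r ∈ S, χ (r : ZMod f) =
      ∑ c ∈ G, χ (c : ZMod f) * (((S.filter (fun r => r ≡ c [MOD f])).card : ℝ) : ℂ) := by
    rw [← Finset.sum_fiberwise_of_maps_to hmaps]
    apply Finset.sum_congr rfl
    intro c hc
    rw [hfib c hc]
    have h2 : ∀ r ∈ S.filter (fun r => r ≡ c [MOD f]), χ (r : ZMod f) = χ (c : ZMod f) := by
      intro r hr
      rw [mem_filter] at hr
      rw [(ZMod.natCast_eq_natCast_iff r c f).2 hr.2]
    rw [Finset.sum_congr rfl h2, Finset.sum_const, nsmul_eq_mul, mul_comm]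
    push_cast
    rfl
  have hsplit : ∑ r ∈ S, χ (r : ZMod f) =
      (((S.card : ℝ) / gg f : ℝ) : ℂ) * ∑ c ∈ G, χ (c : ZMod f) +
        ∑ c ∈ G, χ (c : ZMod f) *
          ((((S.filter (fun r => r ≡ c [MOD f])).card : ℝ) - S.card / gg f : ℝ) : ℂ) := by
    rw [hsum, mul_sum, ← Finset.sum_add_distrib]
    apply Finset.sum_congr rfl
    intro c _
    push_cast
    ring
  rw [hsplit]
  refine (norm_add_le _ _).trans (add_le_add ?_ ?_)
  · rw [norm_mul, Complex.norm_real, Real.norm_eq_abs, abs_of_nonneg (by positivity)]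
    calc (S.card : ℝ) / gg f * ‖∑ c ∈ G, χ (c : ZMod f)‖ ≤ (S.card : ℝ) / gg f * 1 :=
          mul_le_mul_of_nonneg_left hcs (by positivity)
      _ = (S.card : ℝ) / gg f := mul_one _
  · refine (norm_sum_le _ _).trans ?_
    have h3 : ∀ c ∈ G, ‖χ (c : ZMod f) *
        ((((S.filter (fun r => r ≡ c [MOD f])).card : ℝ) - S.card / gg f : ℝ) : ℂ)‖ ≤ δ * S.card := by
      intro c hc
      rw [hG, mem_filter, mem_range] at hc
      have hc1 : 1 ≤ c := by
        rcases Nat.eq_zero_or_pos c with h | h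
        · have h4 := hc.2.1
          rw [h, Nat.coprime_zero_left] at h4
          omega
        · exact h
      rw [norm_mul, Complex.norm_real, Real.norm_eq_abs]
      calc ‖χ (c : ZMod f)‖ * |((S.filter (fun r => r ≡ c [MOD f])).card : ℝ) - S.card / gg f|
          ≤ 1 * (δ * S.card) :=
            mul_le_mul (χ.norm_le_one _) (hcl c hc1 hc.2.1 hc.2.2) (abs_nonneg _) zero_le_one
        _ = δ * S.card := one_mul _
    refine (Finset.sum_le_sum h3).trans ?_
    rw [Finset.sum_const, nsmul_eq_mul]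
    have h5 : (G.card : ℝ) ≤ f := by
      have : G.card ≤ f := by
        calc G.card ≤ (range f).card := Finset.card_filter_le _ _
          _ = f := Finset.card_range f
      exact_mod_cast this
    have h6 : 0 ≤ δ * (S.card : ℝ) := mul_nonneg hδ (Nat.cast_nonneg _)
    calc (G.card : ℝ) * (δ * S.card) ≤ f * (δ * S.card) := mul_le_mul_of_nonneg_right h5 h6
      _ = f * δ * S.card := by ring

end Pool.Agent.Lib.MP_a260de_nt.CN
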