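import Pool.Agent.Lib.MP_a260de_nt.CN.Top
import Pool.Agent.Lib.BV.SpecE
import Pool.Agent.Lib.TP.SpecS

/-!
MP_a260de_nt, PROJECT CN, part A (helper58): smooth shifted primes, S_A = ShiftedSmooth (415/1000).

RULES. Module Xyz: file Pool/Agent/Lib/MP_a260de_nt/CN/A/Xyz.lean, first line `import Pool.Agent.Lib.MP_a260de_nt.CN.SpecA`
(plus the library files named in the docstring), then `namespace Pool.Agent.Lib.MP_a260de_nt.CN.A`, auxiliary lemmas private or in a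
namespace of your own (CN.A.Xyz), final theorem `theorem tXyz (h1 : S_...) ... : S_Xyz`; the statements listed under Uses are
hypotheses of your theorem, in this order. Do not import other modules of the directory A. No sorry, no congr!, module below 60 s.

PLAN. z real, Y = ⌊z^β⌋, s in (Y/2, Y], e prime in (E0, 2E0], E0 = ⌊z^(1/2-β-η)⌋. N1 = #{(p,e,s) : p ≤ z prime, e s | p - 1} from
Bombieri-Vinogradov (e s ≤ 2 z^(1/2-η)); N2 = the triples for which p - 1 = e s k l with a prime l > z^β, from Selberg's sieve in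
the variable s (interval of length z^β) for fixed e, k, l. N2/N1 ≤ 2(1/2-β+η)/β² + o(1) = 0.988 < 1 for β = 0.415. The other
triples have all prime factors of p - 1 at most z^β, and a prime p occurs in z^o(1) triples only.
-/

namespace Pool.Agent.Lib.MP_a260de_nt.CN.A

open Finset Pool.Agent.Results.MP_00e23e_nt

/-! ### Sums with Euler's function -/

/-- the constant c0 = ∑ μ²(d)/(d φ(d)) -/
noncomputable def c0 : ℝ := ∑' d : ℕ, (if Squarefree d then 1 / ((d : ℝ) * (d.totient : ℝ)) else 0)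

/-- Module Idp (60 lines). Uses: nothing.
Proof. n/φ(n) = ∏_{p | n} p/(p-1) = ∏_{p | n} (1 + 1/(p-1)) (Nat.totient_eq_mul_prod_factors, Nat.totient_eq_div_primeFactors_mul), and the
product is expanded over the subsets of n.primeFactors (Finset.prod_one_add / prod_add, powerset); the squarefree divisors d of n
correspond to the subsets (Nat.sum_divisors_filter_squarefree), φ(∏ P) = ∏ (p-1). -/
def S_Idp : Prop := ∀ n : ℕ, 1 ≤ n →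
  (n : ℝ) / (n.totient : ℝ) = ∑ d ∈ n.divisors.filter Squarefree, 1 / (d.totient : ℝ)

/-- Module C0s (60 lines). Uses: nothing.
Proof. For squarefree d: φ(d)² ≥ d/2 (multiplicative: (p-1)² ≥ p for p ≥ 3, and 1 ≥ 2/2 for p = 2; e.g. by Nat.recOnMul or
as a product over d.primeFactors: φ(d) = ∏ (p-1), d = ∏ p), so the term is ≤ √2 d^(-3/2): summable (Real.summable_one_div_nat_rpow). The
term d = 1 is 1 and all terms are ≥ 0 (Summable.sum_le_tsum for {1}). -/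
def S_C0s : Prop :=
  (Summable fun d : ℕ => (if Squarefree d then 1 / ((d : ℝ) * (d.totient : ℝ)) else 0)) ∧ 1 ≤ c0

/-- Module PhU (80 lines). Uses: Idp, C0s.
Proof. 1/φ(k) = (1/k) ∑_{d | k squarefree} 1/φ(d) (Idp). Exchange the sums, k = d m: the left side is
∑_{d ≤ K squarefree} 1/(d φ(d)) ∑_{m ≤ K/d} 1/m ≤ (1 + log K) ∑_{d ≤ K squarefree} 1/(d φ(d)) ≤ (1 + log K) c0 (harmonic sums:
harmonic_le_one_add_log; sum_le_tsum). -/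
def S_PhU : Prop := ∀ K : ℕ, 1 ≤ K → ∑ k ∈ Icc 1 K, 1 / (k.totient : ℝ) ≤ c0 * (1 + Real.log K)

/-- Module PhL (120 lines). Uses: Idp, C0s.
Proof. Let 0 < ε < 1 (otherwise the left side is ≤ 0). By C0s there is D with ∑_{d ≤ D squarefree} 1/(d φ(d)) ≥ (1 - ε/2) c0. With Idp the sum is
≥ ∑_{d ≤ D squarefree} (1/φ(d)) ∑_{s in (Y/2,Y], d | s} 1/s, and the inner sum is (1/d) ∑_{A < m ≤ B} 1/m with A = (Y/2)/d, B = Y/d
(natural division; d m > Y/2 iff m > A), ≥ (1/d) log((B+1)/(A+1)) (1/m ≥ log((m+1)/m)), (B+1)/(A+1) ≥ (Y/d)/(Y/(2d) + 1) = 2/(1 + 2d/Y),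
so the logarithm is ≥ log 2 - 2d/Y ≥ (1 - ε/2) log 2 for d ≤ D, Y ≥ Y0(D, ε). (1 - ε/2)² ≥ 1 - ε. -/
def S_PhL : Prop := ∀ ε : ℝ, 0 < ε → ∃ Y0 : ℕ, ∀ Y : ℕ, Y0 ≤ Y →
  (1 - ε) * c0 * Real.log 2 ≤ ∑ s ∈ Ioc (Y / 2) Y, 1 / (s.totient : ℝ)

/-- Module In2 (40 lines). Uses: nothing.
Proof. 1/s ≤ log(s/(s-1)), so the sum is ≤ log(Y/(Y/2)) with natural division Y/2 ≥ (Y-1)/2, that is ≤ log 2 + log(Y/(Y-1)) ≤ log 2 + 1/(Y-1). -/
def S_In2 : Prop := ∀ ε : ℝ, 0 < ε → ∃ Y0 : ℕ, ∀ Y : ℕ, Y0 ≤ Y →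
  ∑ s ∈ Ioc (Y / 2) Y, 1 / (s : ℝ) ≤ (1 + ε) * Real.log 2

/-! ### Selberg's sieve, moduli coprime to a -/

/-- G_a(E) = ∑ 1/φ(k), k ≤ E squarefree and coprime to a -/
noncomputable def Ga (a E : ℕ) : ℝ :=
  ∑ k ∈ (Icc 1 E).filter (fun k => Squarefree k ∧ k.Coprime a), 1 / (k.totient : ℝ)

/-- Selberg's weights -/
noncomputable def sla (a E d : ℕ) : ℝ :=
  (d : ℝ) * ((ArithmeticFunction.moebius d : ℤ) : ℝ) / Ga a E *
    ∑ k ∈ (Icc 1 E).filter (fun k => Squarefree k ∧ k.Coprime a ∧ d ∣ k), 1 / (k.totient : ℝ)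

/-- Module GaL (100 lines). Uses: Idp. Imports also Pool.Agent.Lib.TP.Sga (TP.tSga : TP.SgaStmt, that is log E ≤ TP.Gs E).
Proof. Gs E = ∑_{k ≤ E squarefree} 1/φ(k). Put l = gcd(k, a), k = l j, then j ≤ E is squarefree and coprime to a (a prime dividing j and a would
divide l, k is squarefree), l is a squarefree divisor of a, φ(k) = φ(l) φ(j), and k ↦ (l, j) is injective: Gs E ≤ ∑_{l | a squarefree} (1/φ(l)) Ga a E
= (a/φ(a)) Ga a E (Idp). -/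
def S_GaL : Prop := ∀ a E : ℕ, 1 ≤ a → 1 ≤ E → (a.totient : ℝ) / (a : ℝ) * Real.log E ≤ Ga a E

/-- Module GaW (170 lines). Uses: nothing. Adapt Pool/Agent/Lib/TP/Sla.lean (the case a = 1).
Proof. Ga ≥ 1 > 0 (k = 1). sla a E 1 = Ga/Ga = 1. If d is not squarefree: μ(d) = 0. If d is not coprime to a: no k is coprime to a and divisible by d. Let
d be squarefree and coprime to a, S = ∑_{j ≤ E/d, squarefree, coprime to d and to a} 1/φ(j). The k of the sum are the k = d j, φ(k) = φ(d) φ(j):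
|sla a E d| = d S/(φ(d) Ga). Lower bound for Ga: for l | d the numbers k = l j (≤ E) are squarefree, coprime to a, with gcd(k, d) = l, and
(l, j) ↦ l j is injective: Ga ≥ ∑_{l | d} (1/φ(l)) S = (d/φ(d)) S. -/
def S_GaW : Prop := ∀ a E : ℕ, 1 ≤ E →
  sla a E 1 = 1 ∧ (∀ d, |sla a E d| ≤ 1) ∧ ∀ d, sla a E d ≠ 0 → d.Coprime a

/-- Module GaQ (170 lines). Uses: nothing. Adapt Pool/Agent/Lib/TP/Slq.lean (the case a = 1).
Proof. 1/lcm(d,d') = (1/(d d')) ∑_{k | gcd(d,d')} φ(k). So the left side is ∑_{k ≤ E} φ(k) z_k², z_k = ∑_{d ≤ E, k | d} sla a E d/d =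
(1/Ga) ∑_{l ≤ E squarefree, coprime to a, k | l} (1/φ(l)) ∑_{d : k | d | l} μ(d), and the inner sum is μ(k) if l = k, 0 otherwise. So z_k = μ(k)/(φ(k) Ga)
if k is squarefree and coprime to a, 0 otherwise, and the sum is (1/Ga²) Ga. -/
def S_GaQ : Prop := ∀ a E : ℕ, 1 ≤ E →
  ∑ d ∈ Icc 1 E, ∑ d' ∈ Icc 1 E, sla a E d * sla a E d' / (Nat.lcm d d' : ℝ) = 1 / Ga a E

/-- Module BT (150 lines). Uses: GaL, GaW, GaQ.
Proof. w(s) = (∑_{d ≤ E, d | a s + 1} sla a E d)² ≥ 0, and w(s) = 1 if a s + 1 is a prime > E (only d = 1 contributes). So the number is ≤ ∑_{t < s ≤ t+H} w(s)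
= ∑_{d,d' ≤ E} sla d sla d' #{s in (t, t+H] : lcm(d,d') | a s + 1}; if the product of the weights is not 0 then m = lcm(d,d') is coprime to a, the
condition is one class for s mod m, and the number is H/m + θ, |θ| ≤ 1 (Nat.count / Int.Ioc_filter_modEq_card or TP lemmas). Total ≤ H/Ga + E²
(GaQ, |sla| ≤ 1), and 1/Ga ≤ (a/φ(a))/log E (GaL; log E > 0). -/
def S_BT : Prop := ∀ a E t H : ℕ, 1 ≤ a → 2 ≤ E →
  (((Ioc t (t + H)).filter (fun s : ℕ => (a * s + 1).Prime ∧ E < a * s + 1)).card : ℝ) ≤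
    (H : ℝ) * ((a : ℝ) / (a.totient : ℝ)) / Real.log E + (E : ℝ) ^ 2

/-! ### Primes -/

/-- Module Pi (80 lines). Uses: BV.PntStmt.
Proof. Pnt with A = 2: npr x ≤ li x + C x/(log x)². With 0 < ε' < 1, u = x^(1-ε'): li x ≤ ∫_2^u + ∫_u^x ≤ 2u + x/((1-ε') log x) (EH.li_le or the integrand ≤ 1/log 2 ≤ 2), and
u log x/x → 0 (isLittleO_log_rpow_atTop). Choose ε' with 1/(1-ε') ≤ 1 + ε/2. -/
def S_Pi : Prop := ∀ ε : ℝ, 0 < ε → ∃ x1 : ℝ, ∀ x : ℝ, x1 ≤ x → BV.npr x ≤ (1 + ε) * (x / Real.log x)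

/-- Module Ech (80 lines). Uses: BV.PntStmt.
Proof. N = ⌊z^θ⌋₊. Pnt with A = 2 at 2N and N: the number of primes in (N, 2N] is npr(2N) - npr(N) ≥ li(2N) - li(N) - 2C(2N)/(log N)² ≥ N/log(2N) - 4C N/(log N)² ≥
N/(2 log N) for large N, and every term is ≥ 1/(2N), so the sum is ≥ 1/(4 log N) ≥ 1/(4 log z) ≥ 1/(log z)². (li(2N) - li(N) ≥ N/log(2N): the integrand is ≥ 1/log(2N).) -/
def S_Ech : Prop := ∀ θ : ℝ, 0 < θ → θ ≤ 1 → ∃ z0 : ℝ, ∀ z : ℝ, z0 ≤ z →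
  1 / (Real.log z) ^ 2 ≤ ∑ e ∈ (Ioc ⌊z ^ θ⌋₊ (2 * ⌊z ^ θ⌋₊)).filter Nat.Prime, 1 / (e : ℝ)

/-! ### The two counts -/

/-- the range of s -/
noncomputable def Sr (z β : ℝ) : Finset ℕ := Ioc (⌊z ^ β⌋₊ / 2) ⌊z ^ β⌋₊

/-- Module N1 (150 lines). Uses: BV.ExtStmt, C0s, PhL. Holds for every set Es of primes in (E0, 2E0].
Proof. For d = e s (1 ≤ d ≤ D = 2 E0 Y ≤ 2 z^(1/2-η)): primeCount z d 1 ≥ li z/φ(d) - maxErr z d (the class 1 is one of the classes in the supremum: EH lemmas on maxErr, e.g.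
le_maxErr / abs_err_le_maxErr in Lib/EH). φ(e s) ≤ e φ(s) (Nat.totient_mul_of_prime_of_dvd, .._of_not_dvd), li z ≥ (z - 2)/log z (the integrand is ≥ 1/log z), PhL with ε/3: the main
term is ≥ (1-ε) c0 log 2 (z/log z) ∑ 1/e for large z. Errors: each d ≤ D is e s for at most C(β,η) pairs (the primes e | d with e > E0: their product divides d ≤ z, so E0^number ≤ z and
number ≤ 2/(1/2-β-η)), so they are ≤ C ∑_{d ≤ D} maxErr z d ≤ C' (z/(log z)^(A+1) + √z D log(Kf) loglog(Kf)) ≤ z/(log z)^A (Ext with x = z, y d = z; Kf ≤ z, √z D ≤ 2 z^(1-η)). -/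
def S_N1 : Prop := ∀ β η ε A : ℝ, 0 < β → 0 < η → β + η < 1 / 2 → 0 < ε → 0 < A →
  ∃ z0 : ℝ, ∀ z : ℝ, z0 ≤ z → ∀ Es : Finset ℕ,
    (∀ e ∈ Es, e.Prime ∧ ⌊z ^ (1 / 2 - β - η)⌋₊ < e ∧ e ≤ 2 * ⌊z ^ (1 / 2 - β - η)⌋₊) →
    (1 - ε) * c0 * Real.log 2 * (z / Real.log z) * ∑ e ∈ Es, 1 / (e : ℝ) - z / (Real.log z) ^ A ≤
      ∑ e ∈ Es, ∑ s ∈ Sr z β, (primeCount z (e * s) 1 : ℝ)

/-- the number of s with e k l s + 1 a prime ≤ z -/
noncomputable def ct (z β : ℝ) (e k l : ℕ) : ℕ :=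
  ((Sr z β).filter (fun s : ℕ => (e * k * l * s + 1).Prime ∧ ((e * k * l * s + 1 : ℕ) : ℝ) ≤ z)).card

/-- the number of s with e k l s ≤ z -/
noncomputable def hh (z β : ℝ) (e k l : ℕ) : ℕ :=
  ((Sr z β).filter (fun s : ℕ => ((e * k * l * s : ℕ) : ℝ) ≤ z)).card

/-- Module N2a (120 lines). Uses: BT.
Proof. a = e k l ≥ 1. The s in Sr with a s ≤ z form the interval (t, t + H], t = Y/2, Y = ⌊z^β⌋₊, H = hh (min Y ⌊z/a⌋₊). E = ⌊z^(β(1-ε/4)/2)⌋₊ ≥ 2, E² ≤ z^(β(1-ε/4)), and a s + 1 > s > Y/2 ≥ E for large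
z. BT: ct ≤ H (a/φ(a))/log E + E². φ(e k l) ≥ φ(e) φ(k) φ(l) = (e-1)(l-1)φ(k) (Nat.totient_super_multiplicative), so a/φ(a) ≤ (e/(e-1))(l/(l-1)) k/φ(k) ≤ (1 + ε/4) k/φ(k) for large z
(e, l large). log E ≥ (β/2)(1-ε/4) log z - log 2 ≥ (β/2)(1-ε/3) log z, 1/(1-ε/3) ≤ 1 + ε/2, (1+ε/2)(1+ε/4) ≤ 1 + ε. -/
def S_N2a : Prop := ∀ β θ ε : ℝ, 0 < β → 0 < θ → 0 < ε → ε ≤ 1 → ∃ z0 : ℝ, ∀ z : ℝ, z0 ≤ z →
  ∀ e k l : ℕ, e.Prime → z ^ θ < (e : ℝ) → 1 ≤ k → l.Prime → z ^ β < (l : ℝ) →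
    (ct z β e k l : ℝ) ≤ (1 + ε) * (2 / (β * Real.log z)) * ((k : ℝ) / (k.totient : ℝ)) *
      (hh z β e k l : ℝ) + z ^ (β * (1 - ε / 4))

/-- Module N2b (100 lines). Uses: In2, Pi.
Proof. Exchange the sums: ∑_l hh = ∑_{s in Sr} #{l ≤ z prime, z^β < l ≤ z/(e k s)} ≤ ∑_{s in Sr, x_s ≥ z^β} npr(x_s), x_s = z/(e k s). For x_s ≥ z^β ≥ x1 (Pi with ε/3): npr(x_s) ≤ (1+ε/3) x_s/log x_s ≤
(1+ε/3) z/(e k s β log z). ∑_{s in Sr} 1/s ≤ (1+ε/3) log 2 (In2). (1+ε/3)² ≤ 1+ε for ε ≤ 1 (for ε > 1 use ε = 1). -/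
def S_N2b : Prop := ∀ β ε : ℝ, 0 < β → 0 < ε → ∃ z0 : ℝ, ∀ z : ℝ, z0 ≤ z → ∀ e k : ℕ, 1 ≤ e → 1 ≤ k →
  ∑ l ∈ (Icc 1 ⌊z⌋₊).filter (fun l : ℕ => l.Prime ∧ z ^ β < (l : ℝ)), (hh z β e k l : ℝ) ≤
    (1 + ε) * Real.log 2 * z / ((e : ℝ) * k * β * Real.log z)

open Classical in
/-- the bad triples (s,k,l): e s k l + 1 a prime ≤ z, l a prime > z^β -/
noncomputable def bad3 (z β : ℝ) (e : ℕ) : Finset (ℕ × ℕ × ℕ) :=
  (Icc 1 ⌊z⌋₊ ×ˢ Icc 1 ⌊z⌋₊ ×ˢ Icc 1 ⌊z⌋₊).filter (fun t => t.1 ∈ Sr z β ∧ t.2.2.Prime ∧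
    z ^ β < (t.2.2 : ℝ) ∧ (e * t.2.1 * t.2.2 * t.1 + 1).Prime ∧
    ((e * t.2.1 * t.2.2 * t.1 + 1 : ℕ) : ℝ) ≤ z)

/-- Module N2 (150 lines). Uses: C0s, PhU, N2a, N2b.
Proof. If (s,k,l) is bad then e > z^(1/2-β-η), s > z^β/2, l > z^β, so k < 2 z^(1/2-β+η) =: X0 and k l < X = 2 z^(1-β)/e. So the number is ≤ ∑_{k ≤ K} ∑_l ct z β e k l, K = ⌊X0⌋₊, over the pairs with k l ≤ X. With
N2a, N2b (ε' = ε/8 or smaller) it is ≤ (1+ε')² (2/(β log z)) (log 2 z/(e β log z)) ∑_{k ≤ K} 1/φ(k) + P z^(β(1-ε'/4)), P = #{(k,l) : k l ≤ X} ≤ X (1 + log X) ≤ (2 z^(1-β)/e)(1 + log z), so the last term is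
≤ (z/e) z^(-βε'/4) 2(1 + log z) ≤ ε' (z/log z)/e for large z. PhU: ∑ ≤ c0 (1 + log K) ≤ c0 (1+ε')(1/2-β+η) log z. The sum is
(1+ε')³ (2(1/2-β+η)/β²) c0 log 2 (z/log z)/e + ε' (z/log z)/e; choose ε' small against ε and the constant (c0 ≥ 1 by C0s, log 2 ≥ 1/2). -/
def S_N2 : Prop := ∀ β η ε : ℝ, 0 < β → 0 < η → β + η < 1 / 2 → 0 < ε → ∃ z0 : ℝ, ∀ z : ℝ, z0 ≤ z →
  ∀ e : ℕ, e.Prime → z ^ (1 / 2 - β - η) < (e : ℝ) → e ≤ 2 * ⌊z ^ (1 / 2 - β - η)⌋₊ →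
    ((bad3 z β e).card : ℝ) ≤
      (1 + ε) * (2 * (1 / 2 - β + η) / β ^ 2) * c0 * Real.log 2 * (z / Real.log z) / e

open Classical in
/-- Module Cmb (150 lines). The combinatorial part. Uses: nothing. Imports also Pool.Agent.Lib.MP_640417_ag.All.Divisor (divisor_bound).
Proof. Let (p,e,s) be counted on the left: e in Es, s in Sr, p ≤ z prime, p ≡ 1 mod e s. If all prime factors of p - 1 are ≤ z^β, p is good. Otherwise a prime l > z^β divides p - 1 ≥ 1 (p ≥ 2), l does not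
divide e (a prime ≤ z^β) nor s (s ≤ z^β < l), so p - 1 = e s k l with k ≥ 1 and (s,k,l) is in bad3 z β e; for fixed e the map (p,s) ↦ (s,k,l) is injective (choose one l for each p). For a good p the number of the pairs (e,s) is at
most (number of divisors of p - 1)² ≤ C² z^ε (divisor_bound with δ = ε/2). -/
def S_Cmb : Prop := ∀ β ε : ℝ, 0 < β → 0 < ε → ∃ C : ℝ, 0 < C ∧ ∀ z : ℝ, 2 ≤ z → ∀ Es : Finset ℕ,
  (∀ e ∈ Es, e.Prime ∧ (e : ℝ) ≤ z ^ β) →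
  ∑ e ∈ Es, ∑ s ∈ Sr z β, (primeCount z (e * s) 1 : ℝ) ≤ ∑ e ∈ Es, ((bad3 z β e).card : ℝ) +
    C * z ^ ε * (((Icc 1 ⌊z⌋₊).filter (fun p : ℕ => p.Prime ∧
      ∀ q ∈ (p - 1).primeFactors, (q : ℝ) ≤ z ^ β)).card : ℝ)

/-- Module Sec (120 lines; final statement of part A in general form). Uses: C0s, Ech, N1, N2, Cmb.
Proof. Let η > 0, ε' > 0 be so small that (1+ε') ρ < 1 - 2ε', ρ = 2(1/2-β+η)/β², and β + η < 1/2, θ = 1/2-β-η (< β because β > 1/4, which follows from 2(1/2-β) < β²). Es = the primes in (E0, 2E0], E0 = ⌊z^θ⌋₊ (e > E0 gives e > z^θ;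
2 E0 ≤ 2 z^θ ≤ z^β for large z). N1 (A = 4), N2, Ech: the left side of Cmb minus the first sum on the right is ≥ ε' c0 log 2 (z/log z) ∑ 1/e - z/(log z)^4 ≥ z/(log z)^4 for large z (∑ 1/e ≥ 1/(log z)²). So the number of good primes is
≥ z^(1-ε/2)/(C (log z)^4) ≥ z^(1-ε) (Cmb with ε/2). -/
def S_Sec : Prop := ∀ β : ℝ, 0 < β → β < 1 / 2 → 2 * (1 / 2 - β) < β ^ 2 → ShiftedSmooth β

/-- Module AA (20 lines). Uses: Sec. Proof. 2 · 0.085 = 0.17 < 0.172225. -/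
def S_AA : Prop := S_A

end Pool.Agent.Lib.MP_a260de_nt.CN.A
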