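import Pool.Agent.Lib.BV.SpecE
import Pool.Agent.Lib.BV.SpecF
import Pool.Agent.Lib.MP_a260de_nt.CN.Defs

/-!
# MP_a260de_nt, project CN, parts B and M (architect helper5)

The modulus `M = a N` (`a` even, `a ≤ z^(8ε)`, by a pigeonhole; `N` squarefree, all prime factors in
`[200, y]` and not dividing `a`, by thinning) and three auxiliary primes in every class mod `M`.
`R = RR y δ`, `W = WW y K` (`Defs`), `z = y^C`.  Final statement: `S_MainM`.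

RULES.  Part X: file `Pool/Agent/Lib/MP_a260de_nt/CN/M_X.lean` (e.g. `M_Sv.lean`), first line
`import Pool.Agent.Lib.MP_a260de_nt.CN.SpecM` (plus the library files named in the docstring),
namespace `Pool.Agent.Lib.MP_a260de_nt.CN`, final theorem
`theorem t_Sv (h1 : S_A) (h2 : S_B) ... : S_Sv`, the statements listed under Uses being the
hypotheses in this order.  The docstrings contain complete proofs.  All auxiliary lemmas private.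
-/

set_option autoImplicit false

namespace Pool.Agent.Lib.MP_a260de_nt.CN

open Finset
open Pool.Agent.Lib.BV (prim BnfStmt EsyStmt ExtStmt MsbStmt LsmStmt)
open Pool.Agent.Results.MP_00e23e_nt (li maxErr)

/-! ## Definitions -/

/-- the primes `3 ≤ l ≤ W` which do not divide `m` -/
def pS (W m : ℕ) : Finset ℕ := (Icc 3 W).filter fun l => l.Prime ∧ ¬ l ∣ m

open Classical in
/-- the auxiliary primes `R/2 < r ≤ R` in the class `b` mod `m`: no prime `l ≤ W`, `l ∤ m`, divides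
`r - 1` -/
noncomputable def RA (R W m b : ℕ) : Finset ℕ :=
  (Ioc (R / 2) R).filter fun r => r.Prime ∧ r ≡ b [MOD m] ∧
    ∀ l : ℕ, l.Prime → l ≤ W → l ∣ r - 1 → l ∣ m

/-- `a` times the product of its prime factors -/
def ar (a : ℕ) : ℕ := a * ∏ q ∈ a.primeFactors, q

/-- sum of the error terms -/
noncomputable def EE (R D : ℕ) : ℝ :=
  ∑ m ∈ Icc 1 D, (maxErr (R : ℝ) m + maxErr ((R / 2 : ℕ) : ℝ) m)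

/-- number of the classes `c` mod `f` with `c (c-1)` coprime to `f` (`f` squarefree) -/
noncomputable def gg (f : ℕ) : ℝ := ∏ l ∈ f.primeFactors, ((l : ℝ) - 2)

open Classical in
/-- the conductors `2 ≤ q ≤ Q` of primitive characters whose sum over `S` is `≥ τ` -/
noncomputable def badC (S : Finset ℕ) (τ : ℝ) (Q : ℕ) : Finset ℕ :=
  (Icc 2 Q).filter fun q => ∃ χ ∈ prim q, τ ≤ ‖∑ n ∈ S, χ (n : ZMod q)‖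

/-! ## Part 1: the auxiliary primes in residue classes (pure sieve and Bombieri-Vinogradov) -/

/-- **SvG** (Brun's pure sieve + Bombieri-Vinogradov; owner helper97, proved as `svG` in
CN/SvG.lean).  Uses: `Ee`, `Mer`, `Dep` and `BnfStmt`, `EsyStmt` of Lib/BV.
Proof.  Let `𝒫` be the set of the primes `r`, `R/2 < r ≤ R`, `r ≡ a mod q`; the number to be counted
is `G = ∑_{r ∈ 𝒫} ∏_{l ∈ P} (1 - dvi l (r-1))` (`BV.dvi`).  For `s ⊆ P` (a set of primes)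
`∏_{l ∈ s} dvi l n = dvi (∏ s) n`.  By `Bnf` with `x l = dvi l (r-1)`:
`|G - ∑_{s ∈ lowS P (2k)} (-1)^|s| A_s| ≤ ∑_{s ∈ powersetCard (2k+1) P} A_s`, `A_s` = number of `r ∈ 𝒫`
with `∏ s | r - 1`.  With `d = q ∏ s` and the class `a'` mod `d` (`1 ≤ a' ≤ d`, coprime to `d`),
`a' ≡ a (q)`, `a' ≡ 1 (∏ s)` (`Nat.chineseRemainder`): `A_s = primeCount R d a' - primeCount (R/2) d a'`,
so with `Δ = li R - li (R/2)` `|A_s - Δ/φ(d)| ≤ maxErr R d + maxErr (R/2) d` (`le_maxErr` of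
Lib/EH/Basic) and `φ(d) = φ(q) ∏_{l ∈ s} (l-1)`.  The moduli `d` are `≤ q W^(2k+1)` and different for
different `s`, so all the error terms together are `≤ EE R (q W^(2k+1))`.  Main terms: `Bnf` with
`x l = 1/(l-1)` and `Esy`.  Total error `Δ/φ(q) · 2 e + EE`, `e ≤ (∑_{pS W 1} 1/(l-1))^(2k+1)/(2k+1)!`;
`k` from `Dep` (with `A + 3`, `B`), `Mer`, `Ee` with `A + 3`, `Δ ≤ 2 R`. -/
def S_SvG : Prop := ∀ δ K A B : ℝ, 0 < δ → 0 < K → 0 < A → 0 < B → ∃ y0 : ℕ, ∀ y : ℕ, y0 ≤ y →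
  ∀ (q a : ℕ) (P : Finset ℕ), 1 ≤ q → (q : ℝ) ≤ (y : ℝ) ^ B → a.Coprime q →
  (∀ l ∈ P, l.Prime ∧ 3 ≤ l ∧ l ≤ WW y K ∧ ¬ l ∣ q) →
  |(((Icc 1 (RR y δ)).filter fun r => r.Prime ∧ RR y δ < 2 * r ∧ r ≡ a [MOD q] ∧
      ∀ l ∈ P, ¬ l ∣ r - 1).card : ℝ) -
    (li (RR y δ : ℝ) - li ((RR y δ / 2 : ℕ) : ℝ)) / (q.totient : ℝ) *
      ∏ l ∈ P, (1 - 1 / ((l : ℝ) - 1))| ≤ (RR y δ : ℝ) / (y : ℝ) ^ A

/-- **Ee** (Bombieri-Vinogradov).  Uses: `ExtStmt` (theorem `aExt` of Lib/BV/All; here a hypothesis).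
Proof.  `Ext` with exponent `A + 1` for `x = R` and `y d = R`, resp. `y d = R/2` (`≥ 2`),
`D = ⌊R^(2/5)⌋`: the sum is `≤ 2 C (R/(log R)^(A+1) + √R R^(2/5) log Kf loglog Kf)` (take `C ≥ 0`),
`Kf ≤ 16 + √R ≤ R`, so `log Kf loglog Kf ≤ (log R)^2`; `log R ≥ y^(1+δ)/2 ≥ y/2`
(`R ≥ exp(y^(1+δ)) - 1`) and `R^(9/10) (log R)^2 ≤ R/y^(A+1)` for large `y`. -/
def S_Ee : Prop := ∀ δ A : ℝ, 0 < δ → 0 < A → ∃ y0 : ℕ, ∀ y : ℕ, y0 ≤ y →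
  EE (RR y δ) ⌊(RR y δ : ℝ) ^ (2 / 5 : ℝ)⌋₊ ≤ (RR y δ : ℝ) / (y : ℝ) ^ A

/-- **Mer** (Mertens, crude).  Uses: `MsbStmt` (theorem `aMsb` of Lib/BV/All; here a hypothesis).
Proof.  `Msb`: the sum of `1/p` over `√t < p ≤ t` is `≤ κ₀`.  Put `t_0 = W`, `t_(i+1) = sqrt t_i`;
`log t_i ≤ log W/2^i`, so `t_J < 3` for `J = ⌈log (log W)/log 2⌉₊ + 1`, hence
`∑_{3 ≤ l ≤ W} 1/l ≤ κ₀ J` and `1/(l-1) ≤ 2/l`.  For `W = WW y K`: `log W ≤ K y`,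
`log (K y) ≤ 2 log y` for `y` large, so `κ = 10 κ₀` works. -/
def S_Mer : Prop := ∃ κ : ℝ, 1 ≤ κ ∧ ∀ K : ℝ, 0 < K → ∃ y0 : ℕ, ∀ y : ℕ, y0 ≤ y →
  ∑ l ∈ pS (WW y K) 1, 1 / ((l : ℝ) - 1) ≤ κ * Real.log y

/-- **Dep** (the depth of the sieve).  Uses: nothing.
Proof.  `n = 2k+1`, `k = ⌈c log y⌉₊` with `c = 4 κ + A`.  `(κ log y)^n/n! ≤ (e κ log y/n)^n`
(`n! ≥ (n/e)^n`, `Real.pow_div_factorial_le_exp`) and `e κ log y/n ≤ e/8 ≤ e^(-1)` (`e^2 < 8`), so it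
is `≤ e^(-n) ≤ y^(-A)`.  `y^A W^n ≤ exp (A log y + (2 c log y + 3) K y)` and
`R^(2/5) ≥ (exp(y^(1+δ)) - 1)^(2/5) ≥ exp(y^(1+δ)/3)`; `y^(1+δ)/3` is larger for `y` large. -/
def S_Dep : Prop := ∀ κ δ K A : ℝ, 0 < κ → 0 < δ → 0 < K → 0 < A → ∃ y0 : ℕ, ∀ y : ℕ, y0 ≤ y →
  ∃ k : ℕ, (y : ℝ) ^ A * (WW y K : ℝ) ^ (2 * k + 1) ≤ (RR y δ : ℝ) ^ (2 / 5 : ℝ) ∧
    (κ * Real.log y) ^ (2 * k + 1) / ((2 * k + 1).factorial : ℝ) ≤ (y : ℝ) ^ (-A)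

/-- **Lid** (size of `Δ`).  Uses: nothing (Lib/EH/Basic, Cont).
Proof.  `Δ = ∫_{R/2}^{R} dt/log t`, `R/2` the natural quotient, `R - R/2 ≥ R/2` (real), and
`1/log R ≤ 1/log t ≤ 1/log 2 ≤ 2`; `log R ≤ y^(1+δ) ≤ y^2`.  Also `R ≥ exp y - 1`, `W ≥ exp(K y) - 1`. -/
def S_Lid : Prop := ∀ δ : ℝ, 0 < δ → δ ≤ 1 → ∃ y0 : ℕ, ∀ y : ℕ, y0 ≤ y →
  (RR y δ : ℝ) / (2 * (y : ℝ) ^ (2 : ℝ)) ≤ li (RR y δ : ℝ) - li ((RR y δ / 2 : ℕ) : ℝ) ∧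
  li (RR y δ : ℝ) - li ((RR y δ / 2 : ℕ) : ℝ) ≤ 2 * (RR y δ : ℝ)

/-- **Cls** (the auxiliary primes in residue classes).  Uses: `SvG`, `Mer`, `Lid`.
Proof.  `κ` from `Mer`, `B₁ = 2 κ + 4`.  `R = RR y δ`, `W = WW y K`, `Δ = li R - li (R/2)`.
For `l ≥ 3`, `1 - 1/(l-1) ≥ exp(-2/(l-1))` (`1 - x ≥ exp(-2x)` on `[0,1/2]`), so
`V = ∏_{l ∈ pS W m} (1 - 1/(l-1)) ≥ exp(-2 κ log y) = y^(-2κ)`, `V ≤ 1`.  For `f` as in the statement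
put `q = m f ≤ y^(A₀+A)`, `a` the class `≡ b (m)`, `≡ c (f)` (CRT), `P = pS W (m f)`: the elements
`r ≡ c mod f` of `RA R W m b` are the primes counted in `SvG` (`l = 2` divides `m`; a prime `l | f` does
not divide `r - 1` because `r - 1 ≡ c - 1 mod l`; `R/2 < r` iff `R < 2r`).  `f` is odd and coprime to
`m`, all its prime factors are `≤ f ≤ y^A ≤ W`:
`∏_{l ∈ pS W (m f)} (1 - 1/(l-1)) = V ∏_{l | f} (l-1)/(l-2)` and `φ(f) = ∏_{l | f} (l-1)`, so the main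
term is `X/gg f` with `X = Δ V/φ(m)`, `gg f ≥ 1`.  `SvG` with `B = A₀ + A` and
`A' = A + A₀ + B₁ + 6`.  With `f = 1`, `c = 1`: `| |RA| - X | ≤ R y^(-A')`,
`X ≥ R/(2 y^2) y^(-2κ) y^(-A₀)` (`φ(m) ≤ m`), so `|RA| ≥ R/y^(B₁+A₀)`, and the difference in the
second statement is `≤ R y^(-A') + R y^(-A')/gg f ≤ R/y^A`. -/
def S_Cls : Prop := ∃ B₁ : ℝ, 1 ≤ B₁ ∧ ∀ δ K A₀ A : ℝ, 0 < δ → δ ≤ 1 → 0 < K → 0 < A₀ → 0 < A →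
  ∃ y0 : ℕ, ∀ y m b : ℕ, y0 ≤ y → 1 ≤ m → 2 ∣ m → (m : ℝ) ≤ (y : ℝ) ^ A₀ → b.Coprime m →
    (RR y δ : ℝ) / (y : ℝ) ^ (B₁ + A₀) ≤ ((RA (RR y δ) (WW y K) m b).card : ℝ) ∧
    ∀ f c : ℕ, Squarefree f → f.Coprime m → (f : ℝ) ≤ (y : ℝ) ^ A → 1 ≤ c →
      c.Coprime f → (c - 1).Coprime f →
      |(((RA (RR y δ) (WW y K) m b).filter fun r => r ≡ c [MOD f]).card : ℝ) -
          ((RA (RR y δ) (WW y K) m b).card : ℝ) / gg f| ≤ (RR y δ : ℝ) / (y : ℝ) ^ A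

/-! ## Part 2: bad conductors and thinning -/

/-- **BadC** (large sieve for a set).  Uses: `LsmStmt` (theorem `aLsm` of Lib/BV/All; here a
hypothesis).
Proof.  `Lsm` with `a n = 1` for `n ∈ S`, `0` otherwise; `q/φ(q) ≥ 1` for `q ≥ 1`; for every
`q ∈ badC S τ Q` one of the characters of `prim q` contributes `≥ τ^2`. -/
def S_BadC : Prop := ∀ (S : Finset ℕ) (n Q : ℕ) (τ : ℝ), 1 ≤ Q → 0 ≤ τ → S ⊆ Icc 1 n →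
  ((badC S τ Q).card : ℝ) * τ ^ 2 ≤ 20 * ((n : ℝ) + (Q : ℝ) ^ 2) * S.card

/-- **Thin** (random subset).  Uses: nothing.
Proof.  For `Q ⊆ P` let `w(Q) = ∏_{q ∈ Q} q^(-ε) ∏_{q ∈ P \ Q} (1 - q^(-ε)) ≥ 0`.  `∑_Q w(Q) = 1`
(`Finset.prod_add`) and for `D ⊆ P` `∑_{D ⊆ Q ⊆ P} w(Q) = ∏_{q ∈ D} q^(-ε)` (write `Q = D ∪ Q'`,
`Q' ⊆ P \ D`).  A divisor `m` of `∏ P` is `∏ D`, `D = m.primeFactors ⊆ P`, and `m | ∏ Q` iff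
`D ⊆ Q`; so `∑_{Q : m | ∏ Q} w(Q) = m^(-ε)`.  Hence
`∑_Q w(Q) (#{p ∈ S : h p | ∏ Q} - |S| #{f ∈ F : f | ∏ Q}) ≥ |S| z^(-ε) - |S| |F| B^(-ε) ≥
|S| z^(-ε)/2` (the `f` which do not divide `∏ P` do not divide `∏ Q`), so some `Q` has
`#{p : h p | ∏ Q} - |S| #{f : f | ∏ Q} ≥ |S| z^(-ε)/2 > 0`; as `#{p : …} ≤ |S|` no `f ∈ F` divides
`∏ Q`. -/
def S_Thin : Prop := ∀ (P S F : Finset ℕ) (h : ℕ → ℕ) (ε z B : ℝ), (∀ q ∈ P, q.Prime) →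
  S.Nonempty → 0 ≤ ε → 1 ≤ z → 1 ≤ B → (∀ p ∈ S, h p ∣ ∏ q ∈ P, q ∧ (h p : ℝ) ≤ z) →
  (∀ f ∈ F, f ∣ ∏ q ∈ P, q → B ≤ (f : ℝ)) → (F.card : ℝ) * B ^ (-ε) ≤ z ^ (-ε) / 2 →
  ∃ Q ⊆ P, z ^ (-ε) / 2 * (S.card : ℝ) ≤ ((S.filter fun p => h p ∣ ∏ q ∈ Q, q).card : ℝ) ∧
    ∀ f ∈ F, ¬ f ∣ ∏ q ∈ Q, q

/-! ## Part 3: pigeonhole on the part of `p - 1` which is not squarefree -/

/-- **Dcm** (decomposition).  Uses: nothing.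
Proof.  `s` = product of the `q^(v_q(n))` over the primes `q | n`, `q < 200`; `w` = product of the
`q^(v_q(n))` over the primes `q | n` with `q ≥ 200`, `q^2 | n`; `u` = product of the
`q^⌊v_q(n)/2⌋` over the same primes: `u^2 | n` and `u^3 ≥ w` because `3 ⌊v/2⌋ ≥ v` for `v ≥ 2`.
`a = s w`; `n/a` is the product of the remaining primes (exponent 1). -/
def S_Dcm : Prop := ∀ n : ℕ, 1 ≤ n → ∃ a s w u : ℕ, a = s * w ∧ a ∣ n ∧ s ∣ n ∧ u ^ 2 ∣ n ∧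
  w ≤ u ^ 3 ∧ (∀ q : ℕ, q.Prime → q ∣ s → q < 200) ∧ Squarefree (n / a) ∧ (n / a).Coprime a ∧
  (∀ q : ℕ, q.Prime → q ∣ n / a → 200 ≤ q) ∧ (2 ∣ n → 2 ∣ a)

open Classical in
/-- **Cn1** (numbers with a large divisor composed of primes `< 200`).  Uses: nothing.
Proof.  The number of `s ≤ X` all of whose prime factors are `< 200` is
`≤ (1 + log X/log 2)^46 ≤ (2 + 2 log X)^46` (the exponents of the 46 primes below 200; it is enough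
to use `≤ 200` primes with exponent `200` in place of `46`: the statement has the exponent 200).
Each `s > T` divides at most `X/s ≤ X/T` numbers `≤ X`. -/
def S_Cn1 : Prop := ∀ (X : ℕ) (T : ℝ), 1 ≤ X → 1 ≤ T →
  (((Icc 1 X).filter fun n => ∃ s : ℕ, s ∣ n ∧ T < (s : ℝ) ∧
    ∀ q : ℕ, q.Prime → q ∣ s → q < 200).card : ℝ) ≤ (2 + 2 * Real.log X) ^ 200 * (X / T)

open Classical in
/-- **Cn2** (numbers divisible by a large square).  Uses: nothing.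
Proof.  `∑_{u > U} X/u^2 ≤ X (1/u₀^2 + 1/u₀) ≤ 2 X/U`, `u₀ = ⌊U⌋ + 1` the first term. -/
def S_Cn2 : Prop := ∀ (X : ℕ) (U : ℝ), 1 ≤ X → 1 ≤ U →
  (((Icc 1 X).filter fun n => ∃ u : ℕ, U < (u : ℝ) ∧ u ^ 2 ∣ n).card : ℝ) ≤ 2 * (X / U)

/-- **Pg** (pigeonhole).  Uses: `Dcm`, `Cn1`, `Cn2`.
Proof.  `z = y^C`, `X = ⌊z⌋₊`.  For `p ∈ S0` take `a(p)` from `Dcm` for `n = p - 1` (even for
`p ≥ 3`).  If `a(p) > z^(8ε)` then `s > z^(4ε)` or `w > z^(4ε)`, `u > z^(4ε/3)`.  By `Cn1`, `Cn2` this happens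
for at most `(2 + 2 log z)^200 z^(1-4ε) + 2 z^(1-4ε/3) ≤ z^(1-ε)/2` of the `p`, `y` large.  So at least
`z^(1-ε)/2` of the `p ∈ S0` have `a(p) ≤ z^(8ε)`, and one value `a` occurs at least
`z^(1-9ε)/2 ≥ z^(1-10ε)` times.  (If `1 - 10 ε ≤ 0` nothing changes.) -/
def S_Pg : Prop := ∀ C ε : ℝ, 1 ≤ C → 0 < ε → ∃ y0 : ℕ, ∀ (y : ℕ) (S0 : Finset ℕ), y0 ≤ y →
  (∀ p ∈ S0, p.Prime ∧ y < p ∧ (p : ℝ) ≤ (y : ℝ) ^ C ∧ Smooth y (p - 1)) →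
  ((y : ℝ) ^ C) ^ (1 - ε) ≤ (S0.card : ℝ) →
  ∃ (a : ℕ) (S : Finset ℕ), 1 ≤ a ∧ 2 ∣ a ∧ (a : ℝ) ≤ ((y : ℝ) ^ C) ^ (8 * ε) ∧ Smooth y a ∧
    S ⊆ S0 ∧ ((y : ℝ) ^ C) ^ (1 - 10 * ε) ≤ (S.card : ℝ) ∧
    ∀ p ∈ S, a ∣ p - 1 ∧ Squarefree ((p - 1) / a) ∧ ((p - 1) / a).Coprime a ∧
      ∀ q : ℕ, q.Prime → q ∣ (p - 1) / a → 200 ≤ q

/-! ## Part 4: the class of the first auxiliary prime -/

/-- **Lift**.  Uses: nothing.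
Proof.  `b = c + a j + a·rad a` where `j` is chosen mod every prime `q | a`: with `v = v_q(a)`, if
`q^v` does not divide `c - 1` (as integers) any `j` will do; if `c - 1 = q^v e`, `a = q^v a'`,
`q ∤ a'`, take `j` with `e + a' j` not divisible by `q` (`j ≡ 0` or `j ≡ 1`).  CRT for the primes
`q | a` (`Nat.chineseRemainderOfFinset`).  Coprime to `a`, hence to `ar a`. -/
def S_Lift : Prop := ∀ a c : ℕ, 1 ≤ a → c.Coprime a → ∃ b : ℕ, 1 ≤ b ∧ b.Coprime (ar a) ∧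
  b ≡ c [MOD a] ∧ ∀ q : ℕ, q.Prime → q ∣ a → ¬ q ^ (a.factorization q + 1) ∣ b - 1

/-- **Gd** (elements of `RA` are good; the class `-1`).  Uses: nothing.
Proof.  Let `g = gcd(r-1, aN)`.  No prime `l | N` divides `r - 1` (`l ≤ W`, so `l` would divide
`ar a`, i.e. `a`), so `g = gcd(r-1, a)`.  For a prime `q | a`, `r ≡ b mod q^(v+1)` (`v = v_q(a)`,
`q^(v+1) | ar a`), so `q^(v+1)` does not divide `r - 1` and `v_q(g) = v_q(r-1)`.  So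
`rho (a N) r = (r-1)/g` is divisible by no prime factor of `a N`, and its other prime factors `l`
divide `r - 1` and not `ar a`, so `l > W`.  `R < 2 r` from `R/2 < r`.  Second statement:
`ar a - 2 ≡ -2 mod q^(v+1)`, `q^(v+1) ≥ 4`. -/
def S_Gd : Prop :=
  (∀ (a N R W b r : ℕ), 2 ≤ a → 1 ≤ N → a.Coprime N → (∀ l : ℕ, l.Prime → l ∣ a * N → l ≤ W) →
    1 ≤ b → (∀ q : ℕ, q.Prime → q ∣ a → ¬ q ^ (a.factorization q + 1) ∣ b - 1) →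
    r ∈ RA R W (ar a) b → Good (a * N) R W r) ∧
  (∀ a : ℕ, 2 ≤ a → 1 ≤ ar a - 1 ∧ (ar a - 1).Coprime (ar a) ∧ (ar a : ℝ) ≤ (a : ℝ) ^ 2 ∧
    ∀ q : ℕ, q.Prime → q ∣ a → ¬ q ^ (a.factorization q + 1) ∣ ar a - 1 - 1)

/-! ## Part 5: three auxiliary primes in every class mod `N` -/

/-- **Cs1**.  Uses: nothing.
Proof.  `c` is coprime to `f ≥ 2`, so `c ≥ 1`.  Möbius inversion of the condition
`(c-1, f) = 1`: the sum is `∑_{d | f} μ(d) T(d)`, `T(d) = ∑_{c < f, (c,f) = 1, c ≡ 1 (d)} χ(c)`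
(`∑_{d | n} μ(d) = [n = 1]` for `n = gcd(c-1, f)`).  `T(f) = χ(1) = 1`.  For `d | f`, `d < f`:
`T(d) = 0`: `χ` does not factor through `d` (its conductor is `f`), so by
`DirichletCharacter.factorsThrough_iff_ker_unitsMap` there is a unit `u` mod `f`, `u ≡ 1 mod d`,
`χ(u) ≠ 1`; multiplication by `u` permutes the units which are `≡ 1 mod d`, so
`T(d) = χ(u) T(d)`.  So the sum is `μ(f)`. -/
def S_Cs1 : Prop := ∀ (f : ℕ) (χ : DirichletCharacter ℂ f), 2 ≤ f → χ.IsPrimitive →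
  ‖∑ c ∈ (range f).filter (fun c => c.Coprime f ∧ (c - 1).Coprime f), χ (c : ZMod f)‖ ≤ 1

/-- **Sml** (small conductors).  Uses: `Cs1`.
Proof.  Sort the elements `r` of `S` by `c = r mod f`: `c` and `c - 1` are coprime to `f`
(`r - 1 ≡ c - 1`, `c ≥ 1`).  So `∑_{r ∈ S} χ(r) = ∑_c χ(c) #{r ∈ S : r ≡ c}`, the sum over
`c ∈ range f` with `c`, `c-1` coprime to `f`, `= (|S|/gg f) ∑_c χ(c) + error`, error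
`≤ f δ |S|`. -/
def S_Sml : Prop := ∀ (f : ℕ) (χ : DirichletCharacter ℂ f) (S : Finset ℕ) (δ : ℝ), 2 ≤ f →
  χ.IsPrimitive → 0 ≤ δ → 0 < gg f → (∀ r ∈ S, 1 ≤ r ∧ r.Coprime f ∧ (r - 1).Coprime f) →
  (∀ c : ℕ, 1 ≤ c → c.Coprime f → (c - 1).Coprime f →
    |((S.filter fun r => r ≡ c [MOD f]).card : ℝ) - S.card / gg f| ≤ δ * S.card) →
  ‖∑ r ∈ S, χ (r : ZMod f)‖ ≤ S.card / gg f + f * δ * S.card

/-- **Psv** (Parseval).  Uses: nothing.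
Proof.  `∑_χ |∑_r χ(r)|^2 = φ(m) #{(r, r') ∈ S × S : r ≡ r' mod m}` (orthogonality,
`DirichletCharacter.sum_char_inv_mul_char_eq`; compare `BV.OrtStmt` and Lib/BV/Ort.lean), and for
fixed `r` there are at most `R/m + 1` numbers `1 ≤ r' ≤ R` in the class of `r`. -/
def S_Psv : Prop := ∀ (m R : ℕ) (S : Finset ℕ), 1 ≤ m → S ⊆ Icc 1 R → (∀ r ∈ S, r.Coprime m) →
  ∑ χ : DirichletCharacter ℂ m, ‖∑ r ∈ S, χ (r : ZMod m)‖ ^ 2 ≤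
    (m.totient : ℝ) * (S.card * ((R : ℝ) / m + 1))

open Classical in
/-- **Tri** (counting triples by characters).  Uses: nothing.
Proof.  `φ(m) #{…} = ∑_χ χ(c⁻¹) (∑_{r ∈ S₁} χ(r)) (∑_{r ∈ S₂} χ(r))^2` (orthogonality,
`DirichletCharacter.sum_char_inv_mul_char_eq`; `r r' r'' ≡ c` iff equal in `ZMod m`); the trivial
character gives `|S₁| |S₂|^2`; `|χ(c⁻¹)| ≤ 1`. -/
def S_Tri : Prop := ∀ (m c : ℕ) (S₁ S₂ : Finset ℕ), 1 ≤ m → c.Coprime m →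
  (∀ r ∈ S₁, r.Coprime m) → (∀ r ∈ S₂, r.Coprime m) →
  |(m.totient : ℝ) * (((S₁ ×ˢ (S₂ ×ˢ S₂)).filter
      fun t => t.1 * t.2.1 * t.2.2 ≡ c [MOD m]).card : ℝ) - (S₁.card : ℝ) * (S₂.card : ℝ) ^ 2| ≤
    ∑ χ ∈ (univ : Finset (DirichletCharacter ℂ m)).erase 1,
      ‖∑ r ∈ S₁, χ (r : ZMod m)‖ * ‖∑ r ∈ S₂, χ (r : ZMod m)‖ ^ 2

open Classical in
/-- **Nch** (characters with given conductor).  Uses: nothing.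
Proof.  `χ ↦` its primitive character mod `f` is injective on the set of the `χ` mod `m` of
conductor `f` (`DirichletCharacter.changeLevel_primitiveCharacter`, compare Lib/BV/Inj.lean,
Cnd.lean); there are `φ(f)` characters mod `f` (for `f = 0` there is no such `χ`).  Second part:
`χ(r) = χ₁(r)` for `r` coprime to `m`, `χ₁` the primitive character of `χ` (transport along
`χ.conductor = f`, `subst`). -/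
def S_Nch : Prop := ∀ (m f : ℕ), 1 ≤ m →
  (((univ : Finset (DirichletCharacter ℂ m)).filter fun χ => χ.conductor = f).card : ℝ) ≤
    (f.totient : ℝ) ∧
  ∀ χ : DirichletCharacter ℂ m, χ.conductor = f → ∃ χ₁ ∈ prim f,
    ∀ S : Finset ℕ, (∀ r ∈ S, r.Coprime m) →
      ∑ r ∈ S, χ (r : ZMod m) = ∑ r ∈ S, χ₁ (r : ZMod f)

/-- **Eul**.  Uses: nothing.
Proof.  `f ↦ φ(f)/gg(f)^3` is multiplicative on the divisors of the squarefree number `N`: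
`∑_{f | N} = ∏_{l | N} (1 + (l-1)/(l-2)^3)` (sum over the subsets of the prime factors,
`Finset.prod_one_add`) `≤ exp (∑_{l | N} (l-1)/(l-2)^3)`, and for `l ≥ 200`
`(l-1)/(l-2)^3 ≤ 1.01/((l-2)(l-3))`, so the sum is `≤ 1.01/197 ≤ 0.006` (telescope);
`exp 0.006 - 1 ≤ 0.007`. -/
def S_Eul : Prop := ∀ N : ℕ, Squarefree N → (∀ l : ℕ, l.Prime → l ∣ N → 200 ≤ l) →
  ∑ f ∈ N.divisors.erase 1, (f.totient : ℝ) / gg f ^ 3 ≤ 1 / 40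

open Classical in
/-- **Err** (the contribution of the nontrivial characters).  Uses: `Sml`, `Psv`, `Nch`, `Eul`.
Proof.  `X_i(χ) = ∑_{r ∈ S_i} χ(r)`.  Conductors `f | N`, `f > 1` (`conductor_dvd_level`; conductor
`1` only for `χ = 1`).  `f ≤ B`: `gg f ≥ 1`, by `Nch` and `Sml`
`|X_1| |X_2|^2 ≤ |S₁| |S₂|^2 (1/gg f + f δ)^3 ≤ 4 |S₁| |S₂|^2 (1/(gg f)^3 + f^3 δ^3)` and there are
`≤ φ(f) ≤ f` such characters: together `≤ 4 |S₁| |S₂|^2 (1/40 + B^5 δ^3) ≤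
|S₁| |S₂|^2 (1/10 + 4/1000)` (`B^5 δ^3 ≤ (B^2 δ)^3`).  `f > B`: `|X_1| ≤ τ |S₁|` (`Nch`), and with `Psv`
`∑ |X_1| |X_2|^2 ≤ τ |S₁| φ(N) |S₂| (R/N + 1) ≤ 2 τ R |S₁| |S₂| ≤ |S₁| |S₂|^2/10` (`φ(N) ≤ N ≤ R`). -/
def S_Err : Prop := ∀ (N R B : ℕ) (δ τ : ℝ) (S₁ S₂ : Finset ℕ), Squarefree N →
  (∀ l : ℕ, l.Prime → l ∣ N → 200 ≤ l) → S₂ ⊆ Icc 1 R →
  (∀ r ∈ S₁, 1 ≤ r ∧ r.Coprime N ∧ (r - 1).Coprime N) →
  (∀ r ∈ S₂, 1 ≤ r ∧ r.Coprime N ∧ (r - 1).Coprime N) → N ≤ R → 1 ≤ B → 0 ≤ δ → 0 ≤ τ →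
  (∀ S : Finset ℕ, S = S₁ ∨ S = S₂ → ∀ f c : ℕ, f ∣ N → f ≤ B → 1 ≤ c → c.Coprime f →
    (c - 1).Coprime f →
    |((S.filter fun r => r ≡ c [MOD f]).card : ℝ) - S.card / gg f| ≤ δ * S.card) →
  (∀ f : ℕ, f ∣ N → B < f → ∀ χ ∈ prim f, ‖∑ r ∈ S₁, χ (r : ZMod f)‖ ≤ τ * S₁.card) →
  10 * ((B : ℝ) ^ 2 * δ) ≤ 1 → 20 * (τ * R) ≤ S₂.card →
  ∑ χ ∈ (univ : Finset (DirichletCharacter ℂ N)).filter (fun χ => χ ≠ 1),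
      ‖∑ r ∈ S₁, χ (r : ZMod N)‖ * ‖∑ r ∈ S₂, χ (r : ZMod N)‖ ^ 2 ≤
    (3 / 10) * ((S₁.card : ℝ) * (S₂.card : ℝ) ^ 2)

/-- **Rep** (every class contains many triples).  Uses: `Tri`, `Err`.
Proof.  `Tri` with `m = N` and `Err` (`erase 1` and `filter (· ≠ 1)` are the same set): the number of
the triples with product `≡ c` is `≥ (7/10) |S₁| |S₂|^2/φ(N)`; those with two equal components are
`≤ 3 |S₁| |S₂| ≤ |S₁| |S₂|^2/(10 φ(N))`. -/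
def S_Rep : Prop := ∀ (N R B : ℕ) (δ τ : ℝ) (S₁ S₂ : Finset ℕ), Squarefree N →
  (∀ l : ℕ, l.Prime → l ∣ N → 200 ≤ l) → S₂ ⊆ Icc 1 R →
  (∀ r ∈ S₁, 1 ≤ r ∧ r.Coprime N ∧ (r - 1).Coprime N) →
  (∀ r ∈ S₂, 1 ≤ r ∧ r.Coprime N ∧ (r - 1).Coprime N) → N ≤ R → 1 ≤ B → 0 ≤ δ → 0 ≤ τ →
  (∀ S : Finset ℕ, S = S₁ ∨ S = S₂ → ∀ f c : ℕ, f ∣ N → f ≤ B → 1 ≤ c → c.Coprime f →
    (c - 1).Coprime f →
    |((S.filter fun r => r ≡ c [MOD f]).card : ℝ) - S.card / gg f| ≤ δ * S.card) →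
  (∀ f : ℕ, f ∣ N → B < f → ∀ χ ∈ prim f, ‖∑ r ∈ S₁, χ (r : ZMod f)‖ ≤ τ * S₁.card) →
  10 * ((B : ℝ) ^ 2 * δ) ≤ 1 → 20 * (τ * R) ≤ S₂.card → 30 * (N.totient : ℝ) ≤ S₂.card →
  ∀ c : ℕ, c.Coprime N → (S₁.card : ℝ) * (S₂.card : ℝ) ^ 2 / (2 * (N.totient : ℝ)) ≤
    (((S₁ ×ˢ (S₂ ×ˢ S₂)).filter fun t => t.1 ≠ t.2.1 ∧ t.1 ≠ t.2.2 ∧ t.2.1 ≠ t.2.2 ∧
      t.1 * t.2.1 * t.2.2 ≡ c [MOD N]).card : ℝ)

/-! ## Part 6: assembly -/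

/-- **Ths** (choice of `N`).  Uses: `Cls`, `BadC`, `Thin`.
`m` is the modulus `ar a` of the auxiliary primes.
Proof.  `B₁` from `Cls` (with `A = 1`), `A₅ = B₁ + A₀ + 2`, `A₃ = max 1 ((2 A₅ + B₁ + 2 A₀ + 2 + C ε)/ε)`.
`R = RR y δ`, `W = WW y K`, `P` = the primes in `[200, y]` not dividing `m`, `∏ P ≤ 4^y`
(`primorial_le_4_pow`; every product of different primes `≤ y` divides the primorial), `Qm = 4^y`,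
`Qm^2 ≤ R` for `y` large.  For a class `b < m` coprime to `m` let `S_b = RA R W m b`,
`τ_b = |S_b| y^(-A₅)`; by `BadC` (`n = R`) and `Cls`
`|badC S_b τ_b Qm| ≤ 40 R y^(2A₅)/|S_b| ≤ 40 y^(2A₅+B₁+A₀)`.  `F` = union over the `≤ m ≤ y^A₀` classes of
the `f ∈ badC S_b τ_b Qm` with `f > y^A₃`: `|F| B^(-ε) ≤ 40 y^(2A₅+B₁+2A₀-εA₃) ≤ y^(-Cε)/2` with
`B = y^A₃`.  `Thin` with `z = y^C` gives `Q`; `N = ∏ Q`.  If `f | N`, `f > y^A₃`, `χ ∈ prim f`, and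
`b` coprime to `m` (reduce `b` mod `m`, `RA` depends only on `b mod m`), then `2 ≤ f ≤ N ≤ Qm`,
`f ∉ F`, so `f ∉ badC S_b τ_b Qm`, so the sum is `< τ_b`. -/
def S_Ths : Prop := ∀ C δ K A₀ ε : ℝ, 1 ≤ C → 0 < δ → δ ≤ 1 → 1 ≤ K → 0 < A₀ → 0 < ε →
  ∃ A₃ A₅ : ℝ, 1 ≤ A₃ ∧ 1 ≤ A₅ ∧
    (∃ B₁ : ℝ, 1 ≤ B₁ ∧ B₁ + A₀ + 2 ≤ A₅ ∧ ∃ y1 : ℕ, ∀ y m b : ℕ, y1 ≤ y → 1 ≤ m → 2 ∣ m →
      (m : ℝ) ≤ (y : ℝ) ^ A₀ → b.Coprime m →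
      (RR y δ : ℝ) / (y : ℝ) ^ (B₁ + A₀) ≤ ((RA (RR y δ) (WW y K) m b).card : ℝ)) ∧
    ∃ y0 : ℕ, ∀ (y m : ℕ) (S : Finset ℕ) (h : ℕ → ℕ), y0 ≤ y → 1 ≤ m → 2 ∣ m →
      (m : ℝ) ≤ (y : ℝ) ^ A₀ → S.Nonempty →
      (∀ p ∈ S, 1 ≤ h p ∧ (h p : ℝ) ≤ (y : ℝ) ^ C ∧ Squarefree (h p) ∧ (h p).Coprime m ∧
        ∀ q : ℕ, q.Prime → q ∣ h p → 200 ≤ q ∧ q ≤ y) →
      ∃ N : ℕ, Squarefree N ∧ N.Coprime m ∧ (N : ℝ) ≤ 4 ^ (y : ℝ) ∧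
        (∀ l : ℕ, l.Prime → l ∣ N → 200 ≤ l ∧ l ≤ y) ∧
        ((y : ℝ) ^ C) ^ (-ε) / 2 * (S.card : ℝ) ≤ ((S.filter fun p => h p ∣ N).card : ℝ) ∧
        ∀ b f : ℕ, b.Coprime m → f ∣ N → (y : ℝ) ^ A₃ < (f : ℝ) → ∀ χ ∈ prim f,
          ‖∑ r ∈ RA (RR y δ) (WW y K) m b, χ (r : ZMod f)‖ ≤
            (y : ℝ) ^ (-A₅) * ((RA (RR y δ) (WW y K) m b).card : ℝ)

/-- **MainM** (OUTPUT of parts B and M; the same as `S_Main` of `Top.lean` with `1 - 12 ε`).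
Uses: `Pg`, `Ths`, `Cls`, `Rep`, `Lift`, `Gd`.
Proof.  `KM = 2`, `z = y^C`.  `Pg` gives
`a`, `S'`; `m = ar a ≤ a^2 ≤ y^A₀`, `A₀ = 16 C ε + 1`.  `Ths` with this `A₀`, with `S = S'`,
`h p = (p-1)/a`: gives `A₃, A₅, N`.  `M = a N ≤ z^(8ε) 4^y ≤ exp(2 y)`,
`S = {p ∈ S' : h p | N}`, `|S| ≥ z^(-ε)/2 z^(1-10ε) ≥ z^(1-12ε)`, `p - 1 = a h p | M`.
Let `c` be coprime to `M`; `b` from `Lift` (for `c`, `a`), `b₂ = ar a - 1` (`Gd`);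
`S₁ = RA R W m b`, `S₂ = RA R W m b₂`.  `B₁` from `Cls`, applied with
`A = B₁ + A₀ + 3 A₃`.  `Rep` with `B = ⌊y^A₃⌋₊`, `δ' = y^(B₁+A₀-A) = y^(-3A₃)` (`R/y^A ≤ δ' |S_i|`),
`τ = y^(-A₅)`, where `A₅ ≥ B₁' + A₀ + 2` (`B₁'` from `Ths`) and `|S₂| ≥ R/y^(B₁'+A₀)`, so
`20 τ R ≤ |S₂|`; `10 B^2 δ' ≤ 10 y^(-A₃) ≤ 1`; `30 φ(N) ≤ 30 · 4^y ≤ |S₂|`.  The elements `r` of
`S_i` are primes `> R/2 > y`, so coprime to `N`, and no prime factor `l ≤ y ≤ W` of `N` (`l ∤ m`)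
divides `r - 1`.  A triple of `Rep` has `r₁ r₂ r₃ ≡ c mod N` and
`r₁ r₂ r₃ ≡ b (ar a - 1)^2 ≡ b ≡ c mod a`, so `≡ c mod a N`; its members are good (`Gd`).  So
`|trip M R W c| ≥ |S₁| |S₂|^2/(2 φ(N)) ≥ R^3 y^(-3(B₁+A₀))/(2 N) ≥ R^3/(M y^A')`,
`A' = 3 (B₁ + A₀) + 1`. -/
def S_MainM : Prop :=
  ∀ C : ℝ, 2 < C → ∃ KM : ℝ, 0 < KM ∧ ∀ ε δ K : ℝ, 0 < ε → 0 < δ → δ ≤ 1 → 1 ≤ K →
    ∃ (A : ℝ) (y0 : ℕ), 0 < A ∧ ∀ (y : ℕ) (S0 : Finset ℕ), y0 ≤ y →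
      (∀ p ∈ S0, p.Prime ∧ y < p ∧ (p : ℝ) ≤ (y : ℝ) ^ C ∧ Smooth y (p - 1)) →
      ((y : ℝ) ^ C) ^ (1 - ε) ≤ (S0.card : ℝ) →
      ∃ (M : ℕ) (S : Finset ℕ), 1 ≤ M ∧ (M : ℝ) ≤ Real.exp (KM * y) ∧ Smooth y M ∧ S ⊆ S0 ∧
        (∀ p ∈ S, p - 1 ∣ M) ∧ ((y : ℝ) ^ C) ^ (1 - 12 * ε) ≤ (S.card : ℝ) ∧
        ∀ c : ℕ, c.Coprime M →
          (RR y δ : ℝ) ^ 3 / (M * (y : ℝ) ^ A) ≤ ((trip M (RR y δ) (WW y K) c).card : ℝ)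

end Pool.Agent.Lib.MP_a260de_nt.CN
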