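import Pool.Agent.Lib.MP_a260de_nt.CN.Top

/-!
MP_a260de_nt, PROJECT CN, part U (helper64): the union bound over the triples of auxiliary primes.
Modules U1 - U6 in Pool/Agent/Lib/MP_a260de_nt/CN; module Ux proves the theorem t_xxx : S_xxx.
Imports of a module: this file (and nothing else, except U5, U6 as said there; the modules get the
statements they use as hypotheses, e.g. `theorem t_USpoil (h1 : S_USplit) (h2 : S_UCount) ... : S_USpoil`).
-/

open Finset

namespace Pool.Agent.Lib.MP_a260de_nt.CN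

/-- Module U1 (theorem t_USplit). Uses: nothing.
Proof. L and M are coprime and c divides M L, so c = gcd(c, M) gcd(c, L) (Nat.Coprime.gcd_mul), hence
c / gcd(c, M) = gcd(c, L) divides L. It is not 1, since otherwise c = gcd(c, M) divides M. Its prime factors
divide L, so they are > W, and so is the number itself. Last, gcd(c, M) <= M gives c / M <= c / gcd(c, M). -/
def S_USplit : Prop :=
  ∀ c M L W : ℕ, 0 < c → 0 < M → 0 < L → L.Coprime M → c ∣ M * L → ¬ c ∣ M → Rough W L →
    c / c.gcd M ∣ L ∧ Rough W (c / c.gcd M) ∧ 0 < c / c.gcd M ∧ W < c / c.gcd M ∧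
      (c : ℝ) / M ≤ (c / c.gcd M : ℕ)

/-- Module U2 (theorem t_UCount). Uses: nothing.
Proof. For f : (prime factors of c) -> Fin 3 put d_i = product of p^(v_p(c)) over the p with f(p) = i, so
d_0 d_1 d_2 = c. If c divides the lcm of the rho(r_i), then for each prime p of c the power p^(v_p(c)) divides
one of the three numbers rho(r_i) (a prime power dividing a lcm divides one of them); choose f(p) = that i;
then d_i divides rho(r_i) for all i, as the p^(v_p(c)) are pairwise coprime. So the set of the triples is covered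
by the union over the 3^(omega(c)) functions f of the products of the sets {r in G : d_i | rho(r)}, and such a
set has at most R/d_i elements, because d_i | r - 1, 1 <= r - 1 <= R. The product of the R/d_i is R^3/c. -/
def S_UCount : Prop :=
  ∀ (G : Finset ℕ) (ρ : ℕ → ℕ) (R c : ℕ), 0 < c → (∀ r ∈ G, 2 ≤ r ∧ r ≤ R ∧ ρ r ∣ r - 1) →
    (((G ×ˢ G ×ˢ G).filter (fun t =>
      c ∣ (ρ t.1).lcm ((ρ t.2.1).lcm (ρ t.2.2)))).card : ℝ) ≤
      3 ^ c.primeFactors.card * (R : ℝ) ^ 3 / c

/-- Module U3 (theorem t_UOmega). Uses: nothing.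
Proof. W^(omega(c)) <= product of the prime factors of c <= c, so omega(c) log W <= log c and
3^(omega(c)) = exp(omega(c) log 3) <= exp(log c log 3/log W). -/
def S_UOmega : Prop :=
  ∀ c W : ℕ, 0 < c → 2 ≤ W → Rough W c →
    (3 : ℝ) ^ c.primeFactors.card ≤ (c : ℝ) ^ (Real.log 3 / Real.log W)

/-- Module U4 (theorem t_UDyad). Uses: nothing.
Proof. For b in B let i(b) be the natural number with 2^i W <= c(b) < 2^(i+1) W. The b with i(b) = i are at
most (2^(i+1) W)^k many (2^(i+1) W <= 2 c(b) <= 2 X, a natural number) and each has c(b)^(-s) <= (2^i W)^(-s)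
(s > 0). So the sum is <= sum over i of 2^k W^(k-s) (2^(k-s))^i, a geometric series with ratio
2^(k-s) < 1. -/
def S_UDyad : Prop :=
  ∀ (ι : Type) (B : Finset ι) (c : ι → ℕ) (W : ℕ) (X k s : ℝ), 1 ≤ W → 0 ≤ k → k < s →
    (∀ b ∈ B, W ≤ c b ∧ (c b : ℝ) ≤ X) →
    (∀ Q : ℕ, W ≤ Q → (Q : ℝ) ≤ 2 * X → ((B.filter (fun b => c b ≤ Q)).card : ℝ) ≤ (Q : ℝ) ^ k) →
    ∑ b ∈ B, (c b : ℝ) ^ (-s) ≤ 2 ^ k * (W : ℝ) ^ (k - s) / (1 - 2 ^ (k - s))

open Classical in
/-- the good primes -/
noncomputable def goods (M R W : ℕ) : Finset ℕ := (Icc 1 R).filter (fun r => Good M R W r)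

open Classical in
/-- Module U5 (theorem t_USpoil). Uses: U1, U2, U3, U4.
Proof. G = goods M R W; for r in G: 2 <= r <= R, rho M r divides r - 1 > 0 (so it is positive and <= R), it is
coprime to M and Rough W. So for t in G^3 the number L(t) = lam M t is positive, <= R^3, coprime to M
(Nat.Coprime.lcm_left or by prime factors) and Rough W. Let B' be the set of the b in B which spoil at least one
triple t, i.e. c(b) | M L(t), not c(b) | M. By U1 the number c2 = c(b)/gcd(c(b), M) does not depend on t, it divides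
L(t) for all t spoiled by b, and c(b) >= c2 > W, c2 >= c(b)/M, Rough W c2. By U2 (rho := rho M) and U3 the number of
the t spoiled by b is at most 3^(omega(c2)) R^3/c2 <= R^3 c2^(h-1) <= R^3 (c(b)/M)^(h-1) <= R^3 M c(b)^(-(1-h))
(h = log 3/log W in (0,1), M >= 1). Also c(b) <= M L(t) <= M R^3 =: X. Union bound over b in B' and U4 for B'
with s = 1 - h (the counting hypothesis passes to subsets). -/
def S_USpoil : Prop :=
  ∀ (ι : Type) (B : Finset ι) (c : ι → ℕ) (M R W : ℕ) (k h : ℝ),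
    0 < M → 2 ≤ W → h = Real.log 3 / Real.log W → 0 ≤ k → k + h < 1 → (∀ b ∈ B, 0 < c b) →
    (∀ Q : ℕ, W ≤ Q → (Q : ℝ) ≤ 2 * (M * (R : ℝ) ^ 3) →
      ((B.filter (fun b => c b ≤ Q)).card : ℝ) ≤ (Q : ℝ) ^ k) →
    (((goods M R W ×ˢ goods M R W ×ˢ goods M R W).filter (fun t => ∃ b ∈ B,
      c b ∣ M * lam M t ∧ ¬ c b ∣ M)).card : ℝ) ≤
      M * (R : ℝ) ^ 3 * (2 ^ k * (W : ℝ) ^ (k + h - 1) / (1 - 2 ^ (k + h - 1)))

/-- Module U6 (theorem t_UPar). Uses: nothing.
Proof. W = WW y K = floor(exp(K y)), K > 1, so exp y <= exp(K y) - 1 <= W for large y. RR y d <= exp(y^(1+d)), so the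
second line follows from log 2 + KM y <= y^(1+d), true for large y. h = log 3/log W tends to 0, so for large y
h <= (1-k)/4, k + h - 1 <= -(3/4)(1-k); W >= exp(K y)/2 gives W^(k+h-1) <= 2 exp(-(3/4)(1-k) K y) <=
2 exp(-6 KM y - (3/4)(1-k) y) by the choice of K. With M <= exp(KM y) the left side of the last line times
M y^A is at most 4 y^A exp(-4 KM y)/(1 - 2^(-(3/4)(1-k))), which tends to 0. -/
def S_UPar : Prop :=
  ∀ δ k KM K A : ℝ, 0 < δ → 0 < k → k < 1 → 0 < KM → 0 < A → 8 * KM / (1 - k) + 1 ≤ K → ∃ y0 : ℕ,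
    ∀ y M : ℕ, y0 ≤ y → 1 ≤ M → (M : ℝ) ≤ Real.exp (KM * y) →
      1 ≤ y ∧ 2 ≤ WW y K ∧ Real.exp y ≤ (WW y K : ℝ) ∧ 1 ≤ RR y δ ∧
      2 * (M * (RR y δ : ℝ) ^ 3) ≤ Real.exp (4 * (y : ℝ) ^ (1 + δ)) ∧
      k + Real.log 3 / Real.log (WW y K) < 1 ∧
      M * (2 ^ k * (WW y K : ℝ) ^ (k + Real.log 3 / Real.log (WW y K) - 1) /
        (1 - 2 ^ (k + Real.log 3 / Real.log (WW y K) - 1))) < 1 / (M * (y : ℝ) ^ A)

/-! Module U7 (theorem t_Union : S_Union, in Top). Uses: U5, U6.
Proof. y0 from U6; R = RR y δ, W = WW y K, X = M R^3, B = the pairs (q, χ), 2 <= q <= X, χ bad mod q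
(Finset.sigma), c(b) = q. The number of b in B with c(b) <= Q is at most nbad S Q, and for Q >= W >= exp y,
Q <= 2 M R^3 <= exp(4 y^(1+δ)) the hypothesis applies. By U5 and U6 the number of the spoiled triples in
goods^3 is < R^3/(M y^A) (R >= 1), which is at most the number of elements of trip, a subset of goods^3. So some r
in trip is not spoiled. If χ mod q is bad, q | M lam M r and not q | M, then q >= 2 and q <= M lam M r <= M R^3
(lam M r > 0), so (q, χ) is in B and r is spoiled, contradiction. -/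

end Pool.Agent.Lib.MP_a260de_nt.CN
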