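import Pool.Agent.Lib.MP_a260de_nt.CN.SpecM
import Pool.Agent.Lib.BV.All

/-! Part SvG, first step: Bonferroni and class counts. -/

namespace Pool.Agent.Lib.MP_a260de_nt.CN

open Finset Pool.Agent.Results.MP_00e23e_nt Pool.Agent.Lib.BV

/-- the primes r in (R/2, R] with r ≡ a mod q -/
def bset (R q a : ℕ) : Finset ℕ :=
  (Icc 1 R).filter (fun r => r.Prime ∧ R < 2 * r ∧ r ≡ a [MOD q])

/-- the primes r in (R/2, R] with r ≡ a mod q and r - 1 free of the primes of P -/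
def rset (R q a : ℕ) (P : Finset ℕ) : Finset ℕ :=
  (Icc 1 R).filter (fun r => r.Prime ∧ R < 2 * r ∧ r ≡ a [MOD q] ∧ ∀ l ∈ P, ¬ l ∣ r - 1)

/-- the primes r in (R/2, R] with r ≡ a mod q and d dividing r - 1 -/
def nset (R q a d : ℕ) : Finset ℕ :=
  (Icc 1 R).filter (fun r => r.Prime ∧ R < 2 * r ∧ r ≡ a [MOD q] ∧ d ∣ r - 1)

theorem svA_ind (P : Finset ℕ) (n : ℕ) :
    ∏ l ∈ P, (1 - dvi l n) = if (∀ l ∈ P, ¬ l ∣ n) then (1 : ℝ) else 0 := by
  split_ifs with h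
  · refine Finset.prod_eq_one (fun p hp => ?_)
    unfold dvi
    rw [if_neg (h p hp), sub_zero]
  · push Not at h
    obtain ⟨p, hp, hpn⟩ := h
    refine Finset.prod_eq_zero hp ?_
    unfold dvi
    rw [if_pos hpn, sub_self]

theorem svA_card (R q a : ℕ) (P : Finset ℕ) :
    ((rset R q a P).card : ℝ) = ∑ r ∈ bset R q a, ∏ l ∈ P, (1 - dvi l (r - 1)) := by
  simp_rw [svA_ind]
  rw [Finset.sum_ite, Finset.sum_const_zero, add_zero, Finset.sum_const, nsmul_eq_mul, mul_one]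
  congr 2
  unfold rset bset
  rw [Finset.filter_filter]
  refine Finset.filter_congr (fun r _ => ?_)
  tauto

theorem svA_ncard (R q a d : ℕ) :
    ((nset R q a d).card : ℝ) = ∑ r ∈ bset R q a, dvi d (r - 1) := by
  unfold dvi
  rw [Finset.sum_ite, Finset.sum_const_zero, add_zero, Finset.sum_const, nsmul_eq_mul, mul_one]
  congr 2
  unfold nset bset
  rw [Finset.filter_filter]
  refine Finset.filter_congr (fun r _ => ?_)
  tauto

/-- Bonferroni for the counting function -/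
theorem svA1 (R q a k : ℕ) (P : Finset ℕ) (hP : ∀ l ∈ P, l.Prime) :
    |((rset R q a P).card : ℝ) - ∑ s ∈ lowS P (2 * k), (-1 : ℝ) ^ s.card *
        ((nset R q a (∏ p ∈ s, p)).card : ℝ)| ≤
      ∑ s ∈ P.powersetCard (2 * k + 1), ((nset R q a (∏ p ∈ s, p)).card : ℝ) := by
  have hB := aBnf
  have h1 : ∑ s ∈ lowS P (2 * k), (-1 : ℝ) ^ s.card * ((nset R q a (∏ p ∈ s, p)).card : ℝ) =
      ∑ r ∈ bset R q a, ∑ s ∈ lowS P (2 * k), (-1 : ℝ) ^ s.card * ∏ p ∈ s, dvi p (r - 1) := by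
    rw [Finset.sum_comm]
    refine Finset.sum_congr rfl (fun s hs => ?_)
    unfold lowS at hs
    rw [Finset.mem_filter, Finset.mem_powerset] at hs
    rw [svA_ncard, Finset.mul_sum]
    refine Finset.sum_congr rfl (fun r _ => ?_)
    rw [Pws_prod s (r - 1) (fun p hp => hP p (hs.1 hp))]
  have h2 : ∑ s ∈ P.powersetCard (2 * k + 1), ((nset R q a (∏ p ∈ s, p)).card : ℝ) =
      ∑ r ∈ bset R q a, ∑ s ∈ P.powersetCard (2 * k + 1), ∏ p ∈ s, dvi p (r - 1) := by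
    rw [Finset.sum_comm]
    refine Finset.sum_congr rfl (fun s hs => ?_)
    rw [Finset.mem_powersetCard] at hs
    rw [svA_ncard]
    refine Finset.sum_congr rfl (fun r _ => ?_)
    rw [Pws_prod s (r - 1) (fun p hp => hP p (hs.1 hp))]
  rw [svA_card, h1, h2, abs_sub_comm, abs_le]
  have h3 : ∀ r ∈ bset R q a, ∏ l ∈ P, (1 - dvi l (r - 1)) ≤
      ∑ s ∈ lowS P (2 * k), (-1 : ℝ) ^ s.card * ∏ p ∈ s, dvi p (r - 1) ∧
      ∑ s ∈ lowS P (2 * k), (-1 : ℝ) ^ s.card * ∏ p ∈ s, dvi p (r - 1) ≤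
        ∏ l ∈ P, (1 - dvi l (r - 1)) + ∑ s ∈ P.powersetCard (2 * k + 1), ∏ p ∈ s, dvi p (r - 1) :=
    fun r _ => hB k P (fun l => dvi l (r - 1)) (fun p _ => Pws_dvi p (r - 1))
  have h4 := Finset.sum_le_sum (fun r hr => (h3 r hr).1)
  have h5 := Finset.sum_le_sum (fun r hr => (h3 r hr).2)
  rw [Finset.sum_add_distrib] at h5
  have h6 : 0 ≤ ∑ r ∈ bset R q a, ∑ s ∈ P.powersetCard (2 * k + 1), ∏ p ∈ s, dvi p (r - 1) :=
    Finset.sum_nonneg fun r _ => Finset.sum_nonneg fun s _ =>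
      Finset.prod_nonneg fun p _ => (Pws_dvi p _).1
  constructor <;> linarith

/-- a representative in [1, m] -/
theorem svA_rep (m c : ℕ) (hm : 1 ≤ m) : ∃ l, 1 ≤ l ∧ l ≤ m ∧ l ≡ c [MOD m] := by
  refine ⟨(c + (m - 1)) % m + 1, by omega, ?_, ?_⟩
  · have := Nat.mod_lt (c + (m - 1)) (by omega : m > 0)
    omega
  · have h1 : (c + (m - 1)) % m ≡ c + (m - 1) [MOD m] := Nat.mod_modEq _ _
    have h2 := h1.add_right 1
    have h3 : c + (m - 1) + 1 = c + m := by omega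
    rw [h3] at h2
    refine h2.trans ?_
    simp [Nat.ModEq]

/-- prime counts in a class, (R/2, R] -/
theorem svA_pc (R m l : ℕ) :
    (((Icc 1 R).filter (fun r => r.Prime ∧ R < 2 * r ∧ r ≡ l [MOD m])).card : ℝ) =
      (primeCount R m l : ℝ) - (primeCount ((R / 2 : ℕ) : ℝ) m l : ℝ) := by
  have h : (Icc 1 R).filter (fun p => p.Prime ∧ p ≡ l [MOD m]) =
      (Icc 1 R).filter (fun r => r.Prime ∧ R < 2 * r ∧ r ≡ l [MOD m]) ∪
        (Icc 1 (R / 2)).filter (fun p => p.Prime ∧ p ≡ l [MOD m]) := by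
    ext r
    simp only [mem_filter, mem_Icc, mem_union]
    constructor
    · rintro ⟨⟨h1, h2⟩, h3, h4⟩
      by_cases hr : R < 2 * r
      · exact Or.inl ⟨⟨h1, h2⟩, h3, hr, h4⟩
      · exact Or.inr ⟨⟨h1, by omega⟩, h3, h4⟩
    · rintro (⟨⟨h1, h2⟩, h3, _, h4⟩ | ⟨⟨h1, h2⟩, h3, h4⟩)
      · exact ⟨⟨h1, h2⟩, h3, h4⟩
      · exact ⟨⟨h1, by omega⟩, h3, h4⟩
  have hd : Disjoint ((Icc 1 R).filter (fun r => r.Prime ∧ R < 2 * r ∧ r ≡ l [MOD m]))
      ((Icc 1 (R / 2)).filter (fun p => p.Prime ∧ p ≡ l [MOD m])) := by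
    rw [Finset.disjoint_left]
    intro r h1 h2
    simp only [mem_filter, mem_Icc] at h1 h2
    omega
  unfold primeCount
  rw [Nat.floor_natCast, Nat.floor_natCast, h, Finset.card_union_of_disjoint hd]
  push_cast
  ring

/-- the number of primes of (R/2, R] in a class mod q and 1 mod d -/
theorem svA2 (R q a d : ℕ) (hq : 1 ≤ q) (hd : 1 ≤ d) (ha : a.Coprime q) (hqd : q.Coprime d) :
    |((nset R q a d).card : ℝ) - (li R - li ((R / 2 : ℕ) : ℝ)) / ((q.totient : ℝ) * d.totient)| ≤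
      maxErr R (q * d) + maxErr ((R / 2 : ℕ) : ℝ) (q * d) := by
  obtain ⟨l, hl1, hl2, hl3⟩ := svA_rep (q * d) (Nat.chineseRemainder hqd a 1) (Nat.mul_pos hq hd)
  have hla : l ≡ a [MOD q] := ((Nat.modEq_and_modEq_iff_modEq_mul hqd).2 hl3).1.trans
    (Nat.chineseRemainder hqd a 1).2.1
  have hl1' : l ≡ 1 [MOD d] := ((Nat.modEq_and_modEq_iff_modEq_mul hqd).2 hl3).2.trans
    (Nat.chineseRemainder hqd a 1).2.2
  have hc : l.Coprime (q * d) := by
    apply Nat.Coprime.mul_right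
    · have := hla.gcd_eq
      unfold Nat.Coprime
      rw [this]
      exact ha
    · have := hl1'.gcd_eq
      unfold Nat.Coprime
      rw [this]
      simp
  have hset : nset R q a d =
      (Icc 1 R).filter (fun r => r.Prime ∧ R < 2 * r ∧ r ≡ l [MOD (q * d)]) := by
    unfold nset
    refine Finset.filter_congr (fun r hr => ?_)
    rw [Finset.mem_Icc] at hr
    have h1 : r ≡ l [MOD (q * d)] ↔ r ≡ a [MOD q] ∧ d ∣ r - 1 := by
      rw [← Nat.modEq_and_modEq_iff_modEq_mul hqd]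
      have h2 : d ∣ r - 1 ↔ r ≡ 1 [MOD d] := by
        rw [← Nat.modEq_iff_dvd' hr.1]
        exact ⟨fun h => h.symm, fun h => h.symm⟩
      rw [h2]
      exact and_congr ⟨fun h => h.trans hla, fun h => h.trans hla.symm⟩
        ⟨fun h => h.trans hl1', fun h => h.trans hl1'.symm⟩
    rw [h1]
  rw [hset, svA_pc]
  have h1 := Pool.Agent.Lib.EH.le_maxErr (R : ℝ) (q * d) l hl1 hl2 hc
  have h2 := Pool.Agent.Lib.EH.le_maxErr ((R / 2 : ℕ) : ℝ) (q * d) l hl1 hl2 hc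
  unfold err at h1 h2
  rw [Nat.totient_mul hqd] at h1 h2
  push_cast at h1 h2
  have h3 : ((primeCount R (q * d) l : ℝ) - (primeCount ((R / 2 : ℕ) : ℝ) (q * d) l : ℝ)) -
      (li R - li ((R / 2 : ℕ) : ℝ)) / ((q.totient : ℝ) * d.totient) =
      ((primeCount R (q * d) l : ℝ) - li R / ((q.totient : ℝ) * d.totient)) -
      ((primeCount ((R / 2 : ℕ) : ℝ) (q * d) l : ℝ) - li ((R / 2 : ℕ) : ℝ) / ((q.totient : ℝ) * d.totient)) := by
    ring
  rw [h3]
  exact (abs_sub _ _).trans (add_le_add h1 h2)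

end Pool.Agent.Lib.MP_a260de_nt.CN
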