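import Pool.Agent.Lib.MP_a260de_nt.CN.SvA

namespace Pool.Agent.Lib.MP_a260de_nt.CN

open Finset Pool.Agent.Results.MP_00e23e_nt Pool.Agent.Lib.BV

theorem svB_tot (s : Finset ℕ) (hs : ∀ p ∈ s, p.Prime) :
    1 / ((∏ p ∈ s, p).totient : ℝ) = ∏ p ∈ s, (1 / ((p : ℝ) - 1)) := by
  classical
  induction s using Finset.induction_on with
  | empty => simp
  | insert p s hp ih =>
    rw [Finset.prod_insert hp, Finset.prod_insert hp]
    have hpp : p.Prime := hs p (Finset.mem_insert_self _ _)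
    have hc : Nat.Coprime p (∏ p ∈ s, p) := by
      apply Nat.Coprime.prod_right
      intro t ht
      exact (Nat.coprime_primes hpp (hs t (Finset.mem_insert_of_mem ht))).2
        (fun h => hp (h ▸ ht))
    rw [Nat.totient_mul hc, Nat.totient_prime hpp, Nat.cast_mul,
      Nat.cast_sub hpp.one_lt.le, Nat.cast_one,
      ← ih (fun t ht => hs t (Finset.mem_insert_of_mem ht))]
    rw [one_div, one_div, one_div, mul_inv]

theorem svB_low (P : Finset ℕ) (k : ℕ) (E : Finset ℕ → ℝ) :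
    ∑ s ∈ lowS P (2 * k), E s + ∑ s ∈ P.powersetCard (2 * k + 1), E s =
      ∑ s ∈ lowS P (2 * k + 1), E s := by
  classical
  rw [← Finset.sum_union]
  · congr 1
    ext s
    unfold lowS
    simp only [mem_union, mem_filter, mem_powerset, mem_powersetCard]
    constructor
    · rintro (⟨h1, h2⟩ | ⟨h1, h2⟩)
      · exact ⟨h1, by omega⟩
      · exact ⟨h1, by omega⟩
    · rintro ⟨h1, h2⟩
      by_cases h : s.card ≤ 2 * k
      · exact Or.inl ⟨h1, h⟩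
      · exact Or.inr ⟨h1, by omega⟩
  · rw [Finset.disjoint_left]
    intro s h1 h2
    unfold lowS at h1
    simp only [mem_filter, mem_powerset, mem_powersetCard] at h1 h2
    omega

theorem svB_inj (P : Finset ℕ) (k q W D : ℕ) (E : ℕ → ℝ) (hE : ∀ d, 0 ≤ E d) (hq : 1 ≤ q)
    (hP : ∀ l ∈ P, l.Prime) (hW : ∀ l ∈ P, l ≤ W) (hW1 : 1 ≤ W) (hD : q * W ^ (2 * k + 1) ≤ D) :
    ∑ s ∈ lowS P (2 * k + 1), E (q * ∏ p ∈ s, p) ≤ ∑ d ∈ Icc 1 D, E d := by
  classical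
  have hinj : Set.InjOn (fun s : Finset ℕ => q * ∏ p ∈ s, p) (lowS P (2 * k + 1) : Set (Finset ℕ)) := by
    intro s hs t ht hst
    unfold lowS at hs ht
    simp only [coe_filter, mem_powerset, Set.mem_ofPred_eq] at hs ht
    have h1 : ∏ p ∈ s, p = ∏ p ∈ t, p := Nat.eq_of_mul_eq_mul_left (by omega) hst
    rw [← Nat.primeFactors_prod (fun p hp => hP p (hs.1 hp)),
      ← Nat.primeFactors_prod (fun p hp => hP p (ht.1 hp)), h1]
  rw [← Finset.sum_image hinj (f := fun d => E d)]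
  apply Finset.sum_le_sum_of_subset_of_nonneg
  · intro d hd
    rw [Finset.mem_image] at hd
    obtain ⟨s, hs, rfl⟩ := hd
    unfold lowS at hs
    simp only [mem_filter, mem_powerset] at hs
    rw [Finset.mem_Icc]
    constructor
    · exact Nat.mul_pos hq (Finset.prod_pos fun p hp => (hP p (hs.1 hp)).pos)
    · refine le_trans (Nat.mul_le_mul_left q ?_) hD
      calc ∏ p ∈ s, p ≤ ∏ _p ∈ s, W := Finset.prod_le_prod' fun p hp => hW p (hs.1 hp)
        _ = W ^ s.card := by simp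
        _ ≤ W ^ (2 * k + 1) := Nat.pow_le_pow_right hW1 hs.2
  · intro d _ _
    exact hE d

/-- the sieve before the choice of parameters -/
theorem svB (R q a k W D : ℕ) (P : Finset ℕ) (hq : 1 ≤ q) (ha : a.Coprime q)
    (hP : ∀ l ∈ P, l.Prime ∧ 3 ≤ l ∧ ¬ l ∣ q) (hW : ∀ l ∈ P, l ≤ W) (hW1 : 1 ≤ W)
    (hD : q * W ^ (2 * k + 1) ≤ D) (hX : 0 ≤ li R - li ((R / 2 : ℕ) : ℝ)) :
    |((rset R q a P).card : ℝ) - (li R - li ((R / 2 : ℕ) : ℝ)) / (q.totient : ℝ) *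
        ∏ l ∈ P, (1 - 1 / ((l : ℝ) - 1))| ≤
      2 * ((li R - li ((R / 2 : ℕ) : ℝ)) / (q.totient : ℝ) *
        ((∑ l ∈ P, 1 / ((l : ℝ) - 1)) ^ (2 * k + 1) / ((2 * k + 1).factorial : ℝ))) +
      EE R D := by
  classical
  set X := li R - li ((R / 2 : ℕ) : ℝ) with hXdef
  set x : ℕ → ℝ := fun l => 1 / ((l : ℝ) - 1) with hx
  set F : ℝ := X / (q.totient : ℝ) with hF
  have hF0 : 0 ≤ F := div_nonneg hX (Nat.cast_nonneg _)
  set E : ℕ → ℝ := fun d => maxErr R d + maxErr ((R / 2 : ℕ) : ℝ) d with hE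
  have hE0 : ∀ d, 0 ≤ E d := fun d => add_nonneg (Pool.Agent.Lib.EH.maxErr_nonneg _ _)
    (Pool.Agent.Lib.EH.maxErr_nonneg _ _)
  -- class counts
  have hN : ∀ s ⊆ P, |((nset R q a (∏ p ∈ s, p)).card : ℝ) - F * ∏ p ∈ s, x p| ≤
      E (q * ∏ p ∈ s, p) := by
    intro s hs
    have h1 : ∀ p ∈ s, p.Prime := fun p hp => (hP p (hs hp)).1
    have hd : 1 ≤ ∏ p ∈ s, p := Finset.prod_pos fun p hp => (h1 p hp).pos
    have hc : q.Coprime (∏ p ∈ s, p) := by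
      apply Nat.Coprime.prod_right
      intro p hp
      exact ((Nat.Prime.coprime_iff_not_dvd (h1 p hp)).2 (hP p (hs hp)).2.2).symm
    have h2 := svA2 R q a (∏ p ∈ s, p) hq hd ha hc
    have h3 : F * ∏ p ∈ s, x p = X / ((q.totient : ℝ) * ((∏ p ∈ s, p).totient : ℝ)) := by
      rw [hx, ← svB_tot s h1, hF]
      rw [div_mul_div_comm, mul_one]
    rw [h3]
    exact h2
  have h1 := svA1 R q a k P (fun l hl => (hP l hl).1)
  set T := lowS P (2 * k) with hT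
  set U := P.powersetCard (2 * k + 1) with hU
  have hTs : ∀ s ∈ T, s ⊆ P := by
    intro s hs
    rw [hT] at hs
    unfold lowS at hs
    exact Finset.mem_powerset.1 (Finset.mem_filter.1 hs).1
  have hUs : ∀ s ∈ U, s ⊆ P := fun s hs => (Finset.mem_powersetCard.1 hs).1
  have h2 : |∑ s ∈ T, (-1 : ℝ) ^ s.card * ((nset R q a (∏ p ∈ s, p)).card : ℝ) -
      F * ∑ s ∈ T, (-1 : ℝ) ^ s.card * ∏ p ∈ s, x p| ≤ ∑ s ∈ T, E (q * ∏ p ∈ s, p) := by
    rw [Finset.mul_sum, ← Finset.sum_sub_distrib]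
    refine (Finset.abs_sum_le_sum_abs _ _).trans (Finset.sum_le_sum fun s hs => ?_)
    have h3 : (-1 : ℝ) ^ s.card * ((nset R q a (∏ p ∈ s, p)).card : ℝ) -
        F * ((-1 : ℝ) ^ s.card * ∏ p ∈ s, x p) =
        (-1 : ℝ) ^ s.card * (((nset R q a (∏ p ∈ s, p)).card : ℝ) - F * ∏ p ∈ s, x p) := by ring
    rw [h3, abs_mul, abs_pow, abs_neg, abs_one, one_pow, one_mul]
    exact hN s (hTs s hs)
  have h3 : ∑ s ∈ U, ((nset R q a (∏ p ∈ s, p)).card : ℝ) ≤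
      F * ∑ s ∈ U, ∏ p ∈ s, x p + ∑ s ∈ U, E (q * ∏ p ∈ s, p) := by
    rw [Finset.mul_sum, ← Finset.sum_add_distrib]
    refine Finset.sum_le_sum fun s hs => ?_
    have := (abs_le.1 (hN s (hUs s hs))).2
    linarith
  have hx01 : ∀ p ∈ P, 0 ≤ x p ∧ x p ≤ 1 := by
    intro p hp
    have h3 : (3 : ℝ) ≤ p := by exact_mod_cast (hP p hp).2.1
    simp only [hx]
    constructor
    · apply div_nonneg zero_le_one
      linarith
    · rw [div_le_one (by linarith)]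
      linarith
  have h4 := aBnf k P x hx01
  have h5 : ∑ s ∈ U, ∏ p ∈ s, x p ≤ (∑ l ∈ P, x l) ^ (2 * k + 1) / ((2 * k + 1).factorial : ℝ) := by
    have h6 := aEsy.1 P (fun l => if l ∈ P then x l else 0) (2 * k + 1) (by
      intro i
      split_ifs with h
      · exact (hx01 i h).1
      · exact le_rfl)
    have h7 : ∑ i ∈ P, (if i ∈ P then x i else 0) = ∑ l ∈ P, x l :=
      Finset.sum_congr rfl fun i hi => if_pos hi
    rw [h7] at h6
    refine le_trans (le_of_eq ?_) h6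
    refine Finset.sum_congr rfl fun s hs => Finset.prod_congr rfl fun p hp => ?_
    rw [if_pos (hUs s hs hp)]
  have h6 : |F * ∑ s ∈ T, (-1 : ℝ) ^ s.card * ∏ p ∈ s, x p - F * ∏ l ∈ P, (1 - x l)| ≤
      F * ∑ s ∈ U, ∏ p ∈ s, x p := by
    rw [← mul_sub, abs_mul, abs_of_nonneg hF0]
    refine mul_le_mul_of_nonneg_left ?_ hF0
    rw [abs_le]
    have h7 : 0 ≤ ∑ s ∈ U, ∏ p ∈ s, x p :=
      Finset.sum_nonneg fun s hs => Finset.prod_nonneg fun p hp => (hx01 p (hUs s hs hp)).1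
    constructor <;> linarith [h4.1, h4.2]
  have h7 := svB_low P k (fun s => E (q * ∏ p ∈ s, p))
  have h8 := svB_inj P k q W D E hE0 hq (fun l hl => (hP l hl).1) hW hW1 hD
  have h9 : ∑ d ∈ Icc 1 D, E d = EE R D := rfl
  have h10 : F * ∑ s ∈ U, ∏ p ∈ s, x p ≤
      F * ((∑ l ∈ P, x l) ^ (2 * k + 1) / ((2 * k + 1).factorial : ℝ)) :=
    mul_le_mul_of_nonneg_left h5 hF0
  have h11 : ((rset R q a P).card : ℝ) - F * ∏ l ∈ P, (1 - x l) =
      (((rset R q a P).card : ℝ) - ∑ s ∈ T, (-1 : ℝ) ^ s.card *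
        ((nset R q a (∏ p ∈ s, p)).card : ℝ)) +
      (∑ s ∈ T, (-1 : ℝ) ^ s.card * ((nset R q a (∏ p ∈ s, p)).card : ℝ) -
        F * ∑ s ∈ T, (-1 : ℝ) ^ s.card * ∏ p ∈ s, x p) +
      (F * ∑ s ∈ T, (-1 : ℝ) ^ s.card * ∏ p ∈ s, x p - F * ∏ l ∈ P, (1 - x l)) := by ring
  rw [h11]
  refine (abs_add_three _ _ _).trans ?_
  rw [← h9]
  linarith

end Pool.Agent.Lib.MP_a260de_nt.CN
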