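import Pool.Agent.Lib.MP_a260de_nt.CN.SpecU

/-!
MP_a260de_nt, PROJECT CN, part U, module U5 (t_USpoil): union bound for the spoiled triples.
-/

open Finset

namespace Pool.Agent.Lib.MP_a260de_nt.CN

private lemma rho_facts {M R W r : ℕ} (h : r ∈ goods M R W) :
    2 ≤ r ∧ r ≤ R ∧ rho M r ∣ r - 1 ∧ 0 < rho M r ∧ rho M r ≤ R ∧ (rho M r).Coprime M ∧
      Rough W (rho M r) := by
  classical
  unfold goods at h
  rw [mem_filter] at h
  obtain ⟨_, hp, _, hR, hc, hro⟩ := h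
  have h2 : 2 ≤ r := hp.two_le
  have hd : rho M r ∣ r - 1 := Nat.div_dvd_of_dvd (Nat.gcd_dvd_left _ _)
  have h0 : 0 < r - 1 := by omega
  have h3 : 0 < rho M r := Nat.pos_of_dvd_of_pos hd h0
  have h4 : rho M r ≤ r - 1 := Nat.le_of_dvd h0 hd
  exact ⟨h2, hR, hd, h3, by omega, hc, hro⟩

private lemma lam_facts {M R W : ℕ} {t : ℕ × ℕ × ℕ}
    (h : t ∈ goods M R W ×ˢ goods M R W ×ˢ goods M R W) :
    0 < lam M t ∧ lam M t ≤ R ^ 3 ∧ (lam M t).Coprime M ∧ Rough W (lam M t) := by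
  rw [mem_product, mem_product] at h
  obtain ⟨h1, h2, h3⟩ := h
  obtain ⟨-, -, -, p1, q1, c1, w1⟩ := rho_facts h1
  obtain ⟨-, -, -, p2, q2, c2, w2⟩ := rho_facts h2
  obtain ⟨-, -, -, p3, q3, c3, w3⟩ := rho_facts h3
  have hdv : lam M t ∣ rho M t.1 * (rho M t.2.1 * rho M t.2.2) :=
    (Nat.lcm_dvd_mul _ _).trans (Nat.mul_dvd_mul_left _ (Nat.lcm_dvd_mul _ _))
  have hpos : 0 < rho M t.1 * (rho M t.2.1 * rho M t.2.2) := by positivity
  refine ⟨Nat.pos_of_dvd_of_pos hdv hpos, ?_, ?_, ?_⟩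
  · refine (Nat.le_of_dvd hpos hdv).trans ?_
    calc rho M t.1 * (rho M t.2.1 * rho M t.2.2) ≤ R * (R * R) :=
          Nat.mul_le_mul q1 (Nat.mul_le_mul q2 q3)
      _ = R ^ 3 := by ring
  · exact Nat.Coprime.coprime_dvd_left hdv (c1.mul_left (c2.mul_left c3))
  · intro q hq hql
    rcases (hq.dvd_mul).1 (hql.trans hdv) with h | h
    · exact w1 q hq h
    · rcases (hq.dvd_mul).1 h with h | h
      · exact w2 q hq h
      · exact w3 q hq h

private lemma pow_step {x M cb c2 : ℝ} {h : ℝ} (hh0 : 0 ≤ h) (hh1 : h < 1) (hM : 1 ≤ M)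
    (hcb : 0 < cb) (hc2 : 0 < c2) (hle : cb / M ≤ c2) (hx : 0 ≤ x) :
    c2 ^ h * x / c2 ≤ M * x * cb ^ (-(1 - h)) := by
  have h1 : c2 ^ h * x / c2 = x * c2 ^ (-(1 - h)) := by
    have : (-(1 - h)) = h - 1 := by ring
    rw [this, Real.rpow_sub_one hc2.ne']
    ring
  rw [h1]
  have hM0 : (0 : ℝ) < M := by linarith
  have h2 : c2 ^ (-(1 - h)) ≤ (cb / M) ^ (-(1 - h)) :=
    Real.rpow_le_rpow_of_nonpos (div_pos hcb hM0) hle (by linarith)
  have h3 : (cb / M) ^ (-(1 - h)) = cb ^ (-(1 - h)) * M ^ (1 - h) := by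
    rw [Real.div_rpow hcb.le hM0.le, Real.rpow_neg hM0.le, div_inv_eq_mul]
  have h4 : M ^ (1 - h) ≤ M := by
    calc M ^ (1 - h) ≤ M ^ (1 : ℝ) := Real.rpow_le_rpow_of_exponent_le hM (by linarith)
      _ = M := Real.rpow_one M
  have h5 : 0 ≤ cb ^ (-(1 - h)) := Real.rpow_nonneg hcb.le _
  calc x * c2 ^ (-(1 - h)) ≤ x * (cb ^ (-(1 - h)) * M ^ (1 - h)) := by
        rw [← h3]; exact mul_le_mul_of_nonneg_left h2 hx
    _ ≤ x * (cb ^ (-(1 - h)) * M) := by gcongr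
    _ = M * x * cb ^ (-(1 - h)) := by ring

theorem t_USpoil (h1 : S_USplit) (h2 : S_UCount) (h3 : S_UOmega) (h4 : S_UDyad) : S_USpoil := by
  classical
  intro ι B c M R W k h hM hW hh hk hkh hc hB
  set T := goods M R W ×ˢ goods M R W ×ˢ goods M R W with hT
  have hlogW : 0 < Real.log W := Real.log_pos (by exact_mod_cast hW)
  have hh0 : 0 ≤ h := by rw [hh]; positivity
  have hh1 : h < 1 := by linarith
  have hM1 : (1 : ℝ) ≤ M := by exact_mod_cast hM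
  set B' := B.filter (fun b => ∃ t ∈ T, c b ∣ M * lam M t ∧ ¬ c b ∣ M) with hB'
  -- facts for the elements of B'
  have hf : ∀ b ∈ B', Rough W (c b / (c b).gcd M) ∧ 0 < c b / (c b).gcd M ∧
      W < c b / (c b).gcd M ∧ (c b : ℝ) / M ≤ (c b / (c b).gcd M : ℕ) ∧ (c b : ℝ) ≤ M * (R : ℝ) ^ 3 := by
    intro b hb
    rw [hB', mem_filter] at hb
    obtain ⟨hbB, t, ht, hd, hnd⟩ := hb
    obtain ⟨l0, lR, lc, lw⟩ := lam_facts ht
    obtain ⟨_, a2, a3, a4, a5⟩ := h1 (c b) M (lam M t) W (hc b hbB) hM l0 lc hd hnd lw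
    refine ⟨a2, a3, a4, a5, ?_⟩
    have : c b ≤ M * lam M t := Nat.le_of_dvd (by positivity) hd
    have h6 : c b ≤ M * R ^ 3 := this.trans (Nat.mul_le_mul_left _ lR)
    exact_mod_cast h6
  -- the spoiled triples
  have hsub : (T.filter (fun t => ∃ b ∈ B, c b ∣ M * lam M t ∧ ¬ c b ∣ M)) ⊆
      B'.biUnion (fun b => T.filter (fun t =>
        c b / (c b).gcd M ∣ (rho M t.1).lcm ((rho M t.2.1).lcm (rho M t.2.2)))) := by
    intro t ht
    rw [mem_filter] at ht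
    obtain ⟨htT, b, hb, hd, hnd⟩ := ht
    rw [mem_biUnion]
    refine ⟨b, ?_, ?_⟩
    · rw [hB', mem_filter]
      exact ⟨hb, t, htT, hd, hnd⟩
    · rw [mem_filter]
      obtain ⟨l0, lR, lc, lw⟩ := lam_facts htT
      exact ⟨htT, (h1 (c b) M (lam M t) W (hc b hb) hM l0 lc hd hnd lw).1⟩
  have hcnt : ∀ b ∈ B', ((T.filter (fun t =>
        c b / (c b).gcd M ∣ (rho M t.1).lcm ((rho M t.2.1).lcm (rho M t.2.2)))).card : ℝ) ≤
        M * (R : ℝ) ^ 3 * (c b : ℝ) ^ (-(1 - h)) := by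
    intro b hb
    obtain ⟨a2, a3, a4, a5, -⟩ := hf b hb
    have hbB : b ∈ B := (mem_filter.1 hb).1
    have e1 := h2 (goods M R W) (rho M) R (c b / (c b).gcd M) a3 (by
      intro r hr
      obtain ⟨b1, b2, b3, -⟩ := rho_facts hr
      exact ⟨b1, b2, b3⟩)
    have e2 := h3 (c b / (c b).gcd M) W a3 hW a2
    have hc2 : (0 : ℝ) < ((c b / (c b).gcd M : ℕ) : ℝ) := by exact_mod_cast a3
    have hcb : (0 : ℝ) < (c b : ℝ) := by exact_mod_cast hc b hbB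
    refine e1.trans ?_
    refine le_trans ?_ (pow_step (x := (R : ℝ) ^ 3) hh0 hh1 hM1 hcb hc2 a5 (by positivity))
    rw [hh]
    gcongr
  have hsum := h4 ι B' c W (M * (R : ℝ) ^ 3) k (1 - h) (by omega) hk (by linarith)
    (by
      intro b hb
      obtain ⟨a2, a3, a4, a5, a6⟩ := hf b hb
      refine ⟨?_, a6⟩
      have : c b / (c b).gcd M ≤ c b := Nat.div_le_self _ _
      omega)
    (by
      intro Q hQ1 hQ2
      refine le_trans ?_ (hB Q hQ1 hQ2)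
      have : (B'.filter (fun b => c b ≤ Q)) ⊆ B.filter (fun b => c b ≤ Q) := by
        intro b hb
        rw [mem_filter] at hb ⊢
        exact ⟨(mem_filter.1 hb.1).1, hb.2⟩
      exact_mod_cast card_le_card this)
  have hexp : k - (1 - h) = k + h - 1 := by ring
  rw [hexp] at hsum
  calc ((T.filter (fun t => ∃ b ∈ B, c b ∣ M * lam M t ∧ ¬ c b ∣ M)).card : ℝ)
      ≤ ((B'.biUnion (fun b => T.filter (fun t =>
        c b / (c b).gcd M ∣ (rho M t.1).lcm ((rho M t.2.1).lcm (rho M t.2.2))))).card : ℝ) := by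
        exact_mod_cast card_le_card hsub
    _ ≤ ∑ b ∈ B', ((T.filter (fun t =>
        c b / (c b).gcd M ∣ (rho M t.1).lcm ((rho M t.2.1).lcm (rho M t.2.2)))).card : ℝ) := by
        exact_mod_cast card_biUnion_le
    _ ≤ ∑ b ∈ B', M * (R : ℝ) ^ 3 * (c b : ℝ) ^ (-(1 - h)) := sum_le_sum hcnt
    _ = M * (R : ℝ) ^ 3 * ∑ b ∈ B', (c b : ℝ) ^ (-(1 - h)) := by rw [mul_sum]
    _ ≤ _ := mul_le_mul_of_nonneg_left hsum (by positivity)

end Pool.Agent.Lib.MP_a260de_nt.CN
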